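import Pool.Agent.GO3.R.Bas3

/-!
# Part R, module Dil1: the averages over dilations, measurability and bounds (helper30)

`avg a F z = ∫ t in 0..1, t ^ a * F (t z)`.

PROOFS.
* `dil_null`: if `N` is a null set then for almost every `z` the set of `t ∈ (0, 1]` with `t z ∈ N` is null: `N` is contained in a
  measurable null set, and for fixed `t > 0` the set of `z` with `t z ∈ N` is null (`Measure.addHaar_preimage_smul`); Tonelli
  (`Measure.ae_ae_of_ae_prod` and `measure_prod_null`, both orders).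
* `avg_congr`: `dil_null` for the set `{F ≠ F'}` and `intervalIntegral.integral_congr_ae`.
* `avg_ae`: replace `F` by a strongly measurable function (`avg_congr`); then `(z, t) ↦ t ^ a F (t z)` is strongly measurable and
  `StronglyMeasurable.integral_prod_right'` (set integral over `Ioc 0 1`, `intervalIntegral.integral_of_le`).
* `avg_sq`: `∫⁻_{closedBall 0 R} (∫⁻_{t ∈ Ioc 0 1} ofReal (t ^ a) ‖F (t z)‖ₑ) ^ 2 dz ≤ ∫⁻_{closedBall 0 R} ‖F‖ₑ ^ 2` for `a ≥ 1`: by
  Cauchy-Schwarz on `(0, 1]` the square is at most `∫⁻ ofReal (t ^ (2 a)) ‖F (t z)‖ₑ ^ 2 dt`; Tonelli; for fixed `t ∈ (0, 1]`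
  `∫⁻_{|z| ≤ R} ‖F (t z)‖ₑ ^ 2 dz = t⁻² ∫⁻_{|ζ| ≤ t R} ‖F ζ‖ₑ ^ 2 dζ ≤ t⁻² ∫⁻_{|ζ| ≤ R} ‖F ζ‖ₑ ^ 2` (`Measure.setIntegral_comp_smul` has a lintegral
  analogue; or `Measure.lintegral_comp_smul`-type lemma, or `MeasurePreserving`/`Measure.map_addHaar_smul`), and
  `t ^ (2 a - 2) ≤ 1`.
* `avg_L2`: `‖avg a F z‖ ≤` the inner integral, `avg_ae`, `avg_sq`.
* `avg_bd`: the exceptional set of the bound is null, `dil_null`, `|t ^ a| ≤ 1`.
* `avg_real`: the integrand is the coercion of a real function (`intervalIntegral.integral_ofReal`).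
* the lemmas on `gA1`, `gA2`: the coordinates are continuous: `bdl_cont`, `Bdl.mul_l2`, `Bdl.mul`.
-/

open MeasureTheory Filter Topology Complex Metric
open scoped ContDiff ENNReal NNReal

noncomputable section

namespace O3R

variable {F F' : ℂ → ℂ}

theorem dil_null {N : Set ℂ} (h : volume N = 0) :
    ∀ᵐ z : ℂ, ∀ᵐ t : ℝ ∂(volume.restrict (Set.Ioc (0 : ℝ) 1)), ((t : ℝ) : ℂ) * z ∉ N := by
  have hN' : MeasurableSet (toMeasurable volume N) := measurableSet_toMeasurable _ _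
  have h0 : volume (toMeasurable volume N) = 0 := by rw [measure_toMeasurable]; exact h
  have hsub : N ⊆ toMeasurable volume N := subset_toMeasurable _ _
  have hm : Measurable fun q : ℂ × ℝ => ((q.2 : ℝ) : ℂ) * q.1 := by fun_prop
  have hS : MeasurableSet {q : ℂ × ℝ | ((q.2 : ℝ) : ℂ) * q.1 ∉ toMeasurable volume N} :=
    (hm hN').compl
  have key : ∀ᵐ z : ℂ, ∀ᵐ t : ℝ ∂(volume.restrict (Set.Ioc (0 : ℝ) 1)),
      ((t : ℝ) : ℂ) * z ∉ toMeasurable volume N := by
    rw [Measure.ae_ae_comm hS, ae_restrict_iff' measurableSet_Ioc]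
    refine ae_of_all _ fun t ht => ?_
    have ht0 : t ≠ 0 := ht.1.ne'
    have e1 : volume ((fun z : ℂ => t • z) ⁻¹' (toMeasurable volume N)) = 0 := by
      rw [Measure.addHaar_preimage_smul volume ht0, h0, mul_zero]
    have e2 : {z : ℂ | ¬ ((t : ℝ) : ℂ) * z ∉ toMeasurable volume N} =
        (fun z : ℂ => t • z) ⁻¹' (toMeasurable volume N) := by
      ext z
      simp [Complex.real_smul]
    rw [ae_iff, e2]
    exact e1
  filter_upwards [key] with z hz
  filter_upwards [hz] with t ht hN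
  exact ht (hsub hN)

theorem avg_congr (a : ℕ) (h : F =ᵐ[volume] F') : avg a F =ᵐ[volume] avg a F' := by
  have h1 : volume {z : ℂ | ¬ F z = F' z} = 0 := ae_iff.1 h
  filter_upwards [dil_null h1] with z hz
  unfold avg
  rw [intervalIntegral.integral_of_le zero_le_one, intervalIntegral.integral_of_le zero_le_one]
  refine integral_congr_ae ?_
  filter_upwards [hz] with t ht
  have : F (t * z) = F' (t * z) := by
    by_contra hc
    exact ht hc
  rw [this]

theorem avg_ae (a : ℕ) (h : AEStronglyMeasurable F volume) : AEStronglyMeasurable (avg a F) volume := by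
  have h1 : avg a F =ᵐ[volume] avg a (h.mk F) := avg_congr a h.ae_eq_mk
  have hF : StronglyMeasurable (h.mk F) := h.stronglyMeasurable_mk
  have h2 : StronglyMeasurable fun q : ℂ × ℝ => ((q.2 ^ a : ℝ) : ℂ) * (h.mk F) ((q.2 : ℂ) * q.1) := by
    refine StronglyMeasurable.mul ?_ ?_
    · exact (by fun_prop : Measurable fun q : ℂ × ℝ => ((q.2 ^ a : ℝ) : ℂ)).stronglyMeasurable
    · exact hF.comp_measurable (by fun_prop)
  have h3 : StronglyMeasurable fun z : ℂ => ∫ t in Set.Ioc (0 : ℝ) 1,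
      ((t ^ a : ℝ) : ℂ) * (h.mk F) ((t : ℂ) * z) := h2.integral_prod_right
  refine ⟨fun z : ℂ => ∫ t in Set.Ioc (0 : ℝ) 1, ((t ^ a : ℝ) : ℂ) * (h.mk F) ((t : ℂ) * z), h3, ?_⟩
  filter_upwards [h1] with z hz
  rw [hz]
  unfold avg
  rw [intervalIntegral.integral_of_le zero_le_one]

/-- Cauchy-Schwarz on the unit interval. -/
private theorem cs_aux (f : ℝ → ℝ≥0∞) (hf : AEMeasurable f (volume.restrict (Set.Ioc (0 : ℝ) 1))) :
    (∫⁻ t in Set.Ioc (0 : ℝ) 1, f t) ^ 2 ≤ ∫⁻ t in Set.Ioc (0 : ℝ) 1, f t ^ 2 := by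
  have h2 : Real.HolderConjugate 2 2 := Real.HolderConjugate.two_two
  have := ENNReal.lintegral_mul_le_Lp_mul_Lq (volume.restrict (Set.Ioc (0 : ℝ) 1)) h2 hf
    (aemeasurable_const (b := (1 : ℝ≥0∞)))
  simp only [Pi.mul_apply, mul_one, ENNReal.one_rpow, lintegral_const,
    Measure.restrict_apply_univ, Real.volume_Ioc, sub_zero, ENNReal.ofReal_one] at this
  calc (∫⁻ t in Set.Ioc (0 : ℝ) 1, f t) ^ 2
      ≤ ((∫⁻ t in Set.Ioc (0 : ℝ) 1, f t ^ (2 : ℝ)) ^ (1 / (2 : ℝ))) ^ 2 := by gcongr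
    _ = ∫⁻ t in Set.Ioc (0 : ℝ) 1, f t ^ (2 : ℝ) := by
        rw [← ENNReal.rpow_natCast, ← ENNReal.rpow_mul]
        norm_num
    _ = ∫⁻ t in Set.Ioc (0 : ℝ) 1, f t ^ 2 := by
        refine lintegral_congr fun t => ?_
        norm_cast

/-- Change of variables by a dilation. -/
private theorem dil_lint (g : ℂ → ℝ≥0∞) (hg : Measurable g) {t : ℝ} (ht : 0 < t) :
    ∫⁻ z : ℂ, g (t * z) = ENNReal.ofReal (t ^ 2)⁻¹ * ∫⁻ z, g z := by
  have h1 := Measure.map_addHaar_smul (volume : Measure ℂ) ht.ne'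
  have h2 : ∫⁻ z, g z ∂(Measure.map (fun z : ℂ => t • z) volume) = ∫⁻ z : ℂ, g (t • z) :=
    lintegral_map hg (measurable_const_smul t)
  have h3 : ∀ z : ℂ, g (t * z) = g (t • z) := fun z => by rw [Complex.real_smul]
  simp_rw [h3]
  rw [← h2]
  have h4 : Measure.map (fun z : ℂ => t • z) volume = Measure.map (t • ·) volume := rfl
  rw [h4, h1, lintegral_smul_measure, Complex.finrank_real_complex,
    abs_of_nonneg (by positivity)]
  rfl

private theorem sq_aux (g : ℂ → ℝ≥0∞) (hg : Measurable g) (a : ℕ) (ha : 1 ≤ a) (R : ℝ) :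
    ∫⁻ z in closedBall (0 : ℂ) R,
      (∫⁻ t in Set.Ioc (0 : ℝ) 1, ENNReal.ofReal (t ^ a) * g (t * z)) ^ 2 ≤
    ∫⁻ z in closedBall (0 : ℂ) R, g z ^ 2 := by
  have hm : Measurable fun q : ℂ × ℝ => (ENNReal.ofReal (q.2 ^ a) * g ((q.2 : ℂ) * q.1)) ^ 2 := by
    have : Measurable fun q : ℂ × ℝ => g ((q.2 : ℂ) * q.1) := hg.comp (by fun_prop)
    fun_prop
  have hm1 : ∀ z : ℂ, Measurable fun t : ℝ => ENNReal.ofReal (t ^ a) * g ((t : ℂ) * z) := by
    intro z
    have : Measurable fun t : ℝ => g ((t : ℂ) * z) := hg.comp (by fun_prop)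
    fun_prop
  calc ∫⁻ z in closedBall (0 : ℂ) R,
        (∫⁻ t in Set.Ioc (0 : ℝ) 1, ENNReal.ofReal (t ^ a) * g (t * z)) ^ 2
      ≤ ∫⁻ z in closedBall (0 : ℂ) R,
        ∫⁻ t in Set.Ioc (0 : ℝ) 1, (ENNReal.ofReal (t ^ a) * g (t * z)) ^ 2 :=
        lintegral_mono fun z => cs_aux _ (hm1 z).aemeasurable
    _ = ∫⁻ t in Set.Ioc (0 : ℝ) 1, ∫⁻ z in closedBall (0 : ℂ) R,
        (ENNReal.ofReal (t ^ a) * g (t * z)) ^ 2 :=
        lintegral_lintegral_swap hm.aemeasurable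
    _ ≤ ∫⁻ t in Set.Ioc (0 : ℝ) 1, ∫⁻ z in closedBall (0 : ℂ) R, g z ^ 2 := by
        refine setLIntegral_mono' measurableSet_Ioc fun t ht => ?_
        have hgt : Measurable fun z : ℂ => g (t * z) := hg.comp (by fun_prop)
        have e0 : ∫⁻ z in closedBall (0 : ℂ) R, (ENNReal.ofReal (t ^ a) * g (t * z)) ^ 2 =
            ENNReal.ofReal (t ^ a) ^ 2 * ∫⁻ z in closedBall (0 : ℂ) R, g (t * z) ^ 2 := by
          rw [← lintegral_const_mul _ (hgt.pow_const 2)]
          refine lintegral_congr fun z => ?_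
          rw [mul_pow]
        have e1 : ∫⁻ z in closedBall (0 : ℂ) R, g (t * z) ^ 2 ≤
            ∫⁻ z : ℂ, (closedBall (0 : ℂ) R).indicator (fun z => g z ^ 2) (t * z) := by
          rw [← lintegral_indicator measurableSet_closedBall]
          refine lintegral_mono fun z => ?_
          by_cases hz : z ∈ closedBall (0 : ℂ) R
          · have hz' : (t : ℂ) * z ∈ closedBall (0 : ℂ) R := by
              rw [mem_closedBall_zero_iff] at hz ⊢
              rw [norm_mul, Complex.norm_real, Real.norm_of_nonneg ht.1.le]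
              calc t * ‖z‖ ≤ 1 * ‖z‖ := by gcongr; exact ht.2
                _ ≤ R := by rw [one_mul]; exact hz
            rw [Set.indicator_of_mem hz, Set.indicator_of_mem hz']
          · rw [Set.indicator_of_notMem hz]
            exact zero_le
        have e2 : ∫⁻ z : ℂ, (closedBall (0 : ℂ) R).indicator (fun z => g z ^ 2) (t * z) =
            ENNReal.ofReal (t ^ 2)⁻¹ * ∫⁻ z in closedBall (0 : ℂ) R, g z ^ 2 := by
          rw [dil_lint _ ((hg.pow_const 2).indicator measurableSet_closedBall) ht.1,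
            lintegral_indicator measurableSet_closedBall]
        rw [e0]
        calc ENNReal.ofReal (t ^ a) ^ 2 * ∫⁻ z in closedBall (0 : ℂ) R, g (t * z) ^ 2
            ≤ ENNReal.ofReal (t ^ a) ^ 2 *
              (ENNReal.ofReal (t ^ 2)⁻¹ * ∫⁻ z in closedBall (0 : ℂ) R, g z ^ 2) := by
              rw [← e2]; gcongr
          _ = (ENNReal.ofReal (t ^ a) ^ 2 * ENNReal.ofReal (t ^ 2)⁻¹) *
              ∫⁻ z in closedBall (0 : ℂ) R, g z ^ 2 := by rw [mul_assoc]
          _ ≤ 1 * ∫⁻ z in closedBall (0 : ℂ) R, g z ^ 2 := by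
              gcongr
              rw [← ENNReal.ofReal_pow (by have := ht.1; positivity),
                ← ENNReal.ofReal_mul (by have := ht.1; positivity), ← ENNReal.ofReal_one]
              refine ENNReal.ofReal_le_ofReal ?_
              have h1 : t ^ a ≤ t := by
                calc t ^ a ≤ t ^ 1 := pow_le_pow_of_le_one ht.1.le ht.2 ha
                  _ = t := pow_one t
              have h2 : (t ^ a) ^ 2 ≤ t ^ 2 := pow_le_pow_left₀ (by have := ht.1; positivity) h1 2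
              rw [← div_eq_mul_inv]
              exact div_le_one_of_le₀ h2 (by positivity)
          _ = ∫⁻ z in closedBall (0 : ℂ) R, g z ^ 2 := one_mul _
    _ = ∫⁻ z in closedBall (0 : ℂ) R, g z ^ 2 := by
        rw [lintegral_const]
        simp

theorem avg_sq (a : ℕ) (ha : 1 ≤ a) (h : AEStronglyMeasurable F volume) (R : ℝ) :
    ∫⁻ z in closedBall (0 : ℂ) R,
      (∫⁻ t in Set.Ioc (0 : ℝ) 1, ENNReal.ofReal (t ^ a) * ‖F (t * z)‖ₑ) ^ 2 ≤
    ∫⁻ z in closedBall (0 : ℂ) R, ‖F z‖ₑ ^ 2 := by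
  have hF : StronglyMeasurable (h.mk F) := h.stronglyMeasurable_mk
  have h1 : volume {z : ℂ | ¬ F z = (h.mk F) z} = 0 := ae_iff.1 h.ae_eq_mk
  have e1 : ∫⁻ z in closedBall (0 : ℂ) R,
      (∫⁻ t in Set.Ioc (0 : ℝ) 1, ENNReal.ofReal (t ^ a) * ‖F (t * z)‖ₑ) ^ 2 =
      ∫⁻ z in closedBall (0 : ℂ) R,
      (∫⁻ t in Set.Ioc (0 : ℝ) 1, ENNReal.ofReal (t ^ a) * ‖(h.mk F) (t * z)‖ₑ) ^ 2 := by
    refine lintegral_congr_ae (ae_restrict_of_ae ?_)
    filter_upwards [dil_null h1] with z hz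
    congr 1
    refine lintegral_congr_ae ?_
    filter_upwards [hz] with t ht
    have : F (t * z) = (h.mk F) (t * z) := by
      by_contra hc
      exact ht hc
    rw [this]
  have e2 : ∫⁻ z in closedBall (0 : ℂ) R, ‖F z‖ₑ ^ 2 =
      ∫⁻ z in closedBall (0 : ℂ) R, ‖(h.mk F) z‖ₑ ^ 2 := by
    refine lintegral_congr_ae (ae_restrict_of_ae ?_)
    filter_upwards [h.ae_eq_mk] with z hz
    rw [hz]
  rw [e1, e2]
  exact sq_aux (fun z => ‖(h.mk F) z‖ₑ) hF.measurable.enorm a ha R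

private theorem avg_enorm (a : ℕ) (z : ℂ) :
    ‖avg a F z‖ₑ ≤ ∫⁻ t in Set.Ioc (0 : ℝ) 1, ENNReal.ofReal (t ^ a) * ‖F (t * z)‖ₑ := by
  unfold avg
  rw [intervalIntegral.integral_of_le zero_le_one]
  refine (enorm_integral_le_lintegral_enorm _).trans ?_
  refine setLIntegral_mono' measurableSet_Ioc fun t ht => ?_
  rw [enorm_mul]
  gcongr
  rw [← ofReal_norm, Complex.norm_real, Real.norm_of_nonneg (by have := ht.1; positivity)]

theorem avg_L2 (a : ℕ) (ha : 1 ≤ a) (h : L2l F) : L2l (avg a F) := by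
  intro R
  have hae := h.ae
  refine ⟨(avg_ae a hae).restrict, ?_⟩
  have hR := (h R).2
  rw [eLpNorm_lt_top_iff_lintegral_rpow_enorm_lt_top (by norm_num) (by norm_num)] at hR ⊢
  have c : ∀ u : ℂ → ℂ, ∫⁻ z in closedBall (0 : ℂ) R, ‖u z‖ₑ ^ (2 : ℝ≥0∞).toReal =
      ∫⁻ z in closedBall (0 : ℂ) R, ‖u z‖ₑ ^ 2 := by
    intro u
    refine lintegral_congr fun z => ?_
    rw [ENNReal.toReal_ofNat]
    norm_cast
  rw [c] at hR ⊢
  refine lt_of_le_of_lt ?_ hR
  refine le_trans ?_ (avg_sq a ha hae R)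
  refine lintegral_mono fun z => ?_
  exact pow_le_pow_left' (avg_enorm a z) 2

theorem avg_bd (a : ℕ) (h : Bdl F) : Bdl (avg a F) := by
  refine ⟨avg_ae a h.1, fun R => ?_⟩
  obtain ⟨M, hM⟩ := h.2 R
  refine ⟨max M 0, ?_⟩
  have h1 : volume {z : ℂ | ¬ (z ∈ closedBall (0 : ℂ) R → ‖F z‖ ≤ M)} = 0 := ae_iff.1 hM
  filter_upwards [dil_null h1] with z hz hzR
  unfold avg
  rw [intervalIntegral.integral_of_le zero_le_one]
  have hb : ∀ᵐ t : ℝ ∂(volume.restrict (Set.Ioc (0 : ℝ) 1)),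
      ‖((t ^ a : ℝ) : ℂ) * F (t * z)‖ ≤ max M 0 := by
    have hI : ∀ᵐ t : ℝ ∂(volume.restrict (Set.Ioc (0 : ℝ) 1)), t ∈ Set.Ioc (0 : ℝ) 1 :=
      ae_restrict_mem measurableSet_Ioc
    filter_upwards [hz, hI] with t ht hI
    have hz' : (t : ℂ) * z ∈ closedBall (0 : ℂ) R := by
      rw [mem_closedBall_zero_iff] at hzR ⊢
      rw [norm_mul, Complex.norm_real, Real.norm_of_nonneg hI.1.le]
      calc t * ‖z‖ ≤ 1 * ‖z‖ := by gcongr; exact hI.2
        _ ≤ R := by rw [one_mul]; exact hzR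
    have hF : ‖F (t * z)‖ ≤ M := by
      by_contra hc
      exact ht (fun hh => hc (hh hz'))
    rw [norm_mul, Complex.norm_real, Real.norm_of_nonneg (by have := hI.1; positivity)]
    calc t ^ a * ‖F (t * z)‖ ≤ 1 * ‖F (t * z)‖ := by
          gcongr
          exact pow_le_one₀ hI.1.le hI.2
      _ ≤ max M 0 := by rw [one_mul]; exact hF.trans (le_max_left _ _)
  have := norm_integral_le_of_norm_le_const hb
  simpa using this

theorem avg_real (a : ℕ) (h : ∀ z, (F z).im = 0) (z : ℂ) : (avg a F z).im = 0 := by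
  unfold avg
  have e : ∀ t : ℝ, ((t ^ a : ℝ) : ℂ) * F (t * z) = ((t ^ a * (F (t * z)).re : ℝ) : ℂ) := by
    intro t
    have h1 : F (t * z) = ((F (t * z)).re : ℂ) := by
      apply Complex.ext
      · simp
      · simp [h]
    rw [h1]
    push_cast
    simp
  simp_rw [e]
  rw [intervalIntegral.integral_ofReal]
  exact Complex.ofReal_im _

private theorem im_bd : Bdl (fun z : ℂ => -(z.im : ℂ)) :=
  bdl_cont (by fun_prop)

private theorem re_bd : Bdl (fun z : ℂ => (z.re : ℂ)) :=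
  bdl_cont (by fun_prop)

theorem gA1_L2 (h : L2l F) : L2l (gA1 F) := by
  exact im_bd.mul_l2 (avg_L2 1 le_rfl h)

theorem gA2_L2 (h : L2l F) : L2l (gA2 F) := by
  exact re_bd.mul_l2 (avg_L2 1 le_rfl h)

theorem gA1_bd (h : Bdl F) : Bdl (gA1 F) := by
  exact im_bd.mul (avg_bd 1 h)

theorem gA2_bd (h : Bdl F) : Bdl (gA2 F) := by
  exact re_bd.mul (avg_bd 1 h)

theorem gA1_real (h : ∀ z, (F z).im = 0) (z : ℂ) : (gA1 F z).im = 0 := by
  simp [gA1, avg_real 1 h z]

theorem gA2_real (h : ∀ z, (F z).im = 0) (z : ℂ) : (gA2 F z).im = 0 := by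
  simp [gA2, avg_real 1 h z]

theorem gA1_congr (h : F =ᵐ[volume] F') : gA1 F =ᵐ[volume] gA1 F' := by
  filter_upwards [avg_congr 1 h] with z hz
  simp only [gA1, hz]

theorem gA2_congr (h : F =ᵐ[volume] F') : gA2 F =ᵐ[volume] gA2 F' := by
  filter_upwards [avg_congr 1 h] with z hz
  simp only [gA2, hz]

end O3R
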