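import Pool.Agent.GO3.R.HSa
import Pool.Agent.Helper39.Anco.Sob

/-!
# Part R, module Smo: local Sobolev regularity of all orders implies smoothness (helper30)

Transport to `ANCO.smooth_of_HLoc` (`n = 2`, `ι = Fin 2`, `U = univ`); the classes are in `Pool.Agent.Helper39.Anco.LDefs`.

PROOFS.  `tc : E 2 ≃ₗᵢ[ℝ] ℂ` is `(Complex.orthonormalBasisOneI).repr.symm`; it is measure preserving
(`LinearIsometryEquiv.measurePreserving`), `tc (e 0) = 1`, `tc (e 1) = I`.  `tr u y = tc.symm (u (tc y))`.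
* `tr_L2`: the image of a compact set lies in some `closedBall 0 R`; `MemLp.comp_measurePreserving`-type lemmas; `tc.symm` is an
  isometry.
* `tr_wd0`: a test function `ψ : E 2 → Wd (Fin 2)` has components `ψ_i`; `f_i = ψ_i ∘ tc.symm` is a test function on `ℂ` and
  `dr 1 f_i (tc y) = (fderiv ψ y (e 0)) i`.  `⟪tr u y, ψ y⟫ = re (u (tc y)) ψ_0 y + im (u (tc y)) ψ_1 y`.  The real part of the weak
  equation with the test `f_0` plus the imaginary part of the weak equation with the test `f_1` is the claim (integrability: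
  `Tst.int`, `Tst.int1`; `integral_re`, `integral_im` or `Complex.reCLM.integral_comp_comm`).
* `tr_HS`: induction on `m`.
* `smooth_of_HS`: `ANCO.smooth_of_HLoc isOpen_univ` gives `k'`, `ContDiffOn ℝ ∞ k' univ`; put `v = tc ∘ k' ∘ tc.symm`.
-/

open MeasureTheory Filter Topology Complex Metric
open scoped ContDiff ENNReal NNReal

noncomputable section

namespace O3R

variable {u v : ℂ → ℂ}

/-- The isometry `(x, y) ↦ x + i y`. -/
def tc : ANCO.E 2 ≃ₗᵢ[ℝ] ℂ := Complex.orthonormalBasisOneI.repr.symm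

/-- Transport of a function. -/
def tr (u : ℂ → ℂ) (y : ANCO.E 2) : ANCO.Wd (Fin 2) := tc.symm (u (tc y))

private theorem smo_mp : MeasurePreserving (tc : ANCO.E 2 → ℂ) volume volume :=
  LinearIsometryEquiv.measurePreserving tc

private theorem smo_mp' : MeasurePreserving (tc.symm : ℂ → ANCO.E 2) volume volume :=
  LinearIsometryEquiv.measurePreserving tc.symm

private theorem smo_re (z : ℂ) : tc.symm z 0 = z.re := by
  unfold tc
  rw [LinearIsometryEquiv.symm_symm, Complex.orthonormalBasisOneI_repr_apply]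
  rfl

private theorem smo_im (z : ℂ) : tc.symm z 1 = z.im := by
  unfold tc
  rw [LinearIsometryEquiv.symm_symm, Complex.orthonormalBasisOneI_repr_apply]
  rfl

private theorem smo_one : tc.symm 1 = ANCO.e 0 := by
  ext i
  fin_cases i
  · show tc.symm 1 0 = ANCO.e 0 0
    rw [smo_re]
    simp [ANCO.e]
  · show tc.symm 1 1 = ANCO.e 0 1
    rw [smo_im]
    simp [ANCO.e]

private theorem smo_I : tc.symm I = ANCO.e 1 := by
  ext i
  fin_cases i
  · show tc.symm I 0 = ANCO.e 1 0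
    rw [smo_re]
    simp [ANCO.e]
  · show tc.symm I 1 = ANCO.e 1 1
    rw [smo_im]
    simp [ANCO.e]

private theorem smo_inner (z : ℂ) (w : ANCO.Wd (Fin 2)) :
    inner ℝ (tc.symm z) w = z.re * w 0 + z.im * w 1 := by
  rw [PiLp.inner_apply, Fin.sum_univ_two, smo_re, smo_im]
  simp only [RCLike.inner_apply, conj_trivial]
  ring

theorem tr_L2 (h : L2l u) : ANCO.LocL2 Set.univ (tr u) := by
  intro K _ hK
  obtain ⟨R, hR⟩ := hK.isBounded.subset_closedBall 0
  have h1 : MeasurePreserving (tc : ANCO.E 2 → ℂ) (volume.restrict (tc ⁻¹' closedBall 0 R))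
      (volume.restrict (closedBall 0 R)) :=
    smo_mp.restrict_preimage measurableSet_closedBall
  have h2 : MemLp (u ∘ tc) 2 (volume.restrict (tc ⁻¹' closedBall 0 R)) :=
    (h R).comp_measurePreserving h1
  have h3 : K ⊆ tc ⁻¹' closedBall (0 : ℂ) R := by
    intro y hy
    have h4 := hR hy
    rw [mem_closedBall_zero_iff] at h4
    rw [Set.mem_preimage, mem_closedBall_zero_iff, LinearIsometryEquiv.norm_map]
    exact h4
  have h4 : MemLp (u ∘ tc) 2 (volume.restrict K) := h2.mono_measure (Measure.restrict_mono_set _ h3)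
  exact (tc.symm : ℂ →L[ℝ] ANCO.E 2).comp_memLp' h4

private def smo_c (ψ : ANCO.E 2 → ANCO.Wd (Fin 2)) (i : Fin 2) (z : ℂ) : ℝ := ψ (tc.symm z) i

private theorem smo_tst {ψ : ANCO.E 2 → ANCO.Wd (Fin 2)} (h : ANCO.Test Set.univ ψ) (i : Fin 2) :
    Tst (smo_c ψ i) := by
  refine ⟨?_, ?_⟩
  · exact (EuclideanSpace.proj (𝕜 := ℝ) i).contDiff.comp
      (h.1.comp (tc.symm : ℂ →L[ℝ] ANCO.E 2).contDiff)
  · have h1 : HasCompactSupport (ψ ∘ tc.symm) :=
      h.2.1.comp_isClosedEmbedding tc.symm.toHomeomorph.isClosedEmbedding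
    exact h1.comp_left (g := fun w : ANCO.Wd (Fin 2) => w i) rfl

private theorem smo_fd {ψ : ANCO.E 2 → ANCO.Wd (Fin 2)} (h : ANCO.Test Set.univ ψ) (i : Fin 2)
    (z a : ℂ) : fderiv ℝ (smo_c ψ i) z a = fderiv ℝ ψ (tc.symm z) (tc.symm a) i := by
  have h1 : HasFDerivAt ψ (fderiv ℝ ψ (tc.symm z)) (tc.symm z) :=
    (h.1.contDiffAt.differentiableAt (by simp)).hasFDerivAt
  have h2 : HasFDerivAt (tc.symm : ℂ → ANCO.E 2) (tc.symm : ℂ →L[ℝ] ANCO.E 2) z :=
    (tc.symm : ℂ →L[ℝ] ANCO.E 2).hasFDerivAt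
  have h3 := (EuclideanSpace.proj (𝕜 := ℝ) i).hasFDerivAt.comp z (h1.comp z h2)
  have h4 : HasFDerivAt (smo_c ψ i) ((EuclideanSpace.proj (𝕜 := ℝ) i).comp
      ((fderiv ℝ ψ (tc.symm z)).comp (tc.symm : ℂ →L[ℝ] ANCO.E 2))) z := h3
  rw [h4.fderiv]
  rfl

private theorem smo_integral {F : ANCO.E 2 → ℝ} : ∫ y, F y = ∫ z : ℂ, F (tc.symm z) :=
  (smo_mp'.integral_comp tc.symm.toHomeomorph.measurableEmbedding F).symm

private theorem smo_key {a : ℂ} {j : Fin 2} (ha : tc.symm a = ANCO.e j) (hu : L1l u) (hv : L1l v)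
    (h : ∀ f : ℂ → ℝ, Tst f → ∫ z, dr a f z * u z = -∫ z, (f z : ℂ) * v z) :
    ANCO.WDer Set.univ j (tr u) (tr v) := by
  intro ψ hψ
  rw [smo_integral, smo_integral]
  have t0 := smo_tst hψ 0
  have t1 := smo_tst hψ 1
  have e1 : ∀ z : ℂ, inner ℝ (tr u (tc.symm z)) (fderiv ℝ ψ (tc.symm z) (ANCO.e j)) =
      (dr a (smo_c ψ 0) z * u z).re + (dr a (smo_c ψ 1) z * u z).im := by
    intro z
    unfold tr dr
    rw [LinearIsometryEquiv.apply_symm_apply, smo_inner, ← ha, smo_fd hψ, smo_fd hψ,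
      Complex.re_ofReal_mul, Complex.im_ofReal_mul]
    ring
  have e2 : ∀ z : ℂ, inner ℝ (tr v (tc.symm z)) (ψ (tc.symm z)) =
      ((smo_c ψ 0 z : ℂ) * v z).re + ((smo_c ψ 1 z : ℂ) * v z).im := by
    intro z
    unfold tr smo_c
    rw [LinearIsometryEquiv.apply_symm_apply, smo_inner, Complex.re_ofReal_mul,
      Complex.im_ofReal_mul]
    ring
  have i1 := t0.int1 hu a
  have i2 := t1.int1 hu a
  have i3 := t0.int hv
  have i4 := t1.int hv
  have r1 : ∫ z, (dr a (smo_c ψ 0) z * u z).re = (∫ z, dr a (smo_c ψ 0) z * u z).re :=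
    integral_re i1
  have r2 : ∫ z, (dr a (smo_c ψ 1) z * u z).im = (∫ z, dr a (smo_c ψ 1) z * u z).im :=
    integral_im i2
  have r3 : ∫ z, ((smo_c ψ 0 z : ℂ) * v z).re = (∫ z, (smo_c ψ 0 z : ℂ) * v z).re :=
    integral_re i3
  have r4 : ∫ z, ((smo_c ψ 1 z : ℂ) * v z).im = (∫ z, (smo_c ψ 1 z : ℂ) * v z).im :=
    integral_im i4
  have j1 : Integrable (fun z => (dr a (smo_c ψ 0) z * u z).re) := i1.re
  have j2 : Integrable (fun z => (dr a (smo_c ψ 1) z * u z).im) := i2.im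
  have j3 : Integrable (fun z => ((smo_c ψ 0 z : ℂ) * v z).re) := i3.re
  have j4 : Integrable (fun z => ((smo_c ψ 1 z : ℂ) * v z).im) := i4.im
  simp only [e1, e2]
  rw [integral_add j1 j2, integral_add j3 j4, r1, r2, r3, r4, h _ t0, h _ t1, Complex.neg_re,
    Complex.neg_im]
  ring

theorem tr_wd0 (hu : L1l u) (hv : L1l v) (h : WD1 u v) : ANCO.WDer Set.univ 0 (tr u) (tr v) := by
  refine smo_key smo_one hu hv fun f hf => ?_
  have h1 := h f hf
  simpa only [mul_zero, add_zero] using h1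

theorem tr_wd1 (hu : L1l u) (hv : L1l v) (h : WD2 u v) : ANCO.WDer Set.univ 1 (tr u) (tr v) := by
  refine smo_key smo_I hu hv fun f hf => ?_
  have h1 := h f hf
  simpa only [mul_zero, zero_add] using h1

theorem tr_HS (m : ℕ) (h : HS m u) : ANCO.HLoc Set.univ m (tr u) := by
  induction m generalizing u with
  | zero => exact tr_L2 h
  | succ m ih =>
    obtain ⟨h1, ⟨v1, k1, l1⟩, ⟨v2, k2, l2⟩⟩ := h
    refine ⟨tr_L2 h1, fun j => ?_⟩
    fin_cases j
    · exact ⟨tr v1, tr_wd0 h1.l1 l1.l2.l1 k1, ih l1⟩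
    · exact ⟨tr v2, tr_wd1 h1.l1 l2.l2.l1 k2, ih l2⟩

theorem smooth_of_HS (h : ∀ m, HS m u) : ∃ v : ℂ → ℂ, ContDiff ℝ ∞ v ∧ u =ᵐ[volume] v := by
  obtain ⟨k, hk, hk2⟩ := ANCO.smooth_of_HLoc isOpen_univ (fun m => tr_HS m (h m))
  rw [contDiffOn_univ] at hk
  rw [Measure.restrict_univ] at hk2
  refine ⟨fun z => tc (k (tc.symm z)), ?_, ?_⟩
  · exact (tc : ANCO.E 2 →L[ℝ] ℂ).contDiff.comp (hk.comp (tc.symm : ℂ →L[ℝ] ANCO.E 2).contDiff)
  · have h1 : ∀ᵐ z : ℂ, tr u (tc.symm z) = k (tc.symm z) :=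
      smo_mp'.quasiMeasurePreserving.ae hk2
    filter_upwards [h1] with z hz
    unfold tr at hz
    rw [LinearIsometryEquiv.apply_symm_apply] at hz
    rw [← hz, LinearIsometryEquiv.apply_symm_apply]

end O3R
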