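import Pool.Agent.GO3.R.Boot
import Pool.Agent.GO3.R.Smo

/-!
# Part R, module Fin1: smooth representatives, classical equations (helper30)

PROOFS.
* `classical`: `wdiv_smooth` and `wdiv_unique` give `dd 1 X + dd I Y = g` a.e.; both sides are continuous
  (`Continuous.ae_eq_iff_eq`).
* `real_rep`: `v` from `smooth_of_HS`; `fun z => ((v z).re : ℂ)` is smooth and a.e. equal to `u`.
* `avg_smooth`: `avg a F` is continuous for continuous `F` (`intervalIntegral.continuous_parametric_intervalIntegral_of_continuous'`),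
  and a.e. equal to a smooth function (`avg_HS` with `HS.smooth`, `smooth_of_HS`), so equal to it everywhere.
* `gA1_smooth`, `gA2_smooth`: products with the coordinates.
* `Sol.congr`: `gA1_congr`, `gA2_congr`, `wdiv_congr`, `L2l.congr`; `LG` : `lintegral_congr_ae` (restricted).
* `Sol.rep`: `s.all`, `smooth_of_HS` for `w, W1, W2`, `real_rep` for `h, F, H1, H2`; `Sol.congr`.
-/

open MeasureTheory Filter Topology Complex Metric
open scoped ContDiff ENNReal NNReal

noncomputable section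

namespace O3R

variable {w h F W1 W2 H1 H2 w' h' F' W1' W2' H1' H2' X Y g u : ℂ → ℂ} {κ : ℝ}

theorem classical (hX : ContDiff ℝ 1 X) (hY : ContDiff ℝ 1 Y) (hg : Continuous g) (h : WDiv X Y g) (z : ℂ) :
    dd 1 X z + dd I Y z = g z := by
  have hc1 : Continuous fun z => dd 1 X z :=
    (hX.continuous_fderiv (by simp)).clm_apply continuous_const
  have hc2 : Continuous fun z => dd I Y z :=
    (hY.continuous_fderiv (by simp)).clm_apply continuous_const
  have hc : Continuous fun z => dd 1 X z + dd I Y z := hc1.add hc2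
  have e := wdiv_unique (bdl_cont hc).l1 (bdl_cont hg).l1 (wdiv_smooth hX hY) h
  exact congrFun ((Continuous.ae_eq_iff_eq volume hc hg).1 e) z

theorem classical1 (hX : ContDiff ℝ 1 X) (hg : Continuous g) (h : WD1 X g) (z : ℂ) : dd 1 X z = g z := by
  have h1 := classical hX (contDiff_const (c := (0 : ℂ))) hg h z
  have h2 : dd I (fun _ : ℂ => (0 : ℂ)) z = 0 := by simp [dd]
  rw [h2, add_zero] at h1
  exact h1

theorem classical2 (hX : ContDiff ℝ 1 X) (hg : Continuous g) (h : WD2 X g) (z : ℂ) : dd I X z = g z := by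
  have h1 := classical (contDiff_const (c := (0 : ℂ))) hX hg h z
  have h2 : dd 1 (fun _ : ℂ => (0 : ℂ)) z = 0 := by simp [dd]
  rw [h2, zero_add] at h1
  exact h1

theorem real_rep (h : ∀ m, HS m u) (hr : ∀ z, (u z).im = 0) :
    ∃ v : ℂ → ℂ, ContDiff ℝ ∞ v ∧ (∀ z, (v z).im = 0) ∧ u =ᵐ[volume] v := by
  obtain ⟨v, hv, e⟩ := smooth_of_HS h
  refine ⟨fun z => ((v z).re : ℂ), ?_, fun z => Complex.ofReal_im _, ?_⟩
  · exact Complex.ofRealCLM.contDiff.comp (Complex.reCLM.contDiff.comp hv)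
  · filter_upwards [e] with z hz
    rw [← hz]
    refine Complex.ext (Complex.ofReal_re _).symm ?_
    rw [Complex.ofReal_im, hr z]

theorem avg_smooth (a : ℕ) (ha : 1 ≤ a) (hF : ContDiff ℝ ∞ F) : ContDiff ℝ ∞ (avg a F) := by
  have hcF : Continuous F := hF.continuous
  have hc : Continuous (avg a F) := by
    unfold avg
    refine intervalIntegral.continuous_parametric_intervalIntegral_of_continuous' ?_ 0 1
    have h1 : Continuous fun q : ℂ × ℝ => (((q.2 ^ a : ℝ)) : ℂ) :=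
      Complex.continuous_ofReal.comp (continuous_snd.pow a)
    have h2 : Continuous fun q : ℂ × ℝ => F ((q.2 : ℂ) * q.1) :=
      hcF.comp ((Complex.continuous_ofReal.comp continuous_snd).mul continuous_fst)
    exact h1.mul h2
  obtain ⟨v, hv, e⟩ := smooth_of_HS (fun m => avg_HS m a ha (HS.smooth (m := m) hF))
  rw [(Continuous.ae_eq_iff_eq volume hc hv.continuous).1 e]
  exact hv

theorem gA1_smooth (hF : ContDiff ℝ ∞ F) : ContDiff ℝ ∞ (gA1 F) := by
  have h1 : ContDiff ℝ ∞ fun z : ℂ => ((z.im : ℝ) : ℂ) :=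
    Complex.ofRealCLM.contDiff.comp Complex.imCLM.contDiff
  exact h1.neg.mul (avg_smooth 1 le_rfl hF)

theorem gA2_smooth (hF : ContDiff ℝ ∞ F) : ContDiff ℝ ∞ (gA2 F) := by
  have h1 : ContDiff ℝ ∞ fun z : ℂ => ((z.re : ℝ) : ℂ) :=
    Complex.ofRealCLM.contDiff.comp Complex.reCLM.contDiff
  exact h1.mul (avg_smooth 1 le_rfl hF)

theorem Sol.congr (s : Sol w h F W1 W2 H1 H2 κ) (ew : w =ᵐ[volume] w') (eh : h =ᵐ[volume] h')
    (eF : F =ᵐ[volume] F') (e1 : W1 =ᵐ[volume] W1') (e2 : W2 =ᵐ[volume] W2') (e3 : H1 =ᵐ[volume] H1')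
    (e4 : H2 =ᵐ[volume] H2') (rh : ∀ z, (h' z).im = 0) (rF : ∀ z, (F' z).im = 0)
    (r1 : ∀ z, (H1' z).im = 0) (r2 : ∀ z, (H2' z).im = 0) : Sol w' h' F' W1' W2' H1' H2' κ := by
  have a1 := gA1_congr eF
  have a2 := gA2_congr eF
  have z0 : (fun _ : ℂ => (0 : ℂ)) =ᵐ[volume] fun _ => (0 : ℂ) := ae_eq_rfl
  have ep1 : pp w h W1 H1 =ᵐ[volume] pp w' h' W1' H1' := by
    filter_upwards [ew, eh, e1, e3] with z k1 k2 k3 k4
    simp only [pp, k1, k2, k3, k4]
  have ep2 : pp w h W2 H2 =ᵐ[volume] pp w' h' W2' H2' := by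
    filter_upwards [ew, eh, e2, e4] with z k1 k2 k3 k4
    simp only [pp, k1, k2, k3, k4]
  exact
    { mw := s.mw.congr ew
      mh := s.mh.congr eh
      rh := rh
      rF := rF
      rH1 := r1
      rH2 := r2
      unit := by
        filter_upwards [s.unit, ew, eh] with z k k1 k2
        rw [← k1, ← k2]; exact k
      tan1 := by
        filter_upwards [s.tan1, ew, eh, e1, e3] with z k k1 k2 k3 k4
        rw [← k1, ← k2, ← k3, ← k4]; exact k
      tan2 := by
        filter_upwards [s.tan2, ew, eh, e2, e4] with z k k1 k2 k3 k4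
        rw [← k1, ← k2, ← k3, ← k4]; exact k
      lF := s.lF.congr eF
      lW1 := s.lW1.congr e1
      lW2 := s.lW2.congr e2
      lH1 := s.lH1.congr e3
      lH2 := s.lH2.congr e4
      hκ := s.hκ
      growth := by
        intro R
        obtain ⟨C, hC⟩ := s.growth R
        refine ⟨C, fun p hp r hr hr1 => ?_⟩
        have ee : ed W1' W2' H1' H2' =ᵐ[volume] ed W1 W2 H1 H2 := by
          filter_upwards [e1, e2, e3, e4] with z k1 k2 k3 k4
          simp only [ed, k1, k2, k3, k4]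
        rw [lintegral_congr_ae (ae_restrict_of_ae ee)]
        exact hC p hp r hr hr1
      dw1 := by
        refine wdiv_congr s.dw1 ew z0 ?_
        filter_upwards [ew, e1, a1] with z k1 k2 k3
        rw [k1, k2, k3]
      dw2 := by
        refine wdiv_congr s.dw2 z0 ew ?_
        filter_upwards [ew, e2, a2] with z k1 k2 k3
        rw [k1, k2, k3]
      dh1 := wdiv_congr s.dh1 eh z0 e3
      dh2 := wdiv_congr s.dh2 z0 eh e4
      dF1 := by
        refine wdiv_congr s.dF1 eF z0 ?_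
        filter_upwards [ew, e2] with z k1 k2
        simp only [cur, k1, k2]
      dF2 := by
        refine wdiv_congr s.dF2 z0 eF ?_
        filter_upwards [ew, e1] with z k1 k2
        simp only [cur, k1, k2]
      eq := by
        refine wdiv_congr s.eq ep1 ep2 ?_
        filter_upwards [ew, eh, a1, a2, ep1, ep2] with z k1 k2 k3 k4 k5 k6
        rw [k1, k2, k3, k4, k5, k6] }

/-- Smooth representatives. -/
theorem Sol.rep (s : Sol w h F W1 W2 H1 H2 κ) : ∃ w' h' F' W1' W2' H1' H2' : ℂ → ℂ,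
    ContDiff ℝ ∞ w' ∧ ContDiff ℝ ∞ h' ∧ ContDiff ℝ ∞ F' ∧ ContDiff ℝ ∞ W1' ∧ ContDiff ℝ ∞ W2' ∧
    ContDiff ℝ ∞ H1' ∧ ContDiff ℝ ∞ H2' ∧ w =ᵐ[volume] w' ∧ h =ᵐ[volume] h' ∧ F =ᵐ[volume] F' ∧
    W1 =ᵐ[volume] W1' ∧ W2 =ᵐ[volume] W2' ∧ H1 =ᵐ[volume] H1' ∧ H2 =ᵐ[volume] H2' ∧
    Sol w' h' F' W1' W2' H1' H2' κ := by
  obtain ⟨w', cw, ew⟩ := smooth_of_HS (fun m => (s.all m).w)
  obtain ⟨W1', c1, e1⟩ := smooth_of_HS (fun m => (s.all m).W1)
  obtain ⟨W2', c2, e2⟩ := smooth_of_HS (fun m => (s.all m).W2)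
  obtain ⟨h', ch, rh, eh⟩ := real_rep (fun m => (s.all m).h) s.rh
  obtain ⟨F', cF, rF, eF⟩ := real_rep (fun m => (s.all m).F) s.rF
  obtain ⟨H1', c3, r1, e3⟩ := real_rep (fun m => (s.all m).H1) s.rH1
  obtain ⟨H2', c4, r2, e4⟩ := real_rep (fun m => (s.all m).H2) s.rH2
  exact ⟨w', h', F', W1', W2', H1', H2', cw, ch, cF, c1, c2, c3, c4, ew, eh, eF, e1, e2, e3, e4,
    s.congr ew eh eF e1 e2 e3 e4 rh rF r1 r2⟩

end O3R
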