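import Pool.Agent.GO3.R.Con1
import Pool.Agent.GO3.R.Fin1

/-!
# Part R, module Reg: the regularity theorem (helper30)

`cf w h F` is the configuration `(w, re h, Aof (re F))`.

PROOFS.  `s` is a solution all of whose fields are smooth; `h = co (re h)`, `F = co (re F)` since the imaginary parts vanish.
* `cf_A`: `aof_eq`, so `c.A = gA1 F + i gA2 F`, smooth; `cf_rad`: `G = re (avg 1 F)` (`avg_smooth`, `avg_co`).
* `cf_F`: `curlA` and `classical`: `∂₁A₂ - ∂₂A₁ = F`; `(fderiv c.A z 1).im = re (dd 1 (gA2 F) z)`, `(fderiv c.A z I).re =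
  re (dd I (gA1 F) z)` (`gA_k F` real valued).
* `cf_unit`: a.e. identity of continuous functions.
* `cf_Dw`: `classical1`, `classical2` for `dw1`, `dw2`: `∂_k w = W_k + i A_k w`, so `c.Dw z 1 = W1 z`, `c.Dw z I = W2 z`.
* `cf_dh`: `classical1`, `classical2` for `dh1`, `dh2`.
* `cf_EL`: `dF1`, `dF2`, `eq` classically: `c.j z 1 = re (cur w W1 z)`, `c.p z v = pp ..`, `ip (c.A z) 1 = re (gA1 F z)`.
* `reg`: `toSol`, `Sol.rep`, then the lemmas for the representatives.
-/

open MeasureTheory Filter Topology Complex Metric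
open scoped ContDiff ENNReal NNReal

noncomputable section

namespace O3R

variable {w h F W1 W2 H1 H2 : ℂ → ℂ} {κ : ℝ}

/-- The configuration of a solution. -/
def cf (w h F : ℂ → ℂ) : GO3.Cf where
  w := w
  h := fun z => (h z).re
  A := GO3.Aof (fun z => (F z).re)

/-- All fields are smooth. -/
structure Smth (w h F W1 W2 H1 H2 : ℂ → ℂ) : Prop where
  w : ContDiff ℝ ∞ w
  h : ContDiff ℝ ∞ h
  F : ContDiff ℝ ∞ F
  W1 : ContDiff ℝ ∞ W1
  W2 : ContDiff ℝ ∞ W2
  H1 : ContDiff ℝ ∞ H1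
  H2 : ContDiff ℝ ∞ H2

private theorem co_re {u : ℂ → ℂ} (hu : ∀ z, (u z).im = 0) : co (fun z => (u z).re) = u := by
  funext z
  apply Complex.ext
  · simp [co]
  · simp [co, hu z]

theorem cf_A (s : Sol w h F W1 W2 H1 H2 κ) (z : ℂ) : (cf w h F).A z = gA1 F z + I * gA2 F z := by
  show GO3.Aof (fun z => (F z).re) z = _
  rw [aof_eq, co_re s.rF]

theorem cf_smooth (s : Sol w h F W1 W2 H1 H2 κ) (k : Smth w h F W1 W2 H1 H2) :
    ContDiff ℝ ∞ (cf w h F).w ∧ ContDiff ℝ ∞ (cf w h F).h ∧ ContDiff ℝ ∞ (cf w h F).A := by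
  refine ⟨k.w, Complex.reCLM.contDiff.comp k.h, ?_⟩
  have h1 : (cf w h F).A = fun z => gA1 F z + I * gA2 F z := funext (cf_A s)
  rw [h1]
  exact (gA1_smooth k.F).add (contDiff_const.mul (gA2_smooth k.F))

theorem cf_rad (s : Sol w h F W1 W2 H1 H2 κ) (k : Smth w h F W1 W2 H1 H2) : (cf w h F).Rad := by
  refine ⟨fun z => (avg 1 F z).re, Complex.reCLM.contDiff.comp (avg_smooth 1 le_rfl k.F), fun z => ?_⟩
  show GO3.Aof (fun z => (F z).re) z = _
  unfold GO3.Aof
  have h1 := avg_co (fun z => (F z).re) z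
  rw [co_re s.rF] at h1
  show I * z * ((GO3.Gof (fun z => (F z).re) z : ℝ) : ℂ) = I * z * (((avg 1 F z).re : ℝ) : ℂ)
  rw [h1, Complex.ofReal_re]

private theorem dd_re {u : ℂ → ℂ} (hu : ContDiff ℝ ∞ u) (z e : ℂ) :
    fderiv ℝ (fun z => (u z).re) z e = (dd e u z).re := by
  have h1 : HasFDerivAt u (fderiv ℝ u z) z := (hu.differentiable (by simp)).differentiableAt.hasFDerivAt
  have h2 := Complex.reCLM.hasFDerivAt.comp z h1
  have h3 : fderiv ℝ (fun z => (u z).re) z = Complex.reCLM.comp (fderiv ℝ u z) := h2.fderiv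
  rw [h3]
  rfl

private theorem dd_real {u : ℂ → ℂ} (hu : ContDiff ℝ ∞ u) (hr : ∀ z, (u z).im = 0) (z e : ℂ) :
    (dd e u z).im = 0 := by
  have h1 : HasFDerivAt u (fderiv ℝ u z) z := (hu.differentiable (by simp)).differentiableAt.hasFDerivAt
  have h2 := Complex.imCLM.hasFDerivAt.comp z h1
  have h3 : fderiv ℝ (fun z => (u z).im) z = Complex.imCLM.comp (fderiv ℝ u z) := h2.fderiv
  have h4 : (fun z => (u z).im) = fun _ => (0 : ℝ) := funext hr
  rw [h4, fderiv_fun_const] at h3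
  have h5 := congrArg (fun L => L e) h3
  simpa [dd] using h5.symm

theorem cf_F (s : Sol w h F W1 W2 H1 H2 κ) (k : Smth w h F W1 W2 H1 H2) (z : ℂ) :
    (cf w h F).F z = (F z).re := by
  have hA : (cf w h F).A = fun z => gA1 F z + I * gA2 F z := funext (cf_A s)
  have g1 := gA1_smooth k.F
  have g2 := gA2_smooth k.F
  have hd : ∀ e, fderiv ℝ (fun z => gA1 F z + I * gA2 F z) z e = dd e (gA1 F) z + I * dd e (gA2 F) z := by
    intro e
    have a1 : HasFDerivAt (gA1 F) (fderiv ℝ (gA1 F) z) z :=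
      (g1.differentiable (by simp)).differentiableAt.hasFDerivAt
    have a2 : HasFDerivAt (gA2 F) (fderiv ℝ (gA2 F) z) z :=
      (g2.differentiable (by simp)).differentiableAt.hasFDerivAt
    have a3 := (a1.add (a2.const_mul I)).fderiv
    have a4 : fderiv ℝ (fun z => gA1 F z + I * gA2 F z) z = fderiv ℝ (gA1 F) z + I • fderiv ℝ (gA2 F) z := a3
    rw [a4]
    rfl
  have hc := classical (g2.of_le (by exact_mod_cast le_top)) ((g1.neg).of_le (by exact_mod_cast le_top))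
    k.F.continuous (curlA s.lF) z
  have hn : dd I (fun z => -gA1 F z) z = -dd I (gA1 F) z := by
    unfold dd
    rw [fderiv_fun_neg]
    rfl
  rw [hn] at hc
  have r1 := dd_real g1 (gA1_real s.rF) z 1
  have r2 := dd_real g2 (gA2_real s.rF) z I
  unfold GO3.Cf.F
  rw [hA, hd, hd, ← hc]
  simp [r1, r2]
  ring

theorem cf_unit (s : Sol w h F W1 W2 H1 H2 κ) (k : Smth w h F W1 W2 H1 H2) (z : ℂ) :
    ‖(cf w h F).w z‖ ^ 2 + (cf w h F).h z ^ 2 = 1 := by
  have h1 : (fun z => ‖w z‖ ^ 2 + (h z).re ^ 2) = fun _ => (1 : ℝ) := by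
    rw [← Continuous.ae_eq_iff_eq (μ := (volume : Measure ℂ))]
    · exact s.unit
    · exact (k.w.continuous.norm.pow 2).add ((Complex.continuous_re.comp k.h.continuous).pow 2)
    · exact continuous_const
  exact congrFun h1 z

theorem cf_Dw (s : Sol w h F W1 W2 H1 H2 κ) (k : Smth w h F W1 W2 H1 H2) (z : ℂ) :
    (cf w h F).Dw z 1 = W1 z ∧ (cf w h F).Dw z I = W2 z := by
  have g1 := gA1_smooth k.F
  have g2 := gA2_smooth k.F
  have c1 := classical1 (k.w.of_le (by exact_mod_cast le_top))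
    (k.W1.continuous.add ((continuous_const.mul g1.continuous).mul k.w.continuous)) s.dw1 z
  have c2 := classical2 (k.w.of_le (by exact_mod_cast le_top))
    (k.W2.continuous.add ((continuous_const.mul g2.continuous).mul k.w.continuous)) s.dw2 z
  have e1 : ((GO3.ip ((cf w h F).A z) 1 : ℝ) : ℂ) = gA1 F z := by
    have := ip_A1 (fun z => (F z).re) z
    rw [co_re s.rF] at this
    exact this
  have e2 : ((GO3.ip ((cf w h F).A z) I : ℝ) : ℂ) = gA2 F z := by
    have := ip_A2 (fun z => (F z).re) z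
    rw [co_re s.rF] at this
    exact this
  constructor
  · show fderiv ℝ w z 1 - I * ((GO3.ip ((cf w h F).A z) 1 : ℝ) : ℂ) * w z = W1 z
    rw [e1]
    have : fderiv ℝ w z 1 = W1 z + I * gA1 F z * w z := c1
    rw [this]; ring
  · show fderiv ℝ w z I - I * ((GO3.ip ((cf w h F).A z) I : ℝ) : ℂ) * w z = W2 z
    rw [e2]
    have : fderiv ℝ w z I = W2 z + I * gA2 F z * w z := c2
    rw [this]; ring

theorem cf_dh (s : Sol w h F W1 W2 H1 H2 κ) (k : Smth w h F W1 W2 H1 H2) (z : ℂ) :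
    (cf w h F).dh z 1 = (H1 z).re ∧ (cf w h F).dh z I = (H2 z).re := by
  have c1 := classical1 (k.h.of_le (by exact_mod_cast le_top)) k.H1.continuous s.dh1 z
  have c2 := classical2 (k.h.of_le (by exact_mod_cast le_top)) k.H2.continuous s.dh2 z
  constructor
  · show fderiv ℝ (fun z => (h z).re) z 1 = _
    rw [dd_re k.h, c1]
  · show fderiv ℝ (fun z => (h z).re) z I = _
    rw [dd_re k.h, c2]

theorem cf_EL (s : Sol w h F W1 W2 H1 H2 κ) (k : Smth w h F W1 W2 H1 H2) : (cf w h F).EL := by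
  have g1 := gA1_smooth k.F
  have g2 := gA2_smooth k.F
  have hF : (cf w h F).F = fun z => (F z).re := funext (cf_F s k)
  have cw1 : Continuous (cur w W1) := by
    unfold cur
    exact Complex.continuous_ofReal.comp (Complex.continuous_im.comp
      ((Complex.continuous_conj.comp k.w.continuous).mul k.W1.continuous))
  have cw2 : Continuous (cur w W2) := by
    unfold cur
    exact Complex.continuous_ofReal.comp (Complex.continuous_im.comp
      ((Complex.continuous_conj.comp k.w.continuous).mul k.W2.continuous))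
  have hh : ∀ z, (((h z).re : ℝ) : ℂ) = h z := fun z => congrFun (co_re s.rh) z
  have hH1 : ∀ z, (((H1 z).re : ℝ) : ℂ) = H1 z := fun z => congrFun (co_re s.rH1) z
  have hH2 : ∀ z, (((H2 z).re : ℝ) : ℂ) = H2 z := fun z => congrFun (co_re s.rH2) z
  have p1 : (fun y => (cf w h F).p y 1) = pp w h W1 H1 := by
    funext z
    show (((cf w h F).h z : ℝ) : ℂ) * (cf w h F).Dw z 1 - (cf w h F).w z * (((cf w h F).dh z 1 : ℝ) : ℂ) = _
    rw [(cf_Dw s k z).1, (cf_dh s k z).1, hH1]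
    show (((h z).re : ℝ) : ℂ) * W1 z - w z * H1 z = _
    rw [hh]; rfl
  have p2 : (fun y => (cf w h F).p y I) = pp w h W2 H2 := by
    funext z
    show (((cf w h F).h z : ℝ) : ℂ) * (cf w h F).Dw z I - (cf w h F).w z * (((cf w h F).dh z I : ℝ) : ℂ) = _
    rw [(cf_Dw s k z).2, (cf_dh s k z).2, hH2]
    show (((h z).re : ℝ) : ℂ) * W2 z - w z * H2 z = _
    rw [hh]; rfl
  have sp1 : ContDiff ℝ ∞ (pp w h W1 H1) := (k.h.mul k.W1).sub (k.w.mul k.H1)
  have sp2 : ContDiff ℝ ∞ (pp w h W2 H2) := (k.h.mul k.W2).sub (k.w.mul k.H2)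
  have cg : Continuous (fun z => (1 - h z) * w z + I * gA1 F z * pp w h W1 H1 z +
      I * gA2 F z * pp w h W2 H2 z) :=
    (((continuous_const.sub k.h.continuous).mul k.w.continuous).add
      ((continuous_const.mul g1.continuous).mul sp1.continuous)).add
      ((continuous_const.mul g2.continuous).mul sp2.continuous)
  refine ⟨fun z => ?_, fun z => ?_, fun z => ?_⟩
  · rw [hF, dd_re k.F, classical1 (k.F.of_le (by exact_mod_cast le_top)) cw2.neg s.dF1 z]
    show _ = -((star (w z) * (cf w h F).Dw z I).im)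
    rw [(cf_Dw s k z).2]
    simp [cur]
  · rw [hF, dd_re k.F, classical2 (k.F.of_le (by exact_mod_cast le_top)) cw1 s.dF2 z]
    show _ = (star (w z) * (cf w h F).Dw z 1).im
    rw [(cf_Dw s k z).1]
    simp [cur]
  · have e1 : ((GO3.ip ((cf w h F).A z) 1 : ℝ) : ℂ) = gA1 F z := by
      have := ip_A1 (fun z => (F z).re) z
      rw [co_re s.rF] at this
      exact this
    have e2 : ((GO3.ip ((cf w h F).A z) I : ℝ) : ℂ) = gA2 F z := by
      have := ip_A2 (fun z => (F z).re) z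
      rw [co_re s.rF] at this
      exact this
    have hc := classical (sp1.of_le (by exact_mod_cast le_top)) (sp2.of_le (by exact_mod_cast le_top))
      cg s.eq z
    unfold GO3.Cf.divp
    rw [p1, p2, e1, e2]
    have q1 : (cf w h F).p z 1 = pp w h W1 H1 z := congrFun p1 z
    have q2 : (cf w h F).p z I = pp w h W2 H2 z := congrFun p2 z
    rw [q1, q2]
    have hc' : fderiv ℝ (pp w h W1 H1) z 1 + fderiv ℝ (pp w h W2 H2) z I =
        (1 - h z) * w z + I * gA1 F z * pp w h W1 H1 z + I * gA2 F z * pp w h W2 H2 z := hc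
    show _ = ((1 - (h z).re : ℝ) : ℂ) * w z
    rw [Complex.ofReal_sub, hh, Complex.ofReal_one]
    linear_combination hc'

end O3R

namespace GO3

/-- A weak solution with growth has a smooth representative, which solves the Euler-Lagrange equations. -/
theorem reg {w : ℂ → ℂ} {h F : ℂ → ℝ} {W1 W2 : ℂ → ℂ} {H1 H2 : ℂ → ℝ} (s : WSol w h F W1 W2 H1 H2) :
    ∃ c : Cf, ContDiff ℝ ∞ c.w ∧ ContDiff ℝ ∞ c.h ∧ ContDiff ℝ ∞ c.A ∧ c.Rad ∧
      (∀ z, ‖c.w z‖ ^ 2 + c.h z ^ 2 = 1) ∧ c.EL ∧ (∀ z, c.A z = Aof c.F z) ∧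
      c.w =ᵐ[volume] w ∧ c.h =ᵐ[volume] h ∧ c.F =ᵐ[volume] F ∧ c.A =ᵐ[volume] Aof F ∧
      (∀ᵐ z, c.Dw z 1 = W1 z ∧ c.Dw z Complex.I = W2 z) ∧
      ∀ᵐ z, c.dh z 1 = H1 z ∧ c.dh z Complex.I = H2 z := by
  obtain ⟨w', h', F', W1', W2', H1', H2', sw, sh, sF, s1, s2, s3, s4, ew, eh, eF, e1, e2, e3, e4, s'⟩ :=
    (O3R.toSol s).rep
  have k : O3R.Smth w' h' F' W1' W2' H1' H2' := ⟨sw, sh, sF, s1, s2, s3, s4⟩
  obtain ⟨a1, a2, a3⟩ := O3R.cf_smooth s' k
  refine ⟨O3R.cf w' h' F', a1, a2, a3, O3R.cf_rad s' k, O3R.cf_unit s' k, O3R.cf_EL s' k, fun z => ?_,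
    ew.symm, ?_, ?_, ?_, ?_, ?_⟩
  · have : (O3R.cf w' h' F').F = fun z => (F' z).re := funext (O3R.cf_F s' k)
    rw [this]
    rfl
  · filter_upwards [eh] with z hz
    show (h' z).re = h z
    rw [← hz]
    simp [O3R.co]
  · filter_upwards [eF] with z hz
    rw [O3R.cf_F s' k, ← hz]
    simp [O3R.co]
  · have b1 := O3R.gA1_congr eF
    have b2 := O3R.gA2_congr eF
    filter_upwards [b1, b2] with z h1 h2
    rw [O3R.cf_A s', O3R.aof_eq, h1, h2]
  · filter_upwards [e1, e2] with z h1 h2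
    rw [(O3R.cf_Dw s' k z).1, (O3R.cf_Dw s' k z).2, h1, h2]
    exact ⟨rfl, rfl⟩
  · filter_upwards [e3, e4] with z h1 h2
    rw [(O3R.cf_dh s' k z).1, (O3R.cf_dh s' k z).2, ← h1, ← h2]
    simp [O3R.co]

end GO3
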