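import Pool.Agent.GO3.R.Dil1

/-!
# Part R, module Dil2: derivatives of the averages over dilations, the radial gauge (helper30)

PROOFS.
* `avg_fub`: Fubini (`integral_integral_swap`, after `intervalIntegral.integral_of_le`).  Integrability of
  `(t, z) ↦ φ z t ^ a F (t z)` on `(0, 1] × ℂ`: measurable (`dil_null`-type argument or replace `F` by a strongly measurable
  function, both sides do not change), and
  `∫_{(0,1]} t ^ a ∫_{|z| ≤ R} ‖F (t z)‖ dz dt < ∞` since by Cauchy-Schwarz and `avg_sq` (`a ≥ 1`) the function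
  `z ↦ ∫ t ^ a ‖F (t z)‖ dt` is square integrable on `closedBall 0 R`.
* `dil_cov`: change of variables `ζ = t z`: `Measure.integral_comp_smul` (`finrank ℝ ℂ = 2`); no integrability needed.
* `avg_d1`: for a test `ψ`: `∫ ∂₁ψ avg a F = ∫_0^1 t ^ a ∫ ∂₁ψ z F (t z) dz dt` (`avg_fub`); for fixed `t ∈ (0, 1]`, `dil_cov`:
  `∫ ∂₁ψ z F (t z) dz = t⁻² ∫ (∂₁ψ) (ζ / t) F ζ dζ = t⁻² t ∫ ∂₁[ψ (· / t)] F = -t⁻¹ ∫ ψ (ζ / t) F1 ζ dζ = -t ∫ ψ z F1 (t z) dz` (`ψ (· / t)` is a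
  test function; `dil_cov` again).  `avg_d2` is the same.
* `avg_HS`: induction on `m`, with `avg_L2`, `avg_d1`, `avg_d2`.
* `curlA`: for a test `ψ`, `z = x + iy`: `∫ (∂₁ψ x + ∂₂ψ y) avg 1 F = ∫_0^1 t ∫ (D ψ z z) F (t z) dz dt`
  `= ∫_0^1 ∫ t⁻² (D ψ (ζ / t) ζ) F ζ dζ dt` (`dil_cov`; `t t⁻² (D ψ (ζ/t) (ζ/t)) = t⁻² D ψ (ζ/t) ζ`), and `t⁻² D ψ (ζ/t) ζ = -d/dt ψ (ζ / t)`.
  Fubini (the same absolute integrability as in `avg_fub`, with `φ z = D ψ z z`, transported by the change of variables) and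
  `∫_0^1 (-d/dt ψ (ζ / t)) dt = -ψ ζ` for `ζ ≠ 0` (`ψ (ζ / t) = 0` for small `t`, so the integrand vanishes near `0`: it is
  continuous on `[δ, 1]` and zero on `(0, δ]`).
-/

open MeasureTheory Filter Topology Complex Metric
open scoped ContDiff ENNReal NNReal

noncomputable section

namespace O3R

variable {F F1 F2 : ℂ → ℂ}

/-- Change of variables by a dilation. -/
private theorem dil_lint' (g : ℂ → ℝ≥0∞) (hg : Measurable g) {t : ℝ} (ht : 0 < t) :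
    ∫⁻ z : ℂ, g (t * z) = ENNReal.ofReal (t ^ 2)⁻¹ * ∫⁻ z, g z := by
  have h1 := Measure.map_addHaar_smul (volume : Measure ℂ) ht.ne'
  have h2 : ∫⁻ z, g z ∂(Measure.map (fun z : ℂ => t • z) volume) = ∫⁻ z : ℂ, g (t • z) :=
    lintegral_map hg (measurable_const_smul t)
  have h3 : ∀ z : ℂ, g (t * z) = g (t • z) := fun z => by rw [Complex.real_smul]
  simp_rw [h3]
  rw [← h2]
  have h4 : Measure.map (fun z : ℂ => t • z) volume = Measure.map (t • ·) volume := rfl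
  rw [h4, h1, lintegral_smul_measure, Complex.finrank_real_complex,
    abs_of_nonneg (by positivity)]
  rfl

private theorem dil_null2 {N : Set ℂ} (h : volume N = 0) :
    ∀ᵐ q : ℂ × ℝ ∂(volume.prod (volume.restrict (Set.Ioc (0 : ℝ) 1))), ((q.2 : ℝ) : ℂ) * q.1 ∉ N := by
  have hN' : MeasurableSet (toMeasurable volume N) := measurableSet_toMeasurable _ _
  have h0 : volume (toMeasurable volume N) = 0 := by rw [measure_toMeasurable]; exact h
  have hsub : N ⊆ toMeasurable volume N := subset_toMeasurable _ _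
  have hm : Measurable fun q : ℂ × ℝ => ((q.2 : ℝ) : ℂ) * q.1 := by fun_prop
  have hS : MeasurableSet {q : ℂ × ℝ | ((q.2 : ℝ) : ℂ) * q.1 ∈ toMeasurable volume N} := hm hN'
  have key : (volume.prod (volume.restrict (Set.Ioc (0 : ℝ) 1)))
      {q : ℂ × ℝ | ((q.2 : ℝ) : ℂ) * q.1 ∈ toMeasurable volume N} = 0 := by
    rw [Measure.measure_prod_null hS]
    filter_upwards [dil_null h0] with z hz
    have : {t : ℝ | ¬ ((t : ℝ) : ℂ) * z ∉ toMeasurable volume N} =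
        Prod.mk z ⁻¹' {q : ℂ × ℝ | ((q.2 : ℝ) : ℂ) * q.1 ∈ toMeasurable volume N} := by
      ext t
      simp
    rw [← this]
    exact ae_iff.1 hz
  have h2 : ∀ᵐ q : ℂ × ℝ ∂(volume.prod (volume.restrict (Set.Ioc (0 : ℝ) 1))),
      ¬ ((q.2 : ℝ) : ℂ) * q.1 ∈ toMeasurable volume N := by
    rw [ae_iff]
    simpa using key
  filter_upwards [h2] with q hq hN
  exact hq (hsub hN)

private theorem dil_aesm (h : AEStronglyMeasurable F volume) :
    AEStronglyMeasurable (fun q : ℂ × ℝ => F ((q.2 : ℂ) * q.1))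
      (volume.prod (volume.restrict (Set.Ioc (0 : ℝ) 1))) := by
  have h1 : volume {z : ℂ | ¬ F z = (h.mk F) z} = 0 := ae_iff.1 h.ae_eq_mk
  refine ⟨fun q : ℂ × ℝ => (h.mk F) ((q.2 : ℂ) * q.1),
    h.stronglyMeasurable_mk.comp_measurable (by fun_prop), ?_⟩
  filter_upwards [dil_null2 h1] with q hq
  by_contra hc
  exact hq hc

/-- Absolute integrability behind all Fubini arguments. -/
private theorem dil_int (a : ℕ) (ha : 1 ≤ a) (h : L2l F) {φ : ℂ → ℂ} (hφ : Continuous φ)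
    (hc : HasCompactSupport φ) : Integrable (fun q : ℂ × ℝ => φ q.1 * (((q.2 ^ a : ℝ) : ℂ) * F ((q.2 : ℂ) * q.1)))
      (volume.prod (volume.restrict (Set.Ioc (0 : ℝ) 1))) := by
  have hm : AEStronglyMeasurable (fun q : ℂ × ℝ => φ q.1 * (((q.2 ^ a : ℝ) : ℂ) * F ((q.2 : ℂ) * q.1)))
      (volume.prod (volume.restrict (Set.Ioc (0 : ℝ) 1))) := by
    refine AEStronglyMeasurable.mul ?_ (AEStronglyMeasurable.mul ?_ (dil_aesm h.ae))
    · exact (hφ.comp continuous_fst).aestronglyMeasurable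
    · exact (by fun_prop : Continuous fun q : ℂ × ℝ => ((q.2 ^ a : ℝ) : ℂ)).aestronglyMeasurable
  refine ⟨hm, ?_⟩
  obtain ⟨M, hM⟩ := hφ.bounded_above_of_compact_support hc
  obtain ⟨R, hR⟩ := hc.isCompact.isBounded.subset_closedBall (0 : ℂ)
  have hz : ∀ z, z ∉ closedBall (0 : ℂ) R → φ z = 0 := fun z hz =>
    image_eq_zero_of_notMem_tsupport fun hh => hz (hR hh)
  unfold HasFiniteIntegral
  rw [lintegral_prod _ hm.enorm]
  have e1 : ∀ z : ℂ, ∫⁻ t in Set.Ioc (0 : ℝ) 1, ‖φ z * (((t ^ a : ℝ) : ℂ) * F ((t : ℂ) * z))‖ₑ ≤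
      (closedBall (0 : ℂ) R).indicator (fun z => ENNReal.ofReal M *
        ∫⁻ t in Set.Ioc (0 : ℝ) 1, ENNReal.ofReal (t ^ a) * ‖F (t * z)‖ₑ) z := by
    intro z
    by_cases hzR : z ∈ closedBall (0 : ℂ) R
    · rw [Set.indicator_of_mem hzR]
      calc ∫⁻ t in Set.Ioc (0 : ℝ) 1, ‖φ z * (((t ^ a : ℝ) : ℂ) * F ((t : ℂ) * z))‖ₑ
          = ∫⁻ t in Set.Ioc (0 : ℝ) 1, ‖φ z‖ₑ * (ENNReal.ofReal (t ^ a) * ‖F (t * z)‖ₑ) := by
            refine setLIntegral_congr_fun measurableSet_Ioc fun t ht => ?_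
            rw [enorm_mul, enorm_mul, ← ofReal_norm ((t ^ a : ℝ) : ℂ), Complex.norm_real,
              Real.norm_of_nonneg (by have := ht.1; positivity)]
        _ = ‖φ z‖ₑ * ∫⁻ t in Set.Ioc (0 : ℝ) 1, (ENNReal.ofReal (t ^ a) * ‖F (t * z)‖ₑ) :=
            lintegral_const_mul' _ _ enorm_ne_top
        _ ≤ _ := by
            gcongr
            rw [← ofReal_norm]
            exact ENNReal.ofReal_le_ofReal (hM z)
    · rw [Set.indicator_of_notMem hzR]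
      simp [hz z hzR]
  refine lt_of_le_of_lt (lintegral_mono e1) ?_
  rw [lintegral_indicator measurableSet_closedBall]
  rw [lintegral_const_mul' _ _ ENNReal.ofReal_ne_top]
  refine ENNReal.mul_lt_top ENNReal.ofReal_lt_top ?_
  have hR2 : ∫⁻ z in closedBall (0 : ℂ) R, ‖F z‖ₑ ^ 2 < (⊤ : ℝ≥0∞) := by
    have hh := (h R).2
    rw [eLpNorm_lt_top_iff_lintegral_rpow_enorm_lt_top (by norm_num) (by norm_num)] at hh
    refine lt_of_le_of_lt (le_of_eq ?_) hh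
    refine lintegral_congr fun z => ?_
    rw [ENNReal.toReal_ofNat]
    norm_cast
  have hsq := (avg_sq a ha h.ae R).trans_lt hR2
  have hmeas : AEMeasurable (fun z : ℂ => ∫⁻ t in Set.Ioc (0 : ℝ) 1, ENNReal.ofReal (t ^ a) * ‖F (t * z)‖ₑ)
      (volume.restrict (closedBall (0 : ℂ) R)) := by
    have hm2 : AEMeasurable (fun q : ℂ × ℝ => ENNReal.ofReal (q.2 ^ a) * ‖F ((q.2 : ℂ) * q.1)‖ₑ)
        (volume.prod (volume.restrict (Set.Ioc (0 : ℝ) 1))) := by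
      refine AEMeasurable.mul ?_ (dil_aesm h.ae).enorm
      exact (by fun_prop : Measurable fun q : ℂ × ℝ => ENNReal.ofReal (q.2 ^ a)).aemeasurable
    exact hm2.lintegral_prod_right'.restrict
  have h2 : Real.HolderConjugate 2 2 := Real.HolderConjugate.two_two
  have hcs := ENNReal.lintegral_mul_le_Lp_mul_Lq (volume.restrict (closedBall (0 : ℂ) R)) h2 hmeas
    (aemeasurable_const (b := (1 : ℝ≥0∞)))
  simp only [Pi.mul_apply, mul_one, ENNReal.one_rpow] at hcs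
  refine lt_of_le_of_lt hcs ?_
  refine ENNReal.mul_lt_top ?_ ?_
  · refine ENNReal.rpow_lt_top_of_nonneg (by norm_num) ?_
    have e2 : ∫⁻ z in closedBall (0 : ℂ) R,
        (∫⁻ t in Set.Ioc (0 : ℝ) 1, ENNReal.ofReal (t ^ a) * ‖F (t * z)‖ₑ) ^ (2 : ℝ) =
        ∫⁻ z in closedBall (0 : ℂ) R,
        (∫⁻ t in Set.Ioc (0 : ℝ) 1, ENNReal.ofReal (t ^ a) * ‖F (t * z)‖ₑ) ^ 2 := by
      refine lintegral_congr fun z => ?_
      norm_cast
    rw [e2]
    exact hsq.ne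
  · refine ENNReal.rpow_lt_top_of_nonneg (by norm_num) ?_
    rw [lintegral_const, one_mul, Measure.restrict_apply_univ]
    exact measure_closedBall_lt_top.ne

theorem avg_fub (a : ℕ) (ha : 1 ≤ a) (h : L2l F) {φ : ℂ → ℂ} (hφ : Continuous φ)
    (hc : HasCompactSupport φ) : ∫ z, φ z * avg a F z =
      ∫ t in (0 : ℝ)..1, ((t ^ a : ℝ) : ℂ) * ∫ z, φ z * F (t * z) := by
  have hi := dil_int a ha h hφ hc
  rw [intervalIntegral.integral_of_le zero_le_one]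
  calc ∫ z, φ z * avg a F z
      = ∫ z, ∫ t in Set.Ioc (0 : ℝ) 1, φ z * (((t ^ a : ℝ) : ℂ) * F (t * z)) := by
        refine integral_congr_ae (ae_of_all _ fun z => ?_)
        simp only
        rw [integral_const_mul, avg, intervalIntegral.integral_of_le zero_le_one]
    _ = ∫ t in Set.Ioc (0 : ℝ) 1, ∫ z, φ z * (((t ^ a : ℝ) : ℂ) * F (t * z)) :=
        integral_integral_swap hi
    _ = ∫ t in Set.Ioc (0 : ℝ) 1, ((t ^ a : ℝ) : ℂ) * ∫ z, φ z * F (t * z) := by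
        refine integral_congr_ae (ae_of_all _ fun t => ?_)
        simp only
        rw [← integral_const_mul]
        refine integral_congr_ae (ae_of_all _ fun z => ?_)
        simp only
        ring

theorem dil_cov (f : ℂ → ℂ) {t : ℝ} (ht : 0 < t) :
    ∫ z, f (t * z) = ((t ^ 2)⁻¹ : ℝ) * ∫ z, f z := by
  have h1 := Measure.integral_comp_smul_of_nonneg (volume : Measure ℂ) f t (hR := ht.le)
  rw [Complex.finrank_real_complex, Complex.real_smul] at h1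
  rw [← h1]
  simp_rw [Complex.real_smul]

/-- `∂_e u = v` in the weak sense. -/
private def WDe (e : ℂ) (u v : ℂ → ℂ) : Prop := ∀ ψ : ℂ → ℝ, Tst ψ →
  ∫ z, dr e ψ z * u z = -∫ z, (ψ z : ℂ) * v z

private theorem wd1_iff' {u v : ℂ → ℂ} : WD1 u v ↔ WDe 1 u v := by
  constructor
  · intro h ψ hψ
    have := h ψ hψ
    simpa only [mul_zero, add_zero] using this
  · intro h ψ hψ
    have := h ψ hψ
    simpa only [mul_zero, add_zero] using this

private theorem wd2_iff' {u v : ℂ → ℂ} : WD2 u v ↔ WDe I u v := by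
  constructor
  · intro h ψ hψ
    have := h ψ hψ
    simpa only [mul_zero, zero_add] using this
  · intro h ψ hψ
    have := h ψ hψ
    simpa only [mul_zero, zero_add] using this

private theorem tst_dil {ψ : ℂ → ℝ} (hψ : Tst ψ) {t : ℝ} (ht : 0 < t) :
    Tst (fun z => ψ (((t⁻¹ : ℝ) : ℂ) * z)) := by
  have ht' : ((t⁻¹ : ℝ) : ℂ) ≠ 0 := by
    exact_mod_cast (inv_pos.2 ht).ne'
  refine ⟨hψ.smooth.comp (contDiff_const.mul contDiff_id), ?_⟩
  exact hψ.supp.comp_homeomorph (Homeomorph.mulLeft₀ _ ht')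

private theorem dr_dil {ψ : ℂ → ℝ} (hψ : Tst ψ) {t : ℝ} (e z : ℂ) :
    dr e (fun z => ψ (((t⁻¹ : ℝ) : ℂ) * z)) z = ((t⁻¹ : ℝ) : ℂ) * dr e ψ (((t⁻¹ : ℝ) : ℂ) * z) := by
  have h1 : HasFDerivAt ψ (fderiv ℝ ψ (((t⁻¹ : ℝ) : ℂ) * z)) (((t⁻¹ : ℝ) : ℂ) * z) :=
    (hψ.smooth.contDiffAt.differentiableAt (by simp)).hasFDerivAt
  have h2 : HasFDerivAt (fun z : ℂ => ((t⁻¹ : ℝ) : ℂ) * z)
      ((t⁻¹ : ℝ) • ContinuousLinearMap.id ℝ ℂ) z := by
    have : (fun z : ℂ => ((t⁻¹ : ℝ) : ℂ) * z) = fun z : ℂ => (t⁻¹ : ℝ) • z := by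
      funext z
      rw [Complex.real_smul]
    rw [this]
    exact (hasFDerivAt_id z).const_smul (t⁻¹ : ℝ)
  have h3 := (h1.comp z h2).fderiv
  have h4 : fderiv ℝ (fun z => ψ (((t⁻¹ : ℝ) : ℂ) * z)) z =
      (fderiv ℝ ψ (((t⁻¹ : ℝ) : ℂ) * z)).comp ((t⁻¹ : ℝ) • ContinuousLinearMap.id ℝ ℂ) := h3
  unfold dr
  rw [h4]
  simp

private theorem dr_cont {ψ : ℂ → ℝ} (hψ : Tst ψ) (e : ℂ) : Continuous (dr e ψ) :=
  Complex.continuous_ofReal.comp ((hψ.smooth.continuous_fderiv (by simp)).clm_apply continuous_const)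

private theorem dr_supp {ψ : ℂ → ℝ} (hψ : Tst ψ) (e : ℂ) : HasCompactSupport (dr e ψ) :=
  (hψ.supp.fderiv ℝ).comp_left (g := fun L : ℂ →L[ℝ] ℝ => ((L e : ℝ) : ℂ)) (by simp)

private theorem dil_one {e : ℂ} (hd : WDe e F F1) {ψ : ℂ → ℝ} (hψ : Tst ψ) {t : ℝ} (ht : 0 < t) :
    ∫ z, dr e ψ z * F (t * z) = -(t : ℂ) * ∫ z, (ψ z : ℂ) * F1 (t * z) := by
  have ht' : (t : ℂ) ≠ 0 := by exact_mod_cast ht.ne'
  have ei : ∀ z : ℂ, ((t⁻¹ : ℝ) : ℂ) * ((t : ℂ) * z) = z := by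
    intro z
    push_cast
    rw [← mul_assoc, inv_mul_cancel₀ ht', one_mul]
  have h1 : ∫ z, dr e ψ z * F (t * z) =
      ((t ^ 2)⁻¹ : ℝ) * ∫ z, dr e ψ (((t⁻¹ : ℝ) : ℂ) * z) * F z := by
    rw [← dil_cov (fun z => dr e ψ (((t⁻¹ : ℝ) : ℂ) * z) * F z) ht]
    refine integral_congr_ae (ae_of_all _ fun z => ?_)
    simp only
    rw [ei]
  have h2 : ∫ z, (ψ z : ℂ) * F1 (t * z) =
      ((t ^ 2)⁻¹ : ℝ) * ∫ z, (ψ (((t⁻¹ : ℝ) : ℂ) * z) : ℂ) * F1 z := by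
    rw [← dil_cov (fun z => (ψ (((t⁻¹ : ℝ) : ℂ) * z) : ℂ) * F1 z) ht]
    refine integral_congr_ae (ae_of_all _ fun z => ?_)
    simp only
    rw [ei]
  have h3 := hd _ (tst_dil hψ ht)
  have h4 : ∫ z, dr e ψ (((t⁻¹ : ℝ) : ℂ) * z) * F z =
      (t : ℂ) * ∫ z, dr e (fun z => ψ (((t⁻¹ : ℝ) : ℂ) * z)) z * F z := by
    rw [← integral_const_mul]
    refine integral_congr_ae (ae_of_all _ fun z => ?_)
    simp only
    rw [dr_dil hψ]
    push_cast
    field_simp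
  rw [h1, h4, h3, h2]
  ring

private theorem avg_de (a : ℕ) (ha : 1 ≤ a) (h : L2l F) (h1 : L2l F1) {e : ℂ} (hd : WDe e F F1) :
    WDe e (avg a F) (avg (a + 1) F1) := by
  intro ψ hψ
  rw [avg_fub a ha h (dr_cont hψ e) (dr_supp hψ e)]
  have hψc : Continuous fun z => (ψ z : ℂ) := Complex.continuous_ofReal.comp hψ.smooth.continuous
  have hψs : HasCompactSupport fun z => (ψ z : ℂ) :=
    hψ.supp.comp_left (g := fun x : ℝ => (x : ℂ)) Complex.ofReal_zero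
  rw [avg_fub (a + 1) (by omega) h1 hψc hψs, ← intervalIntegral.integral_neg]
  rw [intervalIntegral.integral_of_le zero_le_one, intervalIntegral.integral_of_le zero_le_one]
  refine setIntegral_congr_fun measurableSet_Ioc fun t ht => ?_
  rw [dil_one hd hψ ht.1]
  push_cast
  ring

theorem avg_d1 (a : ℕ) (ha : 1 ≤ a) (h : L2l F) (h1 : L2l F1) (hd : WD1 F F1) :
    WD1 (avg a F) (avg (a + 1) F1) :=
  wd1_iff'.2 (avg_de a ha h h1 (wd1_iff'.1 hd))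

theorem avg_d2 (a : ℕ) (ha : 1 ≤ a) (h : L2l F) (h1 : L2l F2) (hd : WD2 F F2) :
    WD2 (avg a F) (avg (a + 1) F2) :=
  wd2_iff'.2 (avg_de a ha h h1 (wd2_iff'.1 hd))

private theorem HS_l2 (m : ℕ) {u : ℂ → ℂ} (h : HS m u) : L2l u := by
  cases m with
  | zero => exact h
  | succ m => exact h.1

theorem avg_HS (m a : ℕ) (ha : 1 ≤ a) (h : HS m F) : HS m (avg a F) := by
  induction m generalizing a F with
  | zero => exact avg_L2 a ha h
  | succ m ih =>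
    obtain ⟨h0, ⟨v1, hd1, hv1⟩, v2, hd2, hv2⟩ := h
    exact ⟨avg_L2 a ha h0,
      ⟨avg (a + 1) v1, avg_d1 a ha h0 (HS_l2 m hv1) hd1, ih (a + 1) (by omega) hv1⟩,
      avg (a + 1) v2, avg_d2 a ha h0 (HS_l2 m hv2) hd2, ih (a + 1) (by omega) hv2⟩

/-! ### The curl of the radial gauge potential -/

/-- `∂_r`-type factor: `φ z = D ψ (z) z`. -/
private def rad (ψ : ℂ → ℝ) (z : ℂ) : ℝ := fderiv ℝ ψ z z

private theorem rad_cont {ψ : ℂ → ℝ} (hψ : Tst ψ) : Continuous (rad ψ) :=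
  (hψ.smooth.continuous_fderiv (by simp)).clm_apply continuous_id

private theorem rad_zero {ψ : ℂ → ℝ} {z : ℂ} (hz : z ∉ tsupport ψ) : rad ψ z = 0 := by
  have : fderiv ℝ ψ z = 0 := by
    by_contra hc
    exact hz (support_fderiv_subset ℝ hc)
  simp [rad, this]

private theorem rad_supp {ψ : ℂ → ℝ} (hψ : Tst ψ) : HasCompactSupport (rad ψ) :=
  HasCompactSupport.intro hψ.supp fun _ hz => rad_zero hz

/-- The integral in `t`. -/
private theorem t_int {ψ : ℂ → ℝ} (hψ : Tst ψ) {ζ : ℂ} (hζ : ζ ≠ 0) :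
    ∫ t in Set.Ioc (0 : ℝ) 1, t⁻¹ * rad ψ (((t⁻¹ : ℝ) : ℂ) * ζ) = -ψ ζ := by
  obtain ⟨R, hR⟩ := hψ.supp.isCompact.isBounded.subset_closedBall (0 : ℂ)
  have hζ' : 0 < ‖ζ‖ := norm_pos_iff.2 hζ
  obtain ⟨δ, hδ0, hδ1, hδ⟩ : ∃ δ : ℝ, 0 < δ ∧ δ ≤ 1 ∧ δ * (|R| + 1) ≤ ‖ζ‖ := by
    refine ⟨min 1 (‖ζ‖ / (|R| + 1)), by positivity, min_le_left _ _, ?_⟩
    calc min 1 (‖ζ‖ / (|R| + 1)) * (|R| + 1) ≤ (‖ζ‖ / (|R| + 1)) * (|R| + 1) := by
          gcongr; exact min_le_right _ _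
      _ = ‖ζ‖ := by field_simp
  have hout : ∀ t : ℝ, 0 < t → t ≤ δ → ((t⁻¹ : ℝ) : ℂ) * ζ ∉ tsupport ψ := by
    intro t ht0 ht1 hc
    have h1 := hR hc
    rw [mem_closedBall_zero_iff, norm_mul, Complex.norm_real, Real.norm_of_nonneg (by positivity)] at h1
    have h2 : t * (|R| + 1) ≤ ‖ζ‖ := le_trans (by gcongr) hδ
    have h3 : |R| + 1 ≤ t⁻¹ * ‖ζ‖ := by
      rw [inv_mul_eq_div, le_div_iff₀ ht0]
      linarith
    have := le_abs_self R
    linarith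
  have hder : ∀ t : ℝ, t ≠ 0 → HasDerivAt (fun t : ℝ => ψ (((t⁻¹ : ℝ) : ℂ) * ζ))
      (-(t⁻¹ * rad ψ (((t⁻¹ : ℝ) : ℂ) * ζ))) t := by
    intro t ht
    have h1 : HasFDerivAt ψ (fderiv ℝ ψ (((t⁻¹ : ℝ) : ℂ) * ζ)) (((t⁻¹ : ℝ) : ℂ) * ζ) :=
      (hψ.smooth.contDiffAt.differentiableAt (by simp)).hasFDerivAt
    have h2 : HasDerivAt (fun t : ℝ => ((t⁻¹ : ℝ) : ℂ) * ζ) (((-(t ^ 2)⁻¹ : ℝ) : ℂ) * ζ) t :=
      ((hasDerivAt_inv ht).ofReal_comp).mul_const ζ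
    have h3 := h1.comp_hasDerivAt t h2
    have e : (fderiv ℝ ψ (((t⁻¹ : ℝ) : ℂ) * ζ)) (((-(t ^ 2)⁻¹ : ℝ) : ℂ) * ζ) =
        -(t⁻¹ * rad ψ (((t⁻¹ : ℝ) : ℂ) * ζ)) := by
      have e1 : ((-(t ^ 2)⁻¹ : ℝ) : ℂ) * ζ = (-(t⁻¹) : ℝ) • (((t⁻¹ : ℝ) : ℂ) * ζ) := by
        rw [Complex.real_smul]
        push_cast
        field_simp
      rw [e1, map_smul, smul_eq_mul, rad]
      ring
    rw [← e]
    exact h3
  have hcont : ContinuousOn (fun t : ℝ => -(t⁻¹ * rad ψ (((t⁻¹ : ℝ) : ℂ) * ζ))) (Set.uIcc δ 1) := by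
    intro t ht
    rw [Set.uIcc_of_le hδ1] at ht
    have ht0 : t ≠ 0 := (lt_of_lt_of_le hδ0 ht.1).ne'
    have hc1 : ContinuousAt (fun t : ℝ => t⁻¹) t := continuousAt_inv₀ ht0
    have hc2 : ContinuousAt (fun t : ℝ => ((t⁻¹ : ℝ) : ℂ) * ζ) t :=
      (Complex.continuous_ofReal.continuousAt.comp hc1).mul continuousAt_const
    have hc3 : ContinuousAt (fun t : ℝ => rad ψ (((t⁻¹ : ℝ) : ℂ) * ζ)) t :=
      (rad_cont hψ).continuousAt.comp hc2
    exact (hc1.mul hc3).neg.continuousWithinAt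
  have hFTC : ∫ t in δ..1, -(t⁻¹ * rad ψ (((t⁻¹ : ℝ) : ℂ) * ζ)) =
      ψ (((1⁻¹ : ℝ) : ℂ) * ζ) - ψ (((δ⁻¹ : ℝ) : ℂ) * ζ) := by
    refine intervalIntegral.integral_eq_sub_of_hasDerivAt (f := fun t : ℝ => ψ (((t⁻¹ : ℝ) : ℂ) * ζ))
      (fun t ht => ?_) hcont.intervalIntegrable
    rw [Set.uIcc_of_le hδ1] at ht
    exact hder t (lt_of_lt_of_le hδ0 ht.1).ne'
  have hzero : ∀ t ∈ Set.Ioc (0 : ℝ) δ, t⁻¹ * rad ψ (((t⁻¹ : ℝ) : ℂ) * ζ) = 0 := by
    intro t ht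
    rw [rad_zero (hout t ht.1 ht.2), mul_zero]
  have hψδ : ψ (((δ⁻¹ : ℝ) : ℂ) * ζ) = 0 := image_eq_zero_of_notMem_tsupport (hout δ hδ0 le_rfl)
  have hi1 : IntegrableOn (fun t : ℝ => t⁻¹ * rad ψ (((t⁻¹ : ℝ) : ℂ) * ζ)) (Set.Ioc 0 δ) :=
    (integrableOn_zero (s := Set.Ioc (0 : ℝ) δ)).congr_fun (fun t ht => (hzero t ht).symm) measurableSet_Ioc
  have hi2 : IntegrableOn (fun t : ℝ => t⁻¹ * rad ψ (((t⁻¹ : ℝ) : ℂ) * ζ)) (Set.Ioc δ 1) := by
    have := (hcont.intervalIntegrable (μ := volume)).neg.1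
    refine this.congr (ae_of_all _ fun t => ?_)
    simp
  rw [← Set.Ioc_union_Ioc_eq_Ioc hδ0.le hδ1,
    setIntegral_union (Set.Ioc_disjoint_Ioc_of_le le_rfl) measurableSet_Ioc hi1 hi2,
    setIntegral_congr_fun measurableSet_Ioc hzero]
  rw [intervalIntegral.integral_neg, intervalIntegral.integral_of_le hδ1] at hFTC
  rw [hψδ] at hFTC
  simp only [inv_one, Complex.ofReal_one, one_mul, sub_zero] at hFTC
  simp only [integral_zero, zero_add]
  linarith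

private theorem curl_aux (hF : StronglyMeasurable F) (h : L2l F) {ψ : ℂ → ℝ} (hψ : Tst ψ) :
    ∫ z, (rad ψ z : ℂ) * avg 1 F z = -∫ z, (ψ z : ℂ) * F z := by
  have hc : Continuous fun z => (rad ψ z : ℂ) := Complex.continuous_ofReal.comp (rad_cont hψ)
  have hs : HasCompactSupport fun z => (rad ψ z : ℂ) :=
    (rad_supp hψ).comp_left (g := fun x : ℝ => (x : ℂ)) Complex.ofReal_zero
  rw [avg_fub 1 le_rfl h hc hs, intervalIntegral.integral_of_le zero_le_one]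
  have hi := dil_int 1 le_rfl h hc hs
  -- the transported function
  have hm : StronglyMeasurable fun q : ℂ × ℝ => ((q.2⁻¹ * rad ψ (((q.2⁻¹ : ℝ) : ℂ) * q.1) : ℝ) : ℂ) * F q.1 := by
    refine StronglyMeasurable.mul ?_ (hF.comp_measurable measurable_fst)
    have h1 : Measurable fun q : ℂ × ℝ => ((q.2⁻¹ : ℝ) : ℂ) * q.1 := by fun_prop
    have h2 : Measurable fun q : ℂ × ℝ => rad ψ (((q.2⁻¹ : ℝ) : ℂ) * q.1) :=
      (rad_cont hψ).measurable.comp h1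
    have h3 : Measurable fun q : ℂ × ℝ => ((q.2⁻¹ * rad ψ (((q.2⁻¹ : ℝ) : ℂ) * q.1) : ℝ) : ℂ) := by
      fun_prop
    exact h3.stronglyMeasurable
  have ei : ∀ t : ℝ, 0 < t → ∀ z : ℂ, ((t⁻¹ : ℝ) : ℂ) * ((t : ℂ) * z) = z := by
    intro t ht z
    have ht' : (t : ℂ) ≠ 0 := by exact_mod_cast ht.ne'
    push_cast
    rw [← mul_assoc, inv_mul_cancel₀ ht', one_mul]
  have hI : Integrable (fun q : ℂ × ℝ =>
      ((q.2⁻¹ * rad ψ (((q.2⁻¹ : ℝ) : ℂ) * q.1) : ℝ) : ℂ) * F q.1)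
      (volume.prod (volume.restrict (Set.Ioc (0 : ℝ) 1))) := by
    refine ⟨hm.aestronglyMeasurable, ?_⟩
    unfold HasFiniteIntegral
    have h2 := hi.2
    unfold HasFiniteIntegral at h2
    rw [lintegral_prod_symm _ hi.1.enorm] at h2
    rw [lintegral_prod_symm _ hm.aestronglyMeasurable.enorm]
    refine lt_of_le_of_lt (le_of_eq ?_) h2
    refine setLIntegral_congr_fun measurableSet_Ioc fun t ht => ?_
    simp only
    have hmt : Measurable fun z : ℂ =>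
        ‖((t⁻¹ * rad ψ (((t⁻¹ : ℝ) : ℂ) * z) : ℝ) : ℂ) * F z‖ₑ := by
      have := (hm.comp_measurable (measurable_prodMk_right (y := t))).measurable.enorm
      exact this
    have hd := dil_lint' _ hmt ht.1
    have e1 : ∫⁻ z : ℂ, ‖((t⁻¹ * rad ψ (((t⁻¹ : ℝ) : ℂ) * ((t : ℂ) * z)) : ℝ) : ℂ) * F (t * z)‖ₑ =
        ∫⁻ z : ℂ, ENNReal.ofReal (t ^ 2)⁻¹ *
          ‖(rad ψ z : ℂ) * (((t ^ 1 : ℝ) : ℂ) * F ((t : ℂ) * z))‖ₑ := by
      refine lintegral_congr fun z => ?_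
      rw [ei t ht.1 z]
      rw [enorm_mul, enorm_mul, enorm_mul, ← ofReal_norm ((t⁻¹ * rad ψ z : ℝ) : ℂ),
        ← ofReal_norm ((t ^ 1 : ℝ) : ℂ), ← ofReal_norm ((rad ψ z : ℝ) : ℂ), Complex.norm_real,
        Complex.norm_real, Complex.norm_real, Real.norm_eq_abs, Real.norm_eq_abs, Real.norm_eq_abs,
        abs_mul, abs_of_pos (inv_pos.2 ht.1), pow_one, abs_of_pos ht.1]
      rw [← mul_assoc, ← mul_assoc, ← ENNReal.ofReal_mul (by have := ht.1; positivity),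
        ← ENNReal.ofReal_mul (by have := ht.1; positivity)]
      congr 2
      have := ht.1.ne'
      field_simp
    rw [e1, lintegral_const_mul' _ _ ENNReal.ofReal_ne_top] at hd
    have h0 : ENNReal.ofReal (t ^ 2)⁻¹ ≠ 0 := by
      rw [Ne, ENNReal.ofReal_eq_zero, not_le]
      have := ht.1
      positivity
    exact ((ENNReal.mul_right_inj h0 ENNReal.ofReal_ne_top).1 hd).symm
  calc ∫ t in Set.Ioc (0 : ℝ) 1, ((t ^ 1 : ℝ) : ℂ) * ∫ z, (rad ψ z : ℂ) * F (t * z)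
      = ∫ t in Set.Ioc (0 : ℝ) 1, ∫ z,
          ((t⁻¹ * rad ψ (((t⁻¹ : ℝ) : ℂ) * z) : ℝ) : ℂ) * F z := by
        refine setIntegral_congr_fun measurableSet_Ioc fun t ht => ?_
        have h1 : ∫ z, (rad ψ z : ℂ) * F (t * z) =
            ((t ^ 2)⁻¹ : ℝ) * ∫ z, (rad ψ (((t⁻¹ : ℝ) : ℂ) * z) : ℂ) * F z := by
          rw [← dil_cov (fun z => (rad ψ (((t⁻¹ : ℝ) : ℂ) * z) : ℂ) * F z) ht.1]
          refine integral_congr_ae (ae_of_all _ fun z => ?_)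
          simp only
          rw [ei t ht.1 z]
        rw [h1, ← mul_assoc, ← integral_const_mul]
        refine integral_congr_ae (ae_of_all _ fun z => ?_)
        simp only
        have ht' : (t : ℂ) ≠ 0 := by exact_mod_cast ht.1.ne'
        push_cast
        field_simp
    _ = ∫ z, ∫ t in Set.Ioc (0 : ℝ) 1,
          ((t⁻¹ * rad ψ (((t⁻¹ : ℝ) : ℂ) * z) : ℝ) : ℂ) * F z :=
        (integral_integral_swap hI).symm
    _ = ∫ z, -((ψ z : ℂ) * F z) := by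
        have hne : ∀ᵐ z : ℂ, z ≠ 0 := by
          have : volume ({0} : Set ℂ) = 0 := measure_singleton 0
          exact compl_mem_ae_iff.2 this
        refine integral_congr_ae ?_
        filter_upwards [hne] with z hz
        rw [integral_mul_const, integral_complex_ofReal, t_int hψ hz]
        push_cast
        ring
    _ = -∫ z, (ψ z : ℂ) * F z := integral_neg _

/-- The curl of the radial gauge potential is `F`. -/
theorem curlA (h : L2l F) : WDiv (gA2 F) (fun z => -gA1 F z) F := by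
  have hae := h.ae
  have e0 : F =ᵐ[volume] hae.mk F := hae.ae_eq_mk
  have hk : L2l (hae.mk F) := h.congr e0
  have main : WDiv (gA2 (hae.mk F)) (fun z => -gA1 (hae.mk F) z) (hae.mk F) := by
    intro ψ hψ
    rw [← curl_aux hae.stronglyMeasurable_mk hk hψ]
    refine integral_congr_ae (ae_of_all _ fun z => ?_)
    simp only [gA1, gA2, dr, rad]
    have e1 : fderiv ℝ ψ z z = z.re * fderiv ℝ ψ z 1 + z.im * fderiv ℝ ψ z I := by
      have hz : z = z.re • (1 : ℂ) + z.im • I := by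
        apply Complex.ext <;> simp
      conv_lhs => rw [hz]
      rw [← hz]
      have : (fderiv ℝ ψ z) (z.re • (1 : ℂ) + z.im • I) =
          z.re * fderiv ℝ ψ z 1 + z.im * fderiv ℝ ψ z I := by
        rw [map_add, map_smul, map_smul, smul_eq_mul, smul_eq_mul]
      rw [← this, ← hz]
    rw [e1]
    push_cast
    ring
  refine wdiv_congr main (gA2_congr e0).symm ?_ e0.symm
  filter_upwards [gA1_congr e0] with z hz
  rw [hz]

end O3R
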