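import Pool.Agent.GO3.R.Prod
import Pool.Agent.GO3.R.Dil2

/-!
# Part R, module Alg1: pointwise identities and classes of the fields (helper30)

Notation: `X_k = pp w h W_k H_k = h W_k - w H_k`, `j_k = cur w W_k`, `A_k = gA_k F`.

PROOFS.
* `norm_le`: `‖w‖² ≤ 1`, `|h| ≤ 1` from `unit` (`h z = ((h z).re : ℂ)`).
* `bw`, `bh`: `Bdl` from `norm_le`; `lX1`, `lX2`, `lj1`, `lj2`: bounded times `L²` (`‖cur w W z‖ ≤ ‖w z‖ ‖W z‖`).
* `W_eq`: pointwise, with `a = conj w W`, `a.re = -h H` and `‖w‖² + h² = 1`: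
  `h (h W - w H) + i w (Im a) = h² W - w h H + i w Im a = (1 - ‖w‖²) W + w (Re a + i Im a) = W - ‖w‖² W + w conj w W = W`.
* `H_eq`: `Re (conj w (h W - w H)) = h Re a - ‖w‖² H = -h² H - ‖w‖² H = -H`.
* `divH_pt`: with `A_1, A_2` real:
  `Re (conj (W_k + i A_k w) X_k + conj w ((1-h) w + i A_k X_k)) = Re (conj W_k X_k) + (1-h) ‖w‖²` (sum over `k`), and
  `Re (conj W_k X_k) = h ‖W_k‖² - H_k Re (conj W_k w) = h ‖W_k‖² + h H_k²`.  So minus the sum is `fH`.
* `divW_pt`: `H_k X_k + h ((1-h) w + i A_k X_k) + i (W_k + i A_k w) j_k = fW` using `h X_k + i w j_k = W_k` (`W_eq`).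
-/

open MeasureTheory Filter Topology Complex Metric
open scoped ContDiff ENNReal NNReal

noncomputable section

namespace O3R

variable {w h F W1 W2 H1 H2 : ℂ → ℂ} {κ : ℝ}

theorem Sol.norm_le (s : Sol w h F W1 W2 H1 H2 κ) : ∀ᵐ z, ‖w z‖ ≤ 1 ∧ ‖h z‖ ≤ 1 := by
  filter_upwards [s.unit] with z hz
  have h1 : h z = ((h z).re : ℂ) := by
    apply Complex.ext
    · simp
    · simp [s.rh z]
  have h2 : ‖h z‖ ^ 2 = (h z).re ^ 2 := by
    rw [h1, Complex.norm_real, Real.norm_eq_abs, sq_abs, Complex.ofReal_re]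
  constructor
  · nlinarith [norm_nonneg (w z), sq_nonneg (h z).re]
  · nlinarith [norm_nonneg (h z), sq_nonneg ‖w z‖]

theorem Sol.bw (s : Sol w h F W1 W2 H1 H2 κ) : Bdl w := by
  refine ⟨s.mw, fun R => ⟨1, ?_⟩⟩
  filter_upwards [s.norm_le] with z hz _
  exact hz.1

theorem Sol.bh (s : Sol w h F W1 W2 H1 H2 κ) : Bdl h := by
  refine ⟨s.mh, fun R => ⟨1, ?_⟩⟩
  filter_upwards [s.norm_le] with z hz _
  exact hz.2

private theorem alg1_cur (hw : AEStronglyMeasurable w volume) (hw1 : ∀ᵐ z, ‖w z‖ ≤ 1)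
    (hW : L2l W1) : L2l (cur w W1) := by
  have hm : AEStronglyMeasurable (cur w W1) volume := by
    unfold cur
    exact Complex.continuous_ofReal.comp_aestronglyMeasurable
      (Complex.continuous_im.comp_aestronglyMeasurable
        ((Complex.continuous_conj.comp_aestronglyMeasurable hw).mul hW.ae))
  refine L2l.of_le hW hm ?_
  filter_upwards [hw1] with z hz
  unfold cur
  rw [Complex.norm_real, Real.norm_eq_abs]
  refine le_trans (Complex.abs_im_le_norm _) ?_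
  rw [norm_mul, RCLike.norm_conj]
  have := mul_le_mul_of_nonneg_right hz (norm_nonneg (W1 z))
  linarith

private theorem alg1_pp (hw : Bdl w) (hh : Bdl h) (hW : L2l W1) (hH : L2l H1) :
    L2l (pp w h W1 H1) := by
  have h1 := (hh.mul_l2 hW).add ((hw.mul_l2 hH).cmul (-1))
  have h2 : (fun z => h z * W1 z + -1 * (w z * H1 z)) = pp w h W1 H1 := by
    funext z
    unfold pp
    ring
  rw [← h2]
  exact h1

theorem Sol.lj1 (s : Sol w h F W1 W2 H1 H2 κ) : L2l (cur w W1) :=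
  alg1_cur s.mw (s.norm_le.mono fun _ hz => hz.1) s.lW1

theorem Sol.lj2 (s : Sol w h F W1 W2 H1 H2 κ) : L2l (cur w W2) :=
  alg1_cur s.mw (s.norm_le.mono fun _ hz => hz.1) s.lW2

theorem Sol.lX1 (s : Sol w h F W1 W2 H1 H2 κ) : L2l (pp w h W1 H1) :=
  alg1_pp s.bw s.bh s.lW1 s.lH1

theorem Sol.lX2 (s : Sol w h F W1 W2 H1 H2 κ) : L2l (pp w h W2 H2) :=
  alg1_pp s.bw s.bh s.lW2 s.lH2

private theorem alg1_sq (w : ℂ) : ‖w‖ ^ 2 = w.re * w.re + w.im * w.im := by
  rw [Complex.sq_norm, Complex.normSq_apply]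

/-- Pointwise: decomposition of a tangent vector. -/
theorem W_eq {w h W H : ℂ} (hh : h.im = 0) (hH : H.im = 0) (hu : ‖w‖ ^ 2 + h.re ^ 2 = 1)
    (ht : ((starRingEnd ℂ) w * W).re + h.re * H.re = 0) :
    h * (h * W - w * H) + I * (w * (((starRingEnd ℂ) w * W).im : ℂ)) = W := by
  rw [alg1_sq] at hu
  simp only [Complex.mul_re, Complex.conj_re, Complex.conj_im] at ht
  apply Complex.ext
  · simp only [Complex.add_re, Complex.mul_re, Complex.sub_re, Complex.sub_im, Complex.mul_im,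
      Complex.I_re, Complex.I_im, Complex.ofReal_re, Complex.ofReal_im, Complex.conj_re,
      Complex.conj_im, hh, hH]
    linear_combination W.re * hu - w.re * ht
  · simp only [Complex.add_im, Complex.mul_re, Complex.sub_re, Complex.sub_im, Complex.mul_im,
      Complex.I_re, Complex.I_im, Complex.ofReal_re, Complex.ofReal_im, Complex.conj_re,
      Complex.conj_im, hh, hH]
    linear_combination W.im * hu - w.im * ht

theorem H_eq {w h W H : ℂ} (hh : h.im = 0) (hH : H.im = 0) (hu : ‖w‖ ^ 2 + h.re ^ 2 = 1)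
    (ht : ((starRingEnd ℂ) w * W).re + h.re * H.re = 0) :
    -((((starRingEnd ℂ) w * (h * W - w * H)).re : ℝ) : ℂ) = H := by
  rw [alg1_sq] at hu
  simp only [Complex.mul_re, Complex.conj_re, Complex.conj_im] at ht
  apply Complex.ext
  · simp only [Complex.neg_re, Complex.mul_re, Complex.sub_re, Complex.sub_im, Complex.mul_im,
      Complex.ofReal_re, Complex.conj_re, Complex.conj_im, hh, hH]
    linear_combination H.re * hu - h.re * ht
  · simp [hH]

theorem divH_pt {w h A1 A2 W1 W2 H1 H2 : ℂ} (hh : h.im = 0) (hH1 : H1.im = 0) (hH2 : H2.im = 0)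
    (hA1 : A1.im = 0) (hA2 : A2.im = 0)
    (ht1 : ((starRingEnd ℂ) w * W1).re + h.re * H1.re = 0)
    (ht2 : ((starRingEnd ℂ) w * W2).re + h.re * H2.re = 0) :
    -((((starRingEnd ℂ) (W1 + I * A1 * w) * (h * W1 - w * H1) +
        (starRingEnd ℂ) (W2 + I * A2 * w) * (h * W2 - w * H2) +
        (starRingEnd ℂ) w * ((1 - h) * w + I * A1 * (h * W1 - w * H1) +
          I * A2 * (h * W2 - w * H2))).re : ℝ) : ℂ) =
      -(h * ((‖W1‖ ^ 2 + ‖W2‖ ^ 2 + ‖H1‖ ^ 2 + ‖H2‖ ^ 2 : ℝ) : ℂ)) - (1 - h) * ((‖w‖ ^ 2 : ℝ) : ℂ) := by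
  rw [alg1_sq, alg1_sq, alg1_sq, alg1_sq, alg1_sq]
  simp only [Complex.mul_re, Complex.conj_re, Complex.conj_im] at ht1 ht2
  apply Complex.ext
  · simp only [Complex.neg_re, Complex.mul_re, Complex.sub_re, Complex.sub_im, Complex.mul_im,
      Complex.ofReal_re, Complex.ofReal_im, Complex.conj_re, Complex.conj_im, hh, hH1, hH2,
      hA1, hA2, Complex.add_re, Complex.add_im, Complex.I_re, Complex.I_im, Complex.one_re,
      Complex.one_im]
    linear_combination H1.re * ht1 + H2.re * ht2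
  · simp only [Complex.neg_im, Complex.sub_im, Complex.mul_im, Complex.ofReal_re,
      Complex.ofReal_im, hh, Complex.sub_re, Complex.one_re, Complex.one_im]
    ring

theorem divW_pt {w h A1 A2 W1 W2 H1 H2 : ℂ} (hh : h.im = 0) (hH1 : H1.im = 0) (hH2 : H2.im = 0)
    (hu : ‖w‖ ^ 2 + h.re ^ 2 = 1)
    (ht1 : ((starRingEnd ℂ) w * W1).re + h.re * H1.re = 0)
    (ht2 : ((starRingEnd ℂ) w * W2).re + h.re * H2.re = 0) :
    (H1 * (h * W1 - w * H1) + H2 * (h * W2 - w * H2) + h * ((1 - h) * w + I * A1 * (h * W1 - w * H1) +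
        I * A2 * (h * W2 - w * H2))) +
      I * ((W1 + I * A1 * w) * (((starRingEnd ℂ) w * W1).im : ℂ) +
        (W2 + I * A2 * w) * (((starRingEnd ℂ) w * W2).im : ℂ)) =
    H1 * (h * W1 - w * H1) + H2 * (h * W2 - w * H2) + h * (1 - h) * w +
      I * (W1 * (((starRingEnd ℂ) w * W1).im : ℂ) + W2 * (((starRingEnd ℂ) w * W2).im : ℂ)) +
      I * (A1 * W1 + A2 * W2) := by
  have e1 := W_eq hh hH1 hu ht1
  have e2 := W_eq hh hH2 hu ht2
  linear_combination (I * A1) * e1 + (I * A2) * e2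

end O3R
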