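import Pool.Agent.GO3.R.Alg1

/-!
# Part R, module Alg2: divergence and curl of `(H₁, H₂)` and `(W₁, W₂)` (helper30)

Notation: `X_k = pp w h W_k H_k`, `j_k = cur w W_k`, `A_k = gA_k F` (in `L²_loc` by `gA1_L2`, `gA2_L2`, real by `gA1_real`).

PROOFS.
* `lfH`, `lfW`, `lgW`: products of two `L²_loc` functions are `L¹_loc`; bounded factors.
* `curlH`: `wd_curl` for `h`.
* `divj`: `wd_curl` for `F`: `∂₁F = -j₂`, `∂₂F = j₁`: `WDiv j₁ (-(-j₂)) 0`.
* `divH`: `wdiv_mul_bd` with `u = conj w` (derivatives `conj (W_k + i A_k w)`, from `wdiv_conj`), field `(X₁, X₂)`, `s.eq`; real part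
  (`wdiv_re`), times `-1` (`wdiv_cmul`); `H_k = -Re (conj w X_k)` (`H_eq`) and `divH_pt`, `wdiv_congr`.
* `divW`: `wdiv_mul_bd` with `u = h` (derivatives `H_k`) and the field `(X₁, X₂)`; `wdiv_mul_bd` with `u = w` (derivatives
  `W_k + i A_k w`) and the field `(j₁, j₂)` (`divj`), times `i`; sum; `W_k = h X_k + i w j_k` (`W_eq`), `divW_pt`, `wdiv_congr`.
* `curlW`: `wd_curl` for `w`: `WDiv (W₂ + i A₂ w) (-(W₁ + i A₁ w)) 0`; `wdiv_mul_bd` with `u = w` and the field `(A₂, -A₁)` with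
  divergence `F` (`curlA`): `WDiv (w A₂) (-w A₁) ((W₁ + i A₁ w) A₂ - (W₂ + i A₂ w) A₁ + w F)`; subtract `i` times the second from the
  first.
-/

open MeasureTheory Filter Topology Complex Metric
open scoped ContDiff ENNReal NNReal

noncomputable section

namespace O3R

variable {w h F W1 W2 H1 H2 : ℂ → ℂ} {κ : ℝ}

private theorem nsq (z : ℂ) : ((‖z‖ ^ 2 : ℝ) : ℂ) = (starRingEnd ℂ) z * z := by
  rw [Complex.conj_mul']
  push_cast
  rfl

private theorem Sol.lD1 (s : Sol w h F W1 W2 H1 H2 κ) : L2l (fun z => W1 z + I * gA1 F z * w z) := by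
  refine s.lW1.add (L2l.congr (s.bw.mul_l2 ((gA1_L2 s.lF).cmul I)) (Eventually.of_forall fun z => ?_))
  show w z * (I * gA1 F z) = I * gA1 F z * w z
  ring

private theorem Sol.lD2 (s : Sol w h F W1 W2 H1 H2 κ) : L2l (fun z => W2 z + I * gA2 F z * w z) := by
  refine s.lW2.add (L2l.congr (s.bw.mul_l2 ((gA2_L2 s.lF).cmul I)) (Eventually.of_forall fun z => ?_))
  show w z * (I * gA2 F z) = I * gA2 F z * w z
  ring

private theorem Sol.lG (s : Sol w h F W1 W2 H1 H2 κ) : L1l (fun z => (1 - h z) * w z +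
    I * gA1 F z * pp w h W1 H1 z + I * gA2 F z * pp w h W2 H2 z) := by
  have h1 : L1l (fun z => (1 - h z) * w z) := by
    have : Bdl (fun z => 1 - h z) := by
      refine Bdl.congr ((bdl_const 1).add (s.bh.cmul (-1))) (Eventually.of_forall fun z => ?_)
      show 1 + -1 * h z = 1 - h z
      ring
    exact (this.mul s.bw).l1
  have h2 : L1l (fun z => I * gA1 F z * pp w h W1 H1 z) := ((gA1_L2 s.lF).cmul I).mul s.lX1
  have h3 : L1l (fun z => I * gA2 F z * pp w h W2 H2 z) := ((gA2_L2 s.lF).cmul I).mul s.lX2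
  exact (h1.add h2).add h3

theorem Sol.lfH (s : Sol w h F W1 W2 H1 H2 κ) : L1l (fH w h W1 W2 H1 H2) := by
  have h1 : L1l (fun z => h z * ((starRingEnd ℂ) (W1 z) * W1 z + (starRingEnd ℂ) (W2 z) * W2 z +
      (starRingEnd ℂ) (H1 z) * H1 z + (starRingEnd ℂ) (H2 z) * H2 z)) :=
    s.bh.mul_l1 ((((s.lW1.conj.mul s.lW1).add (s.lW2.conj.mul s.lW2)).add
      (s.lH1.conj.mul s.lH1)).add (s.lH2.conj.mul s.lH2))
  have hb : Bdl (fun z => 1 - h z) := by
    refine Bdl.congr ((bdl_const 1).add (s.bh.cmul (-1))) (Eventually.of_forall fun z => ?_)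
    show 1 + -1 * h z = 1 - h z
    ring
  have h2 : L1l (fun z => (1 - h z) * ((starRingEnd ℂ) (w z) * w z)) :=
    (hb.mul (s.bw.conj.mul s.bw)).l1
  refine L1l.congr ((h1.cmul (-1)).add (h2.cmul (-1))) (Eventually.of_forall fun z => ?_)
  show -1 * (h z * ((starRingEnd ℂ) (W1 z) * W1 z + (starRingEnd ℂ) (W2 z) * W2 z +
      (starRingEnd ℂ) (H1 z) * H1 z + (starRingEnd ℂ) (H2 z) * H2 z)) +
      -1 * ((1 - h z) * ((starRingEnd ℂ) (w z) * w z)) = fH w h W1 W2 H1 H2 z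
  unfold fH
  rw [← nsq, ← nsq, ← nsq, ← nsq, ← nsq]
  push_cast
  ring

theorem Sol.lfW (s : Sol w h F W1 W2 H1 H2 κ) : L1l (fW w h F W1 W2 H1 H2) := by
  have hb : Bdl (fun z => 1 - h z) := by
    refine Bdl.congr ((bdl_const 1).add (s.bh.cmul (-1))) (Eventually.of_forall fun z => ?_)
    show 1 + -1 * h z = 1 - h z
    ring
  have h1 : L1l (fun z => H1 z * pp w h W1 H1 z) := s.lH1.mul s.lX1
  have h2 : L1l (fun z => H2 z * pp w h W2 H2 z) := s.lH2.mul s.lX2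
  have h3 : L1l (fun z => h z * (1 - h z) * w z) := ((s.bh.mul hb).mul s.bw).l1
  have h4 : L1l (fun z => I * (W1 z * cur w W1 z + W2 z * cur w W2 z)) :=
    ((s.lW1.mul s.lj1).add (s.lW2.mul s.lj2)).cmul I
  have h5 : L1l (fun z => I * (gA1 F z * W1 z + gA2 F z * W2 z)) :=
    (((gA1_L2 s.lF).mul s.lW1).add ((gA2_L2 s.lF).mul s.lW2)).cmul I
  exact (((h1.add h2).add h3).add h4).add h5

theorem Sol.lgW (s : Sol w h F W1 W2 H1 H2 κ) : L1l (gW w F W1 W2) := by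
  have h1 : L1l (fun z => w z * F z) := (s.bw.mul_l2 s.lF).l1
  have h2 : L1l (fun z => gA2 F z * W1 z) := (gA2_L2 s.lF).mul s.lW1
  have h3 : L1l (fun z => gA1 F z * W2 z) := (gA1_L2 s.lF).mul s.lW2
  refine L1l.congr (((h1.add h2).add (h3.cmul (-1))).cmul (-I)) (Eventually.of_forall fun z => ?_)
  show -I * (w z * F z + gA2 F z * W1 z + -1 * (gA1 F z * W2 z)) = gW w F W1 W2 z
  unfold gW
  ring

theorem Sol.curlH (s : Sol w h F W1 W2 H1 H2 κ) : WDiv H2 (fun z => -H1 z) (fun _ => 0) :=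
  wd_curl s.bh.l1 s.lH1.l1 s.lH2.l1 s.dh1 s.dh2

theorem Sol.divj (s : Sol w h F W1 W2 H1 H2 κ) : WDiv (cur w W1) (cur w W2) (fun _ => 0) := by
  have h0 : L1l (fun z => -cur w W2 z) := by
    refine L1l.congr (s.lj2.l1.cmul (-1)) (Eventually.of_forall fun z => ?_)
    show -1 * cur w W2 z = -cur w W2 z
    ring
  have h1 := wd_curl s.lF.l1 h0 s.lj1.l1 s.dF1 s.dF2
  refine wdiv_congr h1 (Eventually.of_forall fun z => rfl) (Eventually.of_forall fun z => ?_)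
    (Eventually.of_forall fun z => rfl)
  exact neg_neg _

private theorem wd1_conj {u v : ℂ → ℂ} (h : WD1 u v) :
    WD1 (fun z => (starRingEnd ℂ) (u z)) (fun z => (starRingEnd ℂ) (v z)) := by
  have h1 := wdiv_conj h
  refine wdiv_congr h1 (Eventually.of_forall fun z => rfl) (Eventually.of_forall fun z => ?_)
    (Eventually.of_forall fun z => rfl)
  exact map_zero _

private theorem wd2_conj {u v : ℂ → ℂ} (h : WD2 u v) :
    WD2 (fun z => (starRingEnd ℂ) (u z)) (fun z => (starRingEnd ℂ) (v z)) := by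
  have h1 := wdiv_conj h
  refine wdiv_congr h1 (Eventually.of_forall fun z => ?_) (Eventually.of_forall fun z => rfl)
    (Eventually.of_forall fun z => rfl)
  exact map_zero _

theorem Sol.divH (s : Sol w h F W1 W2 H1 H2 κ) : WDiv H1 H2 (fH w h W1 W2 H1 H2) := by
  have hb := s.bw.conj
  have h1 := wdiv_mul_bd hb s.lD1.conj s.lD2.conj (wd1_conj s.dw1) (wd2_conj s.dw2) s.lX1 s.lX2
    s.lG s.eq
  have lg := ((s.lD1.conj.mul s.lX1).add (s.lD2.conj.mul s.lX2)).add (hb.mul_l1 s.lG)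
  have h2 := wdiv_re (hb.mul_l2 s.lX1).l1 (hb.mul_l2 s.lX2).l1 lg h1
  have h3 := wdiv_cmul (-1) h2
  refine wdiv_congr h3 ?_ ?_ ?_
  · filter_upwards [s.unit, s.tan1] with z hu ht
    have := H_eq (s.rh z) (s.rH1 z) hu ht
    rw [neg_one_mul]
    exact this
  · filter_upwards [s.unit, s.tan2] with z hu ht
    have := H_eq (s.rh z) (s.rH2 z) hu ht
    rw [neg_one_mul]
    exact this
  · filter_upwards [s.tan1, s.tan2] with z ht1 ht2
    have := divH_pt (s.rh z) (s.rH1 z) (s.rH2 z) (gA1_real s.rF z) (gA2_real s.rF z) ht1 ht2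
    rw [neg_one_mul]
    exact this

theorem Sol.divW (s : Sol w h F W1 W2 H1 H2 κ) : WDiv W1 W2 (fW w h F W1 W2 H1 H2) := by
  have h1 := wdiv_mul_bd s.bh s.lH1 s.lH2 s.dh1 s.dh2 s.lX1 s.lX2 s.lG s.eq
  have l1 := ((s.lH1.mul s.lX1).add (s.lH2.mul s.lX2)).add (s.bh.mul_l1 s.lG)
  have lz : L1l (fun _ : ℂ => (0 : ℂ)) := (bdl_const 0).l1
  have h2 := wdiv_mul_bd s.bw s.lD1 s.lD2 s.dw1 s.dw2 s.lj1 s.lj2 lz s.divj
  have l2 := ((s.lD1.mul s.lj1).add (s.lD2.mul s.lj2)).add (s.bw.mul_l1 lz)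
  have h3 := wdiv_cmul I h2
  have h4 := wdiv_add (s.bh.mul_l2 s.lX1).l1 (s.bh.mul_l2 s.lX2).l1 l1
    ((s.bw.mul_l2 s.lj1).l1.cmul I) ((s.bw.mul_l2 s.lj2).l1.cmul I) (l2.cmul I) h1 h3
  refine wdiv_congr h4 ?_ ?_ ?_
  · filter_upwards [s.unit, s.tan1] with z hu ht
    exact W_eq (s.rh z) (s.rH1 z) hu ht
  · filter_upwards [s.unit, s.tan2] with z hu ht
    exact W_eq (s.rh z) (s.rH2 z) hu ht
  · filter_upwards [s.unit, s.tan1, s.tan2] with z hu ht1 ht2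
    have := divW_pt (A1 := gA1 F z) (A2 := gA2 F z) (s.rh z) (s.rH1 z) (s.rH2 z) hu ht1 ht2
    rw [mul_zero, add_zero]
    exact this

theorem Sol.curlW (s : Sol w h F W1 W2 H1 H2 κ) : WDiv W2 (fun z => -W1 z) (gW w F W1 W2) := by
  have h1 := wd_curl s.bw.l1 s.lD1.l1 s.lD2.l1 s.dw1 s.dw2
  have lA1 : L2l (fun z => -gA1 F z) := by
    refine L2l.congr ((gA1_L2 s.lF).cmul (-1)) (Eventually.of_forall fun z => ?_)
    show -1 * gA1 F z = -gA1 F z
    ring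
  have h2 := wdiv_mul_bd s.bw s.lD1 s.lD2 s.dw1 s.dw2 (gA2_L2 s.lF) lA1 s.lF.l1 (curlA s.lF)
  have l2 := ((s.lD1.mul (gA2_L2 s.lF)).add (s.lD2.mul lA1)).add (s.bw.mul_l1 s.lF.l1)
  have h3 := wdiv_cmul (-I) h2
  have lz : L1l (fun _ : ℂ => (0 : ℂ)) := (bdl_const 0).l1
  have lD1' : L1l (fun z => -(W1 z + I * gA1 F z * w z)) := by
    refine L1l.congr (s.lD1.l1.cmul (-1)) (Eventually.of_forall fun z => ?_)
    show -1 * (W1 z + I * gA1 F z * w z) = -(W1 z + I * gA1 F z * w z)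
    ring
  have h4 := wdiv_add s.lD2.l1 lD1' lz ((s.bw.mul_l2 (gA2_L2 s.lF)).l1.cmul (-I))
    ((s.bw.mul_l2 lA1).l1.cmul (-I)) (l2.cmul (-I)) h1 h3
  refine wdiv_congr h4 (Eventually.of_forall fun z => ?_) (Eventually.of_forall fun z => ?_)
    (Eventually.of_forall fun z => ?_)
  · show W2 z + I * gA2 F z * w z + -I * (w z * gA2 F z) = W2 z
    ring
  · show -(W1 z + I * gA1 F z * w z) + -I * (w z * -gA1 F z) = -W1 z
    ring
  · show 0 + -I * ((W1 z + I * gA1 F z * w z) * gA2 F z +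
      (W2 z + I * gA2 F z * w z) * -gA1 F z + w z * F z) = gW w F W1 W2 z
    unfold gW
    ring

end O3R
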