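import Pool.Agent.GO3.R.Defs

/-!
# Part R, module Bas1: the classes `L1l`, `L2l`, `Bdl` (helper30)

PROOFS.  Everything is local: `volume.restrict (closedBall 0 R)` is a finite measure.
* `L1l.ae`, `L2l.ae`: a function that is a.e. strongly measurable on every `closedBall 0 n` is a.e. strongly
  measurable (`aestronglyMeasurable_iUnion_iff`, `⋃ n, closedBall 0 n = univ`, `Measure.restrict_univ`).
* `L1l.loc`: every compact set lies in some `closedBall 0 R` (`locallyIntegrable_iff`).
* `L2l.l1`: `MemLp.integrable` with `one_le_two` on a finite measure.  `Bdl.l2`: `MemLp.of_bound`.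
* `bdl_cont`: `(isCompact_closedBall 0 R).exists_bound_of_continuousOn`.
* `congr`: `MemLp.ae_eq`, `Integrable.congr` with `ae_restrict_of_ae`.
* the closure lemmas: the corresponding lemmas of `MemLp`, `Integrable`; conjugation is an isometry
  (`RCLike.norm_conj`, continuity of `starRingEnd ℂ`), e.g. `MemLp.of_le`/`MemLp.mono` and `Integrable.mono`.
-/

open MeasureTheory Filter Topology Complex Metric
open scoped ContDiff ENNReal NNReal

noncomputable section

namespace O3R

variable {u v : ℂ → ℂ} {ψ : ℂ → ℝ}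

private theorem ae_aux (h : ∀ n : ℕ,
    AEStronglyMeasurable u (volume.restrict (closedBall (0 : ℂ) n))) :
    AEStronglyMeasurable u volume := by
  have h1 : AEStronglyMeasurable u (volume.restrict (⋃ n : ℕ, closedBall (0 : ℂ) n)) :=
    aestronglyMeasurable_iUnion_iff.2 h
  rw [iUnion_closedBall_nat, Measure.restrict_univ] at h1
  exact h1

private theorem fin_aux (R : ℝ) : IsFiniteMeasure (volume.restrict (closedBall (0 : ℂ) R)) :=
  ⟨by rw [Measure.restrict_apply_univ]; exact measure_closedBall_lt_top⟩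

theorem L1l.ae (h : L1l u) : AEStronglyMeasurable u volume :=
  ae_aux fun n => (h n).aestronglyMeasurable

theorem L2l.ae (h : L2l u) : AEStronglyMeasurable u volume :=
  ae_aux fun n => (h n).aestronglyMeasurable

theorem L1l.loc (h : L1l u) : LocallyIntegrable u volume := by
  rw [locallyIntegrable_iff]
  intro k hk
  obtain ⟨R, hR⟩ := hk.isBounded.subset_closedBall 0
  exact (h R).mono_set hR

theorem L2l.l1 (h : L2l u) : L1l u := by
  intro R
  have := fin_aux R
  exact (h R).integrable one_le_two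

theorem Bdl.l2 (h : Bdl u) : L2l u := by
  intro R
  have := fin_aux R
  obtain ⟨M, hM⟩ := h.2 R
  exact MemLp.of_bound h.1.restrict M ((ae_restrict_iff' measurableSet_closedBall).2 hM)

theorem Bdl.l1 (h : Bdl u) : L1l u := h.l2.l1

theorem bdl_cont (h : Continuous u) : Bdl u := by
  refine ⟨h.aestronglyMeasurable, fun R => ?_⟩
  obtain ⟨M, hM⟩ := (isCompact_closedBall (0 : ℂ) R).exists_bound_of_continuousOn h.continuousOn
  exact ⟨M, ae_of_all _ hM⟩

theorem bdl_const (c : ℂ) : Bdl (fun _ => c) := bdl_cont continuous_const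

theorem L1l.congr (h : L1l u) (e : u =ᵐ[volume] v) : L1l v :=
  fun R => Integrable.congr (h R) (ae_restrict_of_ae e)

theorem L2l.congr (h : L2l u) (e : u =ᵐ[volume] v) : L2l v :=
  fun R => (h R).ae_eq (ae_restrict_of_ae e)

theorem Bdl.congr (h : Bdl u) (e : u =ᵐ[volume] v) : Bdl v := by
  refine ⟨h.1.congr e, fun R => ?_⟩
  obtain ⟨M, hM⟩ := h.2 R
  refine ⟨M, ?_⟩
  filter_upwards [hM, e] with z h1 h2 h3
  rw [← h2]
  exact h1 h3

theorem L1l.add (h : L1l u) (k : L1l v) : L1l (fun z => u z + v z) :=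
  fun R => Integrable.add (h R) (k R)

theorem L2l.add (h : L2l u) (k : L2l v) : L2l (fun z => u z + v z) :=
  fun R => (h R).add (k R)

theorem Bdl.add (h : Bdl u) (k : Bdl v) : Bdl (fun z => u z + v z) := by
  refine ⟨h.1.add k.1, fun R => ?_⟩
  obtain ⟨M, hM⟩ := h.2 R
  obtain ⟨N, hN⟩ := k.2 R
  refine ⟨M + N, ?_⟩
  filter_upwards [hM, hN] with z h1 h2 h3
  exact (norm_add_le _ _).trans (add_le_add (h1 h3) (h2 h3))

theorem L1l.cmul (c : ℂ) (h : L1l u) : L1l (fun z => c * u z) :=
  fun R => Integrable.const_mul (h R) c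

theorem L2l.cmul (c : ℂ) (h : L2l u) : L2l (fun z => c * u z) :=
  fun R => (h R).const_mul c

theorem Bdl.cmul (c : ℂ) (h : Bdl u) : Bdl (fun z => c * u z) := by
  refine ⟨h.1.const_mul c, fun R => ?_⟩
  obtain ⟨M, hM⟩ := h.2 R
  refine ⟨‖c‖ * M, ?_⟩
  filter_upwards [hM] with z h1 h2
  rw [norm_mul]
  exact mul_le_mul_of_nonneg_left (h1 h2) (norm_nonneg c)

private theorem conj_meas {μ : Measure ℂ} (h : AEStronglyMeasurable u μ) :
    AEStronglyMeasurable (fun z => (starRingEnd ℂ) (u z)) μ :=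
  Complex.continuous_conj.comp_aestronglyMeasurable h

theorem L1l.conj (h : L1l u) : L1l (fun z => (starRingEnd ℂ) (u z)) := by
  intro R
  have h1 : Integrable u (volume.restrict (closedBall (0 : ℂ) R)) := h R
  exact h1.mono (conj_meas h1.aestronglyMeasurable)
    (ae_of_all _ fun z => (RCLike.norm_conj (u z)).le)

theorem L2l.conj (h : L2l u) : L2l (fun z => (starRingEnd ℂ) (u z)) := by
  intro R
  exact (h R).of_le (conj_meas (h R).aestronglyMeasurable)
    (ae_of_all _ fun z => (RCLike.norm_conj (u z)).le)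

theorem Bdl.conj (h : Bdl u) : Bdl (fun z => (starRingEnd ℂ) (u z)) := by
  refine ⟨conj_meas h.1, fun R => ?_⟩
  obtain ⟨M, hM⟩ := h.2 R
  refine ⟨M, ?_⟩
  filter_upwards [hM] with z h1 h2
  exact (RCLike.norm_conj (u z)).le.trans (h1 h2)

end O3R
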