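import Pool.Agent.GO3.R.Bas1

/-!
# Part R, module Bas1b: products, domination, test functions (helper30)

PROOFS.  Everything is local: `volume.restrict (closedBall 0 R)` is a finite measure.
* `L2l.mul`: Hölder (`MemLp.integrable_mul`).  `Bdl.mul_l2`: on `closedBall 0 R` the norm of `u v` is at most
  `M ‖v‖` almost everywhere: `MemLp.of_le_mul` or `MemLp.const_mul` and `MemLp.mono`.  Similarly `Bdl.mul_l1`
  (`Integrable.mono'`) and `Bdl.mul`.  A.e. strong measurability from `L1l.ae`, `L2l.ae`.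
* `L2l.of_le`, `L1l.of_le`: `MemLp.mono`, `Integrable.mono`.
* `Tst.bd`: compact support and continuity of the derivatives (`h.smooth.continuous_fderiv`, `HasCompactSupport.fderiv`,
  `Continuous.bounded_above_of_compact_support` or `IsCompact.exists_bound_of_continuousOn`).
* `Tst.int`, `Tst.int1`: `ψ` and its derivative are bounded and zero outside some `closedBall 0 R`; so the product is
  integrable on `closedBall 0 R` and zero outside (`integrableOn_iff_integrable_of_support_subset`).  For general `e`: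
  `fderiv ℝ ψ z e = e.re * fderiv ℝ ψ z 1 + e.im * fderiv ℝ ψ z I`, or the bound `‖fderiv ℝ ψ z‖ ‖e‖`.
-/

open MeasureTheory Filter Topology Complex Metric
open scoped ContDiff ENNReal NNReal

noncomputable section

namespace O3R

variable {u v : ℂ → ℂ} {ψ : ℂ → ℝ}

theorem L2l.mul (h : L2l u) (k : L2l v) : L1l (fun z => u z * v z) := by
  intro R
  exact (h R).integrable_mul (k R)

theorem Bdl.mul_l1 (h : Bdl u) (k : L1l v) : L1l (fun z => u z * v z) := by
  intro R
  obtain ⟨M, hM⟩ := h.2 R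
  refine Integrable.mono' ((k R).norm.const_mul M) ((h.1.mul k.ae).restrict) ?_
  rw [ae_restrict_iff' measurableSet_closedBall]
  filter_upwards [hM] with z hz hzR
  rw [norm_mul]
  exact mul_le_mul_of_nonneg_right (hz hzR) (norm_nonneg _)

theorem Bdl.mul_l2 (h : Bdl u) (k : L2l v) : L2l (fun z => u z * v z) := by
  intro R
  obtain ⟨M, hM⟩ := h.2 R
  refine MemLp.of_le_mul (c := M) (k R) ((h.1.mul k.ae).restrict) ?_
  rw [ae_restrict_iff' measurableSet_closedBall]
  filter_upwards [hM] with z hz hzR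
  rw [norm_mul]
  exact mul_le_mul_of_nonneg_right (hz hzR) (norm_nonneg _)

theorem Bdl.mul (h : Bdl u) (k : Bdl v) : Bdl (fun z => u z * v z) := by
  refine ⟨h.1.mul k.1, fun R => ?_⟩
  obtain ⟨M, hM⟩ := h.2 R
  obtain ⟨N, hN⟩ := k.2 R
  refine ⟨M * N, ?_⟩
  filter_upwards [hM, hN] with z hz hz' hzR
  rw [norm_mul]
  exact mul_le_mul (hz hzR) (hz' hzR) (norm_nonneg _) (le_trans (norm_nonneg _) (hz hzR))

/-- Domination. -/
theorem L2l.of_le (h : L2l v) (hu : AEStronglyMeasurable u volume) (hle : ∀ᵐ z, ‖u z‖ ≤ ‖v z‖) :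
    L2l u := fun R => (h R).mono hu.restrict (ae_restrict_of_ae hle)

theorem L1l.of_le (h : L1l v) (hu : AEStronglyMeasurable u volume) (hle : ∀ᵐ z, ‖u z‖ ≤ ‖v z‖) :
    L1l u := fun R => Integrable.mono (h R) hu.restrict (ae_restrict_of_ae hle)

private theorem bas1b_bd (h : Tst ψ) : ∃ R M : ℝ, 0 ≤ R ∧ 0 ≤ M ∧
    (∀ z, z ∉ closedBall (0 : ℂ) R → ψ z = 0 ∧ fderiv ℝ ψ z = 0) ∧
    ∀ z, |ψ z| ≤ M ∧ ‖fderiv ℝ ψ z‖ ≤ M := by
  obtain ⟨R0, hR0⟩ := h.supp.isCompact.isBounded.subset_closedBall (0 : ℂ)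
  obtain ⟨M1, hM1⟩ := h.smooth.continuous.bounded_above_of_compact_support h.supp
  obtain ⟨M2, hM2⟩ := (h.smooth.continuous_fderiv (by simp)).bounded_above_of_compact_support
    (h.supp.fderiv ℝ)
  refine ⟨max R0 0, max (max M1 M2) 0, le_max_right _ _, le_max_right _ _, ?_, ?_⟩
  · intro z hz
    have hz1 : z ∉ tsupport ψ := fun hz' =>
      hz (closedBall_subset_closedBall (le_max_left _ _) (hR0 hz'))
    refine ⟨image_eq_zero_of_notMem_tsupport hz1, ?_⟩
    exact image_eq_zero_of_notMem_tsupport (fun hz' => hz1 (tsupport_fderiv_subset ℝ hz'))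
  · intro z
    refine ⟨?_, ?_⟩
    · rw [← Real.norm_eq_abs]
      exact le_trans (hM1 z) (le_trans (le_max_left _ _) (le_max_left _ _))
    · exact le_trans (hM2 z) (le_trans (le_max_right _ _) (le_max_left _ _))

/-- A test function vanishes outside some ball and is bounded together with its derivative. -/
theorem Tst.bd (h : Tst ψ) : ∃ R M : ℝ, 0 ≤ R ∧ 0 ≤ M ∧ (∀ z, z ∉ closedBall (0 : ℂ) R → ψ z = 0 ∧
    ∀ e, fderiv ℝ ψ z e = 0) ∧ ∀ z, |ψ z| ≤ M ∧ |fderiv ℝ ψ z 1| ≤ M ∧ |fderiv ℝ ψ z I| ≤ M := by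
  obtain ⟨R, M, hR, hM, h1, h2⟩ := bas1b_bd h
  refine ⟨R, M, hR, hM, ?_, ?_⟩
  · intro z hz
    obtain ⟨g1, g2⟩ := h1 z hz
    refine ⟨g1, fun e => ?_⟩
    rw [g2]
    rfl
  · intro z
    obtain ⟨g1, g2⟩ := h2 z
    refine ⟨g1, ?_, ?_⟩
    · have := (fderiv ℝ ψ z).le_opNorm 1
      rw [Real.norm_eq_abs, norm_one, mul_one] at this
      exact le_trans this g2
    · have := (fderiv ℝ ψ z).le_opNorm I
      rw [Real.norm_eq_abs, Complex.norm_I, mul_one] at this
      exact le_trans this g2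

theorem Tst.int (h : Tst ψ) (hu : L1l u) : Integrable (fun z => (ψ z : ℂ) * u z) := by
  obtain ⟨R, M, hR, hM, h1, h2⟩ := bas1b_bd h
  have hm : AEStronglyMeasurable (fun z => (ψ z : ℂ) * u z) volume :=
    (Complex.continuous_ofReal.comp h.smooth.continuous).aestronglyMeasurable.mul hu.ae
  have hI : IntegrableOn (fun z => (ψ z : ℂ) * u z) (closedBall 0 R) := by
    refine Integrable.mono' ((hu R).norm.const_mul M) hm.restrict (Eventually.of_forall fun z => ?_)
    rw [norm_mul, Complex.norm_real, Real.norm_eq_abs]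
    exact mul_le_mul_of_nonneg_right (h2 z).1 (norm_nonneg _)
  refine hI.integrable_of_forall_notMem_eq_zero fun z hz => ?_
  rw [(h1 z hz).1]
  simp

theorem Tst.int1 (h : Tst ψ) (hu : L1l u) (e : ℂ) : Integrable (fun z => dr e ψ z * u z) := by
  obtain ⟨R, M, hR, hM, h1, h2⟩ := bas1b_bd h
  have hc : Continuous (fun z => dr e ψ z) :=
    Complex.continuous_ofReal.comp ((h.smooth.continuous_fderiv (by simp)).clm_apply
      continuous_const)
  have hm : AEStronglyMeasurable (fun z => dr e ψ z * u z) volume :=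
    hc.aestronglyMeasurable.mul hu.ae
  have hI : IntegrableOn (fun z => dr e ψ z * u z) (closedBall 0 R) := by
    refine Integrable.mono' ((hu R).norm.const_mul (M * ‖e‖)) hm.restrict
      (Eventually.of_forall fun z => ?_)
    rw [norm_mul]
    refine mul_le_mul_of_nonneg_right ?_ (norm_nonneg _)
    unfold dr
    rw [Complex.norm_real]
    exact le_trans ((fderiv ℝ ψ z).le_opNorm e)
      (mul_le_mul_of_nonneg_right (h2 z).2 (norm_nonneg _))
  refine hI.integrable_of_forall_notMem_eq_zero fun z hz => ?_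
  unfold dr
  rw [(h1 z hz).2]
  simp

end O3R
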