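import Pool.Agent.GO3.R.Bas1b

/-!
# Part R, module Bas2: weak divergence, basic facts (helper30)

PROOFS.
* `ae_zero`: `MeasureTheory.ae_eq_zero_of_integral_contDiff_smul_eq_zero` (or
  `ae_eq_zero_of_integral_contDiff_smul_eq_zero` in the `Mathlib.Analysis.Distribution.AEEqOfIntegralContDiff` file)
  with `hg.loc`; `(ψ z : ℂ) * g z = ψ z • g z`.
* `wdiv_unique`: `∫ ψ (g - g') = 0` (integrability `Tst.int`) and `ae_zero`.  `wdiv_congr`: `integral_congr_ae`.
* `wdiv_add`, `wdiv_cmul`: linearity (integrability from `Tst.int`, `Tst.int1`; `wdiv_cmul` needs none: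
  `integral_const_mul`).
* `wdiv_conj`: `integral_conj`, the test functions are real (`conj (dr e ψ z) = dr e ψ z`, `Complex.conj_ofReal`).
* `wdiv_re`: `2 re X = X + conj X` and `wdiv_add`, `wdiv_cmul`, `wdiv_conj` (or directly `integral_re`).
* `wdiv_smooth`: integration by parts (`integral_mul_fderiv_eq_neg_fderiv_mul_of_integrable` or
  `integral_bilinear_hasLineDerivAt_right_eq_neg_left_of_integrable`); the functions `ψ X`, `∂ψ X`, `ψ ∂X` are continuous
  with compact support, hence integrable.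
* `wdiv_of`: `wdiv_add` with zero entries.  `wdiv_12`: take `ψ` and add.  `wd_to_db`: `WDb u ((u1 + i u2)/2)`: the same.
-/

open MeasureTheory Filter Topology Complex Metric
open scoped ContDiff ENNReal NNReal

noncomputable section

namespace O3R

variable {u v X Y g X' Y' g' : ℂ → ℂ} {ψ χ : ℂ → ℝ}

theorem ae_zero (hg : L1l g) (h : ∀ ψ : ℂ → ℝ, Tst ψ → ∫ z, (ψ z : ℂ) * g z = 0) :
    g =ᵐ[volume] fun _ => 0 := by
  refine ae_eq_zero_of_integral_contDiff_smul_eq_zero hg.loc fun ψ h1 h2 => ?_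
  rw [← h ψ ⟨h1, h2⟩]
  refine integral_congr_ae (ae_of_all _ fun z => ?_)
  exact Complex.real_smul

theorem wdiv_unique (hg : L1l g) (hg' : L1l g') (h : WDiv X Y g) (h' : WDiv X Y g') :
    g =ᵐ[volume] g' := by
  have hz : (fun z => g z + (-1) * g' z) =ᵐ[volume] fun _ => 0 := by
    refine ae_zero (hg.add (hg'.cmul (-1))) fun ψ hψ => ?_
    have e : ∀ z, (ψ z : ℂ) * (g z + (-1) * g' z) = (ψ z : ℂ) * g z - (ψ z : ℂ) * g' z := by
      intro z
      ring
    rw [integral_congr_ae (ae_of_all _ e), integral_sub (hψ.int hg) (hψ.int hg')]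
    have h1 := h ψ hψ
    have h2 := h' ψ hψ
    rw [h1, neg_inj] at h2
    rw [h2, sub_self]
  filter_upwards [hz] with z h1
  have h2 : g z + (-1) * g' z = 0 := h1
  linear_combination h2

theorem wdiv_congr (h : WDiv X Y g) (h1 : X =ᵐ[volume] X') (h2 : Y =ᵐ[volume] Y')
    (h3 : g =ᵐ[volume] g') : WDiv X' Y' g' := by
  intro ψ hψ
  have e1 : ∫ z, (dr 1 ψ z * X' z + dr I ψ z * Y' z) = ∫ z, (dr 1 ψ z * X z + dr I ψ z * Y z) := by
    refine integral_congr_ae ?_
    filter_upwards [h1, h2] with z k1 k2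
    rw [k1, k2]
  have e2 : ∫ z, (ψ z : ℂ) * g' z = ∫ z, (ψ z : ℂ) * g z := by
    refine integral_congr_ae ?_
    filter_upwards [h3] with z k1
    rw [k1]
  rw [e1, e2]
  exact h ψ hψ

theorem wdiv_add (hX : L1l X) (hY : L1l Y) (hg : L1l g) (hX' : L1l X') (hY' : L1l Y') (hg' : L1l g')
    (h : WDiv X Y g) (h' : WDiv X' Y' g') :
    WDiv (fun z => X z + X' z) (fun z => Y z + Y' z) (fun z => g z + g' z) := by
  intro ψ hψ
  have e1 : ∀ z, dr 1 ψ z * (X z + X' z) + dr I ψ z * (Y z + Y' z) =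
      (dr 1 ψ z * X z + dr I ψ z * Y z) + (dr 1 ψ z * X' z + dr I ψ z * Y' z) := by
    intro z
    ring
  have e2 : ∀ z, (ψ z : ℂ) * (g z + g' z) = (ψ z : ℂ) * g z + (ψ z : ℂ) * g' z := by
    intro z
    ring
  have i1 : Integrable (fun z => dr 1 ψ z * X z + dr I ψ z * Y z) :=
    (hψ.int1 hX 1).add (hψ.int1 hY I)
  have i2 : Integrable (fun z => dr 1 ψ z * X' z + dr I ψ z * Y' z) :=
    (hψ.int1 hX' 1).add (hψ.int1 hY' I)
  rw [integral_congr_ae (ae_of_all _ e1), integral_congr_ae (ae_of_all _ e2),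
    integral_add i1 i2, integral_add (hψ.int hg) (hψ.int hg'), h ψ hψ, h' ψ hψ, neg_add]

theorem wdiv_cmul (c : ℂ) (h : WDiv X Y g) :
    WDiv (fun z => c * X z) (fun z => c * Y z) (fun z => c * g z) := by
  intro ψ hψ
  have e1 : ∀ z, dr 1 ψ z * (c * X z) + dr I ψ z * (c * Y z) =
      c * (dr 1 ψ z * X z + dr I ψ z * Y z) := by
    intro z
    ring
  have e2 : ∀ z, (ψ z : ℂ) * (c * g z) = c * ((ψ z : ℂ) * g z) := by
    intro z
    ring
  rw [integral_congr_ae (ae_of_all _ e1), integral_congr_ae (ae_of_all _ e2),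
    integral_const_mul, integral_const_mul, h ψ hψ, mul_neg]

theorem wdiv_conj (h : WDiv X Y g) : WDiv (fun z => (starRingEnd ℂ) (X z))
    (fun z => (starRingEnd ℂ) (Y z)) (fun z => (starRingEnd ℂ) (g z)) := by
  intro ψ hψ
  have e1 : ∀ z, dr 1 ψ z * (starRingEnd ℂ) (X z) + dr I ψ z * (starRingEnd ℂ) (Y z) =
      (starRingEnd ℂ) (dr 1 ψ z * X z + dr I ψ z * Y z) := by
    intro z
    rw [map_add, map_mul, map_mul]
    unfold dr
    rw [Complex.conj_ofReal, Complex.conj_ofReal]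
  have e2 : ∀ z, (ψ z : ℂ) * (starRingEnd ℂ) (g z) = (starRingEnd ℂ) ((ψ z : ℂ) * g z) := by
    intro z
    rw [map_mul, Complex.conj_ofReal]
  rw [integral_congr_ae (ae_of_all _ e1), integral_congr_ae (ae_of_all _ e2), integral_conj,
    integral_conj, h ψ hψ, map_neg]

theorem wdiv_re (hX : L1l X) (hY : L1l Y) (hg : L1l g) (h : WDiv X Y g) :
    WDiv (fun z => ((X z).re : ℂ)) (fun z => ((Y z).re : ℂ)) (fun z => ((g z).re : ℂ)) := by
  have e : ∀ w : ℂ, (1 / 2 : ℂ) * (w + (starRingEnd ℂ) w) = (w.re : ℂ) := by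
    intro w
    rw [Complex.add_conj]
    push_cast
    ring
  refine wdiv_congr (wdiv_cmul (1 / 2 : ℂ) (wdiv_add hX hY hg hX.conj hY.conj hg.conj h
    (wdiv_conj h))) ?_ ?_ ?_
  · exact ae_of_all _ fun z => e (X z)
  · exact ae_of_all _ fun z => e (Y z)
  · exact ae_of_all _ fun z => e (g z)

private theorem fd_of (hψ : Tst ψ) (z e : ℂ) :
    fderiv ℝ (fun z => (ψ z : ℂ)) z e = dr e ψ z := by
  have h1 : DifferentiableAt ℝ ψ z := hψ.smooth.contDiffAt.differentiableAt (by simp)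
  have h2 : HasFDerivAt (fun z => (ψ z : ℂ)) (Complex.ofRealCLM.comp (fderiv ℝ ψ z)) z :=
    Complex.ofRealCLM.hasFDerivAt.comp z h1.hasFDerivAt
  rw [h2.fderiv]
  rfl

private theorem parts (hψ : Tst ψ) (hX : ContDiff ℝ 1 X) (e : ℂ) :
    ∫ z, dr e ψ z * X z = -∫ z, (ψ z : ℂ) * dd e X z := by
  have hc : Continuous fun z => dd e X z :=
    (hX.continuous_fderiv (by simp)).clm_apply continuous_const
  have i1 : Integrable (fun z => fderiv ℝ (fun z => (ψ z : ℂ)) z e * X z) := by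
    have := hψ.int1 (bdl_cont hX.continuous).l1 e
    refine this.congr (ae_of_all _ fun z => ?_)
    simp only [fd_of hψ z e]
  have i2 : Integrable (fun z => (ψ z : ℂ) * fderiv ℝ X z e) := hψ.int (bdl_cont hc).l1
  have i3 : Integrable (fun z => (ψ z : ℂ) * X z) := hψ.int (bdl_cont hX.continuous).l1
  have hd : ∀ z, DifferentiableAt ℝ (fun z => (ψ z : ℂ)) z := fun z =>
    Complex.ofRealCLM.differentiableAt.comp z (hψ.smooth.contDiffAt.differentiableAt (by simp))
  have key := integral_mul_fderiv_eq_neg_fderiv_mul_of_integrable (𝕜 := ℂ) (μ := volume)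
    (f := fun z : ℂ => (ψ z : ℂ)) (g := X) (v := e) i1 i2 i3 (fun z _ => hd z)
    (fun z _ => (hX.differentiable (by simp)) z)
  have e1 : ∫ z, (ψ z : ℂ) * dd e X z = -∫ z, fderiv ℝ (fun z => (ψ z : ℂ)) z e * X z := key
  rw [e1, neg_neg]
  refine integral_congr_ae (ae_of_all _ fun z => ?_)
  simp only [fd_of hψ z e]

theorem wdiv_smooth (hX : ContDiff ℝ 1 X) (hY : ContDiff ℝ 1 Y) :
    WDiv X Y (fun z => dd 1 X z + dd I Y z) := by
  intro ψ hψ
  have hc1 : Continuous fun z => dd 1 X z :=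
    (hX.continuous_fderiv (by simp)).clm_apply continuous_const
  have hc2 : Continuous fun z => dd I Y z :=
    (hY.continuous_fderiv (by simp)).clm_apply continuous_const
  have e2 : ∀ z, (ψ z : ℂ) * (dd 1 X z + dd I Y z) = (ψ z : ℂ) * dd 1 X z + (ψ z : ℂ) * dd I Y z := by
    intro z
    ring
  rw [integral_congr_ae (ae_of_all _ e2),
    integral_add (hψ.int1 (bdl_cont hX.continuous).l1 1) (hψ.int1 (bdl_cont hY.continuous).l1 I),
    integral_add (hψ.int (bdl_cont hc1).l1) (hψ.int (bdl_cont hc2).l1), parts hψ hX 1, parts hψ hY I,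
    neg_add]

theorem wdiv_of (hu : L1l u) (hv : L1l v) (hX : L1l X) (hY : L1l Y) (h1 : WD1 u X) (h2 : WD2 v Y) :
    WDiv u v (fun z => X z + Y z) := by
  have h0 : L1l (fun _ => (0 : ℂ)) := (bdl_const 0).l1
  refine wdiv_congr (wdiv_add hu h0 hX h0 hv hY h1 h2) ?_ ?_ ?_
  · exact ae_of_all _ fun z => add_zero _
  · exact ae_of_all _ fun z => zero_add _
  · exact ae_of_all _ fun z => rfl

/-- From the two partial derivatives to the complex derivative. -/
theorem wdb_of (hu : L1l u) (hX : L1l X) (hY : L1l Y) (h1 : WD1 u X) (h2 : WD2 u Y) :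
    WDb u (fun z => (X z + I * Y z) / 2) := by
  have h0 : L1l (fun _ => (0 : ℂ)) := (bdl_const 0).l1
  have k1 := wdiv_cmul (1 / 2 : ℂ) h1
  have k2 := wdiv_cmul (I / 2 : ℂ) h2
  refine wdiv_congr (wdiv_add (hu.cmul (1 / 2)) (h0.cmul (1 / 2)) (hX.cmul (1 / 2))
    (h0.cmul (I / 2)) (hu.cmul (I / 2)) (hY.cmul (I / 2)) k1 k2) ?_ ?_ ?_
  · exact ae_of_all _ fun z => by ring
  · exact ae_of_all _ fun z => by ring
  · exact ae_of_all _ fun z => by ring

end O3R
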