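import Pool.Agent.GO3.R.Bas2

/-!
# Part R, module Bas3: mixed derivatives, cut-off functions, div-curl to dbar (helper30)

PROOFS.
* `Tst.der`: the derivative of a test function is a test function.  `Tst.mul`: product of smooth functions, the support
  is contained in that of `ψ`.
* `wd_curl`: test `WD1 u X` with `∂₂ψ` and `WD2 u Y` with `∂₁ψ` (`Tst.der`); second derivatives commute
  (`ContDiffAt.isSymmSndFDerivAt`, so `fderiv (fun z => fderiv ψ z I) z 1 = fderiv (fun z => fderiv ψ z 1) z I`), so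
  `-∫ ∂₂ψ X = ∫ ∂₁∂₂ψ u = ∫ ∂₂∂₁ψ u = -∫ ∂₁ψ Y`.
* `wd_shift1`: for a test `ψ`: `∫ ∂₁ψ X₁ + ∂₂ψ Y₁ = -∫ (∂₁∂₁ψ X + ∂₁∂₂ψ Y)` (the equations of `X`, `Y` with the tests `∂₁ψ`,
  `∂₂ψ`) `= -∫ (∂₁(∂₁ψ) X + ∂₂(∂₁ψ) Y) = ∫ ∂₁ψ g` (the weak equation with the test `∂₁ψ`) `= -∫ ψ g₁`.  `wd_shift2` in the same
  way with the test `∂₂ψ`.
* `exists_cut`: `ContDiffBump` centred at `0` with radii `R + 1/4`, `R + 3/4` (`R ≥ 0`).
* `dbar_minus`: for a test `ψ`, with `∂₁ψ`, `∂₂ψ`: `∫ ∂₁ψ (X - iY)/4 + ∂₂ψ i (X - iY)/4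
  = (1/4) ∫ (∂₁ψ X + ∂₂ψ Y) - (i/4) ∫ (∂₁ψ Y - ∂₂ψ X) = -(1/4) ∫ ψ f + (i/4) ∫ ψ g`.
* `dbar_plus`: the same for the field `(conj X, conj Y)`: `conj ((X + iY)/2) = (conj X - i conj Y)/2`; its divergence is
  `conj f`, its curl is `conj g` (`wdiv_conj`), so `dbar_minus` gives `(conj f - i conj g)/4 = conj ((f + i g)/4)`.
-/

open MeasureTheory Filter Topology Complex Metric
open scoped ContDiff ENNReal NNReal

noncomputable section

namespace O3R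

variable {u v X Y g X' Y' g' : ℂ → ℂ} {ψ χ : ℂ → ℝ}

theorem Tst.der (h : Tst ψ) (e : ℂ) : Tst (fun z => fderiv ℝ ψ z e) := by
  refine ⟨?_, ?_⟩
  · exact (h.smooth.fderiv_right (m := ∞) (by simp)).clm_apply contDiff_const
  · exact (h.supp.fderiv ℝ).comp_left (g := fun L : ℂ →L[ℝ] ℝ => L e) rfl

theorem Tst.mul (h : Tst ψ) (hχ : ContDiff ℝ ∞ χ) : Tst (fun z => χ z * ψ z) :=
  ⟨hχ.mul h.smooth, h.supp.mul_left⟩

private theorem der_der (h : Tst ψ) (a b z : ℂ) :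
    fderiv ℝ (fun z => fderiv ℝ ψ z a) z b = fderiv ℝ (fderiv ℝ ψ) z b a := by
  have hd : DifferentiableAt ℝ (fderiv ℝ ψ) z :=
    ((h.smooth.fderiv_right (m := ∞) (by simp)).differentiable (by simp)) z
  have h1 := hd.hasFDerivAt.clm_apply (hasFDerivAt_const a z)
  rw [h1.fderiv]
  simp

private theorem der_symm (h : Tst ψ) (z : ℂ) :
    dr 1 (fun z => fderiv ℝ ψ z I) z = dr I (fun z => fderiv ℝ ψ z 1) z := by
  unfold dr
  rw [der_der h, der_der h]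
  have h2 : IsSymmSndFDerivAt ℝ ψ z :=
    h.smooth.contDiffAt.isSymmSndFDerivAt (by
      rw [minSmoothness_of_isRCLikeNormedField]
      exact WithTop.coe_le_coe.2 (le_top : (2 : ℕ∞) ≤ ⊤))
  rw [h2 1 I]

private theorem wd1_iff (h : WD1 u v) (hψ : Tst ψ) :
    ∫ z, dr 1 ψ z * u z = -∫ z, (ψ z : ℂ) * v z := by
  have := h ψ hψ
  simpa only [mul_zero, add_zero] using this

private theorem wd2_iff (h : WD2 u v) (hψ : Tst ψ) :
    ∫ z, dr I ψ z * u z = -∫ z, (ψ z : ℂ) * v z := by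
  have := h ψ hψ
  simpa only [mul_zero, zero_add] using this

/-- Equality of mixed derivatives. -/
theorem wd_curl (hu : L1l u) (hX : L1l X) (hY : L1l Y) (h1 : WD1 u X) (h2 : WD2 u Y) :
    WDiv Y (fun z => -X z) (fun _ => 0) := by
  intro ψ hψ
  have e1 := wd1_iff h1 (hψ.der I)
  have e2 := wd2_iff h2 (hψ.der 1)
  have e3 : ∫ z, dr 1 (fun z => fderiv ℝ ψ z I) z * u z =
      ∫ z, dr I (fun z => fderiv ℝ ψ z 1) z * u z := by
    refine integral_congr_ae (Eventually.of_forall fun z => ?_)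
    simp only [der_symm hψ]
  have e4 : ∫ z, dr I ψ z * X z = ∫ z, dr 1 ψ z * Y z := by
    have f1 : ∫ z, ((fderiv ℝ ψ z I : ℝ) : ℂ) * X z = ∫ z, dr I ψ z * X z := rfl
    have f2 : ∫ z, ((fderiv ℝ ψ z 1 : ℝ) : ℂ) * Y z = ∫ z, dr 1 ψ z * Y z := rfl
    rw [f1] at e1
    rw [f2] at e2
    have e5 := e1.symm.trans (e3.trans e2)
    exact neg_injective e5
  have e6 : ∀ z, dr 1 ψ z * Y z + dr I ψ z * -X z = dr 1 ψ z * Y z - dr I ψ z * X z :=
    fun z => by ring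
  simp only [e6, mul_zero, integral_zero, neg_zero]
  rw [integral_sub (hψ.int1 hY 1) (hψ.int1 hX I), e4, sub_self]

theorem wd_shift1 {X1 Y1 g1 : ℂ → ℂ} (hX : L1l X) (hY : L1l Y) (hg : L1l g) (hX1 : L1l X1)
    (hY1 : L1l Y1) (hg1 : L1l g1) (h : WDiv X Y g) (hx : WD1 X X1) (hy : WD1 Y Y1) (hgg : WD1 g g1) :
    WDiv X1 Y1 g1 := by
  intro ψ hψ
  have ex := wd1_iff hx (hψ.der 1)
  have ey := wd1_iff hy (hψ.der I)
  have eg := wd1_iff hgg hψ
  have eh := h _ (hψ.der 1)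
  have f1 : ∫ z, ((fderiv ℝ ψ z 1 : ℝ) : ℂ) * X1 z = ∫ z, dr 1 ψ z * X1 z := rfl
  have f2 : ∫ z, ((fderiv ℝ ψ z I : ℝ) : ℂ) * Y1 z = ∫ z, dr I ψ z * Y1 z := rfl
  have f3 : ∫ z, ((fderiv ℝ ψ z 1 : ℝ) : ℂ) * g z = ∫ z, dr 1 ψ z * g z := rfl
  rw [f1] at ex
  rw [f2] at ey
  rw [f3, eg, neg_neg] at eh
  have e3 : ∫ z, dr 1 (fun z => fderiv ℝ ψ z I) z * Y z =
      ∫ z, dr I (fun z => fderiv ℝ ψ z 1) z * Y z := by
    refine integral_congr_ae (Eventually.of_forall fun z => ?_)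
    simp only [der_symm hψ]
  rw [e3] at ey
  rw [integral_add ((hψ.der 1).int1 hX 1) ((hψ.der 1).int1 hY I), ex, ey] at eh
  rw [integral_add (hψ.int1 hX1 1) (hψ.int1 hY1 I)]
  rw [← eh]
  ring

theorem wd_shift2 {X2 Y2 g2 : ℂ → ℂ} (hX : L1l X) (hY : L1l Y) (hg : L1l g) (hX2 : L1l X2)
    (hY2 : L1l Y2) (hg2 : L1l g2) (h : WDiv X Y g) (hx : WD2 X X2) (hy : WD2 Y Y2) (hgg : WD2 g g2) :
    WDiv X2 Y2 g2 := by
  intro ψ hψ
  have ex := wd2_iff hx (hψ.der 1)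
  have ey := wd2_iff hy (hψ.der I)
  have eg := wd2_iff hgg hψ
  have eh := h _ (hψ.der I)
  have f1 : ∫ z, ((fderiv ℝ ψ z 1 : ℝ) : ℂ) * X2 z = ∫ z, dr 1 ψ z * X2 z := rfl
  have f2 : ∫ z, ((fderiv ℝ ψ z I : ℝ) : ℂ) * Y2 z = ∫ z, dr I ψ z * Y2 z := rfl
  have f3 : ∫ z, ((fderiv ℝ ψ z I : ℝ) : ℂ) * g z = ∫ z, dr I ψ z * g z := rfl
  rw [f1] at ex
  rw [f2] at ey
  rw [f3, eg, neg_neg] at eh
  have e3 : ∫ z, dr I (fun z => fderiv ℝ ψ z 1) z * X z =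
      ∫ z, dr 1 (fun z => fderiv ℝ ψ z I) z * X z := by
    refine integral_congr_ae (Eventually.of_forall fun z => ?_)
    simp only [der_symm hψ]
  rw [e3] at ex
  rw [integral_add ((hψ.der I).int1 hX 1) ((hψ.der I).int1 hY I), ex, ey] at eh
  rw [integral_add (hψ.int1 hX2 1) (hψ.int1 hY2 I)]
  rw [← eh]
  ring

/-- Cut-off functions. -/
theorem exists_cut (R : ℝ) (hR : 0 ≤ R) : ∃ χ : ℂ → ℝ, Tst χ ∧ (∀ z, 0 ≤ χ z ∧ χ z ≤ 1) ∧
    (∀ z ∈ closedBall (0 : ℂ) (R + 1 / 4), χ z = 1) ∧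
    ∀ z, z ∉ closedBall (0 : ℂ) (R + 3 / 4) → χ z = 0 := by
  let f : ContDiffBump (0 : ℂ) := ⟨R + 1 / 4, R + 3 / 4, by linarith, by linarith⟩
  refine ⟨f, ⟨f.contDiff, f.hasCompactSupport⟩, fun z => ⟨f.nonneg, f.le_one⟩, fun z hz =>
    f.one_of_mem_closedBall hz, fun z hz => f.zero_of_le_dist ?_⟩
  rw [mem_closedBall, not_le] at hz
  exact hz.le

/-- The two complex derivatives of a vector field with given divergence `f` and curl `g`. -/
theorem dbar_minus {f : ℂ → ℂ} (hX : L1l X) (hY : L1l Y) (hf : L1l f) (hg : L1l g)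
    (h1 : WDiv X Y f) (h2 : WDiv Y (fun z => -X z) g) :
    WDb (fun z => (X z - I * Y z) / 2) (fun z => (f z - I * g z) / 4) := by
  have hX' : L1l (fun z => -X z) := by
    have := hX.cmul (-1)
    simpa only [neg_mul, one_mul] using this
  have h3 := wdiv_add (hX.cmul (1 / 4)) (hY.cmul (1 / 4)) (hf.cmul (1 / 4)) (hY.cmul (-I / 4))
    (hX'.cmul (-I / 4)) (hg.cmul (-I / 4)) (wdiv_cmul (1 / 4) h1) (wdiv_cmul (-I / 4) h2)
  have e1 : (fun z => (X z - I * Y z) / 2 / 2) = fun z => 1 / 4 * X z + -I / 4 * Y z := by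
    funext z
    ring
  have e2 : (fun z => I * ((X z - I * Y z) / 2) / 2) =
      fun z => 1 / 4 * Y z + -I / 4 * -X z := by
    funext z
    have hI : I * I = -1 := I_mul_I
    linear_combination (-(Y z) / 4) * hI
  have e3 : (fun z => (f z - I * g z) / 4) = fun z => 1 / 4 * f z + -I / 4 * g z := by
    funext z
    ring
  show WDiv (fun z => (X z - I * Y z) / 2 / 2) (fun z => I * ((X z - I * Y z) / 2) / 2)
    (fun z => (f z - I * g z) / 4)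
  rw [e1, e2, e3]
  exact h3

theorem dbar_plus {f : ℂ → ℂ} (hX : L1l X) (hY : L1l Y) (hf : L1l f) (hg : L1l g)
    (h1 : WDiv X Y f) (h2 : WDiv Y (fun z => -X z) g) :
    WDb (fun z => (starRingEnd ℂ) ((X z + I * Y z) / 2))
      (fun z => (starRingEnd ℂ) ((f z + I * g z) / 4)) := by
  have k1 := wdiv_conj h1
  have k2 := wdiv_conj h2
  have e0 : (fun z => (starRingEnd ℂ) (-X z)) = fun z => -(starRingEnd ℂ) (X z) := by
    funext z
    rw [map_neg]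
  rw [e0] at k2
  have h3 := dbar_minus hX.conj hY.conj hf.conj hg.conj k1 k2
  have e1 : (fun z => ((starRingEnd ℂ) (X z) - I * (starRingEnd ℂ) (Y z)) / 2) =
      fun z => (starRingEnd ℂ) ((X z + I * Y z) / 2) := by
    funext z
    rw [map_div₀, map_add, map_mul, conj_I, map_ofNat]
    ring
  have e2 : (fun z => ((starRingEnd ℂ) (f z) - I * (starRingEnd ℂ) (g z)) / 4) =
      fun z => (starRingEnd ℂ) ((f z + I * g z) / 4) := by
    funext z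
    rw [map_div₀, map_add, map_mul, conj_I, map_ofNat]
    ring
  rw [e1, e2] at h3
  exact h3

end O3R
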