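import Pool.Agent.GO3.R.Prod

/-!
# Part R, module HSa: the classes `HS m`, linear closure properties (helper30)

PROOFS.  All by induction on `m`, generalizing the functions.
* `HS.mono`: `HS (m+1) u → HS m u`: `m = 0` clear; step: the derivatives in the definition are in `HS m` by induction.
* `HS.congr`: `wdiv_congr`.  `HS.add`, `HS.cmul`, `HS.conj`: `wdiv_add`, `wdiv_cmul`, `wdiv_conj` (the zero entry: rewrite `0 + 0`,
  `c * 0`, `conj 0`, `wdiv_congr` with pointwise equality), classes from `L2l.add` etc.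
* `HS.smooth`: `wdiv_smooth` with one entry zero; the derivative `dd e u` of a smooth function is smooth; `L2l` by continuity
  (`bdl_cont`, `Bdl.l2`).
* `HS.re'`, `HS.im'`: `re u = (u + conj u)/2`, `im u = (u - conj u)/(2 i)`.
* `wd1_mul`, `wd2_mul`: `wdiv_mul_L2` with the field `(v, 0)` resp. `(0, v)`, and `wdiv_congr`.
-/

open MeasureTheory Filter Topology Complex Metric
open scoped ContDiff ENNReal NNReal

noncomputable section

namespace O3R

variable {u v u1 u2 v1 v2 : ℂ → ℂ} {m k : ℕ}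

private theorem l1z : L1l (fun _ => (0 : ℂ)) := (bdl_const 0).l1

private theorem w1_add (hu : L1l u) (hu1 : L1l u1) (hv : L1l v) (hv1 : L1l v1) (h : WD1 u u1)
    (k : WD1 v v1) : WD1 (fun z => u z + v z) (fun z => u1 z + v1 z) :=
  wdiv_congr (wdiv_add hu l1z hu1 hv l1z hv1 h k) (ae_of_all _ fun _ => rfl)
    (ae_of_all _ fun _ => add_zero _) (ae_of_all _ fun _ => rfl)

private theorem w2_add (hu : L1l u) (hu1 : L1l u1) (hv : L1l v) (hv1 : L1l v1) (h : WD2 u u1)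
    (k : WD2 v v1) : WD2 (fun z => u z + v z) (fun z => u1 z + v1 z) :=
  wdiv_congr (wdiv_add l1z hu hu1 l1z hv hv1 h k) (ae_of_all _ fun _ => add_zero _)
    (ae_of_all _ fun _ => rfl) (ae_of_all _ fun _ => rfl)

private theorem w1_cmul (c : ℂ) (h : WD1 u u1) : WD1 (fun z => c * u z) (fun z => c * u1 z) :=
  wdiv_congr (wdiv_cmul c h) (ae_of_all _ fun _ => rfl)
    (ae_of_all _ fun _ => mul_zero _) (ae_of_all _ fun _ => rfl)

private theorem w2_cmul (c : ℂ) (h : WD2 u u1) : WD2 (fun z => c * u z) (fun z => c * u1 z) :=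
  wdiv_congr (wdiv_cmul c h) (ae_of_all _ fun _ => mul_zero _)
    (ae_of_all _ fun _ => rfl) (ae_of_all _ fun _ => rfl)

private theorem w1_conj (h : WD1 u u1) :
    WD1 (fun z => (starRingEnd ℂ) (u z)) (fun z => (starRingEnd ℂ) (u1 z)) :=
  wdiv_congr (wdiv_conj h) (ae_of_all _ fun _ => rfl)
    (ae_of_all _ fun _ => map_zero _) (ae_of_all _ fun _ => rfl)

private theorem w2_conj (h : WD2 u u1) :
    WD2 (fun z => (starRingEnd ℂ) (u z)) (fun z => (starRingEnd ℂ) (u1 z)) :=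
  wdiv_congr (wdiv_conj h) (ae_of_all _ fun _ => map_zero _)
    (ae_of_all _ fun _ => rfl) (ae_of_all _ fun _ => rfl)

private theorem dd_zero (e z : ℂ) : dd e (fun _ => (0 : ℂ)) z = 0 := by
  unfold dd
  simp

private theorem w1_smooth (h : ContDiff ℝ ∞ u) : WD1 u (fun z => dd 1 u z) := by
  have h1 : ContDiff ℝ 1 u := h.of_le (by exact_mod_cast le_top)
  refine wdiv_congr (wdiv_smooth h1 (contDiff_const (c := (0 : ℂ)))) (ae_of_all _ fun _ => rfl)
    (ae_of_all _ fun _ => rfl) (ae_of_all _ fun z => ?_)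
  show dd 1 u z + dd I (fun _ => (0 : ℂ)) z = dd 1 u z
  rw [dd_zero, add_zero]

private theorem w2_smooth (h : ContDiff ℝ ∞ u) : WD2 u (fun z => dd I u z) := by
  have h1 : ContDiff ℝ 1 u := h.of_le (by exact_mod_cast le_top)
  refine wdiv_congr (wdiv_smooth (contDiff_const (c := (0 : ℂ))) h1) (ae_of_all _ fun _ => rfl)
    (ae_of_all _ fun _ => rfl) (ae_of_all _ fun z => ?_)
  show dd 1 (fun _ => (0 : ℂ)) z + dd I u z = dd I u z
  rw [dd_zero, zero_add]

private theorem dd_smooth (h : ContDiff ℝ ∞ u) (e : ℂ) : ContDiff ℝ ∞ (fun z => dd e u z) :=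
  (h.fderiv_right (by simp)).clm_apply contDiff_const

theorem HS.l2 (h : HS m u) : L2l u := by
  cases m with
  | zero => exact h
  | succ m => exact h.1

theorem HS.mono (h : HS (m + 1) u) : HS m u := by
  induction m generalizing u with
  | zero => exact h.1
  | succ m ih =>
    obtain ⟨h0, ⟨v1, k1, l1⟩, ⟨v2, k2, l2⟩⟩ := h
    exact ⟨h0, ⟨v1, k1, ih l1⟩, ⟨v2, k2, ih l2⟩⟩

theorem HS.mono' (hk : k ≤ m) (h : HS m u) : HS k u := by
  induction m, hk using Nat.le_induction with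
  | base => exact h
  | succ m _ ih => exact ih h.mono

theorem HS.congr (h : HS m u) (e : u =ᵐ[volume] v) : HS m v := by
  cases m with
  | zero => exact L2l.congr h e
  | succ m =>
    obtain ⟨h0, ⟨v1, k1, l1⟩, ⟨v2, k2, l2⟩⟩ := h
    exact ⟨h0.congr e, ⟨v1, wdiv_congr k1 e (ae_of_all _ fun _ => rfl) (ae_of_all _ fun _ => rfl), l1⟩,
      ⟨v2, wdiv_congr k2 (ae_of_all _ fun _ => rfl) e (ae_of_all _ fun _ => rfl), l2⟩⟩

theorem HS.add (h : HS m u) (k : HS m v) : HS m (fun z => u z + v z) := by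
  induction m generalizing u v with
  | zero => exact L2l.add h k
  | succ m ih =>
    obtain ⟨h0, ⟨v1, k1, l1⟩, ⟨v2, k2, l2⟩⟩ := h
    obtain ⟨h0', ⟨v1', k1', l1'⟩, ⟨v2', k2', l2'⟩⟩ := k
    exact ⟨h0.add h0', ⟨_, w1_add h0.l1 l1.l2.l1 h0'.l1 l1'.l2.l1 k1 k1', ih l1 l1'⟩,
      ⟨_, w2_add h0.l1 l2.l2.l1 h0'.l1 l2'.l2.l1 k2 k2', ih l2 l2'⟩⟩

theorem HS.cmul (c : ℂ) (h : HS m u) : HS m (fun z => c * u z) := by
  induction m generalizing u with
  | zero => exact L2l.cmul c h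
  | succ m ih =>
    obtain ⟨h0, ⟨v1, k1, l1⟩, ⟨v2, k2, l2⟩⟩ := h
    exact ⟨h0.cmul c, ⟨_, w1_cmul c k1, ih l1⟩, ⟨_, w2_cmul c k2, ih l2⟩⟩

theorem HS.sub (h : HS m u) (k : HS m v) : HS m (fun z => u z - v z) := by
  refine (h.add (k.cmul (-1))).congr (ae_of_all _ fun z => ?_)
  show u z + -1 * v z = u z - v z
  ring

theorem HS.conj (h : HS m u) : HS m (fun z => (starRingEnd ℂ) (u z)) := by
  induction m generalizing u with
  | zero => exact L2l.conj h
  | succ m ih =>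
    obtain ⟨h0, ⟨v1, k1, l1⟩, ⟨v2, k2, l2⟩⟩ := h
    exact ⟨h0.conj, ⟨_, w1_conj k1, ih l1⟩, ⟨_, w2_conj k2, ih l2⟩⟩

theorem HS.smooth (h : ContDiff ℝ ∞ u) : HS m u := by
  induction m generalizing u with
  | zero => exact (bdl_cont h.continuous).l2
  | succ m ih =>
    exact ⟨(bdl_cont h.continuous).l2, ⟨_, w1_smooth h, ih (dd_smooth h 1)⟩,
      ⟨_, w2_smooth h, ih (dd_smooth h I)⟩⟩

theorem HS.re' (h : HS m u) : HS m (fun z => ((u z).re : ℂ)) := by
  refine ((h.add h.conj).cmul (1 / 2)).congr (ae_of_all _ fun z => ?_)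
  show (1 / 2 : ℂ) * (u z + (starRingEnd ℂ) (u z)) = ((u z).re : ℂ)
  rw [Complex.add_conj]
  push_cast
  ring

theorem HS.im' (h : HS m u) : HS m (fun z => ((u z).im : ℂ)) := by
  refine ((h.sub h.conj).cmul (-I / 2)).congr (ae_of_all _ fun z => ?_)
  show (-I / 2 : ℂ) * (u z - (starRingEnd ℂ) (u z)) = ((u z).im : ℂ)
  rw [Complex.sub_conj]
  push_cast
  linear_combination (-((u z).im : ℂ)) * Complex.I_sq

theorem HS.mk (h : L2l u) (h1 : WD1 u u1) (k1 : HS m u1) (h2 : WD2 u u2) (k2 : HS m u2) :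
    HS (m + 1) u := ⟨h, ⟨u1, h1, k1⟩, ⟨u2, h2, k2⟩⟩

theorem wd1_mul (hu : L2l u) (hu1 : L2l u1) (hu2 : L2l u2) (h1 : WD1 u u1) (h2 : WD2 u u2)
    (hv : L2l v) (hv1 : L2l v1) (k1 : WD1 v v1) :
    WD1 (fun z => u z * v z) (fun z => u1 z * v z + u z * v1 z) := by
  refine wdiv_congr (wdiv_mul_L2 hu hu1 hu2 h1 h2 hv (bdl_const 0).l2 hv1 k1) (ae_of_all _ fun _ => rfl)
    (ae_of_all _ fun _ => mul_zero _) (ae_of_all _ fun z => ?_)
  show u1 z * v z + u2 z * 0 + u z * v1 z = u1 z * v z + u z * v1 z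
  ring

theorem wd2_mul (hu : L2l u) (hu1 : L2l u1) (hu2 : L2l u2) (h1 : WD1 u u1) (h2 : WD2 u u2)
    (hv : L2l v) (hv2 : L2l v2) (k2 : WD2 v v2) :
    WD2 (fun z => u z * v z) (fun z => u2 z * v z + u z * v2 z) := by
  refine wdiv_congr (wdiv_mul_L2 hu hu1 hu2 h1 h2 (bdl_const 0).l2 hv hv2 k2) (ae_of_all _ fun _ => mul_zero _)
    (ae_of_all _ fun _ => rfl) (ae_of_all _ fun z => ?_)
  show u1 z * 0 + u2 z * v z + u z * v2 z = u2 z * v z + u z * v2 z
  ring

end O3R
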