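import Pool.Agent.GO3.R.Ell1
import Pool.Agent.GO3.R.HSa

/-!
# Part R, module Ell2: elliptic regularity for `∂_{z̄}` (helper30)

PROOFS.
* `ell_V`: `V_n = mol n V`, smooth with `dbar V_n = mol n g` (`mol_dbar`).  Given `R ≥ 0` take `χ` from `exists_cut R`; for `n, m` put
  `φ = χ (V_n - V_m)`, smooth with compact support, `dbar φ = χ (mol n g - mol m g) + (dbar χ) (V_n - V_m)`.  On `closedBall 0 R`:
  `dd 1 φ = dd 1 V_n - dd 1 V_m`.  So by `ell_le1`
  `‖dd 1 V_n - dd 1 V_m‖_{L²(B_R)} ≤ 2 (‖mol n g - mol m g‖_{L²(B_{R+1})} + M ‖V_n - V_m‖_{L²(B_{R+1})}) → 0` (`mol_L2l` for `g` and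
  `V`).  `l2_complete` gives `V1` with `dd 1 V_n → V1` in `L²_loc`; same for `dd I`.  Pass to the limit in
  `∫ dr 1 ψ V_n = -∫ ψ dd 1 V_n` (`wdiv_smooth`) by `tend_of_L2` with `Y = 1`.
* `hs_of_dbar`: induction on `m`.  `m = 0`: `ell_V`.  Step: `V1, V2` from `ell_V`; `g` in `HS (m+1)` has derivatives `g1, g2` in
  `HS m`; `wd_shift1` for `WDb V g` (entries `V/2`, `i V/2`, with derivatives `V1/2`, `i V1/2`: `wdiv_cmul`, `wdiv_congr`) gives
  `WDb V1 g1`, so `V1` is in `HS (m+1)` by induction; `wd_shift2` gives `WDb V2 g2`.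
-/

open MeasureTheory Filter Topology Complex Metric
open scoped ContDiff ENNReal NNReal

noncomputable section

namespace O3R

variable {V g : ℂ → ℂ}

private theorem dd_zero (e z : ℂ) : dd e (fun _ : ℂ => (0 : ℂ)) z = 0 := by
  unfold dd
  simp

private theorem parts_e {X : ℂ → ℂ} (hX : ContDiff ℝ 1 X) {ψ : ℂ → ℝ} (hψ : Tst ψ) {e : ℂ}
    (he : e = 1 ∨ e = I) : ∫ z, dr e ψ z * X z = -∫ z, (ψ z : ℂ) * dd e X z := by
  rcases he with rfl | rfl
  · have h := wdiv_smooth hX (Y := fun _ => 0) contDiff_const ψ hψ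
    simpa only [mul_zero, add_zero, dd_zero] using h
  · have h := wdiv_smooth (X := fun _ => 0) contDiff_const hX ψ hψ
    simpa only [mul_zero, zero_add, dd_zero] using h

private theorem fd_ofReal {χ : ℂ → ℝ} (hχ : ContDiff ℝ ∞ χ) (z : ℂ) :
    HasFDerivAt (fun z => (χ z : ℂ)) (Complex.ofRealCLM.comp (fderiv ℝ χ z)) z := by
  have h1 : DifferentiableAt ℝ χ z := hχ.contDiffAt.differentiableAt (by simp)
  exact Complex.ofRealCLM.hasFDerivAt.comp z h1.hasFDerivAt

private theorem dd_mul {χ : ℂ → ℝ} (hχ : ContDiff ℝ ∞ χ) {W : ℂ → ℂ} (hW : ContDiff ℝ ∞ W)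
    (e z : ℂ) : dd e (fun z => (χ z : ℂ) * W z) z = (χ z : ℂ) * dd e W z + dr e χ z * W z := by
  have h1 := fd_ofReal hχ z
  have h2 : HasFDerivAt W (fderiv ℝ W z) z := ((hW.differentiable (by simp)) z).hasFDerivAt
  have h3 : HasFDerivAt (fun z => (χ z : ℂ) * W z) _ z := h1.mul h2
  unfold dd dr
  rw [h3.fderiv]
  simp only [ContinuousLinearMap.add_apply, ContinuousLinearMap.smul_apply, smul_eq_mul,
    ContinuousLinearMap.comp_apply, Complex.ofRealCLM_apply]
  ring

private theorem dd_sub {X Y : ℂ → ℂ} (hX : ContDiff ℝ ∞ X) (hY : ContDiff ℝ ∞ Y) (e z : ℂ) :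
    dd e (fun z => X z - Y z) z = dd e X z - dd e Y z := by
  unfold dd
  rw [fderiv_fun_sub ((hX.differentiable (by simp)) z) ((hY.differentiable (by simp)) z)]
  rfl

/-- The a priori estimate. -/
private theorem cauchy_est (hV : L2l V) (hg : L2l g) (h : WDb V g) {e : ℂ} (he : e = 1 ∨ e = I)
    (R : ℝ) : ∃ M : ℝ≥0∞, M ≠ ⊤ ∧ ∃ R' : ℝ, ∀ n m : ℕ,
      eLpNorm (fun z => dd e (mol n V) z - dd e (mol m V) z) 2 (volume.restrict (closedBall 0 R)) ≤
      2 * (eLpNorm (fun z => mol n g z - mol m g z) 2 (volume.restrict (closedBall 0 R')) +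
        M * eLpNorm (fun z => mol n V z - mol m V z) 2 (volume.restrict (closedBall 0 R'))) := by
  obtain ⟨χ, hχ, hχ1, hχ2, hχ3⟩ := exists_cut (max R 0) (le_max_right _ _)
  obtain ⟨R', M, hR', hM, hb1, hb2⟩ := hχ.bd
  refine ⟨ENNReal.ofReal M, ENNReal.ofReal_ne_top, R', fun n m => ?_⟩
  set W : ℂ → ℂ := fun z => mol n V z - mol m V z with hWdef
  have sW : ContDiff ℝ ∞ W := (mol_smooth n hV.l1).sub (mol_smooth m hV.l1)
  set φ : ℂ → ℂ := fun z => (χ z : ℂ) * W z with hφdef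
  have sχ : ContDiff ℝ ∞ (fun z => (χ z : ℂ)) := Complex.ofRealCLM.contDiff.comp hχ.smooth
  have sφ : ContDiff ℝ ∞ φ := sχ.mul sW
  have cχ : HasCompactSupport (fun z => (χ z : ℂ)) :=
    hχ.supp.comp_left (g := fun x : ℝ => (x : ℂ)) (by simp)
  have cφ : HasCompactSupport φ := cχ.mul_right
  -- inside the ball
  have h1 : eLpNorm (fun z => dd e (mol n V) z - dd e (mol m V) z) 2
      (volume.restrict (closedBall 0 R)) = eLpNorm (dd e φ) 2 (volume.restrict (closedBall 0 R)) := by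
    refine eLpNorm_congr_ae ?_
    rw [Filter.EventuallyEq, ae_restrict_iff' measurableSet_closedBall]
    refine ae_of_all _ fun z hz => ?_
    rw [← dd_sub (mol_smooth n hV.l1) (mol_smooth m hV.l1)]
    have h2 : φ =ᶠ[𝓝 z] W := by
      have h3 : closedBall (0 : ℂ) (max R 0 + 1 / 4) ∈ 𝓝 z := by
        refine closedBall_mem_nhds_of_mem ?_
        rw [mem_ball_zero_iff]
        rw [mem_closedBall_zero_iff] at hz
        have := le_max_left R 0
        linarith
      filter_upwards [h3] with y hy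
      rw [hφdef]
      simp only
      rw [hχ2 y hy]
      simp
    unfold dd
    rw [h2.fderiv_eq]
  rw [h1]
  have h2 : eLpNorm (dd e φ) 2 (volume.restrict (closedBall 0 R)) ≤ 2 * eLpNorm (dbar φ) 2 := by
    refine (eLpNorm_mono_measure _ Measure.restrict_le_self).trans ?_
    rcases he with rfl | rfl
    · exact ell_le1 sφ cφ
    · exact ell_le2 sφ cφ
  refine h2.trans ?_
  gcongr
  -- the complex derivative
  have h3 : ∀ z, dbar φ z = (χ z : ℂ) * (mol n g z - mol m g z) +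
      ((dr 1 χ z + I * dr I χ z) / 2) * W z := by
    intro z
    have e1 := mol_dbar n hV.l1 hg.l1 h z
    have e2 := mol_dbar m hV.l1 hg.l1 h z
    rw [← e1, ← e2]
    unfold dbar
    rw [hφdef, dd_mul hχ.smooth sW, dd_mul hχ.smooth sW, hWdef,
      dd_sub (mol_smooth n hV.l1) (mol_smooth m hV.l1),
      dd_sub (mol_smooth n hV.l1) (mol_smooth m hV.l1)]
    ring
  have h4 : eLpNorm (dbar φ) 2 = eLpNorm (dbar φ) 2 (volume.restrict (closedBall 0 R')) := by
    rw [← eLpNorm_indicator_eq_eLpNorm_restrict measurableSet_closedBall]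
    congr 1
    symm
    rw [Set.indicator_eq_self]
    intro z hz
    by_contra hz2
    apply hz
    rw [h3 z, (hb1 z hz2).1]
    unfold dr
    rw [(hb1 z hz2).2, (hb1 z hz2).2]
    simp
  rw [h4]
  have m1 : AEStronglyMeasurable (fun z => mol n g z - mol m g z)
      (volume.restrict (closedBall 0 R')) :=
    ((mol_smooth n hg.l1).continuous.sub (mol_smooth m hg.l1).continuous).aestronglyMeasurable
  have m2 : AEStronglyMeasurable (fun z => (M : ℂ) * W z) (volume.restrict (closedBall 0 R')) :=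
    (continuous_const.mul sW.continuous).aestronglyMeasurable
  have h5 : eLpNorm (dbar φ) 2 (volume.restrict (closedBall 0 R')) ≤
      eLpNorm ((fun z => ‖mol n g z - mol m g z‖) + fun z => ‖(M : ℂ) * W z‖) 2
        (volume.restrict (closedBall 0 R')) := by
    refine eLpNorm_mono_real fun z => ?_
    rw [h3 z]
    refine (norm_add_le _ _).trans ?_
    rw [Pi.add_apply]
    refine add_le_add ?_ ?_
    · rw [norm_mul, Complex.norm_real, Real.norm_of_nonneg (hχ1 z).1]
      exact mul_le_of_le_one_left (norm_nonneg _) (hχ1 z).2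
    · rw [norm_mul, norm_mul]
      refine mul_le_mul_of_nonneg_right ?_ (norm_nonneg _)
      rw [Complex.norm_real, Real.norm_of_nonneg hM]
      have b1 : ‖dr 1 χ z‖ ≤ M := by
        unfold dr
        rw [Complex.norm_real]
        exact (hb2 z).2.1
      have b2 : ‖dr I χ z‖ ≤ M := by
        unfold dr
        rw [Complex.norm_real]
        exact (hb2 z).2.2
      rw [norm_div, Complex.norm_two]
      have b3 : ‖dr 1 χ z + I * dr I χ z‖ ≤ M + M := by
        refine (norm_add_le _ _).trans (add_le_add b1 ?_)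
        rw [norm_mul, Complex.norm_I, one_mul]
        exact b2
      linarith
  refine h5.trans ((eLpNorm_add_le m1.norm m2.norm one_le_two).trans ?_)
  rw [eLpNorm_norm, eLpNorm_norm]
  refine add_le_add le_rfl (le_of_eq ?_)
  have h6 : (fun z => (M : ℂ) * W z) = (M : ℂ) • W := rfl
  rw [h6, eLpNorm_const_smul]
  congr 1
  rw [← ofReal_norm, Complex.norm_real, Real.norm_of_nonneg hM]

private theorem tri {X : ℕ → ℂ → ℂ} {u : ℂ → ℂ} (hX : ∀ n, L2l (X n)) (hu : L2l u) (R : ℝ)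
    (n m : ℕ) : eLpNorm (fun z => X n z - X m z) 2 (volume.restrict (closedBall 0 R)) ≤
      eLpNorm (fun z => X n z - u z) 2 (volume.restrict (closedBall 0 R)) +
      eLpNorm (fun z => X m z - u z) 2 (volume.restrict (closedBall 0 R)) := by
  have h1 : (fun z => X n z - X m z) = (fun z => X n z - u z) - fun z => X m z - u z := by
    funext z
    simp
  rw [h1]
  exact eLpNorm_sub_le (((hX n) R).sub (hu R)).aestronglyMeasurable
    (((hX m) R).sub (hu R)).aestronglyMeasurable one_le_two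

private theorem ell_lim (hV : L2l V) (hg : L2l g) (h : WDb V g) {e : ℂ} (he : e = 1 ∨ e = I) :
    ∃ v : ℂ → ℂ, L2l v ∧ ∀ ψ : ℂ → ℝ, Tst ψ → ∫ z, dr e ψ z * V z = -∫ z, (ψ z : ℂ) * v z := by
  have sm : ∀ n, ContDiff ℝ ∞ (mol n V) := fun n => mol_smooth n hV.l1
  have cD : ∀ n, Continuous (dd e (mol n V)) := fun n =>
    ((sm n).fderiv_right (m := ∞) (by simp)).continuous.clm_apply continuous_const
  have lD : ∀ n, L2l (dd e (mol n V)) := fun n => (bdl_cont (cD n)).l2
  have lV : ∀ n, L2l (mol n V) := fun n => (bdl_cont (sm n).continuous).l2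
  have lg : ∀ n, L2l (mol n g) := fun n => (bdl_cont (mol_smooth n hg.l1).continuous).l2
  obtain ⟨v, hv, ht⟩ := l2_complete lD (fun R ε hε => by
    obtain ⟨M, hM, R', hest⟩ := cauchy_est hV hg h he R
    have t1 := mol_L2l hg R'
    have t2 := mol_L2l hV R'
    have t3 := ENNReal.Tendsto.const_mul (a := 2) (t1.add
      (ENNReal.Tendsto.const_mul (a := M) t2 (Or.inr hM))) (Or.inr (by simp))
    simp only [mul_zero, add_zero] at t3
    obtain ⟨N, hN⟩ := (t3.eventually_le_const (ENNReal.half_pos hε.ne')).exists_forall_of_atTop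
    refine ⟨N, fun n hn m hm => (hest n m).trans ?_⟩
    have a1 := tri lg hg R' n m
    have a2 := tri lV hV R' n m
    calc _ ≤ 2 * ((eLpNorm (fun z => mol n g z - g z) 2 (volume.restrict (closedBall 0 R')) +
          eLpNorm (fun z => mol m g z - g z) 2 (volume.restrict (closedBall 0 R'))) +
          M * (eLpNorm (fun z => mol n V z - V z) 2 (volume.restrict (closedBall 0 R')) +
          eLpNorm (fun z => mol m V z - V z) 2 (volume.restrict (closedBall 0 R')))) := by
            gcongr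
      _ = 2 * (eLpNorm (fun z => mol n g z - g z) 2 (volume.restrict (closedBall 0 R')) +
            M * eLpNorm (fun z => mol n V z - V z) 2 (volume.restrict (closedBall 0 R'))) +
          2 * (eLpNorm (fun z => mol m g z - g z) 2 (volume.restrict (closedBall 0 R')) +
            M * eLpNorm (fun z => mol m V z - V z) 2 (volume.restrict (closedBall 0 R'))) := by
            ring
      _ ≤ ε / 2 + ε / 2 := add_le_add (hN n hn) (hN m hm)
      _ = ε := ENNReal.add_halves ε)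
  refine ⟨v, hv, fun ψ hψ => ?_⟩
  have cψ : Continuous (fun z => (ψ z : ℂ)) := Complex.continuous_ofReal.comp hψ.smooth.continuous
  have sψ : HasCompactSupport (fun z => (ψ z : ℂ)) :=
    hψ.supp.comp_left (g := fun x : ℝ => (x : ℂ)) (by simp)
  have hψ' := hψ.der e
  have cψ' : Continuous (dr e ψ) := Complex.continuous_ofReal.comp hψ'.smooth.continuous
  have sψ' : HasCompactSupport (dr e ψ) :=
    hψ'.supp.comp_left (g := fun x : ℝ => (x : ℂ)) (by simp)
  have k1 := tend_of_L2 lV hV (bdl_const 1).l2 (fun R => mol_L2l hV R) cψ' sψ'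
  have k2 := tend_of_L2 lD hv (bdl_const 1).l2 ht cψ sψ
  simp only [mul_one] at k1 k2
  have k3 : ∀ n, ∫ z, dr e ψ z * mol n V z = -∫ z, (ψ z : ℂ) * dd e (mol n V) z := fun n =>
    parts_e ((sm n).of_le (by exact_mod_cast le_top)) hψ he
  simp only [k3] at k1
  exact tendsto_nhds_unique k1 k2.neg

theorem ell_V (hV : L2l V) (hg : L2l g) (h : WDb V g) :
    ∃ V1 V2 : ℂ → ℂ, L2l V1 ∧ L2l V2 ∧ WD1 V V1 ∧ WD2 V V2 := by
  obtain ⟨V1, h1, k1⟩ := ell_lim hV hg h (e := 1) (Or.inl rfl)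
  obtain ⟨V2, h2, k2⟩ := ell_lim hV hg h (e := I) (Or.inr rfl)
  refine ⟨V1, V2, h1, h2, fun ψ hψ => ?_, fun ψ hψ => ?_⟩
  · simpa only [mul_zero, add_zero] using k1 ψ hψ
  · simpa only [mul_zero, zero_add] using k2 ψ hψ

private theorem cwd1 {u v : ℂ → ℂ} (c : ℂ) (h : WD1 u v) : WD1 (fun z => c * u z) (fun z => c * v z) := by
  have h1 := wdiv_cmul c h
  simp only [mul_zero] at h1
  exact h1

private theorem cwd2 {u v : ℂ → ℂ} (c : ℂ) (h : WD2 u v) : WD2 (fun z => c * u z) (fun z => c * v z) := by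
  have h1 := wdiv_cmul c h
  simp only [mul_zero] at h1
  exact h1

private theorem wdb_iff {V g : ℂ → ℂ} : WDb V g ↔
    WDiv (fun z => (1 / 2 : ℂ) * V z) (fun z => (I / 2) * V z) g := by
  have e1 : (fun z => (1 / 2 : ℂ) * V z) = fun z => V z / 2 := by
    funext z
    ring
  have e2 : (fun z => (I / 2) * V z) = fun z => I * V z / 2 := by
    funext z
    ring
  rw [e1, e2]
  rfl

theorem hs_of_dbar (m : ℕ) (hV : L2l V) (h : WDb V g) (hg : HS m g) : HS (m + 1) V := by
  induction m generalizing V g with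
  | zero =>
    obtain ⟨V1, V2, h1, h2, k1, k2⟩ := ell_V hV hg h
    exact ⟨hV, ⟨V1, k1, h1⟩, ⟨V2, k2, h2⟩⟩
  | succ m ih =>
    obtain ⟨hg0, ⟨g1, kg1, hg1⟩, ⟨g2, kg2, hg2⟩⟩ := hg
    obtain ⟨V1, V2, h1, h2, k1, k2⟩ := ell_V hV hg0 h
    have h0 := wdb_iff.1 h
    have s1 : WDb V1 g1 := wdb_iff.2 (wd_shift1 (hV.l1.cmul _) (hV.l1.cmul _) hg0.l1
      (h1.l1.cmul _) (h1.l1.cmul _) hg1.l2.l1 h0 (cwd1 _ k1) (cwd1 _ k1) kg1)
    have s2 : WDb V2 g2 := wdb_iff.2 (wd_shift2 (hV.l1.cmul _) (hV.l1.cmul _) hg0.l1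
      (h2.l1.cmul _) (h2.l1.cmul _) hg2.l2.l1 h0 (cwd2 _ k2) (cwd2 _ k2) kg2)
    exact ⟨hV, ⟨V1, k1, ih h1 s1 hg1⟩, ⟨V2, k2, ih h2 s2 hg2⟩⟩

end O3R
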