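import Pool.Agent.GO3.R.Lad

/-!
# Part R, module HSb: products in the classes `HS m` (helper30)

PROOFS.
* `hs_S`: induction on `m`.  `m = 0`: `hs_mul0`.  Step: `u, v` in `HS (m+2)`: `u v` in `L2l` by `hs_mul0` (`HS.mono'`); by `wd1_mul` the
  derivative is `u1 v + u v1` with `u1, v1` in `HS (m+1)` and `v, u` in `HS (m+2)`, so in `HS (m+1)`; both products are in `HS m` by
  induction; `HS.add`.  Same for the second derivative.
* `hs_T`: induction on `m`.  `m = 0`: `Bdl.mul_l2`.  Step: `u` in `HS (m+1)`, `v` in `HS (m+2)` and bounded: `u1 v` in `HS m` by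
  induction (`u1` in `HS m`, `v` in `HS (m+1)` bounded), `u v1` in `HS m` by `hs_S` (`u`, `v1` in `HS (m+1)`).
* `hs_P`: `m = 0`: `Bdl.mul_l2`.  `m + 1`: `u1 v` in `HS m` by `hs_T` (`u1` in `HS m`, `v` in `HS (m+1)` bounded), `u v1` likewise.
-/

open MeasureTheory Filter Topology Complex Metric
open scoped ContDiff ENNReal NNReal

noncomputable section

namespace O3R

variable {u v : ℂ → ℂ}

private theorem comm_aux {m : ℕ} (h : HS m (fun z => v z * u z)) : HS m (fun z => u z * v z) := by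
  have e : (fun z => u z * v z) = fun z => v z * u z := by
    funext z; exact mul_comm _ _
  rw [e]; exact h

theorem hs_S (m : ℕ) (hu : HS (m + 1) u) (hv : HS (m + 1) v) : HS m (fun z => u z * v z) := by
  induction m generalizing u v with
  | zero => exact hs_mul0 hu hv
  | succ m ih =>
    have hu' := hu
    have hv' := hv
    obtain ⟨hu0, ⟨u1, du1, ku1⟩, ⟨u2, du2, ku2⟩⟩ := hu'
    obtain ⟨hv0, ⟨v1, dv1, kv1⟩, ⟨v2, dv2, kv2⟩⟩ := hv'
    have hu1 : HS 1 u := HS.mono' (by omega) hu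
    have hv1 : HS 1 v := HS.mono' (by omega) hv
    exact HS.mk (hs_mul0 hu1 hv1) (wd1_mul hu0 ku1.l2 ku2.l2 du1 du2 hv0 kv1.l2 dv1)
      (HS.add (ih ku1 hv.mono) (ih hu.mono kv1))
      (wd2_mul hu0 ku1.l2 ku2.l2 du1 du2 hv0 kv2.l2 dv2)
      (HS.add (ih ku2 hv.mono) (ih hu.mono kv2))

theorem hs_T (m : ℕ) (hu : HS m u) (hv : HS (m + 1) v) (bv : Bdl v) : HS m (fun z => u z * v z) := by
  induction m generalizing u v with
  | zero => exact comm_aux (m := 0) (bv.mul_l2 hu)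
  | succ m ih =>
    have hu' := hu
    have hv' := hv
    obtain ⟨hu0, ⟨u1, du1, ku1⟩, ⟨u2, du2, ku2⟩⟩ := hu'
    obtain ⟨hv0, ⟨v1, dv1, kv1⟩, ⟨v2, dv2, kv2⟩⟩ := hv'
    exact HS.mk (comm_aux (m := 0) (bv.mul_l2 hu0))
      (wd1_mul hu0 ku1.l2 ku2.l2 du1 du2 hv0 kv1.l2 dv1)
      (HS.add (ih ku1 hv.mono bv) (hs_S m hu kv1))
      (wd2_mul hu0 ku1.l2 ku2.l2 du1 du2 hv0 kv2.l2 dv2)
      (HS.add (ih ku2 hv.mono bv) (hs_S m hu kv2))

theorem hs_P (m : ℕ) (bu : Bdl u) (bv : Bdl v) (hu : HS m u) (hv : HS m v) :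
    HS m (fun z => u z * v z) := by
  cases m with
  | zero => exact bu.mul_l2 hv
  | succ m =>
    have hu' := hu
    have hv' := hv
    obtain ⟨hu0, ⟨u1, du1, ku1⟩, ⟨u2, du2, ku2⟩⟩ := hu'
    obtain ⟨hv0, ⟨v1, dv1, kv1⟩, ⟨v2, dv2, kv2⟩⟩ := hv'
    exact HS.mk (bu.mul_l2 hv0)
      (wd1_mul hu0 ku1.l2 ku2.l2 du1 du2 hv0 kv1.l2 dv1)
      (HS.add (hs_T m ku1 hv bv) (comm_aux (hs_T m kv1 hu bu)))
      (wd2_mul hu0 ku1.l2 ku2.l2 du1 du2 hv0 kv2.l2 dv2)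
      (HS.add (hs_T m ku2 hv bv) (comm_aux (hs_T m kv2 hu bu)))

end O3R
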