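import Pool.Agent.GO3.R.Gr2
import Pool.Agent.GO3.R.HSb
import Pool.Agent.GO3.R.Ell2

/-!
# Part R, module Boot: all fields are in `HS m` for every `m` (helper30)

PROOFS.
* `gA1_HS`, `gA2_HS`: `avg_HS` (`a = 1`), `avg_bd`, the coordinate functions are smooth and bounded on balls, `hs_P`.
* `cur_HS`: `cur w W = (conj w W - w conj W)/(2 i)`.
* `fH_HS`, `fW_HS`, `gW_HS`: polynomials in bounded functions of class `HS m`; `‖W‖² = W conj W`; `hs_P`, `HS.add`, `HS.cmul`,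
  `HS.conj`, and boundedness of all factors (`Bdl.mul`, `Bdl.add`, `Bdl.cmul`, `Bdl.conj`).
* `all`: induction on `m`.  `m = 0`: `Bdl.l2` or the hypotheses.  Step: the right hand sides of `wdb1`, `wdb2`, `wdb3` are in `HS m`, so
  `vA H1 H2`, `vA W1 W2`, `vB W1 W2` are in `HS (m+1)` (`hs_of_dbar`); `H1 = vA + conj vA`, `H2 = i (vA - conj vA)` (`H1, H2` real),
  `W1 = vA W1 W2 + conj (vB W1 W2)`, `W2 = i (vA W1 W2 - conj (vB W1 W2))`.  `h`: derivatives `H1, H2` in `HS m`.  `F`: derivatives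
  `-j2, j1` in `HS m`.  `w`: derivatives `W_k + i A_k w` in `HS m`.  `HS.mk`.
-/

open MeasureTheory Filter Topology Complex Metric
open scoped ContDiff ENNReal NNReal

noncomputable section

namespace O3R

variable {w h F W1 W2 H1 H2 : ℂ → ℂ} {κ : ℝ} {m : ℕ}

/-- bounded and of class `HS m` -/
private structure Gd (m : ℕ) (u : ℂ → ℂ) : Prop where
  b : Bdl u
  s : HS m u

private theorem Gd.mul {u v : ℂ → ℂ} (hu : Gd m u) (hv : Gd m v) : Gd m (fun z => u z * v z) :=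
  ⟨hu.b.mul hv.b, hs_P m hu.b hv.b hu.s hv.s⟩

private theorem Gd.add {u v : ℂ → ℂ} (hu : Gd m u) (hv : Gd m v) : Gd m (fun z => u z + v z) :=
  ⟨hu.b.add hv.b, hu.s.add hv.s⟩

private theorem Gd.cmul {u : ℂ → ℂ} (c : ℂ) (hu : Gd m u) : Gd m (fun z => c * u z) :=
  ⟨hu.b.cmul c, hu.s.cmul c⟩

private theorem Gd.conj {u : ℂ → ℂ} (hu : Gd m u) : Gd m (fun z => (starRingEnd ℂ) (u z)) :=
  ⟨hu.b.conj, hu.s.conj⟩

private theorem Gd.const (c : ℂ) : Gd m (fun _ => c) :=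
  ⟨bdl_const c, HS.smooth contDiff_const⟩

private theorem Gd.congr {u v : ℂ → ℂ} (hu : Gd m u) (e : ∀ z, u z = v z) : Gd m v := by
  have : u = v := funext e
  rw [← this]
  exact hu

private theorem Gd.sub {u v : ℂ → ℂ} (hu : Gd m u) (hv : Gd m v) : Gd m (fun z => u z - v z) :=
  (hu.add (hv.cmul (-1))).congr fun z => by ring

private theorem Gd.neg {u : ℂ → ℂ} (hu : Gd m u) : Gd m (fun z => -u z) :=
  (hu.cmul (-1)).congr fun z => by ring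

private theorem nsq (u : ℂ) : u * (starRingEnd ℂ) u = ((‖u‖ ^ 2 : ℝ) : ℂ) := by
  rw [Complex.mul_conj, Complex.normSq_eq_norm_sq]

private theorem Gd.nsq {u : ℂ → ℂ} (hu : Gd m u) : Gd m (fun z => ((‖u z‖ ^ 2 : ℝ) : ℂ)) :=
  (hu.mul hu.conj).congr fun z => O3R.nsq (u z)

private theorem im_eq (u : ℂ) : (-I / 2) * u + (I / 2) * (starRingEnd ℂ) u = (u.im : ℂ) := by
  apply Complex.ext
  · simp
    ring
  · simp
    ring

private theorem Gd.im {u : ℂ → ℂ} (hu : Gd m u) : Gd m (fun z => ((u z).im : ℂ)) :=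
  ((hu.cmul (-I / 2)).add (hu.conj.cmul (I / 2))).congr fun z => im_eq (u z)

private theorem Gd.cur {u v : ℂ → ℂ} (hu : Gd m u) (hv : Gd m v) : Gd m (O3R.cur u v) :=
  (hu.conj.mul hv).im

private theorem Gd.gA1 {u : ℂ → ℂ} (hu : Gd m u) : Gd m (O3R.gA1 u) := by
  have h1 : Gd m (fun z : ℂ => -((z.im : ℝ) : ℂ)) :=
    ⟨bdl_cont (Complex.continuous_ofReal.comp Complex.continuous_im).neg,
      HS.smooth (Complex.ofRealCLM.contDiff.comp Complex.imCLM.contDiff).neg⟩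
  have h2 : Gd m (avg 1 u) := ⟨avg_bd 1 hu.b, avg_HS m 1 le_rfl hu.s⟩
  exact h1.mul h2

private theorem Gd.gA2 {u : ℂ → ℂ} (hu : Gd m u) : Gd m (O3R.gA2 u) := by
  have h1 : Gd m (fun z : ℂ => ((z.re : ℝ) : ℂ)) :=
    ⟨bdl_cont (Complex.continuous_ofReal.comp Complex.continuous_re),
      HS.smooth (Complex.ofRealCLM.contDiff.comp Complex.reCLM.contDiff)⟩
  have h2 : Gd m (avg 1 u) := ⟨avg_bd 1 hu.b, avg_HS m 1 le_rfl hu.s⟩
  exact h1.mul h2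

private theorem Gd.pp {a b c d : ℂ → ℂ} (ha : Gd m a) (hb : Gd m b) (hc : Gd m c) (hd : Gd m d) :
    Gd m (O3R.pp a b c d) :=
  (hb.mul hc).sub (ha.mul hd)

theorem gA1_HS (bF : Bdl F) (hF : HS m F) : HS m (gA1 F) :=
  (Gd.gA1 ⟨bF, hF⟩).s

theorem gA2_HS (bF : Bdl F) (hF : HS m F) : HS m (gA2 F) :=
  (Gd.gA2 ⟨bF, hF⟩).s

theorem cur_HS (bw : Bdl w) (bW : Bdl W1) (hw : HS m w) (hW : HS m W1) : HS m (cur w W1) :=
  (Gd.cur ⟨bw, hw⟩ ⟨bW, hW⟩).s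

/-- All fields are of class `HS m`. -/
structure AllHS (m : ℕ) (w h F W1 W2 H1 H2 : ℂ → ℂ) : Prop where
  w : HS m w
  h : HS m h
  F : HS m F
  W1 : HS m W1
  W2 : HS m W2
  H1 : HS m H1
  H2 : HS m H2

theorem Sol.fH_HS (s : Sol w h F W1 W2 H1 H2 κ) (a : AllHS m w h F W1 W2 H1 H2) :
    HS m (fH w h W1 W2 H1 H2) := by
  have gw : Gd m w := ⟨s.bw, a.w⟩
  have gh : Gd m h := ⟨s.bh, a.h⟩
  have g1 : Gd m W1 := ⟨s.bW1, a.W1⟩
  have g2 : Gd m W2 := ⟨s.bW2, a.W2⟩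
  have g3 : Gd m H1 := ⟨s.bH1, a.H1⟩
  have g4 : Gd m H2 := ⟨s.bH2, a.H2⟩
  have key := ((gh.mul (((g1.nsq.add g2.nsq).add g3.nsq).add g4.nsq)).neg).sub
    (((Gd.const 1).sub gh).mul gw.nsq)
  refine (key.congr fun z => ?_).s
  unfold fH
  push_cast
  ring

private theorem Sol.gdfW (s : Sol w h F W1 W2 H1 H2 κ) (a : AllHS m w h F W1 W2 H1 H2) :
    Gd m (fW w h F W1 W2 H1 H2) := by
  have gw : Gd m w := ⟨s.bw, a.w⟩
  have gh : Gd m h := ⟨s.bh, a.h⟩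
  have gF : Gd m F := ⟨s.bF, a.F⟩
  have g1 : Gd m W1 := ⟨s.bW1, a.W1⟩
  have g2 : Gd m W2 := ⟨s.bW2, a.W2⟩
  have g3 : Gd m H1 := ⟨s.bH1, a.H1⟩
  have g4 : Gd m H2 := ⟨s.bH2, a.H2⟩
  have key := ((((g3.mul (gw.pp gh g1 g3)).add (g4.mul (gw.pp gh g2 g4))).add
    ((gh.mul ((Gd.const 1).sub gh)).mul gw)).add
      (((g1.mul (gw.cur g1)).add (g2.mul (gw.cur g2))).cmul I)).add
        (((gF.gA1.mul g1).add (gF.gA2.mul g2)).cmul I)
  exact key.congr fun z => rfl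

theorem Sol.fW_HS (s : Sol w h F W1 W2 H1 H2 κ) (a : AllHS m w h F W1 W2 H1 H2) :
    HS m (fW w h F W1 W2 H1 H2) :=
  (s.gdfW a).s

theorem Sol.gW_HS (s : Sol w h F W1 W2 H1 H2 κ) (a : AllHS m w h F W1 W2 H1 H2) :
    HS m (gW w F W1 W2) := by
  have gw : Gd m w := ⟨s.bw, a.w⟩
  have gF : Gd m F := ⟨s.bF, a.F⟩
  have g1 : Gd m W1 := ⟨s.bW1, a.W1⟩
  have g2 : Gd m W2 := ⟨s.bW2, a.W2⟩
  have key := ((((gF.mul gw).add (gF.gA2.mul g1)).sub (gF.gA1.mul g2)).cmul I).neg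
  exact (key.congr fun z => rfl).s

private theorem HS.congr' {u v : ℂ → ℂ} (hu : HS m u) (e : ∀ z, u z = v z) : HS m v := by
  have : u = v := funext e
  rw [← this]
  exact hu

theorem Sol.all (s : Sol w h F W1 W2 H1 H2 κ) (m : ℕ) : AllHS m w h F W1 W2 H1 H2 := by
  induction m with
  | zero => exact ⟨s.bw.l2, s.bh.l2, s.lF, s.lW1, s.lW2, s.lH1, s.lH2⟩
  | succ m a =>
    have k1 : HS m (fun z => (fH w h W1 W2 H1 H2 z - I * 0) / 4) :=
      HS.congr' ((s.fH_HS a).cmul (1 / 4)) fun z => by ring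
    have k2 : HS m (fun z => (fW w h F W1 W2 H1 H2 z - I * gW w F W1 W2 z) / 4) :=
      HS.congr' (((s.fW_HS a).sub ((s.gW_HS a).cmul I)).cmul (1 / 4)) fun z => by ring
    have k3 : HS m (fun z => (starRingEnd ℂ)
        ((fW w h F W1 W2 H1 H2 z + I * gW w F W1 W2 z) / 4)) :=
      HS.conj (HS.congr' (((s.fW_HS a).add ((s.gW_HS a).cmul I)).cmul (1 / 4)) fun z => by ring)
    have v1 : HS (m + 1) (vA H1 H2) := hs_of_dbar m s.bV1.l2 s.wdb1 k1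
    have v2 : HS (m + 1) (vA W1 W2) := hs_of_dbar m s.bV2.l2 s.wdb2 k2
    have v3 : HS (m + 1) (vB W1 W2) := hs_of_dbar m s.bV3.l2 s.wdb3 k3
    have cH1 : ∀ z, (starRingEnd ℂ) (H1 z) = H1 z := fun z =>
      Complex.conj_eq_iff_im.2 (s.rH1 z)
    have cH2 : ∀ z, (starRingEnd ℂ) (H2 z) = H2 z := fun z =>
      Complex.conj_eq_iff_im.2 (s.rH2 z)
    have cV : ∀ z, (starRingEnd ℂ) (vA H1 H2 z) = (H1 z + I * H2 z) / 2 := by
      intro z
      unfold vA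
      rw [map_div₀, map_sub, map_mul, cH1, cH2, Complex.conj_I, map_ofNat]
      ring
    have e1 : HS (m + 1) H1 := HS.congr' (v1.add v1.conj) fun z => by
      rw [cV]
      unfold vA
      ring
    have e2 : HS (m + 1) H2 := HS.congr' ((v1.sub v1.conj).cmul I) fun z => by
      rw [cV]
      unfold vA
      linear_combination (-H2 z) * Complex.I_mul_I
    have e3 : HS (m + 1) W1 := HS.congr' (v2.add v3.conj) fun z => by
      unfold vA vB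
      rw [Complex.conj_conj]
      ring
    have e4 : HS (m + 1) W2 := HS.congr' ((v2.sub v3.conj).cmul I) fun z => by
      unfold vA vB
      rw [Complex.conj_conj]
      linear_combination (-W2 z) * Complex.I_mul_I
    have gw : Gd m w := ⟨s.bw, a.w⟩
    have gF : Gd m F := ⟨s.bF, a.F⟩
    have g1 : Gd m W1 := ⟨s.bW1, a.W1⟩
    have g2 : Gd m W2 := ⟨s.bW2, a.W2⟩
    refine ⟨?_, ?_, ?_, e3, e4, e1, e2⟩
    · exact HS.mk s.bw.l2 s.dw1 (g1.add ((gF.gA1.cmul I).mul gw)).s s.dw2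
        (g2.add ((gF.gA2.cmul I).mul gw)).s
    · exact HS.mk s.bh.l2 s.dh1 a.H1 s.dh2 a.H2
    · exact HS.mk s.lF s.dF1 (gw.cur g2).neg.s s.dF2 (gw.cur g1).s

end O3R
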