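import Pool.Agent.GO3.R.Bas3

/-!
# Part R, module CP0: the Cauchy-Pompeiu formula for smooth functions with compact support (helper30)

Proved by helper85 (adapted from `Pool.Agent.DbarN.Ker1`).
-/

open MeasureTheory Filter Topology Complex Metric Set
open scoped ContDiff ENNReal NNReal ComplexConjugate

noncomputable section

namespace O3R

/-- the kernel -/
def c0f (t : ℂ) : ℂ := t⁻¹

theorem c0f_meas : Measurable c0f := by
  unfold c0f
  exact measurable_id.inv

theorem c0f_locInt : LocallyIntegrable c0f volume := by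
  rw [locallyIntegrable_iff]
  intro k hk
  obtain ⟨R, hR0, hR⟩ : ∃ R : ℝ, 0 < R ∧ k ⊆ closedBall 0 R := by
    obtain ⟨R, hR⟩ := hk.isBounded.subset_closedBall 0
    exact ⟨max R 1, by positivity, hR.trans (closedBall_subset_closedBall (le_max_left _ _))⟩
  refine IntegrableOn.mono_set ?_ hR
  refine ⟨c0f_meas.aestronglyMeasurable, ?_⟩
  rw [hasFiniteIntegral_iff_enorm]
  rw [← lintegral_indicator isClosed_closedBall.measurableSet]
  rw [← Complex.lintegral_comp_polarCoord_symm]
  have h1 : ∀ p ∈ polarCoord.target, ENNReal.ofReal p.1 •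
      (closedBall (0 : ℂ) R).indicator (fun a => ‖c0f a‖ₑ) (Complex.polarCoord.symm p) ≤
      (Set.Icc (0 : ℝ) R ×ˢ Set.Icc (-Real.pi) Real.pi).indicator (fun _ => 1) p := by
    intro p hp
    have hp1 : 0 < p.1 := hp.1
    have hp2 : p.2 ∈ Ioo (-Real.pi) Real.pi := hp.2
    have hn : ‖Complex.polarCoord.symm p‖ = p.1 := by
      rw [Complex.norm_polarCoord_symm, abs_of_pos hp1]
    by_cases h : Complex.polarCoord.symm p ∈ closedBall (0 : ℂ) R
    · rw [indicator_of_mem h]
      have hR' : p.1 ≤ R := by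
        rw [mem_closedBall_zero_iff, hn] at h; exact h
      rw [indicator_of_mem (show p ∈ Set.Icc (0 : ℝ) R ×ˢ Set.Icc (-Real.pi) Real.pi from
        ⟨⟨hp1.le, hR'⟩, ⟨hp2.1.le, hp2.2.le⟩⟩)]
      have : ‖c0f (Complex.polarCoord.symm p)‖ₑ = ENNReal.ofReal (p.1⁻¹) := by
        rw [← ofReal_norm]
        congr 1
        unfold c0f
        rw [norm_inv, hn]
      rw [this, smul_eq_mul, ← ENNReal.ofReal_mul hp1.le, mul_inv_cancel₀ hp1.ne']
      simp
    · rw [indicator_of_notMem h]
      simp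
  refine lt_of_le_of_lt (setLIntegral_mono' polarCoord.open_target.measurableSet h1) ?_
  refine lt_of_le_of_lt (setLIntegral_le_lintegral _ _) ?_
  rw [lintegral_indicator (measurableSet_Icc.prod measurableSet_Icc)]
  simp only [lintegral_const, one_mul, MeasurableSet.univ, Measure.restrict_apply, univ_inter]
  rw [show (volume : Measure (ℝ × ℝ)) = (volume : Measure ℝ).prod volume from rfl, Measure.prod_prod]
  simp only [Real.volume_Icc]
  exact ENNReal.mul_lt_top ENNReal.ofReal_lt_top ENNReal.ofReal_lt_top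

def c0e (θ : ℝ) : ℂ := Real.cos θ + Real.sin θ * I

theorem c0e_cont : Continuous c0e := by
  unfold c0e; fun_prop

theorem c0e_deriv (θ : ℝ) : HasDerivAt c0e (I * c0e θ) θ := by
  have h1 : HasDerivAt (fun θ : ℝ => ((Real.cos θ : ℝ) : ℂ)) ((-Real.sin θ : ℝ) : ℂ) θ :=
    (Real.hasDerivAt_cos θ).ofReal_comp
  have h2 : HasDerivAt (fun θ : ℝ => ((Real.sin θ : ℝ) : ℂ) * I) (((Real.cos θ : ℝ) : ℂ) * I) θ :=
    ((Real.hasDerivAt_sin θ).ofReal_comp).mul_const I
  refine (h1.add h2).congr_deriv ?_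
  unfold c0e
  push_cast
  ring_nf
  rw [I_sq]
  ring

theorem c0e_conj (θ : ℝ) : c0e θ * conj (c0e θ) = 1 := by
  unfold c0e
  simp only [map_add, conj_ofReal, map_mul, conj_I]
  have := Real.sin_sq_add_cos_sq θ
  have h2 : ((Real.sin θ : ℝ) : ℂ) ^ 2 + ((Real.cos θ : ℝ) : ℂ) ^ 2 = 1 := by
    exact_mod_cast this
  ring_nf
  rw [I_sq]
  linear_combination h2

theorem c0e_norm (θ : ℝ) : ‖c0e θ‖ = 1 := by
  have h := congrArg norm (c0e_conj θ)
  rw [norm_mul, RCLike.norm_conj, norm_one] at h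
  nlinarith [norm_nonneg (c0e θ)]


theorem c0_cauchy (h : ℂ → ℂ) (hh : ContDiff ℝ 1 h) (hc : HasCompactSupport h) :
    ∫ t, c0f t * ((fderiv ℝ h t 1 + I * fderiv ℝ h t I) / 2) = -(Real.pi : ℂ) * h 0 := by
  obtain ⟨R, hR0, hR⟩ : ∃ R : ℝ, 0 < R ∧ ∀ t : ℂ, R < ‖t‖ → h t = 0 ∧ fderiv ℝ h t = 0 := by
    obtain ⟨R, hR⟩ := hc.isCompact.isBounded.subset_closedBall 0
    refine ⟨max R 1, by positivity, fun t ht => ?_⟩
    have ht' : t ∉ tsupport h := fun hmem => by
      have := hR hmem
      rw [mem_closedBall_zero_iff] at this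
      exact absurd ht (not_lt.2 (this.trans (le_max_left _ _)))
    refine ⟨image_eq_zero_of_notMem_tsupport ht', ?_⟩
    exact image_eq_zero_of_notMem_tsupport (fun hm => ht' (tsupport_fderiv_subset ℝ hm))
  have hd : Continuous (fderiv ℝ h) := hh.continuous_fderiv one_ne_zero
  let A : ℝ × ℝ → ℂ := fun p => fderiv ℝ h ((p.1 : ℂ) * c0e p.2) (c0e p.2)
  let B : ℝ × ℝ → ℂ := fun p => fderiv ℝ h ((p.1 : ℂ) * c0e p.2) (I * c0e p.2)
  have hpt : Continuous (fun p : ℝ × ℝ => (p.1 : ℂ) * c0e p.2) :=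
    (continuous_ofReal.comp continuous_fst).mul (c0e_cont.comp continuous_snd)
  have hAc : Continuous A := (hd.comp hpt).clm_apply (c0e_cont.comp continuous_snd)
  have hBc : Continuous B :=
    (hd.comp hpt).clm_apply (continuous_const.mul (c0e_cont.comp continuous_snd))
  have hnorm : ∀ (r θ : ℝ), 0 < r → ‖(r : ℂ) * c0e θ‖ = r := by
    intro r θ hr
    rw [norm_mul, c0e_norm, mul_one, norm_real, Real.norm_eq_abs, abs_of_pos hr]
  have hint : ∀ G : ℝ × ℝ → ℂ, Continuous G → (∀ r θ : ℝ, R < r → G (r, θ) = 0) →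
      IntegrableOn G (Ioi (0 : ℝ) ×ˢ Ioo (-Real.pi) Real.pi) := by
    intro G hG hz
    have h1 : IntegrableOn G (Icc (0 : ℝ) R ×ˢ Icc (-Real.pi) Real.pi) :=
      hG.continuousOn.integrableOn_compact (isCompact_Icc.prod isCompact_Icc)
    refine (h1.of_forall_sdiff_eq_zero (measurableSet_Ioi.prod measurableSet_Ioo) ?_)
    rintro ⟨r, θ⟩ ⟨⟨hr, hθ⟩, hn⟩
    apply hz
    by_contra hcon
    exact hn ⟨⟨le_of_lt hr, not_lt.1 hcon⟩, ⟨hθ.1.le, hθ.2.le⟩⟩
  have hAz : ∀ r θ : ℝ, R < r → A (r, θ) = 0 := by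
    intro r θ hr
    have : fderiv ℝ h ((r : ℂ) * c0e θ) = 0 := (hR _ (by rw [hnorm r θ (hR0.trans hr)]; exact hr)).2
    simp only [A, this]; rfl
  have hBz : ∀ r θ : ℝ, R < r → B (r, θ) = 0 := by
    intro r θ hr
    have : fderiv ℝ h ((r : ℂ) * c0e θ) = 0 := (hR _ (by rw [hnorm r θ (hR0.trans hr)]; exact hr)).2
    simp only [B, this]; rfl
  have hAi := hint A hAc hAz
  have hBi := hint B hBc hBz
  rw [← Complex.integral_comp_polarCoord_symm]
  have e1 : ∫ p in polarCoord.target, p.1 • (c0f (Complex.polarCoord.symm p) *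
      ((fderiv ℝ h (Complex.polarCoord.symm p) 1 + I * fderiv ℝ h (Complex.polarCoord.symm p) I) / 2))
      = ∫ p in Ioi (0 : ℝ) ×ˢ Ioo (-Real.pi) Real.pi, (A p + I * B p) / 2 := by
    refine setIntegral_congr_fun (measurableSet_Ioi.prod measurableSet_Ioo) ?_
    rintro ⟨r, θ⟩ ⟨hr, hθ⟩
    have hr' : 0 < r := hr
    have e2 : Complex.polarCoord.symm (r, θ) = (r : ℂ) * c0e θ := by
      rw [Complex.polarCoord_symm_apply]; rfl
    have e3 : c0f ((r : ℂ) * c0e θ) = conj (c0e θ) / r := by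
      unfold c0f
      have h4 := c0e_conj θ
      have h5 : c0e θ ≠ 0 := by
        intro h0; rw [h0, zero_mul] at h4; exact zero_ne_one h4
      have h6 : (r : ℂ) ≠ 0 := by exact_mod_cast hr'.ne'
      field_simp
      linear_combination -h4
    have e4 : ∀ L : ℂ →L[ℝ] ℂ, L (c0e θ) + I * L (I * c0e θ) = conj (c0e θ) * (L 1 + I * L I) := by
      intro L
      have h1 : c0e θ = (Real.cos θ) • (1 : ℂ) + (Real.sin θ) • I := by
        unfold c0e; simp
      have h2 : I * c0e θ = (Real.cos θ) • I + (-Real.sin θ) • (1 : ℂ) := by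
        unfold c0e; simp only [real_smul]; push_cast; ring_nf; rw [I_sq]; ring
      have h3 : L (c0e θ) = (Real.cos θ) • L 1 + (Real.sin θ) • L I := by
        conv_lhs => rw [h1]
        rw [map_add, map_smul, map_smul]
      rw [h3, h2, map_add, map_smul, map_smul]
      simp only [real_smul]
      unfold c0e
      simp only [map_add, map_mul, conj_ofReal, conj_I]
      push_cast
      ring_nf
      rw [I_sq]
      ring
    simp only [A, B]
    rw [e2, e3, e4]
    have h6 : (r : ℂ) ≠ 0 := by exact_mod_cast hr'.ne'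
    rw [real_smul]
    field_simp
  rw [e1]
  have eA : ∫ p in Ioi (0 : ℝ) ×ˢ Ioo (-Real.pi) Real.pi, A p = -(2 * Real.pi : ℂ) * h 0 := by
    rw [show (volume : Measure (ℝ × ℝ)) = (volume : Measure ℝ).prod volume from rfl,
      ← Measure.prod_restrict]
    rw [integral_prod_symm _ (by
      rw [Measure.prod_restrict]; exact hAi)]
    have : ∀ θ : ℝ, ∫ r in Ioi (0 : ℝ), A (r, θ) = -h 0 := by
      intro θ
      have hder : ∀ r ∈ Ici (0 : ℝ), HasDerivAt (fun r : ℝ => h ((r : ℂ) * c0e θ)) (A (r, θ)) r := by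
        intro r _
        have h1 : HasDerivAt (fun r : ℝ => (r : ℂ) * c0e θ) (c0e θ) r := by
          have := (hasDerivAt_id r).ofReal_comp.mul_const (c0e θ)
          simpa using this
        exact ((hh.differentiable one_ne_zero).differentiableAt.hasFDerivAt (x := (r : ℂ) * c0e θ)).comp_hasDerivAt r h1
      have hi : IntegrableOn (fun r => A (r, θ)) (Ioi 0) := by
        have h1 : IntegrableOn (fun r => A (r, θ)) (Icc (0 : ℝ) R) :=
          (hAc.comp (by fun_prop : Continuous (fun r : ℝ => (r, θ)))).continuousOn.integrableOn_compact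
            isCompact_Icc
        refine h1.of_forall_sdiff_eq_zero measurableSet_Ioi ?_
        rintro r ⟨hr, hn⟩
        apply hAz
        by_contra hcon
        exact hn ⟨le_of_lt hr, not_lt.1 hcon⟩
      have ht : Filter.Tendsto (fun r : ℝ => h ((r : ℂ) * c0e θ)) Filter.atTop (𝓝 0) := by
        refine tendsto_const_nhds.congr' ?_
        filter_upwards [Filter.eventually_gt_atTop R] with r hr
        exact ((hR _ (by rw [hnorm r θ (hR0.trans hr)]; exact hr)).1).symm
      rw [integral_Ioi_of_hasDerivAt_of_tendsto' hder hi ht]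
      simp
    simp only [this]
    rw [integral_const]
    simp only [MeasurableSet.univ, measureReal_restrict_apply, univ_inter, Real.volume_real_Ioo]
    rw [real_smul]
    have : max (Real.pi - -Real.pi) 0 = 2 * Real.pi := by
      rw [max_eq_left (by linarith [Real.pi_pos])]; ring
    rw [this]
    push_cast
    ring
  have eB : ∫ p in Ioi (0 : ℝ) ×ˢ Ioo (-Real.pi) Real.pi, B p = 0 := by
    rw [show (volume : Measure (ℝ × ℝ)) = (volume : Measure ℝ).prod volume from rfl,
      ← Measure.prod_restrict]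
    rw [integral_prod _ (by
      rw [Measure.prod_restrict]; exact hBi)]
    have : ∀ r ∈ Ioi (0 : ℝ), ∫ θ in Ioo (-Real.pi) Real.pi, B (r, θ) = 0 := by
      intro r hr
      have hr' : 0 < r := hr
      have h6 : (r : ℂ) ≠ 0 := by exact_mod_cast hr'.ne'
      rw [← integral_Ioc_eq_integral_Ioo, ← intervalIntegral.integral_of_le (by linarith [Real.pi_pos])]
      have hder : ∀ θ ∈ uIcc (-Real.pi) Real.pi,
          HasDerivAt (fun θ : ℝ => (r : ℂ)⁻¹ * h ((r : ℂ) * c0e θ)) (B (r, θ)) θ := by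
        intro θ _
        have h1 : HasDerivAt (fun θ : ℝ => (r : ℂ) * c0e θ) ((r : ℂ) * (I * c0e θ)) θ :=
          (c0e_deriv θ).const_mul _
        have h2 := (((hh.differentiable one_ne_zero).differentiableAt.hasFDerivAt
          (x := (r : ℂ) * c0e θ)).comp_hasDerivAt θ h1).const_mul ((r : ℂ)⁻¹)
        refine h2.congr_deriv ?_
        have h3 : (r : ℂ) * (I * c0e θ) = r • (I * c0e θ) := by simp
        rw [h3, map_smul, real_smul]
        simp only [B]
        field_simp
      rw [intervalIntegral.integral_eq_sub_of_hasDerivAt hder]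
      · have : c0e Real.pi = c0e (-Real.pi) := by unfold c0e; simp
        rw [this, sub_self]
      · exact (hBc.comp (by fun_prop : Continuous (fun θ : ℝ => (r, θ)))).intervalIntegrable _ _
    rw [setIntegral_congr_fun measurableSet_Ioi this]
    simp
  have e5 : ∫ p in Ioi (0 : ℝ) ×ˢ Ioo (-Real.pi) Real.pi, (A p + I * B p) / 2 =
      ((∫ p in Ioi (0 : ℝ) ×ˢ Ioo (-Real.pi) Real.pi, A p) +
        I * ∫ p in Ioi (0 : ℝ) ×ˢ Ioo (-Real.pi) Real.pi, B p) / 2 := by
    rw [integral_div, integral_add hAi (hBi.const_mul I), integral_const_mul]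
  rw [e5, eA, eB]
  ring

/-- The kernel is locally integrable. -/
theorem ker_loc (z : ℂ) : LocallyIntegrable (fun ζ : ℂ => (z - ζ)⁻¹) volume := by
  have h : MeasurePreserving (Homeomorph.subLeft z) (volume : Measure ℂ) volume :=
    Measure.measurePreserving_sub_left volume z
  have h1 : LocallyIntegrable (fun ζ : ℂ => c0f (z - ζ)) volume := by
    rw [locallyIntegrable_iff]
    intro k hk
    have hk' : IsCompact ((Homeomorph.subLeft z) '' k) := hk.image (Homeomorph.subLeft z).continuous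
    have h2 := (locallyIntegrable_iff.1 c0f_locInt) _ hk'
    exact (h.integrableOn_image (Homeomorph.subLeft z).measurableEmbedding).1 h2
  exact h1

theorem cp_smooth (φ : ℂ → ℂ) (h : ContDiff ℝ 1 φ) (hc : HasCompactSupport φ) (z : ℂ) :
    φ z = (1 / Real.pi : ℂ) * ∫ ζ, dbar φ ζ * (z - ζ)⁻¹ := by
  have hh : ContDiff ℝ 1 (fun t => φ (z + t)) := h.comp (contDiff_const.add contDiff_id)
  have hhc : HasCompactSupport (fun t => φ (z + t)) := hc.comp_homeomorph (Homeomorph.addLeft z)
  have key := c0_cauchy (fun t => φ (z + t)) hh hhc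
  have e1 : ∀ t, c0f t * ((fderiv ℝ (fun t => φ (z + t)) t 1 + I * fderiv ℝ (fun t => φ (z + t)) t I) / 2)
      = -(dbar φ (z + t) * (z - (z + t))⁻¹) := by
    intro t
    rw [fderiv_comp_add_left]
    unfold dbar dd c0f
    have : z - (z + t) = -t := by ring
    rw [this, inv_neg]
    ring
  simp only [e1] at key
  rw [integral_neg, integral_add_left_eq_self (μ := volume) (fun ζ => dbar φ ζ * (z - ζ)⁻¹) z,
    add_zero] at key
  have hpi : (Real.pi : ℂ) ≠ 0 := by exact_mod_cast Real.pi_ne_zero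
  have e2 : ∫ ζ, dbar φ ζ * (z - ζ)⁻¹ = Real.pi * φ z := by linear_combination -key
  rw [e2]
  field_simp

end O3R
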