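import Pool.Agent.GO3.R.CP0

/-!
# Part R, module CPW: the weak Cauchy-Pompeiu formula (helper30)

Proved by helper85.
-/

open MeasureTheory Filter Topology Complex Metric Set
open scoped ContDiff ENNReal NNReal Convolution

noncomputable section

namespace O3R

/-- `dbar` of a real function -/
theorem cpw_dbar_real (ψ : ℂ → ℝ) (h : ContDiff ℝ ∞ ψ) (z : ℂ) :
    dbar (fun x => (ψ x : ℂ)) z = (dr 1 ψ z + I * dr I ψ z) / 2 := by
  have hd : DifferentiableAt ℝ ψ z := (h.differentiable (by simp)) z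
  have e : ∀ e : ℂ, fderiv ℝ (fun x => (ψ x : ℂ)) z e = ((fderiv ℝ ψ z e : ℝ) : ℂ) := by
    intro e
    have h1 : HasFDerivAt (fun x => (ψ x : ℂ)) (Complex.ofRealCLM.comp (fderiv ℝ ψ z)) z :=
      Complex.ofRealCLM.hasFDerivAt.comp z hd.hasFDerivAt
    rw [h1.fderiv]
    rfl
  unfold dbar dd dr
  rw [e, e]

theorem cpw_dbar_split (ψ : ℂ → ℂ) (h : ContDiff ℝ ∞ ψ) (z : ℂ) :
    dbar ψ z = (dr 1 (fun x => (ψ x).re) z + I * dr I (fun x => (ψ x).re) z) / 2 +
      I * ((dr 1 (fun x => (ψ x).im) z + I * dr I (fun x => (ψ x).im) z) / 2) := by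
  have hd : DifferentiableAt ℝ ψ z := (h.differentiable (by simp)) z
  have e1 : ∀ e : ℂ, fderiv ℝ (fun x => (ψ x).re) z e = (fderiv ℝ ψ z e).re := by
    intro e
    have h1 : HasFDerivAt (fun x => (ψ x).re) (Complex.reCLM.comp (fderiv ℝ ψ z)) z :=
      Complex.reCLM.hasFDerivAt.comp z hd.hasFDerivAt
    rw [h1.fderiv]
    rfl
  have e2 : ∀ e : ℂ, fderiv ℝ (fun x => (ψ x).im) z e = (fderiv ℝ ψ z e).im := by
    intro e
    have h1 : HasFDerivAt (fun x => (ψ x).im) (Complex.imCLM.comp (fderiv ℝ ψ z)) z :=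
      Complex.imCLM.hasFDerivAt.comp z hd.hasFDerivAt
    rw [h1.fderiv]
    rfl
  unfold dbar dd dr
  rw [e1, e1, e2, e2]
  conv_lhs => rw [← Complex.re_add_im (fderiv ℝ ψ z 1), ← Complex.re_add_im (fderiv ℝ ψ z I)]
  ring

/-- complex valued test functions -/
theorem wdb_cplx {V g : ℂ → ℂ} (hV : L1l V) (hg : L1l g) (h : WDb V g) (ψ : ℂ → ℂ)
    (hψ : ContDiff ℝ ∞ ψ) (hc : HasCompactSupport ψ) :
    ∫ z, V z * dbar ψ z = -∫ z, ψ z * g z := by
  have t1 : Tst (fun x => (ψ x).re) := ⟨Complex.reCLM.contDiff.comp hψ, hc.comp_left rfl⟩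
  have t2 : Tst (fun x => (ψ x).im) := ⟨Complex.imCLM.contDiff.comp hψ, hc.comp_left rfl⟩
  have h1 := h _ t1
  have h2 := h _ t2
  have i1 := t1.int hg
  have i2 := t2.int hg
  have hV2 : L1l (fun z => V z / 2) := by
    have := hV.cmul (1 / 2)
    refine this.congr (Eventually.of_forall fun z => ?_)
    show 1 / 2 * V z = V z / 2
    ring
  have hV3 : L1l (fun z => I * V z / 2) := by
    have := hV.cmul (I / 2)
    refine this.congr (Eventually.of_forall fun z => ?_)
    show I / 2 * V z = I * V z / 2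
    ring
  have j1 : Integrable (fun z => dr 1 (fun x => (ψ x).re) z * (V z / 2) +
      dr I (fun x => (ψ x).re) z * (I * V z / 2)) := (t1.int1 hV2 1).add (t1.int1 hV3 I)
  have j2 : Integrable (fun z => dr 1 (fun x => (ψ x).im) z * (V z / 2) +
      dr I (fun x => (ψ x).im) z * (I * V z / 2)) := (t2.int1 hV2 1).add (t2.int1 hV3 I)
  have e1 : ∫ z, V z * dbar ψ z = (∫ z, (dr 1 (fun x => (ψ x).re) z * (V z / 2) +
      dr I (fun x => (ψ x).re) z * (I * V z / 2))) + I * ∫ z, (dr 1 (fun x => (ψ x).im) z * (V z / 2) +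
      dr I (fun x => (ψ x).im) z * (I * V z / 2)) := by
    rw [← integral_const_mul, ← integral_add j1 (j2.const_mul I)]
    refine integral_congr_ae (Eventually.of_forall fun z => ?_)
    show V z * dbar ψ z = _
    rw [cpw_dbar_split ψ hψ z]
    ring
  have e2 : ∫ z, ψ z * g z = (∫ z, (((ψ z).re : ℝ) : ℂ) * g z) + I * ∫ z, (((ψ z).im : ℝ) : ℂ) * g z := by
    rw [← integral_const_mul, ← integral_add i1 (i2.const_mul I)]
    refine integral_congr_ae (Eventually.of_forall fun z => ?_)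
    show ψ z * g z = _
    conv_lhs => rw [← Complex.re_add_im (ψ z)]
    ring
  rw [e1, e2, h1, h2]
  ring

/-- the potential of a smooth function with compact support is smooth -/
theorem cpw_pot (φ : ℂ → ℂ) (h : ContDiff ℝ ∞ φ) (hc : HasCompactSupport φ) :
    ContDiff ℝ ∞ (fun ζ => ∫ t, c0f t * φ (ζ - t)) ∧
    ∀ ζ, dbar (fun ζ => ∫ t, c0f t * φ (ζ - t)) ζ = Real.pi * φ ζ := by
  have h1 : ContDiff ℝ 1 φ := h.of_le (by exact_mod_cast le_top)
  refine ⟨?_, fun v => ?_⟩
  · exact HasCompactSupport.contDiff_convolution_right (μ := volume) (ContinuousLinearMap.mul ℝ ℂ) hc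
      c0f_locInt h
  · have k1 := HasCompactSupport.hasFDerivAt_convolution_right (μ := volume)
      (ContinuousLinearMap.mul ℝ ℂ) hc c0f_locInt h1 v
    have hd : Continuous (fderiv ℝ φ) := h1.continuous_fderiv one_ne_zero
    have hex := (hc.fderiv ℝ).convolutionExists_right
      ((ContinuousLinearMap.mul ℝ ℂ).precompR ℂ) (μ := volume) c0f_locInt hd
    have h2 : ∀ w : ℂ, fderiv ℝ (fun ζ => ∫ t, c0f t * φ (ζ - t)) v w =
        ∫ t, c0f t * fderiv ℝ φ (v - t) w := by
      intro w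
      have h3 : HasFDerivAt (fun v => ∫ t, c0f t * φ (v - t))
        ((c0f ⋆[(ContinuousLinearMap.mul ℝ ℂ).precompR ℂ, volume] fderiv ℝ φ) v) v := k1
      rw [h3.fderiv]
      show ((c0f ⋆[(ContinuousLinearMap.mul ℝ ℂ).precompR ℂ, volume] fderiv ℝ φ) v w) = _
      unfold convolution
      rw [ContinuousLinearMap.integral_apply (hex v)]
      rfl
    have hi : ∀ w : ℂ, Integrable (fun t => c0f t * fderiv ℝ φ (v - t) w) := by
      intro w
      have hgw : Continuous (fun x => fderiv ℝ φ x w) := hd.clm_apply continuous_const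
      have hcw : HasCompactSupport (fun x => fderiv ℝ φ x w) :=
        (hc.fderiv ℝ).comp_left (g := fun L : ℂ →L[ℝ] ℂ => L w) rfl
      exact (hcw.convolutionExists_right (ContinuousLinearMap.mul ℝ ℂ) (μ := volume) c0f_locInt hgw) v
    unfold dbar dd
    rw [h2, h2, ← integral_const_mul, ← integral_add (hi 1) ((hi I).const_mul I), ← integral_div]
    have key := cp_smooth φ h1 hc v
    have e1 : ∫ a, (c0f a * fderiv ℝ φ (v - a) 1 + I * (c0f a * fderiv ℝ φ (v - a) I)) / 2 =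
        ∫ ζ, dbar φ ζ * (v - ζ)⁻¹ := by
      rw [← integral_sub_left_eq_self (μ := volume) (fun ζ => dbar φ ζ * (v - ζ)⁻¹) v]
      refine integral_congr_ae (Eventually.of_forall fun t => ?_)
      show _ = dbar φ (v - t) * (v - (v - t))⁻¹
      unfold dbar dd c0f
      have : v - (v - t) = t := by ring
      rw [this]
      ring
    rw [e1]
    have hpi : (Real.pi : ℂ) ≠ 0 := by exact_mod_cast Real.pi_ne_zero
    rw [key]
    field_simp

/-- truncated kernel -/
def ckt (R : ℝ) : ℂ → ℂ := (closedBall (0 : ℂ) R).indicator c0f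

theorem ckt_int (R : ℝ) : Integrable (ckt R) := by
  unfold ckt
  rw [integrable_indicator_iff isClosed_closedBall.measurableSet]
  exact (locallyIntegrable_iff.1 c0f_locInt) _ (isCompact_closedBall _ _)

theorem ckt_prod {f : ℂ → ℂ} (hf : Integrable f) (R : ℝ) :
    Integrable (fun p : ℂ × ℂ => f p.2 * ckt R (p.1 - p.2)) (volume.prod volume) :=
  hf.convolution_integrand (ContinuousLinearMap.mul ℝ ℂ) (ckt_int R)

theorem ckt_eq {R : ℝ} {z : ℂ} (h : ‖z‖ ≤ R) : ckt R z = z⁻¹ := by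
  unfold ckt
  rw [indicator_of_mem (by rwa [mem_closedBall_zero_iff])]
  rfl

/-- the weak Cauchy-Pompeiu formula -/
theorem cp_weak {V g : ℂ → ℂ} {χ : ℂ → ℝ} (hV : L1l V) (hg : L1l g) (h : WDb V g) (hχ : Tst χ) :
    ∀ᵐ z, (χ z : ℂ) * V z = (1 / Real.pi : ℂ) *
      ∫ ζ, ((χ ζ : ℂ) * g ζ + V ζ * dbar (fun x => (χ x : ℂ)) ζ) * (z - ζ)⁻¹ := by
  have hpi : (Real.pi : ℂ) ≠ 0 := by exact_mod_cast Real.pi_ne_zero
  set f : ℂ → ℂ := fun ζ => (χ ζ : ℂ) * g ζ + V ζ * dbar (fun x => (χ x : ℂ)) ζ with hf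
  have hi1 : Integrable (fun ζ => (χ ζ : ℂ) * g ζ) := hχ.int hg
  have hi2 : Integrable (fun ζ => V ζ * dbar (fun x => (χ x : ℂ)) ζ) := by
    have a1 := hχ.int1 hV 1
    have a2 := (hχ.int1 hV I).const_mul I
    refine ((a1.add a2).div_const 2).congr (Eventually.of_forall fun z => ?_)
    show (dr 1 χ z * V z + I * (dr I χ z * V z)) / 2 = V z * dbar (fun x => (χ x : ℂ)) z
    rw [cpw_dbar_real χ hχ.smooth]
    ring
  have hfi : Integrable f := hi1.add hi2
  obtain ⟨S, M, hS, hM, hbd, -⟩ := hχ.bd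
  have hf0 : ∀ ζ, ¬ ‖ζ‖ ≤ S → f ζ = 0 := by
    intro ζ hζ
    have h1 : ζ ∉ closedBall (0 : ℂ) S := by rwa [mem_closedBall_zero_iff]
    obtain ⟨b1, b2⟩ := hbd ζ h1
    rw [hf]
    simp only
    rw [cpw_dbar_real χ hχ.smooth]
    unfold dr
    rw [b1, b2, b2]
    simp
  set T : ℂ → ℂ := fun z => ∫ ζ, f ζ * (z - ζ)⁻¹ with hT
  have hTR : ∀ R z, ‖z‖ ≤ R → ∀ ζ, f ζ * (z - ζ)⁻¹ = f ζ * ckt (R + S) (z - ζ) := by
    intro R z hz ζ
    by_cases hζ : ‖ζ‖ ≤ S
    · rw [ckt_eq ((norm_sub_le z ζ).trans (by linarith))]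
    · rw [hf0 ζ hζ, zero_mul, zero_mul]
  have hTl : L1l T := by
    intro R
    have h1 : Integrable (fun z => ∫ ζ, f ζ * ckt (R + S) (z - ζ)) := (ckt_prod hfi (R + S)).integral_prod_left
    refine (h1.integrableOn (s := closedBall 0 R)).congr ?_
    filter_upwards [ae_restrict_mem isClosed_closedBall.measurableSet] with z hz
    rw [mem_closedBall_zero_iff] at hz
    exact (integral_congr_ae (Eventually.of_forall fun ζ => hTR R z hz ζ)).symm
  have hcV : L1l (fun z => (χ z : ℂ) * V z) := fun R => (hχ.int hV).integrableOn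
  have hGl : L1l (fun z => (χ z : ℂ) * V z + (-(1 / Real.pi : ℂ)) * T z) := hcV.add (hTl.cmul _)
  have main : ∀ φ : ℂ → ℝ, Tst φ → ∫ z, (φ z : ℂ) * T z = Real.pi * ∫ z, (φ z : ℂ) * ((χ z : ℂ) * V z) := by
    intro φ hφ
    obtain ⟨R, N, hR, hN, hbφ, hb2⟩ := hφ.bd
    have hφc : ContDiff ℝ ∞ (fun x => (φ x : ℂ)) := Complex.ofRealCLM.contDiff.comp hφ.smooth
    have hφs : HasCompactSupport (fun x => (φ x : ℂ)) := hφ.supp.comp_left (g := fun x : ℝ => (x : ℂ)) rfl
    obtain ⟨p1, p2⟩ := cpw_pot _ hφc hφs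
    set Φ : ℂ → ℂ := fun ζ => ∫ t, c0f t * (φ (ζ - t) : ℂ) with hΦ
    have hφ0 : ∀ z, ¬ ‖z‖ ≤ R → φ z = 0 := by
      intro z hz
      exact (hbφ z (by rwa [mem_closedBall_zero_iff])).1
    have hprod : Integrable (fun p : ℂ × ℂ => (φ p.1 : ℂ) * (f p.2 * ckt (R + S) (p.1 - p.2)))
        (volume.prod volume) := by
      refine Integrable.bdd_mul (c := N) (ckt_prod hfi (R + S)) ?_ (Eventually.of_forall fun p => ?_)
      · exact ((hφc.continuous).comp continuous_fst).aestronglyMeasurable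
      · show ‖(φ p.1 : ℂ)‖ ≤ N
        rw [Complex.norm_real]
        exact (hb2 p.1).1
    have s1 : ∫ z, (φ z : ℂ) * T z = ∫ z, ∫ ζ, (φ z : ℂ) * (f ζ * ckt (R + S) (z - ζ)) := by
      refine integral_congr_ae (Eventually.of_forall fun z => ?_)
      show (φ z : ℂ) * T z = ∫ ζ, (φ z : ℂ) * (f ζ * ckt (R + S) (z - ζ))
      rw [integral_const_mul]
      by_cases hz : ‖z‖ ≤ R
      · rw [hT]
        simp only
        rw [integral_congr_ae (Eventually.of_forall fun ζ => hTR R z hz ζ)]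
      · rw [hφ0 z hz]
        simp
    have s2 : ∫ z, ∫ ζ, (φ z : ℂ) * (f ζ * ckt (R + S) (z - ζ)) =
        ∫ ζ, ∫ z, (φ z : ℂ) * (f ζ * ckt (R + S) (z - ζ)) := integral_integral_swap hprod
    have s3 : ∫ ζ, ∫ z, (φ z : ℂ) * (f ζ * ckt (R + S) (z - ζ)) = ∫ ζ, -(f ζ * Φ ζ) := by
      refine integral_congr_ae (Eventually.of_forall fun ζ => ?_)
      show ∫ z, (φ z : ℂ) * (f ζ * ckt (R + S) (z - ζ)) = -(f ζ * Φ ζ)
      by_cases hζ : ‖ζ‖ ≤ S
      · have e1 : ∀ z, (φ z : ℂ) * (f ζ * ckt (R + S) (z - ζ)) = f ζ * ((φ z : ℂ) * (z - ζ)⁻¹) := by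
          intro z
          by_cases hz : ‖z‖ ≤ R
          · rw [ckt_eq ((norm_sub_le z ζ).trans (by linarith))]
            ring
          · rw [hφ0 z hz]
            simp
        rw [integral_congr_ae (Eventually.of_forall e1), integral_const_mul, ← mul_neg]
        congr 1
        rw [← integral_sub_left_eq_self (μ := volume) (fun z => (φ z : ℂ) * (z - ζ)⁻¹) ζ, hΦ]
        simp only
        rw [← integral_neg]
        refine integral_congr_ae (Eventually.of_forall fun t => ?_)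
        show (φ (ζ - t) : ℂ) * (ζ - t - ζ)⁻¹ = -(c0f t * (φ (ζ - t) : ℂ))
        have : ζ - t - ζ = -t := by ring
        rw [this, inv_neg]
        unfold c0f
        ring
      · rw [hf0 ζ hζ]
        simp
    have hΦs : ContDiff ℝ ∞ (fun z => (χ z : ℂ) * Φ z) :=
      (Complex.ofRealCLM.contDiff.comp hχ.smooth).mul p1
    have hχs : HasCompactSupport (fun x => (χ x : ℂ)) := hχ.supp.comp_left (g := fun x : ℝ => (x : ℂ)) rfl
    have w1 := wdb_cplx hV hg h _ hΦs hχs.mul_right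
    have hΦd : Differentiable ℝ Φ := p1.differentiable (by simp)
    have hχd : Differentiable ℝ (fun x => (χ x : ℂ)) :=
      (Complex.ofRealCLM.contDiff.comp hχ.smooth).differentiable (by simp)
    have e2 : ∀ z, dbar (fun z => (χ z : ℂ) * Φ z) z =
        dbar (fun x => (χ x : ℂ)) z * Φ z + Real.pi * ((χ z : ℂ) * (φ z : ℂ)) := by
      intro z
      have q1 : dbar (fun z => (χ z : ℂ) * Φ z) z =
          dbar (fun x => (χ x : ℂ)) z * Φ z + (χ z : ℂ) * dbar Φ z := by
        unfold dbar dd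
        rw [fderiv_fun_mul (hχd z) (hΦd z)]
        simp only [add_apply, smul_apply, smul_eq_mul]
        ring
      rw [q1, p2 z]
      ring
    -- continuity and boundedness of `Φ` on the support
    have hΦc : Continuous Φ := p1.continuous
    have i1 : Integrable (fun z => f z * Φ z) := by
      obtain ⟨N', hN'⟩ := (isCompact_closedBall (0 : ℂ) S).exists_bound_of_continuousOn hΦc.continuousOn
      refine Integrable.mono' (hfi.norm.mul_const N') (hfi.aestronglyMeasurable.mul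
        hΦc.aestronglyMeasurable) (Eventually.of_forall fun z => ?_)
      rw [norm_mul]
      by_cases hz : ‖z‖ ≤ S
      · gcongr
        exact hN' z (by rwa [mem_closedBall_zero_iff])
      · rw [hf0 z hz]
        simp
    have i2 : Integrable (fun z => (φ z : ℂ) * ((χ z : ℂ) * V z)) := hφ.int hcV
    have e3 : ∫ z, V z * dbar (fun z => (χ z : ℂ) * Φ z) z =
        (∫ z, (f z * Φ z + Real.pi * ((φ z : ℂ) * ((χ z : ℂ) * V z)))) - ∫ z, ((χ z : ℂ) * Φ z) * g z := by
      have i3 : Integrable (fun z => ((χ z : ℂ) * Φ z) * g z) := by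
        have t3 : Integrable (fun z => ((χ z : ℂ) * g z) * Φ z) := by
          obtain ⟨N', hN'⟩ := (isCompact_closedBall (0 : ℂ) S).exists_bound_of_continuousOn hΦc.continuousOn
          refine Integrable.mono' (hi1.norm.mul_const N') (hi1.aestronglyMeasurable.mul
            hΦc.aestronglyMeasurable) (Eventually.of_forall fun z => ?_)
          rw [norm_mul]
          by_cases hz : ‖z‖ ≤ S
          · gcongr
            exact hN' z (by rwa [mem_closedBall_zero_iff])
          · have h1 : z ∉ closedBall (0 : ℂ) S := by rwa [mem_closedBall_zero_iff]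
            rw [(hbd z h1).1]
            simp
        refine t3.congr (Eventually.of_forall fun z => ?_)
        show (χ z : ℂ) * g z * Φ z = (χ z : ℂ) * Φ z * g z
        ring
      have i4 : Integrable (fun z => f z * Φ z + Real.pi * ((φ z : ℂ) * ((χ z : ℂ) * V z))) :=
        i1.add (i2.const_mul _)
      rw [← integral_sub i4 i3]
      refine integral_congr_ae (Eventually.of_forall fun z => ?_)
      show V z * dbar (fun z => (χ z : ℂ) * Φ z) z =
        f z * Φ z + Real.pi * ((φ z : ℂ) * ((χ z : ℂ) * V z)) - (χ z : ℂ) * Φ z * g z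
      rw [e2 z, hf]
      ring
    rw [e3, integral_add i1 (i2.const_mul _), integral_const_mul] at w1
    rw [s1, s2, s3, integral_neg]
    linear_combination -w1
  have z0 := ae_zero hGl (fun φ hφ => by
    have i2 : Integrable (fun z => (φ z : ℂ) * ((χ z : ℂ) * V z)) := hφ.int hcV
    have i3 : Integrable (fun z => (φ z : ℂ) * T z) := hφ.int hTl
    have e1 : ∫ z, (φ z : ℂ) * ((χ z : ℂ) * V z + (-(1 / Real.pi : ℂ)) * T z) =
        (∫ z, (φ z : ℂ) * ((χ z : ℂ) * V z)) + (-(1 / Real.pi : ℂ)) * ∫ z, (φ z : ℂ) * T z := by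
      rw [← integral_const_mul, ← integral_add i2 (i3.const_mul _)]
      refine integral_congr_ae (Eventually.of_forall fun z => ?_)
      show (φ z : ℂ) * ((χ z : ℂ) * V z + (-(1 / Real.pi : ℂ)) * T z) =
        (φ z : ℂ) * ((χ z : ℂ) * V z) + (-(1 / Real.pi : ℂ)) * ((φ z : ℂ) * T z)
      ring
    rw [e1, main φ hφ]
    field_simp
    ring)
  filter_upwards [z0] with z hz
  have hz' : (χ z : ℂ) * V z + (-(1 / Real.pi : ℂ)) * T z = 0 := hz
  linear_combination hz'

end O3R
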