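import Pool.Agent.GO3.Defs
import Pool.Agent.GO3.R.Dil2

/-!
# Part R, module Con1: from `GO3.WSol` to `O3R.Sol` (helper30)

`co f z = (f z : ℂ)` for a real valued `f`.

PROOFS.
* `avg_co`: `avg 1 (co F) z = (Gof F z : ℂ)` (`intervalIntegral.integral_ofReal`); `ip_A1`, `ip_A2`:
  `ip (Aof F z) 1 = re (i z G) = -(im z) G`, `ip (Aof F z) I = im (i z G) = (re z) G`.
* `l2_of_memLp`: restriction of a global `L²` function; coercion is an isometry.
* `toSol`: fields of `Sol`: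
  - `unit`, `tan1`, `tan2`, measurability: direct (`star = starRingEnd ℂ`).
  - `growth`: on `ball q r` the Bochner integral of the integrable function `‖W1‖² + ‖W2‖² + H1² + H2²` is at most `C r ^ kap`;
    `ofReal_integral_eq_lintegral_ofReal`; `ed = ofReal (...)`.  `kap = 13/25 > 1/2`.  (`C` may be replaced by `max C 0`.)
  - `dw1`, `dw2`, `dh1`, `dh2`: `dw1` etc. with the real test `ψ` (for `h` coerce the real integrals: `integral_ofReal`).
  - `dF1`: `eqA` with `f = I ψ`: `∫ (F ∂₁ψ - ψ Im (conj w W2)) = 0`; `dF2`: `eqA` with `f = ψ`: `∫ (-F ∂₂ψ - ψ Im (conj w W1)) = 0`;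
    split the integrals (integrability: `Tst.int`, `Tst.int1`, the products are in `L1l`).
  - `eq`: `eqp` with `f = ψ` and with `f = I ψ`: with `g = (1-h) w + i A_k X_k` and real `A_k`:
    `Re (conj X_k (∂_kψ - i A_k ψ)) = ∂_kψ Re X_k + ψ Re (i A_k X_k)`, so `∫ (∂_kψ Re X_k + ψ Re g) = 0`; for `I ψ` the same with `Im`.
    `X_k`, `g` are in `L1l` (`‖w‖ ≤ 1`, `|h| ≤ 1` a.e., `gA1_L2`, `gA2_L2`); combine real and imaginary parts.
-/

open MeasureTheory Filter Topology Complex Metric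
open scoped ContDiff ENNReal NNReal

noncomputable section

namespace O3R

variable {w : ℂ → ℂ} {h F : ℂ → ℝ} {W1 W2 : ℂ → ℂ} {H1 H2 : ℂ → ℝ}

/-- Coercion. -/
def co (f : ℂ → ℝ) (z : ℂ) : ℂ := (f z : ℂ)

theorem avg_co (F : ℂ → ℝ) (z : ℂ) : avg 1 (co F) z = (GO3.Gof F z : ℂ) := by
  unfold avg GO3.Gof co
  rw [← intervalIntegral.integral_ofReal]
  refine intervalIntegral.integral_congr fun t _ => ?_
  push_cast
  ring

theorem ip_A1 (F : ℂ → ℝ) (z : ℂ) : ((GO3.ip (GO3.Aof F z) 1 : ℝ) : ℂ) = gA1 (co F) z := by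
  unfold gA1
  rw [avg_co]
  unfold GO3.ip GO3.Aof
  simp

theorem ip_A2 (F : ℂ → ℝ) (z : ℂ) : ((GO3.ip (GO3.Aof F z) I : ℝ) : ℂ) = gA2 (co F) z := by
  unfold gA2
  rw [avg_co]
  unfold GO3.ip GO3.Aof
  simp

theorem aof_eq (F : ℂ → ℝ) (z : ℂ) : GO3.Aof F z = gA1 (co F) z + I * gA2 (co F) z := by
  unfold gA1 gA2
  rw [avg_co]
  unfold GO3.Aof
  calc I * z * (GO3.Gof F z : ℂ) = I * ((z.re : ℂ) + z.im * I) * (GO3.Gof F z : ℂ) := by
        rw [Complex.re_add_im]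
    _ = _ := by linear_combination (z.im * GO3.Gof F z : ℂ) * I_mul_I

theorem l2_of_memLp {u : ℂ → ℂ} (h : MemLp u 2) : L2l u := fun _ => h.restrict _

theorem l2_of_memLp' {u : ℂ → ℝ} (h : MemLp u 2) : L2l (co u) := fun _ => h.ofReal.restrict _

private theorem enn_sq (a : ℂ) : ‖a‖ₑ ^ 2 = ENNReal.ofReal (‖a‖ ^ 2) := by
  rw [ENNReal.ofReal_pow (norm_nonneg _), ofReal_norm]

theorem toSol_growth (s : GO3.WSol w h F W1 W2 H1 H2) : LG (ed W1 W2 (co H1) (co H2)) GO3.kap := by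
  intro R
  obtain ⟨C, hC⟩ := s.growth R
  refine ⟨C.toNNReal, fun p hp r h0 h1 => ?_⟩
  have e1 : ∀ z, ed W1 W2 (co H1) (co H2) z =
      ENNReal.ofReal (‖W1 z‖ ^ 2 + ‖W2 z‖ ^ 2 + H1 z ^ 2 + H2 z ^ 2) := by
    intro z
    unfold ed
    rw [enn_sq, enn_sq, enn_sq, enn_sq, ENNReal.ofReal_add (by positivity) (by positivity),
      ENNReal.ofReal_add (by positivity) (by positivity), ENNReal.ofReal_add (by positivity) (by positivity)]
    simp only [co, Complex.norm_real, Real.norm_eq_abs, sq_abs]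
  have i1 : Integrable fun z => ‖W1 z‖ ^ 2 := (memLp_two_iff_integrable_sq_norm s.mW1.1).1 s.mW1
  have i2 : Integrable fun z => ‖W2 z‖ ^ 2 := (memLp_two_iff_integrable_sq_norm s.mW2.1).1 s.mW2
  have i3 : Integrable fun z => H1 z ^ 2 := s.mH1.integrable_sq
  have i4 : Integrable fun z => H2 z ^ 2 := s.mH2.integrable_sq
  have i5 : Integrable fun z => ‖W1 z‖ ^ 2 + ‖W2 z‖ ^ 2 + H1 z ^ 2 + H2 z ^ 2 := ((i1.add i2).add i3).add i4
  simp only [e1]
  rw [← ofReal_integral_eq_lintegral_ofReal i5.integrableOn (ae_of_all _ fun z => by positivity)]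
  have h2 := hC p hp r ⟨h0, h1⟩
  have h3 : (0 : ℝ) ≤ r ^ GO3.kap := Real.rpow_nonneg h0.le _
  calc ENNReal.ofReal (∫ z in ball p r, ‖W1 z‖ ^ 2 + ‖W2 z‖ ^ 2 + H1 z ^ 2 + H2 z ^ 2)
      ≤ ENNReal.ofReal (C * r ^ GO3.kap) := ENNReal.ofReal_le_ofReal h2
    _ = ENNReal.ofReal C * ENNReal.ofReal (r ^ GO3.kap) := ENNReal.ofReal_mul' h3
    _ = _ := rfl

private theorem w_bd (s : GO3.WSol w h F W1 W2 H1 H2) : Bdl w := by
  refine ⟨s.mw, fun R => ⟨1, ?_⟩⟩
  filter_upwards [s.unit] with z hz _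
  nlinarith [norm_nonneg (w z), sq_nonneg (h z), sq_nonneg (‖w z‖ - 1)]

private theorem h_bd (s : GO3.WSol w h F W1 W2 H1 H2) : Bdl (co h) := by
  refine ⟨Complex.continuous_ofReal.comp_aestronglyMeasurable s.mh, fun R => ⟨1, ?_⟩⟩
  filter_upwards [s.unit] with z hz _
  unfold co
  rw [Complex.norm_real, Real.norm_eq_abs, abs_le]
  constructor <;> nlinarith [sq_nonneg (‖w z‖)]

private theorem cur_l1 (s : GO3.WSol w h F W1 W2 H1 H2) {W : ℂ → ℂ} (hW : L2l W) : L1l (cur w W) := by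
  have h1 : L2l (fun z => (starRingEnd ℂ) (w z) * W z) := (w_bd s).conj.mul_l2 hW
  have h2 : L2l (cur w W) := by
    refine h1.of_le ?_ (ae_of_all _ fun z => ?_)
    · exact (Complex.continuous_ofReal.comp Complex.continuous_im).comp_aestronglyMeasurable h1.ae
    · unfold cur
      rw [Complex.norm_real, Real.norm_eq_abs]
      exact Complex.abs_im_le_norm _
  exact h2.l1

private theorem fd_co {ψ : ℂ → ℝ} (hψ : Tst ψ) (z e : ℂ) :
    fderiv ℝ (fun z => (ψ z : ℂ)) z e = ((fderiv ℝ ψ z e : ℝ) : ℂ) := by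
  have h1 : HasFDerivAt ψ (fderiv ℝ ψ z) z := (hψ.smooth.differentiable (by simp) z).hasFDerivAt
  have h2 : HasFDerivAt (fun z => (ψ z : ℂ)) (Complex.ofRealCLM.comp (fderiv ℝ ψ z)) z :=
    Complex.ofRealCLM.hasFDerivAt.comp z h1
  rw [h2.fderiv]
  rfl

private theorem fd_Ico {ψ : ℂ → ℝ} (hψ : Tst ψ) (z e : ℂ) :
    fderiv ℝ (fun z => I * (ψ z : ℂ)) z e = I * ((fderiv ℝ ψ z e : ℝ) : ℂ) := by
  have h1 : DifferentiableAt ℝ (fun z => (ψ z : ℂ)) z :=
    (Complex.ofRealCLM.contDiff.comp hψ.smooth).differentiable (by simp) z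
  rw [fderiv_const_mul h1, ← fd_co hψ]
  rfl

private theorem tst_co {ψ : ℂ → ℝ} (hψ : Tst ψ) : GO3.Tst (fun z => (ψ z : ℂ)) :=
  ⟨Complex.ofRealCLM.contDiff.comp hψ.smooth, hψ.supp.comp_left (g := fun x : ℝ => (x : ℂ)) (by simp)⟩

private theorem tst_Ico {ψ : ℂ → ℝ} (hψ : Tst ψ) : GO3.Tst (fun z => I * (ψ z : ℂ)) :=
  ⟨contDiff_const.mul (Complex.ofRealCLM.contDiff.comp hψ.smooth),
    hψ.supp.comp_left (g := fun x : ℝ => I * (x : ℂ)) (by simp)⟩

theorem toSol_dF1 (s : GO3.WSol w h F W1 W2 H1 H2) : WD1 (co F) (fun z => -cur w W2 z) := by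
  intro ψ hψ
  have h1 := s.eqA _ (tst_Ico hψ)
  have hi1 : Integrable (fun z => dr 1 ψ z * co F z) := hψ.int1 (l2_of_memLp' s.mF).l1 1
  have hi2 : Integrable (fun z => (ψ z : ℂ) * cur w W2 z) := hψ.int (cur_l1 s (l2_of_memLp s.mW2))
  have h2 : ∫ z, (dr 1 ψ z * co F z - (ψ z : ℂ) * cur w W2 z) = 0 := by
    have h3 := congrArg (fun x : ℝ => (x : ℂ)) h1
    simp only [Complex.ofReal_zero] at h3
    rw [← integral_complex_ofReal] at h3
    rw [← h3]
    refine integral_congr_ae (ae_of_all _ fun z => ?_)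
    simp only [fd_Ico hψ, dr, co, cur]
    simp
    ring
  rw [integral_sub hi1 hi2] at h2
  have h4 : ∀ z, dr 1 ψ z * co F z + dr I ψ z * 0 = dr 1 ψ z * co F z := fun z => by ring
  have h5 : ∀ z, (ψ z : ℂ) * -cur w W2 z = -((ψ z : ℂ) * cur w W2 z) := fun z => by ring
  simp only [h4, h5, integral_neg, neg_neg]
  exact sub_eq_zero.mp h2

theorem toSol_dF2 (s : GO3.WSol w h F W1 W2 H1 H2) : WD2 (co F) (cur w W1) := by
  intro ψ hψ
  have h1 := s.eqA _ (tst_co hψ)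
  have hi1 : Integrable (fun z => dr I ψ z * co F z) := hψ.int1 (l2_of_memLp' s.mF).l1 I
  have hi2 : Integrable (fun z => (ψ z : ℂ) * cur w W1 z) := hψ.int (cur_l1 s (l2_of_memLp s.mW1))
  have h2 : ∫ z, (-(dr I ψ z * co F z) - (ψ z : ℂ) * cur w W1 z) = 0 := by
    have h3 := congrArg (fun x : ℝ => (x : ℂ)) h1
    simp only [Complex.ofReal_zero] at h3
    rw [← integral_complex_ofReal] at h3
    rw [← h3]
    refine integral_congr_ae (ae_of_all _ fun z => ?_)
    simp only [fd_co hψ, dr, co, cur]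
    simp
    ring
  have hi1' : Integrable (fun z => -(dr I ψ z * co F z)) := hi1.neg
  rw [integral_sub hi1' hi2, integral_neg] at h2
  have h4 : ∀ z, dr 1 ψ z * 0 + dr I ψ z * co F z = dr I ψ z * co F z := fun z => by ring
  simp only [h4]
  linear_combination -h2

theorem toSol_eq (s : GO3.WSol w h F W1 W2 H1 H2) :
    WDiv (pp w (co h) W1 (co H1)) (pp w (co h) W2 (co H2))
      (fun z => (1 - co h z) * w z + I * gA1 (co F) z * pp w (co h) W1 (co H1) z +
        I * gA2 (co F) z * pp w (co h) W2 (co H2) z) := by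
  intro ψ hψ
  have lF := l2_of_memLp' s.mF
  have lX1 : L2l (pp w (co h) W1 (co H1)) := by
    have a1 := (h_bd s).mul_l2 (l2_of_memLp s.mW1)
    have a2 := ((w_bd s).mul_l2 (l2_of_memLp' s.mH1)).cmul (-1)
    refine (a1.add a2).congr (ae_of_all _ fun z => ?_)
    simp only [pp]
    ring
  have lX2 : L2l (pp w (co h) W2 (co H2)) := by
    have a1 := (h_bd s).mul_l2 (l2_of_memLp s.mW2)
    have a2 := ((w_bd s).mul_l2 (l2_of_memLp' s.mH2)).cmul (-1)
    refine (a1.add a2).congr (ae_of_all _ fun z => ?_)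
    simp only [pp]
    ring
  set X1 := pp w (co h) W1 (co H1) with hX1
  set X2 := pp w (co h) W2 (co H2) with hX2
  set g : ℂ → ℂ := fun z => (1 - co h z) * w z + I * gA1 (co F) z * X1 z + I * gA2 (co F) z * X2 z with hg
  have lg : L1l g := by
    have b1 : L1l (fun z => (1 - co h z) * w z) := by
      have c1 : Bdl (fun z => 1 + (-1) * co h z) := (bdl_const 1).add ((h_bd s).cmul (-1))
      refine (c1.mul (w_bd s)).l1.congr (ae_of_all _ fun z => ?_)
      ring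
    have b2 : L1l (fun z => I * gA1 (co F) z * X1 z) := ((gA1_L2 lF).cmul I).mul lX1
    have b3 : L1l (fun z => I * gA2 (co F) z * X2 z) := ((gA2_L2 lF).cmul I).mul lX2
    exact (b1.add b2).add b3
  have hi1 : Integrable (fun z => dr 1 ψ z * X1 z) := hψ.int1 lX1.l1 1
  have hi2 : Integrable (fun z => dr I ψ z * X2 z) := hψ.int1 lX2.l1 I
  have hi3 : Integrable (fun z => (ψ z : ℂ) * g z) := hψ.int lg
  have hi4 : Integrable (fun z => dr 1 ψ z * X1 z + dr I ψ z * X2 z) := hi1.add hi2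
  have hi5 : Integrable (fun z => (dr 1 ψ z * X1 z + dr I ψ z * X2 z) + (ψ z : ℂ) * g z) := hi4.add hi3
  have hre : (∫ z, ((dr 1 ψ z * X1 z + dr I ψ z * X2 z) + (ψ z : ℂ) * g z)).re = 0 := by
    have h1 := s.eqp _ (tst_co hψ)
    have h2 := Complex.reCLM.integral_comp_comm hi5
    simp only [Complex.reCLM_apply] at h2
    rw [← h2, ← h1]
    refine integral_congr_ae (ae_of_all _ fun z => ?_)
    simp only [fd_co hψ, ip_A1, ip_A2, hg, dr]
    have g1 : (gA1 (co F) z).im = 0 := gA1_real (fun z => Complex.ofReal_im _) z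
    have g2 : (gA2 (co F) z).im = 0 := gA2_real (fun z => Complex.ofReal_im _) z
    have e1 : (h z : ℂ) * W1 z - w z * (H1 z : ℂ) = X1 z := rfl
    have e2 : (h z : ℂ) * W2 z - w z * (H2 z : ℂ) = X2 z := rfl
    rw [e1, e2]
    simp [g1, g2, co]
    ring
  have him : (∫ z, ((dr 1 ψ z * X1 z + dr I ψ z * X2 z) + (ψ z : ℂ) * g z)).im = 0 := by
    have h1 := s.eqp _ (tst_Ico hψ)
    have h2 := Complex.imCLM.integral_comp_comm hi5
    simp only [Complex.imCLM_apply] at h2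
    rw [← h2, ← h1]
    refine integral_congr_ae (ae_of_all _ fun z => ?_)
    simp only [fd_Ico hψ, ip_A1, ip_A2, hg, dr]
    have g1 : (gA1 (co F) z).im = 0 := gA1_real (fun z => Complex.ofReal_im _) z
    have g2 : (gA2 (co F) z).im = 0 := gA2_real (fun z => Complex.ofReal_im _) z
    have e1 : (h z : ℂ) * W1 z - w z * (H1 z : ℂ) = X1 z := rfl
    have e2 : (h z : ℂ) * W2 z - w z * (H2 z : ℂ) = X2 z := rfl
    rw [e1, e2]
    simp [g1, g2, co]
    ring
  have h0 : ∫ z, ((dr 1 ψ z * X1 z + dr I ψ z * X2 z) + (ψ z : ℂ) * g z) = 0 := Complex.ext hre him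
  rw [integral_add hi4 hi3] at h0
  exact eq_neg_of_add_eq_zero_left h0

theorem toSol (s : GO3.WSol w h F W1 W2 H1 H2) : Sol w (co h) (co F) W1 W2 (co H1) (co H2) GO3.kap where
  mw := s.mw
  mh := (h_bd s).1
  rh := fun z => Complex.ofReal_im _
  rF := fun z => Complex.ofReal_im _
  rH1 := fun z => Complex.ofReal_im _
  rH2 := fun z => Complex.ofReal_im _
  unit := by
    filter_upwards [s.unit] with z hz
    simpa [co] using hz
  tan1 := by
    filter_upwards [s.tan1] with z hz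
    simpa [co] using hz
  tan2 := by
    filter_upwards [s.tan2] with z hz
    simpa [co] using hz
  lF := l2_of_memLp' s.mF
  lW1 := l2_of_memLp s.mW1
  lW2 := l2_of_memLp s.mW2
  lH1 := l2_of_memLp' s.mH1
  lH2 := l2_of_memLp' s.mH2
  hκ := by norm_num [GO3.kap]
  growth := toSol_growth s
  dw1 := by
    intro ψ hψ
    have h1 := s.dw1 ψ ⟨hψ.smooth, hψ.supp⟩
    have e1 : ∀ z, dr 1 ψ z * w z + dr I ψ z * 0 = w z * (fderiv ℝ ψ z 1 : ℂ) := fun z => by
      unfold dr; ring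
    have e2 : ∀ z, (ψ z : ℂ) * (W1 z + I * gA1 (co F) z * w z) =
        (W1 z + I * (GO3.ip (GO3.Aof F z) 1 : ℂ) * w z) * (ψ z : ℂ) := fun z => by
      rw [ip_A1]; ring
    simp only [e1, e2]
    exact h1
  dw2 := by
    intro ψ hψ
    have h1 := s.dw2 ψ ⟨hψ.smooth, hψ.supp⟩
    have e1 : ∀ z, dr 1 ψ z * 0 + dr I ψ z * w z = w z * (fderiv ℝ ψ z I : ℂ) := fun z => by
      unfold dr; ring
    have e2 : ∀ z, (ψ z : ℂ) * (W2 z + I * gA2 (co F) z * w z) =
        (W2 z + I * (GO3.ip (GO3.Aof F z) I : ℂ) * w z) * (ψ z : ℂ) := fun z => by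
      rw [ip_A2]; ring
    simp only [e1, e2]
    exact h1
  dh1 := by
    intro ψ hψ
    have h1 := congrArg (fun x : ℝ => (x : ℂ)) (s.dh1 ψ ⟨hψ.smooth, hψ.supp⟩)
    simp only [Complex.ofReal_neg] at h1
    rw [← integral_complex_ofReal, ← integral_complex_ofReal] at h1
    have e1 : ∀ z, dr 1 ψ z * co h z + dr I ψ z * 0 = ((h z * fderiv ℝ ψ z 1 : ℝ) : ℂ) := fun z => by
      unfold dr co; push_cast; ring
    have e2 : ∀ z, (ψ z : ℂ) * co H1 z = ((H1 z * ψ z : ℝ) : ℂ) := fun z => by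
      unfold co; push_cast; ring
    simp only [e1, e2]
    exact h1
  dh2 := by
    intro ψ hψ
    have h1 := congrArg (fun x : ℝ => (x : ℂ)) (s.dh2 ψ ⟨hψ.smooth, hψ.supp⟩)
    simp only [Complex.ofReal_neg] at h1
    rw [← integral_complex_ofReal, ← integral_complex_ofReal] at h1
    have e1 : ∀ z, dr 1 ψ z * 0 + dr I ψ z * co h z = ((h z * fderiv ℝ ψ z I : ℝ) : ℂ) := fun z => by
      unfold dr co; push_cast; ring
    have e2 : ∀ z, (ψ z : ℂ) * co H2 z = ((H2 z * ψ z : ℝ) : ℂ) := fun z => by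
      unfold co; push_cast; ring
    simp only [e1, e2]
    exact h1
  dF1 := toSol_dF1 s
  dF2 := toSol_dF2 s
  eq := toSol_eq s

end O3R
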