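import Mathlib

/-!
# Gauged `O(3)` sigma model, part R (regularity): definitions (helper30)

Everything lives on the plane `ℂ` with complex valued functions.  Weak derivatives are tested with real test
functions.  Sign convention of `Pool.Agent.GO3.Defs`: `D = ∂ - i A`.
-/

open MeasureTheory Filter Topology Complex Metric
open scoped ContDiff ENNReal NNReal

noncomputable section

namespace O3R

/-- Test functions. -/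
structure Tst (ψ : ℂ → ℝ) : Prop where
  smooth : ContDiff ℝ ∞ ψ
  supp : HasCompactSupport ψ

/-- Directional derivative of a real function, as a complex number. -/
def dr (e : ℂ) (ψ : ℂ → ℝ) (z : ℂ) : ℂ := ((fderiv ℝ ψ z e : ℝ) : ℂ)

/-- Directional derivative of a complex function. -/
def dd (e : ℂ) (u : ℂ → ℂ) (z : ℂ) : ℂ := fderiv ℝ u z e

/-- `∂₁ X + ∂₂ Y = g` in the weak sense. -/
def WDiv (X Y g : ℂ → ℂ) : Prop := ∀ ψ : ℂ → ℝ, Tst ψ →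
  ∫ z, (dr 1 ψ z * X z + dr I ψ z * Y z) = -∫ z, (ψ z : ℂ) * g z

/-- `∂₁ u = v` in the weak sense. -/
def WD1 (u v : ℂ → ℂ) : Prop := WDiv u (fun _ => 0) v

/-- `∂₂ u = v` in the weak sense. -/
def WD2 (u v : ℂ → ℂ) : Prop := WDiv (fun _ => 0) u v

/-- `∂_{z̄} V = g` in the weak sense, `∂_{z̄} = (∂₁ + i ∂₂) / 2`. -/
def WDb (V g : ℂ → ℂ) : Prop := WDiv (fun z => V z / 2) (fun z => I * V z / 2) g

/-- `∂_{z̄}` of a differentiable function. -/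
def dbar (u : ℂ → ℂ) (z : ℂ) : ℂ := (dd 1 u z + I * dd I u z) / 2

/-- Locally integrable. -/
def L1l (u : ℂ → ℂ) : Prop := ∀ R : ℝ, IntegrableOn u (closedBall 0 R)

/-- Locally square integrable. -/
def L2l (u : ℂ → ℂ) : Prop := ∀ R : ℝ, MemLp u 2 (volume.restrict (closedBall 0 R))

/-- Locally bounded (and measurable). -/
def Bdl (u : ℂ → ℂ) : Prop :=
  AEStronglyMeasurable u volume ∧ ∀ R : ℝ, ∃ M : ℝ, ∀ᵐ z : ℂ, z ∈ closedBall (0 : ℂ) R → ‖u z‖ ≤ M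

/-- Local Sobolev regularity of order `m`. -/
def HS : ℕ → (ℂ → ℂ) → Prop
  | 0, u => L2l u
  | m + 1, u => L2l u ∧ (∃ v, WD1 u v ∧ HS m v) ∧ ∃ v, WD2 u v ∧ HS m v

/-- Average over dilations. -/
def avg (a : ℕ) (F : ℂ → ℂ) (z : ℂ) : ℂ := ∫ t in (0 : ℝ)..1, ((t ^ a : ℝ) : ℂ) * F (t * z)

/-- The radial gauge potential of `F`: first component `-y ∫₀¹ F(tz) t dt`. -/
def gA1 (F : ℂ → ℂ) (z : ℂ) : ℂ := -(z.im : ℂ) * avg 1 F z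

/-- The radial gauge potential of `F`: second component `x ∫₀¹ F(tz) t dt`. -/
def gA2 (F : ℂ → ℂ) (z : ℂ) : ℂ := (z.re : ℂ) * avg 1 F z

/-- The current: imaginary part of `conj w * W`, as a complex number. -/
def cur (w W : ℂ → ℂ) (z : ℂ) : ℂ := (((starRingEnd ℂ) (w z) * W z).im : ℂ)

/-- `h W - w H` -/
def pp (w h W H : ℂ → ℂ) (z : ℂ) : ℂ := h z * W z - w z * H z

/-- The kernel `1 / |z - ζ|`. -/
def Ker (z ζ : ℂ) : ℝ≥0∞ := ENNReal.ofReal (‖z - ζ‖⁻¹)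

/-- The Riesz potential of order one. -/
def Ip (g : ℂ → ℝ≥0∞) (z : ℂ) : ℝ≥0∞ := ∫⁻ ζ, g ζ * Ker z ζ

/-- Total mass at most `M` and mass at most `M r ^ s` in every disc of radius `r ≤ 1`. -/
structure Gr (g : ℂ → ℝ≥0∞) (M : ℝ≥0∞) (s : ℝ) : Prop where
  meas : AEMeasurable g volume
  tot : ∫⁻ z, g z ≤ M
  grow : ∀ (p : ℂ) (r : ℝ), 0 < r → r ≤ 1 → ∫⁻ z in ball p r, g z ≤ M * ENNReal.ofReal (r ^ s)

/-- Local growth: for `|p| < R` the mass in the disc of centre `p` and radius `r ≤ 1` is at most `C_R r ^ s`. -/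
def LG (g : ℂ → ℝ≥0∞) (s : ℝ) : Prop := ∀ R : ℝ, ∃ C : ℝ≥0, ∀ p ∈ ball (0 : ℂ) R, ∀ r : ℝ, 0 < r → r ≤ 1 →
  ∫⁻ z in ball p r, g z ≤ C * ENNReal.ofReal (r ^ s)

/-- `|W₁|² + |W₂|² + |H₁|² + |H₂|²` -/
def ed (W1 W2 H1 H2 : ℂ → ℂ) (z : ℂ) : ℝ≥0∞ := ‖W1 z‖ₑ ^ 2 + ‖W2 z‖ₑ ^ 2 + ‖H1 z‖ₑ ^ 2 + ‖H2 z‖ₑ ^ 2

/-- The divergence of `(H₁, H₂)`. -/
def fH (w h W1 W2 H1 H2 : ℂ → ℂ) (z : ℂ) : ℂ :=
  -(h z * ((‖W1 z‖ ^ 2 + ‖W2 z‖ ^ 2 + ‖H1 z‖ ^ 2 + ‖H2 z‖ ^ 2 : ℝ) : ℂ)) -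
    (1 - h z) * ((‖w z‖ ^ 2 : ℝ) : ℂ)

/-- The divergence of `(W₁, W₂)`. -/
def fW (w h F W1 W2 H1 H2 : ℂ → ℂ) (z : ℂ) : ℂ :=
  H1 z * pp w h W1 H1 z + H2 z * pp w h W2 H2 z + h z * (1 - h z) * w z +
    I * (W1 z * cur w W1 z + W2 z * cur w W2 z) + I * (gA1 F z * W1 z + gA2 F z * W2 z)

/-- The curl of `(W₁, W₂)`. -/
def gW (w F W1 W2 : ℂ → ℂ) (z : ℂ) : ℂ :=
  -(I * (F z * w z + gA2 F z * W1 z - gA1 F z * W2 z))

/-- A weak solution of the Euler-Lagrange equations in the radial gauge.  `w = φ₁ + i φ₂`, `h = φ₃`,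
`W_k = D_k w`, `H_k = ∂_k h`; `h`, `F`, `H_k` are real valued. -/
structure Sol (w h F W1 W2 H1 H2 : ℂ → ℂ) (κ : ℝ) : Prop where
  mw : AEStronglyMeasurable w volume
  mh : AEStronglyMeasurable h volume
  rh : ∀ z, (h z).im = 0
  rF : ∀ z, (F z).im = 0
  rH1 : ∀ z, (H1 z).im = 0
  rH2 : ∀ z, (H2 z).im = 0
  unit : ∀ᵐ z, ‖w z‖ ^ 2 + (h z).re ^ 2 = 1
  tan1 : ∀ᵐ z, ((starRingEnd ℂ) (w z) * W1 z).re + (h z).re * (H1 z).re = 0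
  tan2 : ∀ᵐ z, ((starRingEnd ℂ) (w z) * W2 z).re + (h z).re * (H2 z).re = 0
  lF : L2l F
  lW1 : L2l W1
  lW2 : L2l W2
  lH1 : L2l H1
  lH2 : L2l H2
  hκ : 1 / 2 < κ
  growth : LG (ed W1 W2 H1 H2) κ
  dw1 : WD1 w (fun z => W1 z + I * gA1 F z * w z)
  dw2 : WD2 w (fun z => W2 z + I * gA2 F z * w z)
  dh1 : WD1 h H1
  dh2 : WD2 h H2
  dF1 : WD1 F (fun z => -cur w W2 z)
  dF2 : WD2 F (cur w W1)
  eq : WDiv (pp w h W1 H1) (pp w h W2 H2)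
    (fun z => (1 - h z) * w z + I * gA1 F z * pp w h W1 H1 z + I * gA2 F z * pp w h W2 H2 z)

end O3R
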