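import Pool.Agent.GO3.R.Mol2

/-!
# Part R, module Ell1: the elliptic identity, completeness of `L²_loc` (helper30)

PROOFS.
* `ell_id`: `φ₁ = ∂₁φ`, `φ₂ = ∂₂φ`.  `|φ₁ + i φ₂|² = |φ₁|² + |φ₂|² + 2 Re (φ₁ conj (i φ₂)) = |φ₁|² + |φ₂|² + 2 Im (φ₁ conj φ₂)`.
  `∫ Im (φ₁ conj φ₂) = 0`: two integrations by parts (`wdiv_smooth` or `integral_mul_fderiv_eq_neg_fderiv_mul_of_integrable`) and
  symmetry of second derivatives: `∫ φ₁ conj φ₂ = -∫ φ conj (φ₂₁) = -∫ φ conj (φ₁₂) = ∫ φ₂ conj φ₁`, so the integral is equal to its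
  conjugate.  Hence `∫ |φ₁|² + |φ₂|² = ∫ |φ₁ + i φ₂|² = 4 ∫ |dbar φ|²`.
* `ell_le1`, `ell_le2`: take square roots (`eLpNorm` for `p = 2`: `eLpNorm_eq_lintegral_rpow_enorm`, or
  `MemLp.eLpNorm_eq_integral_rpow_norm`).
* `l2_complete`: for each natural `N` the sequence is Cauchy in `L²(closedBall 0 N)`; use completeness of `Lp`
  (`cauchySeq_tendsto_of_complete` for `fun n => (hD n N).toLp`), with limit `v N`.  For `k ≤ N` the functions `v k`, `v N`
  agree a.e. on `closedBall 0 k` (uniqueness of limits in `L²(closedBall 0 k)`).  Put `v z = v ⌈‖z‖⌉₊ z`; then `v = v N`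
  a.e. on `closedBall 0 N`.
-/

open MeasureTheory Filter Topology Complex Metric
open scoped ContDiff ENNReal NNReal

noncomputable section

namespace O3R

variable {φ : ℂ → ℂ}

private theorem cd_dd (h : ContDiff ℝ ∞ φ) (e : ℂ) : ContDiff ℝ ∞ (dd e φ) :=
  (h.fderiv_right (m := ∞) (by simp)).clm_apply contDiff_const

private theorem cs_dd (hc : HasCompactSupport φ) (e : ℂ) : HasCompactSupport (dd e φ) :=
  (hc.fderiv ℝ).comp_left (g := fun L : ℂ →L[ℝ] ℂ => L e) rfl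

private theorem dd_dd (h : ContDiff ℝ ∞ φ) (a b z : ℂ) :
    dd b (dd a φ) z = fderiv ℝ (fderiv ℝ φ) z b a := by
  have hd : DifferentiableAt ℝ (fderiv ℝ φ) z :=
    ((h.fderiv_right (m := ∞) (by simp)).differentiable (by simp)) z
  have h1 := hd.hasFDerivAt.clm_apply (hasFDerivAt_const a z)
  have h2 : fderiv ℝ (dd a φ) z = _ := h1.fderiv
  unfold dd at h2 ⊢
  rw [h2]
  simp

private theorem dd_symm (h : ContDiff ℝ ∞ φ) (z : ℂ) : dd 1 (dd I φ) z = dd I (dd 1 φ) z := by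
  rw [dd_dd h, dd_dd h]
  have h2 : IsSymmSndFDerivAt ℝ φ z :=
    h.contDiffAt.isSymmSndFDerivAt (by
      rw [minSmoothness_of_isRCLikeNormedField]
      exact WithTop.coe_le_coe.2 (le_top : (2 : ℕ∞) ≤ ⊤))
  rw [h2 1 I]

private theorem fd_conj {X : ℂ → ℂ} (hX : ContDiff ℝ ∞ X) (z e : ℂ) :
    fderiv ℝ (fun z => (starRingEnd ℂ) (X z)) z e = (starRingEnd ℂ) (dd e X z) := by
  have h1 : DifferentiableAt ℝ X z := (hX.differentiable (by simp)) z
  have h2 : HasFDerivAt (fun z => (starRingEnd ℂ) (X z))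
      ((Complex.conjCLE : ℂ →L[ℝ] ℂ).comp (fderiv ℝ X z)) z :=
    (Complex.conjCLE : ℂ →L[ℝ] ℂ).hasFDerivAt.comp z h1.hasFDerivAt
  rw [h2.fderiv]
  rfl

private theorem parts_c (h : ContDiff ℝ ∞ φ) (hc : HasCompactSupport φ) {X : ℂ → ℂ}
    (hX : ContDiff ℝ ∞ X) (e : ℂ) :
    ∫ z, dd e φ z * (starRingEnd ℂ) (X z) = -∫ z, φ z * (starRingEnd ℂ) (dd e X z) := by
  have cX : Continuous fun z => (starRingEnd ℂ) (X z) :=
    Complex.continuous_conj.comp hX.continuous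
  have cX1 : Continuous fun z => (starRingEnd ℂ) (dd e X z) :=
    Complex.continuous_conj.comp (cd_dd hX e).continuous
  have i1 : Integrable (fun z => fderiv ℝ φ z e * (starRingEnd ℂ) (X z)) :=
    (((cd_dd h e).continuous).mul cX).integrable_of_hasCompactSupport ((cs_dd hc e).mul_right)
  have i2 : Integrable (fun z => φ z * fderiv ℝ (fun z => (starRingEnd ℂ) (X z)) z e) := by
    have : Integrable (fun z => φ z * (starRingEnd ℂ) (dd e X z)) :=
      (h.continuous.mul cX1).integrable_of_hasCompactSupport hc.mul_right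
    refine this.congr (ae_of_all _ fun z => ?_)
    simp only [fd_conj hX]
  have i3 : Integrable (fun z => φ z * (starRingEnd ℂ) (X z)) :=
    (h.continuous.mul cX).integrable_of_hasCompactSupport hc.mul_right
  have key := integral_mul_fderiv_eq_neg_fderiv_mul_of_integrable (𝕜 := ℂ) (μ := volume)
    (f := φ) (g := fun z => (starRingEnd ℂ) (X z)) (v := e) i1 i2 i3
    (fun z _ => (h.differentiable (by simp)) z)
    (fun z _ => (Complex.conjCLE : ℂ →L[ℝ] ℂ).differentiableAt.comp z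
      ((hX.differentiable (by simp)) z))
  have e1 : ∫ z, φ z * (starRingEnd ℂ) (dd e X z) =
      ∫ z, φ z * fderiv ℝ (fun z => (starRingEnd ℂ) (X z)) z e := by
    refine integral_congr_ae (ae_of_all _ fun z => ?_)
    simp only [fd_conj hX]
  rw [e1, key, neg_neg]
  rfl

private theorem cross_zero (h : ContDiff ℝ ∞ φ) (hc : HasCompactSupport φ) :
    ∫ z, (dd 1 φ z * (starRingEnd ℂ) (dd I φ z)).im = 0 := by
  have c1 : Continuous (dd 1 φ) := (cd_dd h 1).continuous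
  have c2 : Continuous (dd I φ) := (cd_dd h I).continuous
  have i1 : Integrable (fun z => dd 1 φ z * (starRingEnd ℂ) (dd I φ z)) :=
    (c1.mul (Complex.continuous_conj.comp c2)).integrable_of_hasCompactSupport
      ((cs_dd hc 1).mul_right)
  have e1 : ∫ z, (dd 1 φ z * (starRingEnd ℂ) (dd I φ z)).im =
      (∫ z, dd 1 φ z * (starRingEnd ℂ) (dd I φ z)).im := integral_im i1
  have e2 := parts_c h hc (cd_dd h I) 1
  have e3 := parts_c h hc (cd_dd h 1) I
  have e4 : ∫ z, φ z * (starRingEnd ℂ) (dd 1 (dd I φ) z) =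
      ∫ z, φ z * (starRingEnd ℂ) (dd I (dd 1 φ) z) := by
    refine integral_congr_ae (ae_of_all _ fun z => ?_)
    simp only [dd_symm h]
  have e5 : ∫ z, dd I φ z * (starRingEnd ℂ) (dd 1 φ z) =
      (starRingEnd ℂ) (∫ z, dd 1 φ z * (starRingEnd ℂ) (dd I φ z)) := by
    rw [← integral_conj]
    refine integral_congr_ae (ae_of_all _ fun z => ?_)
    simp only [map_mul, Complex.conj_conj]
    ring
  have e6 : (starRingEnd ℂ) (∫ z, dd 1 φ z * (starRingEnd ℂ) (dd I φ z)) =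
      ∫ z, dd 1 φ z * (starRingEnd ℂ) (dd I φ z) := by
    rw [← e5, e3, e2, e4]
  rw [e1]
  exact Complex.conj_eq_iff_im.1 e6

private theorem cont_dbar (h : ContDiff ℝ ∞ φ) : Continuous (dbar φ) := by
  unfold dbar
  exact (((cd_dd h 1).continuous).add (continuous_const.mul (cd_dd h I).continuous)).div_const _

private theorem cs_dbar (hc : HasCompactSupport φ) : HasCompactSupport (dbar φ) :=
  (hc.fderiv ℝ).comp_left (g := fun L : ℂ →L[ℝ] ℂ => (L 1 + I * L I) / 2) (by simp)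

private theorem int_sq {X : ℂ → ℂ} (hX : Continuous X) (sX : HasCompactSupport X) :
    Integrable (fun z => ‖X z‖ ^ 2) := by
  have h1 : Continuous (fun z => ‖X z‖ ^ 2) := hX.norm.pow 2
  have h2 : HasCompactSupport (fun z => ‖X z‖ ^ 2) :=
    sX.comp_left (g := fun w : ℂ => ‖w‖ ^ 2) (by simp)
  exact h1.integrable_of_hasCompactSupport h2

theorem ell_id (h : ContDiff ℝ ∞ φ) (hc : HasCompactSupport φ) :
    ∫ z, (‖dd 1 φ z‖ ^ 2 + ‖dd I φ z‖ ^ 2) = 4 * ∫ z, ‖dbar φ z‖ ^ 2 := by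
  have c1 : Continuous (dd 1 φ) := (cd_dd h 1).continuous
  have c2 : Continuous (dd I φ) := (cd_dd h I).continuous
  have s1 := cs_dd hc 1
  have s2 := cs_dd hc I
  have i1 : Integrable (fun z => ‖dd 1 φ z‖ ^ 2 + ‖dd I φ z‖ ^ 2) :=
    (int_sq c1 s1).add (int_sq c2 s2)
  have i2 : Integrable (fun z => 2 * (dd 1 φ z * (starRingEnd ℂ) (dd I φ z)).im) := by
    have k1 : Continuous (fun z => 2 * (dd 1 φ z * (starRingEnd ℂ) (dd I φ z)).im) :=
      continuous_const.mul (Complex.continuous_im.comp (c1.mul (Complex.continuous_conj.comp c2)))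
    have k2 : HasCompactSupport (fun z => dd 1 φ z * (starRingEnd ℂ) (dd I φ z)) := s1.mul_right
    have k3 : HasCompactSupport (fun z => 2 * (dd 1 φ z * (starRingEnd ℂ) (dd I φ z)).im) :=
      k2.comp_left (g := fun w : ℂ => 2 * w.im) (by simp)
    exact k1.integrable_of_hasCompactSupport k3
  have e1 : ∀ z, 4 * ‖dbar φ z‖ ^ 2 = (‖dd 1 φ z‖ ^ 2 + ‖dd I φ z‖ ^ 2) +
      2 * (dd 1 φ z * (starRingEnd ℂ) (dd I φ z)).im := by
    intro z
    unfold dbar
    rw [Complex.sq_norm, Complex.sq_norm, Complex.sq_norm]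
    simp only [Complex.normSq_apply, Complex.div_ofNat_re, Complex.div_ofNat_im, Complex.add_re,
      Complex.add_im, Complex.mul_re, Complex.mul_im, Complex.I_re, Complex.I_im, Complex.conj_re,
      Complex.conj_im]
    ring
  rw [← integral_const_mul]
  simp only [e1]
  rw [integral_add i1 i2, integral_const_mul, cross_zero h hc, mul_zero, add_zero]

private theorem ell_aux (h : ContDiff ℝ ∞ φ) (hc : HasCompactSupport φ) {X : ℂ → ℂ}
    (hX : Continuous X) (sX : HasCompactSupport X)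
    (hle : ∫ z, ‖X z‖ ^ 2 ≤ ∫ z, (‖dd 1 φ z‖ ^ 2 + ‖dd I φ z‖ ^ 2)) :
    eLpNorm X 2 ≤ 2 * eLpNorm (dbar φ) 2 := by
  have m1 : MemLp X 2 := hX.memLp_of_hasCompactSupport sX
  have m2 : MemLp (dbar φ) 2 := (cont_dbar h).memLp_of_hasCompactSupport (cs_dbar hc)
  rw [m1.eLpNorm_eq_integral_rpow_norm (by simp) (by simp),
    m2.eLpNorm_eq_integral_rpow_norm (by simp) (by simp)]
  have e0 : (2 : ℝ≥0∞) = ENNReal.ofReal 2 := by simp
  have e2 : (2 : ℝ≥0∞).toReal = 2 := by simp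
  rw [e2]
  have e3 : (2 : ℝ≥0∞) * ENNReal.ofReal ((∫ z, ‖dbar φ z‖ ^ (2 : ℝ)) ^ (2 : ℝ)⁻¹) =
      ENNReal.ofReal (2 * (∫ z, ‖dbar φ z‖ ^ (2 : ℝ)) ^ (2 : ℝ)⁻¹) := by
    rw [ENNReal.ofReal_mul (by norm_num), ← e0]
  rw [e3]
  refine ENNReal.ofReal_le_ofReal ?_
  have e4 : ∀ f : ℂ → ℂ, ∫ z, ‖f z‖ ^ (2 : ℝ) = ∫ z, ‖f z‖ ^ 2 := by
    intro f
    refine integral_congr_ae (ae_of_all _ fun z => ?_)
    simp only [Real.rpow_ofNat]
  rw [e4, e4]
  have n1 : 0 ≤ ∫ z, ‖X z‖ ^ 2 := integral_nonneg fun z => by positivity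
  have n2 : 0 ≤ ∫ z, ‖dbar φ z‖ ^ 2 := integral_nonneg fun z => by positivity
  rw [← one_div, ← Real.sqrt_eq_rpow, ← Real.sqrt_eq_rpow]
  rw [ell_id h hc] at hle
  have e5 : 2 * √(∫ z, ‖dbar φ z‖ ^ 2) = √(4 * ∫ z, ‖dbar φ z‖ ^ 2) := by
    rw [Real.sqrt_mul (by norm_num)]
    have : √(4 : ℝ) = 2 := by
      rw [show (4 : ℝ) = 2 ^ 2 by norm_num]
      exact Real.sqrt_sq (by norm_num)
    rw [this]
  rw [e5]
  exact Real.sqrt_le_sqrt hle

theorem ell_le1 (h : ContDiff ℝ ∞ φ) (hc : HasCompactSupport φ) :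
    eLpNorm (dd 1 φ) 2 ≤ 2 * eLpNorm (dbar φ) 2 := by
  have c1 : Continuous (dd 1 φ) := (cd_dd h 1).continuous
  have c2 : Continuous (dd I φ) := (cd_dd h I).continuous
  have s1 := cs_dd hc 1
  have s2 := cs_dd hc I
  refine ell_aux h hc c1 s1 ?_
  have i1 : Integrable (fun z => ‖dd 1 φ z‖ ^ 2) := int_sq c1 s1
  have i2 : Integrable (fun z => ‖dd I φ z‖ ^ 2) := int_sq c2 s2
  exact integral_mono i1 (i1.add i2) fun z => le_add_of_nonneg_right (by positivity)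

theorem ell_le2 (h : ContDiff ℝ ∞ φ) (hc : HasCompactSupport φ) :
    eLpNorm (dd I φ) 2 ≤ 2 * eLpNorm (dbar φ) 2 := by
  have c1 : Continuous (dd 1 φ) := (cd_dd h 1).continuous
  have c2 : Continuous (dd I φ) := (cd_dd h I).continuous
  have s1 := cs_dd hc 1
  have s2 := cs_dd hc I
  refine ell_aux h hc c2 s2 ?_
  have i1 : Integrable (fun z => ‖dd 1 φ z‖ ^ 2) := int_sq c1 s1
  have i2 : Integrable (fun z => ‖dd I φ z‖ ^ 2) := int_sq c2 s2
  exact integral_mono i2 (i1.add i2) fun z => le_add_of_nonneg_left (by positivity)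

private theorem l2_complete_ball {μ : Measure ℂ} {D : ℕ → ℂ → ℂ} (hD : ∀ n, MemLp (D n) 2 μ)
    (hC : ∀ ε : ℝ≥0∞, 0 < ε → ∃ N : ℕ, ∀ n ≥ N, ∀ m ≥ N, eLpNorm (fun z => D n z - D m z) 2 μ ≤ ε) :
    ∃ v : ℂ → ℂ, MemLp v 2 μ ∧
      Tendsto (fun n => eLpNorm (fun z => D n z - v z) 2 μ) atTop (𝓝 0) := by
  have hp : Fact ((1 : ℝ≥0∞) ≤ 2) := ⟨one_le_two⟩
  have hcau : CauchySeq (fun n => (hD n).toLp (D n)) := by
    rw [EMetric.cauchySeq_iff]
    intro ε hε
    obtain ⟨N, hN⟩ := hC (ε / 2) (ENNReal.half_pos hε.ne')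
    refine ⟨N, fun m hm n hn => ?_⟩
    rw [Lp.edist_toLp_toLp]
    by_cases ht : ε = ⊤
    · rw [ht]
      exact ((hD m).sub (hD n)).eLpNorm_lt_top
    · exact lt_of_le_of_lt (hN m hm n hn) (ENNReal.half_lt_self hε.ne' ht)
  obtain ⟨L, hL⟩ := cauchySeq_tendsto_of_complete hcau
  refine ⟨L, Lp.memLp L, ?_⟩
  rw [← Lp.toLp_coeFn L (Lp.memLp L), Lp.tendsto_Lp_iff_tendsto_eLpNorm''] at hL
  exact hL

theorem l2_complete {D : ℕ → ℂ → ℂ} (hD : ∀ n, L2l (D n))
    (hC : ∀ (R : ℝ) (ε : ℝ≥0∞), 0 < ε → ∃ N : ℕ, ∀ n ≥ N, ∀ m ≥ N,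
      eLpNorm (fun z => D n z - D m z) 2 (volume.restrict (closedBall 0 R)) ≤ ε) :
    ∃ v : ℂ → ℂ, L2l v ∧ ∀ R : ℝ,
      Tendsto (fun n => eLpNorm (fun z => D n z - v z) 2 (volume.restrict (closedBall 0 R))) atTop (𝓝 0) := by
  have hp : Fact ((1 : ℝ≥0∞) ≤ 2) := ⟨one_le_two⟩
  have h1 : ∀ N : ℕ, ∃ v : ℂ → ℂ, MemLp v 2 (volume.restrict (closedBall 0 (N : ℝ))) ∧
      Tendsto (fun n => eLpNorm (fun z => D n z - v z) 2 (volume.restrict (closedBall 0 (N : ℝ))))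
        atTop (𝓝 0) := fun N => l2_complete_ball (fun n => hD n N) (hC N)
  choose V hV1 hV2 using h1
  have hmono : ∀ {k N : ℕ}, k ≤ N → (volume.restrict (closedBall (0 : ℂ) (k : ℝ))) ≤
      volume.restrict (closedBall (0 : ℂ) (N : ℝ)) := fun {k N} hkN =>
    Measure.restrict_mono (closedBall_subset_closedBall (by exact_mod_cast hkN)) le_rfl
  -- the limits are compatible
  have hag : ∀ {k N : ℕ}, k ≤ N → V k =ᵐ[volume.restrict (closedBall (0 : ℂ) (k : ℝ))] V N := by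
    intro k N hkN
    have hN : MemLp (V N) 2 (volume.restrict (closedBall (0 : ℂ) (k : ℝ))) :=
      (hV1 N).mono_measure (hmono hkN)
    have t1 : Tendsto (fun n => eLpNorm (fun z => D n z - V N z) 2
        (volume.restrict (closedBall (0 : ℂ) (k : ℝ)))) atTop (𝓝 0) :=
      tendsto_of_tendsto_of_tendsto_of_le_of_le tendsto_const_nhds (hV2 N)
        (fun n => zero_le) (fun n => eLpNorm_mono_measure _ (hmono hkN))
    have t2 := (Lp.tendsto_Lp_iff_tendsto_eLpNorm'' D (fun n => hD n k) (V N) hN).2 t1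
    have t3 := (Lp.tendsto_Lp_iff_tendsto_eLpNorm'' D (fun n => hD n k) (V k) (hV1 k)).2 (hV2 k)
    exact (MemLp.toLp_eq_toLp_iff _ _).1 (tendsto_nhds_unique t3 t2)
  -- the function
  have hv : ∀ N : ℕ, (fun z : ℂ => V ⌈‖z‖⌉₊ z) =ᵐ[volume.restrict (closedBall (0 : ℂ) (N : ℝ))]
      V N := by
    intro N
    have h2 : ∀ k : ℕ, ∀ᵐ z : ℂ, k ≤ N → z ∈ closedBall (0 : ℂ) (k : ℝ) → V k z = V N z := by
      intro k
      by_cases hk : k ≤ N
      · have h3 := (ae_restrict_iff' measurableSet_closedBall).1 (hag hk)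
        filter_upwards [h3] with z hz _ hz2
        exact hz hz2
      · exact ae_of_all _ fun z h => absurd h hk
    rw [Filter.EventuallyEq, ae_restrict_iff' measurableSet_closedBall]
    filter_upwards [ae_all_iff.2 h2] with z hz hzN
    rw [mem_closedBall_zero_iff] at hzN
    refine hz ⌈‖z‖⌉₊ (Nat.ceil_le.2 hzN) ?_
    rw [mem_closedBall_zero_iff]
    exact Nat.le_ceil _
  have hR : ∀ R : ℝ, (volume.restrict (closedBall (0 : ℂ) R)) ≤
      volume.restrict (closedBall (0 : ℂ) (⌈R⌉₊ : ℝ)) := fun R =>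
    Measure.restrict_mono (closedBall_subset_closedBall (Nat.le_ceil R)) le_rfl
  refine ⟨fun z => V ⌈‖z‖⌉₊ z, fun R => ?_, fun R => ?_⟩
  · exact ((hV1 ⌈R⌉₊).ae_eq (hv ⌈R⌉₊).symm).mono_measure (hR R)
  · refine tendsto_of_tendsto_of_tendsto_of_le_of_le tendsto_const_nhds (hV2 ⌈R⌉₊)
      (fun n => zero_le) (fun n => ?_)
    refine (eLpNorm_mono_measure _ (hR R)).trans (le_of_eq ?_)
    refine eLpNorm_congr_ae ?_
    filter_upwards [hv ⌈R⌉₊] with z hz
    rw [hz]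

end O3R
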