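import Pool.Agent.GO3.R.Bas1b

/-!
# Part R, module LGl: calculus of local growth (helper30)

PROOFS.
* `vol_ball_le`: `volume (ball p r) = ofReal r ^ 2 * π` (`Complex.volume_ball`), so at most `4 ofReal (r ^ s)` for `r ≤ 1`, `s ≤ 2`
  (`r ^ 2 ≤ r ^ s`, `Real.rpow_le_rpow_of_exponent_ge`).
* `LG.mono`: the same inequality.  `LG.add`: `lintegral_add_left'`.  `LG.cmul`: `lintegral_const_mul'`.  `LG.le`: `lintegral_mono_ae`.
* `LG.of_le`: for `p ∈ ball 0 R`, `r ≤ 1` the disc `ball p r` lies in `ball 0 (R + 1)`; with the constant `C` of `R + 1`: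
  `∫⁻ g' ≤ C (∫⁻ 1 + ∫⁻ g) ≤ C (4 + C') ofReal (r ^ s)` (`lintegral_add_left measurable_const`, `lintegral_const_mul'`).
* `LG.sqrt`: Cauchy-Schwarz on `ball p r`: `(∫⁻ ‖u‖ₑ) ^ 2 ≤ volume (ball p r) * ∫⁻ ‖u‖ₑ ^ 2 ≤ 4 r ^ 2 * C r ^ s`, so
  `∫⁻ ‖u‖ₑ ≤ 2 √C r ^ (1 + s / 2)` (for instance `ENNReal.lintegral_mul_le_Lp_mul_Lq` with the exponents `2`, `2`).
-/

open MeasureTheory Filter Topology Complex Metric
open scoped ContDiff ENNReal NNReal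

noncomputable section

namespace O3R

variable {g g' : ℂ → ℝ≥0∞} {u : ℂ → ℂ} {s s' : ℝ}

theorem vol_ball_le (p : ℂ) {r : ℝ} (h0 : 0 < r) (h1 : r ≤ 1) (hs : s ≤ 2) :
    volume (ball p r) ≤ 4 * ENNReal.ofReal (r ^ s) := by
  rw [Complex.volume_ball, mul_comm]
  have hpi : ((NNReal.pi : ℝ≥0) : ℝ≥0∞) ≤ 4 := by
    have h : NNReal.pi ≤ 4 := by
      rw [← NNReal.coe_le_coe]
      exact Real.pi_le_four
    exact_mod_cast h
  refine mul_le_mul' hpi ?_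
  rw [← ENNReal.ofReal_pow h0.le]
  apply ENNReal.ofReal_le_ofReal
  have h2 := Real.rpow_le_rpow_of_exponent_ge h0 h1 hs
  rwa [Real.rpow_two] at h2

theorem LG.mono (h : LG g s) (hs : s' ≤ s) : LG g s' := by
  intro R
  obtain ⟨C, hC⟩ := h R
  refine ⟨C, fun p hp r h0 h1 => (hC p hp r h0 h1).trans ?_⟩
  exact mul_le_mul' le_rfl (ENNReal.ofReal_le_ofReal (Real.rpow_le_rpow_of_exponent_ge h0 h1 hs))

theorem LG.le (h : LG g s) (hle : ∀ᵐ z, g' z ≤ g z) : LG g' s := by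
  intro R
  obtain ⟨C, hC⟩ := h R
  exact ⟨C, fun p hp r h0 h1 => (lintegral_mono_ae (ae_restrict_of_ae hle)).trans (hC p hp r h0 h1)⟩

theorem LG.add (h : LG g s) (h' : LG g' s) (hg : AEMeasurable g volume) :
    LG (fun z => g z + g' z) s := by
  intro R
  obtain ⟨C, hC⟩ := h R
  obtain ⟨C', hC'⟩ := h' R
  refine ⟨C + C', fun p hp r h0 h1 => ?_⟩
  rw [lintegral_add_left' hg.restrict, ENNReal.coe_add, add_mul]
  exact add_le_add (hC p hp r h0 h1) (hC' p hp r h0 h1)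

theorem LG.cmul (c : ℝ≥0) (h : LG g s) : LG (fun z => c * g z) s := by
  intro R
  obtain ⟨C, hC⟩ := h R
  refine ⟨c * C, fun p hp r h0 h1 => ?_⟩
  rw [lintegral_const_mul' _ _ ENNReal.coe_ne_top, ENNReal.coe_mul, mul_assoc]
  exact mul_le_mul' le_rfl (hC p hp r h0 h1)

theorem LG.of_le (h : LG g s) (hs : s ≤ 2)
    (hle : ∀ R : ℝ, ∃ C : ℝ≥0, ∀ᵐ z : ℂ, z ∈ closedBall (0 : ℂ) R → g' z ≤ C * (1 + g z)) : LG g' s := by
  intro R
  obtain ⟨C', hC'⟩ := h R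
  obtain ⟨C, hC⟩ := hle (R + 1)
  refine ⟨C * (4 + C'), fun p hp r h0 h1 => ?_⟩
  have hsub : ball p r ⊆ closedBall (0 : ℂ) (R + 1) := by
    intro z hz
    rw [mem_closedBall, dist_zero_right]
    rw [mem_ball, dist_zero_right] at hp
    rw [mem_ball, dist_eq_norm] at hz
    have h2 : z = (z - p) + p := by ring
    rw [h2]
    have h3 := norm_add_le (z - p) p
    linarith
  have h2 : ∫⁻ z in ball p r, g' z ≤ ∫⁻ z in ball p r, C * (1 + g z) := by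
    apply lintegral_mono_ae
    rw [ae_restrict_iff' measurableSet_ball]
    filter_upwards [hC] with z hz hzB
    exact hz (hsub hzB)
  refine h2.trans ?_
  rw [lintegral_const_mul' _ _ ENNReal.coe_ne_top, lintegral_add_left measurable_const,
    setLIntegral_const, one_mul, ENNReal.coe_mul, mul_assoc]
  refine mul_le_mul' le_rfl ?_
  rw [ENNReal.coe_add, add_mul]
  refine add_le_add ?_ (hC' p hp r h0 h1)
  exact vol_ball_le p h0 h1 hs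

theorem LG.sqrt (hu : AEStronglyMeasurable u volume) (h : LG (fun z => ‖u z‖ₑ ^ 2) s) :
    LG (fun z => ‖u z‖ₑ) (1 + s / 2) := by
  intro R
  obtain ⟨C, hC⟩ := h R
  refine ⟨(4 * C) ^ (1 / 2 : ℝ), fun p hp r h0 h1 => ?_⟩
  have hpq : (2 : ℝ).HolderConjugate 2 := Real.HolderConjugate.two_two
  have h2 := ENNReal.lintegral_mul_le_Lp_mul_Lq (volume.restrict (ball p r)) hpq
    (f := fun _ => 1) (g := fun z => ‖u z‖ₑ) aemeasurable_const hu.enorm.restrict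
  have e1 : ∫⁻ z in ball p r, ((fun _ : ℂ => (1 : ℝ≥0∞)) * (fun z : ℂ => ‖u z‖ₑ) : ℂ → ℝ≥0∞) z =
      ∫⁻ z in ball p r, ‖u z‖ₑ := by
    refine lintegral_congr fun z => ?_
    rw [Pi.mul_apply, one_mul]
  have e2 : ∫⁻ _ in ball p r, (1 : ℝ≥0∞) ^ (2 : ℝ) = volume (ball p r) := by
    rw [ENNReal.one_rpow, setLIntegral_const, one_mul]
  have e3 : ∫⁻ z in ball p r, ‖u z‖ₑ ^ (2 : ℝ) = ∫⁻ z in ball p r, ‖u z‖ₑ ^ 2 := by
    refine lintegral_congr fun z => ?_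
    rw [ENNReal.rpow_two]
  rw [e1, e2, e3] at h2
  refine h2.trans ?_
  have h3 : volume (ball p r) ^ (1 / 2 : ℝ) ≤ (4 * ENNReal.ofReal (r ^ (2 : ℝ))) ^ (1 / 2 : ℝ) :=
    ENNReal.rpow_le_rpow (vol_ball_le p h0 h1 le_rfl) (by norm_num)
  have h4 : (∫⁻ z in ball p r, ‖u z‖ₑ ^ 2) ^ (1 / 2 : ℝ) ≤
      (C * ENNReal.ofReal (r ^ s)) ^ (1 / 2 : ℝ) :=
    ENNReal.rpow_le_rpow (hC p hp r h0 h1) (by norm_num)
  refine (mul_le_mul' h3 h4).trans (le_of_eq ?_)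
  have hr2 : 0 < r ^ (2 : ℝ) := Real.rpow_pos_of_pos h0 _
  have hrs : 0 < r ^ s := Real.rpow_pos_of_pos h0 _
  have hhalf : (0 : ℝ) ≤ 1 / 2 := by norm_num
  rw [ENNReal.mul_rpow_of_nonneg _ _ hhalf, ENNReal.mul_rpow_of_nonneg _ _ hhalf,
    ENNReal.ofReal_rpow_of_pos hr2, ENNReal.ofReal_rpow_of_pos hrs, ← Real.rpow_mul h0.le,
    ← Real.rpow_mul h0.le]
  have e4 : r ^ (1 + s / 2) = r ^ ((2 : ℝ) * (1 / 2)) * r ^ (s * (1 / 2)) := by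
    rw [← Real.rpow_add h0]
    congr 1
    ring
  have e5 : ((4 : ℝ≥0) : ℝ≥0∞) = 4 := by norm_cast
  have e6 : (((4 * C) ^ (1 / 2 : ℝ) : ℝ≥0) : ℝ≥0∞) = 4 ^ (1 / 2 : ℝ) * (C : ℝ≥0∞) ^ (1 / 2 : ℝ) := by
    rw [ENNReal.coe_rpow_of_nonneg _ hhalf, ENNReal.coe_mul, ENNReal.mul_rpow_of_nonneg _ _ hhalf, e5]
  rw [e4, ENNReal.ofReal_mul (Real.rpow_pos_of_pos h0 _).le, e6]
  ring

end O3R
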