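import Pool.Agent.GO3.R.Rz1

/-!
# Part R, module Rz2: growth of the square of a Riesz potential (helper30)

Proved by helper85.
-/

open MeasureTheory Filter Topology Complex Metric
open scoped ContDiff ENNReal NNReal

noncomputable section

namespace O3R

theorem rz_sq_add (a b : ℝ≥0∞) : (a + b) ^ 2 ≤ 4 * (a ^ 2 + b ^ 2) := by
  rcases le_total a b with h | h
  · calc (a + b) ^ 2 ≤ (b + b) ^ 2 := by gcongr
      _ = 4 * b ^ 2 := by ring
      _ ≤ 4 * (a ^ 2 + b ^ 2) := by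
        gcongr
        exact le_add_self
  · calc (a + b) ^ 2 ≤ (a + a) ^ 2 := by gcongr
      _ = 4 * a ^ 2 := by ring
      _ ≤ 4 * (a ^ 2 + b ^ 2) := by
        gcongr
        exact le_self_add

theorem rz_vol (z : ℂ) (r : ℝ) (hr : 0 < r) :
    volume (ball z r) ≤ ENNReal.ofReal Real.pi * ENNReal.ofReal (r ^ (2 : ℝ)) := by
  rw [Complex.volume_ball, Real.rpow_two, ← ENNReal.ofReal_pow hr.le, mul_comm]
  gcongr
  rw [ENNReal.ofReal]
  exact_mod_cast le_of_eq (by
    ext
    simp [Real.coe_toNNReal _ Real.pi_pos.le])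

theorem rz_meas (b : ℝ) : Measurable fun q : ℂ × ℂ => ENNReal.ofReal (dist q.1 q.2 ^ b) := by
  have h : Measurable fun q : ℂ × ℂ => dist q.1 q.2 := continuous_dist.measurable
  exact ENNReal.measurable_ofReal.comp (h.pow_const b)

theorem rz_meas1 (z : ℂ) (b : ℝ) : Measurable fun ζ : ℂ => ENNReal.ofReal (dist ζ z ^ b) := by
  have h : Measurable fun ζ : ℂ => dist ζ z := (continuous_id.dist continuous_const).measurable
  exact ENNReal.measurable_ofReal.comp (h.pow_const b)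

theorem rz_meas2 (b : ℝ) : Measurable fun q : ℂ × ℂ => ENNReal.ofReal (dist q.2 q.1 ^ b) := by
  have h : Measurable fun q : ℂ × ℂ => dist q.2 q.1 :=
    (continuous_snd.dist continuous_fst).measurable
  exact ENNReal.measurable_ofReal.comp (h.pow_const b)

/-- Cauchy-Schwarz for the near part -/
theorem rz_cs (ν : Measure ℂ) (z : ℂ) {a : ℝ} :
    (∫⁻ ζ, Ker z ζ ∂ν) ^ 2 ≤ (∫⁻ ζ, ENNReal.ofReal (dist ζ z ^ (-a)) ∂ν) *
      ∫⁻ ζ, ENNReal.ofReal (dist ζ z ^ (-(2 - a))) ∂ν := by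
  set f : ℂ → ℝ≥0∞ := fun ζ => ENNReal.ofReal (dist ζ z ^ (-(a / 2))) with hf
  set g : ℂ → ℝ≥0∞ := fun ζ => ENNReal.ofReal (dist ζ z ^ (-(1 - a / 2))) with hg
  have hm : ∀ b : ℝ, Measurable fun ζ : ℂ => ENNReal.ofReal (dist ζ z ^ b) := rz_meas1 z
  have h1 : ∀ ζ, Ker z ζ ≤ (f * g) ζ := by
    intro ζ
    rw [Ker_eq, Pi.mul_apply, hf, hg]
    simp only
    rw [← ENNReal.ofReal_mul (by positivity)]
    rcases (dist_nonneg (x := ζ) (y := z)).eq_or_lt with h0 | h0
    · rw [← h0, Real.zero_rpow (by norm_num), ENNReal.ofReal_zero]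
      exact zero_le
    · have e : -(1 : ℝ) = -(a / 2) + -(1 - a / 2) := by ring
      rw [← Real.rpow_add h0, ← e]
  have hH := ENNReal.lintegral_mul_le_Lp_mul_Lq ν (Real.HolderConjugate.two_two) (hm _).aemeasurable
    (hm _).aemeasurable (f := f) (g := g)
  have h2 : ∀ (b : ℝ) (ζ : ℂ), ENNReal.ofReal (dist ζ z ^ b) ^ (2 : ℝ) =
      ENNReal.ofReal (dist ζ z ^ (b * 2)) := by
    intro b ζ
    rw [ENNReal.ofReal_rpow_of_nonneg (by positivity) (by norm_num), ← Real.rpow_mul dist_nonneg]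
  have e1 : (∫⁻ ζ, f ζ ^ (2 : ℝ) ∂ν) = ∫⁻ ζ, ENNReal.ofReal (dist ζ z ^ (-a)) ∂ν := by
    refine lintegral_congr fun ζ => ?_
    rw [hf]
    simp only
    rw [h2]
    congr 2
    ring
  have e2 : (∫⁻ ζ, g ζ ^ (2 : ℝ) ∂ν) = ∫⁻ ζ, ENNReal.ofReal (dist ζ z ^ (-(2 - a))) ∂ν := by
    refine lintegral_congr fun ζ => ?_
    rw [hg]
    simp only
    rw [h2]
    congr 2
    ring
  rw [e1, e2] at hH
  calc (∫⁻ ζ, Ker z ζ ∂ν) ^ 2 ≤ (∫⁻ ζ, (f * g) ζ ∂ν) ^ 2 := by
        gcongr with ζ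
        exact h1 ζ
    _ ≤ ((∫⁻ ζ, ENNReal.ofReal (dist ζ z ^ (-a)) ∂ν) ^ (1 / 2 : ℝ) *
          (∫⁻ ζ, ENNReal.ofReal (dist ζ z ^ (-(2 - a))) ∂ν) ^ (1 / 2 : ℝ)) ^ 2 := by
        gcongr
    _ = _ := by
        rw [mul_pow]
        have h3 : ∀ x : ℝ≥0∞, (x ^ (1 / 2 : ℝ)) ^ 2 = x := by
          intro x
          rw [← ENNReal.rpow_natCast, ← ENNReal.rpow_mul]
          norm_num
        rw [h3, h3]

theorem rz_sq {s : ℝ} (h0 : 0 < s) (h1 : s < 1) : ∃ C : ℝ≥0, ∀ M : ℝ≥0∞, M ≠ ⊤ → ∀ g : ℂ → ℝ≥0∞,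
    Gr g M s → ∀ (p : ℂ) (r : ℝ), 0 < r → r ≤ 1 →
    ∫⁻ z in ball p r, Ip g z ^ 2 ≤ C * M ^ 2 * ENNReal.ofReal (r ^ (2 * s)) := by
  set a : ℝ := s / 2 with ha
  have ha0 : 0 < a := by rw [ha]; linarith
  have has : a < s := by rw [ha]; linarith
  set c1 : ℝ≥0∞ := ENNReal.ofReal (2 ^ a) * geo (s - a) with hc1
  set c2 : ℝ≥0∞ := ENNReal.ofReal Real.pi * (ENNReal.ofReal (2 ^ (2 - a)) * geo (2 - (2 - a))) with hc2
  set c3 : ℝ≥0∞ := 2 * (ENNReal.ofReal (2 ^ s) * geo (1 - s)) with hc3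
  have t1 : c1 ≠ ⊤ := ENNReal.mul_ne_top ENNReal.ofReal_ne_top (geo_lt_top (by linarith)).ne
  have t2 : c2 ≠ ⊤ := ENNReal.mul_ne_top ENNReal.ofReal_ne_top
    (ENNReal.mul_ne_top ENNReal.ofReal_ne_top (geo_lt_top (by linarith)).ne)
  have t3 : c3 ≠ ⊤ := ENNReal.mul_ne_top (by norm_num)
    (ENNReal.mul_ne_top ENNReal.ofReal_ne_top (geo_lt_top (by linarith)).ne)
  set CN : ℝ≥0∞ := c1 * c2 * ENNReal.ofReal (3 ^ s * 2 ^ s) with hCN
  set CF : ℝ≥0∞ := c3 ^ 2 * ENNReal.ofReal ((2 ^ (s - 1)) ^ 2) * ENNReal.ofReal Real.pi with hCF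
  have tN : CN ≠ ⊤ := ENNReal.mul_ne_top (ENNReal.mul_ne_top t1 t2) ENNReal.ofReal_ne_top
  have tF : CF ≠ ⊤ := ENNReal.mul_ne_top (ENNReal.mul_ne_top (ENNReal.pow_ne_top t3)
    ENNReal.ofReal_ne_top) ENNReal.ofReal_ne_top
  have tC : 4 * (CN + CF) ≠ ⊤ := ENNReal.mul_ne_top (by norm_num) (ENNReal.add_ne_top.mpr ⟨tN, tF⟩)
  refine ⟨(4 * (CN + CF)).toNNReal, fun M hM g hg p r hr hr1 => ?_⟩
  rw [ENNReal.coe_toNNReal tC]
  set ν : Measure ℂ := volume.withDensity g with hν
  have hball : ∀ (q : ℂ) (ρ : ℝ), 0 < ρ → ν (ball q ρ) ≤ M * ENNReal.ofReal (ρ ^ s) := by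
    intro q ρ hρ
    rw [hν, withDensity_apply _ measurableSet_ball]
    exact hg.all h0.le q ρ hρ
  have h2r : 0 < 2 * r := by linarith
  have h3r : 0 < 3 * r := by linarith
  set Nf : ℂ → ℝ≥0∞ := fun z => ∫⁻ ζ in ball p (2 * r), Ker z ζ ∂ν with hNf
  set Ff : ℂ → ℝ≥0∞ := fun z => ∫⁻ ζ in (ball p (2 * r))ᶜ, Ker z ζ ∂ν with hFf
  have hsplit : ∀ z, Ip g z = Nf z + Ff z := by
    intro z
    rw [Ip_eq hg.meas, ← lintegral_add_compl _ (measurableSet_ball (x := p) (ε := 2 * r))]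
  -- the near part
  have hnear : ∫⁻ z in ball p r, Nf z ^ 2 ≤ CN * M ^ 2 * ENNReal.ofReal (r ^ (2 * s)) := by
    set A : ℝ≥0∞ := M * c1 * ENNReal.ofReal ((3 * r) ^ (s - a)) with hA
    set Bf : ℂ → ℝ≥0∞ := fun z => ∫⁻ ζ in ball p (2 * r), ENNReal.ofReal (dist ζ z ^ (-(2 - a))) ∂ν
      with hBf
    have e1 : ∀ z ∈ ball p r, Nf z ^ 2 ≤ A * Bf z := by
      intro z hz
      refine (rz_cs (ν.restrict (ball p (2 * r))) z (a := a)).trans ?_
      rw [hA, hBf]
      simp only
      gcongr ?_ * _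
      have hsub : ball p (2 * r) ⊆ ball z (3 * r) := by
        intro x hx
        rw [mem_ball] at hx hz ⊢
        rw [dist_comm] at hz
        calc dist x z ≤ dist x p + dist p z := dist_triangle _ _ _
          _ < 3 * r := by linarith
      calc ∫⁻ ζ in ball p (2 * r), ENNReal.ofReal (dist ζ z ^ (-a)) ∂ν
          ≤ ∫⁻ ζ in ball z (3 * r), ENNReal.ofReal (dist ζ z ^ (-a)) ∂ν := lintegral_mono_set hsub
        _ ≤ _ := by
          have := near_le (ν := ν) (z := z) h3r ha0.le has hM (fun ρ hρ _ => hball z ρ hρ)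
          exact this
    have e2 : ∫⁻ z in ball p r, Bf z ≤ c2 * ENNReal.ofReal ((3 * r) ^ a) *
        (M * ENNReal.ofReal ((2 * r) ^ s)) := by
      have hmeas : Measurable fun q : ℂ × ℂ => ENNReal.ofReal (dist q.2 q.1 ^ (-(2 - a))) :=
        rz_meas2 _
      have hswap : ∫⁻ z in ball p r, Bf z =
          ∫⁻ ζ in ball p (2 * r), (∫⁻ z in ball p r, ENNReal.ofReal (dist ζ z ^ (-(2 - a)))) ∂ν := by
        rw [hBf]
        exact lintegral_lintegral_swap (μ := volume.restrict (ball p r))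
          (ν := ν.restrict (ball p (2 * r)))
          (f := fun z ζ => ENNReal.ofReal (dist ζ z ^ (-(2 - a)))) hmeas.aemeasurable
      rw [hswap]
      calc ∫⁻ ζ in ball p (2 * r), (∫⁻ z in ball p r, ENNReal.ofReal (dist ζ z ^ (-(2 - a)))) ∂ν
          ≤ ∫⁻ ζ in ball p (2 * r), c2 * ENNReal.ofReal ((3 * r) ^ a) ∂ν := by
            refine setLIntegral_mono' measurableSet_ball fun ζ hζ => ?_
            have hsub : ball p r ⊆ ball ζ (3 * r) := by
              intro x hx
              rw [mem_ball] at hx hζ ⊢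
              rw [dist_comm] at hζ
              calc dist x ζ ≤ dist x p + dist p ζ := dist_triangle _ _ _
                _ < 3 * r := by linarith
            calc ∫⁻ z in ball p r, ENNReal.ofReal (dist ζ z ^ (-(2 - a)))
                ≤ ∫⁻ z in ball ζ (3 * r), ENNReal.ofReal (dist ζ z ^ (-(2 - a))) :=
                  lintegral_mono_set hsub
              _ = ∫⁻ z in ball ζ (3 * r), ENNReal.ofReal (dist z ζ ^ (-(2 - a))) := by
                  refine lintegral_congr fun z => ?_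
                  rw [dist_comm]
              _ ≤ _ := by
                  have := near_le (ν := (volume : Measure ℂ)) (z := ζ) (R := 3 * r) (a := 2 - a)
                    (s := 2) h3r (by linarith) (by linarith)
                    (ENNReal.ofReal_ne_top (r := Real.pi)) (fun ρ hρ _ => rz_vol ζ ρ hρ)
                  refine this.trans (le_of_eq ?_)
                  rw [hc2]
                  congr 3
                  ring
        _ = c2 * ENNReal.ofReal ((3 * r) ^ a) * ν (ball p (2 * r)) := by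
            rw [setLIntegral_const]
        _ ≤ _ := by
            gcongr
            exact hball p _ h2r
    calc ∫⁻ z in ball p r, Nf z ^ 2 ≤ ∫⁻ z in ball p r, A * Bf z :=
          setLIntegral_mono' measurableSet_ball e1
      _ = A * ∫⁻ z in ball p r, Bf z := by
          have hAt : A ≠ ⊤ := ENNReal.mul_ne_top (ENNReal.mul_ne_top hM t1) ENNReal.ofReal_ne_top
          exact lintegral_const_mul' _ _ hAt
      _ ≤ A * (c2 * ENNReal.ofReal ((3 * r) ^ a) * (M * ENNReal.ofReal ((2 * r) ^ s))) := by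
          gcongr
      _ = CN * M ^ 2 * ENNReal.ofReal (r ^ (2 * s)) := by
          have e3 : ENNReal.ofReal ((3 * r) ^ (s - a)) * ENNReal.ofReal ((3 * r) ^ a) *
              ENNReal.ofReal ((2 * r) ^ s) =
              ENNReal.ofReal (3 ^ s * 2 ^ s) * ENNReal.ofReal (r ^ (2 * s)) := by
            rw [← ENNReal.ofReal_mul (by positivity), ← ENNReal.ofReal_mul (by positivity),
              ← ENNReal.ofReal_mul (by positivity)]
            congr 1
            rw [← Real.rpow_add h3r, sub_add_cancel, Real.mul_rpow (by norm_num) hr.le,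
              Real.mul_rpow (by norm_num) hr.le, two_mul, Real.rpow_add hr]
            ring
          rw [hA, hCN]
          calc M * c1 * ENNReal.ofReal ((3 * r) ^ (s - a)) *
                (c2 * ENNReal.ofReal ((3 * r) ^ a) * (M * ENNReal.ofReal ((2 * r) ^ s)))
              = c1 * c2 * M ^ 2 * (ENNReal.ofReal ((3 * r) ^ (s - a)) *
                ENNReal.ofReal ((3 * r) ^ a) * ENNReal.ofReal ((2 * r) ^ s)) := by ring
            _ = _ := by rw [e3]; ring
  -- the far part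
  have hfar : ∫⁻ z in ball p r, Ff z ^ 2 ≤ CF * M ^ 2 * ENNReal.ofReal (r ^ (2 * s)) := by
    have e1 : ∀ z ∈ ball p r, Ff z ≤ M * c3 * ENNReal.ofReal ((2 * r) ^ (s - 1)) := by
      intro z hz
      calc Ff z ≤ ∫⁻ ζ in (ball p (2 * r))ᶜ, 2 * ENNReal.ofReal (dist ζ p ^ (-(1 : ℝ))) ∂ν := by
            refine setLIntegral_mono' measurableSet_ball.compl fun ζ hζ => ?_
            rw [Set.mem_compl_iff, mem_ball, not_lt] at hζ
            rw [mem_ball] at hz
            have hd : dist ζ p / 2 ≤ dist ζ z := by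
              have := dist_triangle ζ z p
              linarith
            have hp : 0 < dist ζ p := lt_of_lt_of_le h2r hζ
            have hp2 : 0 < dist ζ p / 2 := by linarith
            have e4 : (2 : ℝ≥0∞) = ENNReal.ofReal 2 := by simp
            rw [Ker_eq, e4, ← ENNReal.ofReal_mul (by norm_num)]
            refine ENNReal.ofReal_le_ofReal ?_
            rw [Real.rpow_neg_one, Real.rpow_neg_one]
            calc (dist ζ z)⁻¹ ≤ (dist ζ p / 2)⁻¹ := inv_anti₀ hp2 hd
              _ = 2 * (dist ζ p)⁻¹ := by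
                field_simp
        _ = 2 * ∫⁻ ζ in (ball p (2 * r))ᶜ, ENNReal.ofReal (dist ζ p ^ (-(1 : ℝ))) ∂ν :=
            lintegral_const_mul' _ _ (by norm_num)
        _ ≤ 2 * (M * (ENNReal.ofReal (2 ^ s) * geo (1 - s)) *
              ENNReal.ofReal ((2 * r) ^ (s - 1))) := by
            gcongr
            exact far_le (ν := ν) (z := p) h2r h1 h0.le
              (fun ρ hρ => hball p ρ (lt_of_lt_of_le h2r hρ))
        _ = _ := by rw [hc3]; ring
    calc ∫⁻ z in ball p r, Ff z ^ 2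
        ≤ ∫⁻ z in ball p r, (M * c3 * ENNReal.ofReal ((2 * r) ^ (s - 1))) ^ 2 := by
          refine setLIntegral_mono' measurableSet_ball fun z hz => ?_
          gcongr
          exact e1 z hz
      _ = (M * c3 * ENNReal.ofReal ((2 * r) ^ (s - 1))) ^ 2 * volume (ball p r) := by
          rw [setLIntegral_const]
      _ ≤ (M * c3 * ENNReal.ofReal ((2 * r) ^ (s - 1))) ^ 2 *
            (ENNReal.ofReal Real.pi * ENNReal.ofReal (r ^ (2 : ℝ))) := by
          gcongr
          exact rz_vol p r hr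
      _ = CF * M ^ 2 * ENNReal.ofReal (r ^ (2 * s)) := by
          have e3 : ENNReal.ofReal ((2 * r) ^ (s - 1)) ^ 2 * ENNReal.ofReal (r ^ (2 : ℝ)) =
              ENNReal.ofReal ((2 ^ (s - 1)) ^ 2) * ENNReal.ofReal (r ^ (2 * s)) := by
            rw [← ENNReal.ofReal_pow (by positivity), ← ENNReal.ofReal_mul (by positivity),
              ← ENNReal.ofReal_mul (by positivity)]
            congr 1
            rw [Real.mul_rpow (by norm_num) hr.le, mul_pow, ← Real.rpow_natCast (r ^ (s - 1)),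
              ← Real.rpow_mul hr.le, mul_assoc, ← Real.rpow_add hr]
            congr 2
            push_cast
            ring
          rw [hCF]
          calc (M * c3 * ENNReal.ofReal ((2 * r) ^ (s - 1))) ^ 2 *
                (ENNReal.ofReal Real.pi * ENNReal.ofReal (r ^ (2 : ℝ)))
              = c3 ^ 2 * ENNReal.ofReal Real.pi * M ^ 2 *
                (ENNReal.ofReal ((2 * r) ^ (s - 1)) ^ 2 * ENNReal.ofReal (r ^ (2 : ℝ))) := by ring
            _ = _ := by rw [e3]; ring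
  have hmN : Measurable Nf := by
    have hmeas : Measurable (Function.uncurry fun z ζ : ℂ => Ker z ζ) := by
      have h5 : (Function.uncurry fun z ζ : ℂ => Ker z ζ) =
          fun q : ℂ × ℂ => ENNReal.ofReal (dist q.2 q.1 ^ (-(1 : ℝ))) := by
        funext q
        exact Ker_eq q.1 q.2
      rw [h5]
      exact rz_meas2 _
    exact hmeas.lintegral_prod_right'
  calc ∫⁻ z in ball p r, Ip g z ^ 2 ≤ ∫⁻ z in ball p r, 4 * (Nf z ^ 2 + Ff z ^ 2) := by
        refine setLIntegral_mono' measurableSet_ball fun z _ => ?_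
        rw [hsplit]
        exact rz_sq_add _ _
    _ = 4 * ((∫⁻ z in ball p r, Nf z ^ 2) + ∫⁻ z in ball p r, Ff z ^ 2) := by
        rw [lintegral_const_mul' _ _ (by norm_num), lintegral_add_left (hmN.pow_const 2)]
    _ ≤ 4 * (CN * M ^ 2 * ENNReal.ofReal (r ^ (2 * s)) +
          CF * M ^ 2 * ENNReal.ofReal (r ^ (2 * s))) :=
        mul_le_mul_right (add_le_add hnear hfar) 4
    _ = _ := by ring

end O3R
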