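import Pool.Agent.GO3.R.CPW
import Pool.Agent.GO3.R.Rz2
import Pool.Agent.GO3.R.LGl

/-!
# Part R, module Pot: from the growth of `∂_{z̄} V` to bounds and growth for `V` (helper30)

PROOFS.
* `pot_bound`: `χ` from `exists_cut R`, `cp_weak`.  For `z ∈ closedBall 0 R`: `χ z = 1`, so
  `V z = (1/π) ∫ (χ g) ζ / (z - ζ) + (1/π) ∫ V ζ (dbar χ) ζ / (z - ζ)` (or estimate the norm of the integral of the sum by the lintegral
  of the norms, `enorm_integral_le_lintegral_enorm`, which needs no integrability).  First part: `|χ| ≤ 1`, `χ = 0` outside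
  `closedBall 0 (R + 3/4)`, `1/π ≤ 1`: at most `Ip (indicator ..) z`.  Second part: `dbar χ ζ = 0` for `|ζ| < R + 1/4` (`χ` is constant
  near `ζ`) and for `|ζ| > R + 3/4`, so `|z - ζ| ≥ 1/4` on the support: at most `4 M ∫_{closedBall 0 (R+1)} ‖V‖ < ∞`, `M` a bound of
  `‖dbar χ‖` (`Tst.bd`).
* `trunc_Gr`: `M` = total mass on `closedBall 0 R` (finite, `L1l`) plus the growth constant of `LG` for the radius `R + 2` (cast to
  `ℝ≥0`).  If `|p| < R + 2` use the growth (`Measure.restrict` / `setLIntegral_indicator`), otherwise `ball p 1` does not meet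
  `closedBall 0 R` and the integral is zero.
* `bdl_of_LG`: for `R ≥ 0` (`closedBall 0 R = ∅` for `R < 0`): `pot_bound`, `trunc_Gr` with `R + 1`, `rz_bdd`.
* `sq_of_LG`: given `R` take `R' = |R| + 1`: for `p ∈ ball 0 R`, `r ≤ 1` the disc `ball p r` lies in `closedBall 0 R'`; by `pot_bound`
  and `(a + b)² ≤ 2 a² + 2 b²`: `∫⁻_{ball p r} ‖V‖ₑ² ≤ 2 C² volume (ball p r) + 2 ∫⁻_{ball p r} Ip² ≤ C' r ^ (2 s)` by
  `vol_ball_le` (`2 s ≤ 2`), `trunc_Gr` with `R' + 1`, `rz_sq`.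
-/

open MeasureTheory Filter Topology Complex Metric
open scoped ContDiff ENNReal NNReal

noncomputable section

namespace O3R

variable {V g : ℂ → ℂ} {s : ℝ}

private theorem pot_dd {χ : ℂ → ℝ} (hχ : Tst χ) (z e : ℂ) :
    dd e (fun x => (χ x : ℂ)) z = ((fderiv ℝ χ z e : ℝ) : ℂ) := by
  have h1 : HasFDerivAt χ (fderiv ℝ χ z) z :=
    (hχ.smooth.differentiable (by simp) z).hasFDerivAt
  have h2 : HasFDerivAt (fun x => (χ x : ℂ)) (Complex.ofRealCLM.comp (fderiv ℝ χ z)) z :=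
    Complex.ofRealCLM.hasFDerivAt.comp z h1
  unfold dd
  rw [h2.fderiv]
  rfl

private theorem pot_fd0 {χ : ℂ → ℝ} {c : ℝ} {U : Set ℂ} (hU : IsOpen U) (h : ∀ z ∈ U, χ z = c)
    {z : ℂ} (hz : z ∈ U) : fderiv ℝ χ z = 0 := by
  have h1 : χ =ᶠ[𝓝 z] fun _ => c := by
    filter_upwards [hU.mem_nhds hz] with w hw
    exact h w hw
  rw [h1.fderiv_eq]
  simp

/-- the derivative of the cut-off function -/
private theorem pot_cut {χ : ℂ → ℝ} {R : ℝ} (hχ : Tst χ)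
    (h1 : ∀ z ∈ closedBall (0 : ℂ) (R + 1 / 4), χ z = 1)
    (h0 : ∀ z, z ∉ closedBall (0 : ℂ) (R + 3 / 4) → χ z = 0) :
    ∃ M : ℝ, 0 ≤ M ∧ ∀ ζ, ‖dbar (fun x => (χ x : ℂ)) ζ‖ ≤ M ∧
      (dbar (fun x => (χ x : ℂ)) ζ ≠ 0 → R + 1 / 4 ≤ ‖ζ‖ ∧ ‖ζ‖ ≤ R + 3 / 4) := by
  obtain ⟨R', M, -, hM, -, hb⟩ := hχ.bd
  refine ⟨M, hM, fun ζ => ⟨?_, fun hne => ⟨?_, ?_⟩⟩⟩
  · unfold dbar
    rw [pot_dd hχ, pot_dd hχ, norm_div]
    obtain ⟨-, h2, h3⟩ := hb ζ
    have h4 : ‖((fderiv ℝ χ ζ 1 : ℝ) : ℂ) + I * ((fderiv ℝ χ ζ I : ℝ) : ℂ)‖ ≤ M + M := by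
      refine (norm_add_le _ _).trans (add_le_add ?_ ?_)
      · rw [Complex.norm_real]
        exact h2
      · rw [norm_mul, Complex.norm_I, one_mul, Complex.norm_real]
        exact h3
    rw [show ‖(2 : ℂ)‖ = 2 by simp]
    linarith
  · by_contra hlt
    push Not at hlt
    refine hne ?_
    have h2 : fderiv ℝ χ ζ = 0 := pot_fd0 isOpen_ball
      (fun z hz => h1 z (ball_subset_closedBall hz)) (by rw [mem_ball_zero_iff]; exact hlt)
    unfold dbar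
    rw [pot_dd hχ, pot_dd hχ, h2]
    simp
  · by_contra hlt
    push Not at hlt
    refine hne ?_
    have h2 : fderiv ℝ χ ζ = 0 := pot_fd0 (U := (closedBall (0 : ℂ) (R + 3 / 4))ᶜ)
      isClosed_closedBall.isOpen_compl (fun z hz => h0 z hz)
      (by rw [Set.mem_compl_iff, mem_closedBall_zero_iff, not_le]; exact hlt)
    unfold dbar
    rw [pot_dd hχ, pot_dd hχ, h2]
    simp

theorem pot_bound (hV : L1l V) (hg : L1l g) (h : WDb V g) (R : ℝ) (hR : 0 ≤ R) :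
    ∃ C : ℝ≥0, ∀ᵐ z : ℂ, z ∈ closedBall (0 : ℂ) R →
      ‖V z‖ₑ ≤ C + Ip ((closedBall (0 : ℂ) (R + 1)).indicator (fun ζ => ‖g ζ‖ₑ)) z := by
  obtain ⟨χ, hχ, h01, h1, h0⟩ := exists_cut R hR
  obtain ⟨M, hM, hd⟩ := pot_cut hχ h1 h0
  set B : Set ℂ := closedBall (0 : ℂ) (R + 1) with hB
  have hBm : MeasurableSet B := measurableSet_closedBall
  set J : ℂ → ℝ≥0∞ := B.indicator (fun ζ => ENNReal.ofReal (4 * M) * ‖V ζ‖ₑ) with hJ
  have hJm : AEMeasurable J volume :=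
    (AEMeasurable.const_mul hV.ae.enorm _).indicator hBm
  have hJfin : ∫⁻ ζ, J ζ ≠ ⊤ := by
    rw [hJ, lintegral_indicator hBm, lintegral_const_mul' _ _ ENNReal.ofReal_ne_top]
    refine ENNReal.mul_ne_top ENNReal.ofReal_ne_top ?_
    exact (hV (R + 1)).2.ne
  refine ⟨(∫⁻ ζ, J ζ).toNNReal, ?_⟩
  rw [ENNReal.coe_toNNReal hJfin]
  filter_upwards [cp_weak hV hg h hχ] with z hz hzR
  rw [mem_closedBall_zero_iff] at hzR
  rw [h1 z (by rw [mem_closedBall_zero_iff]; linarith), Complex.ofReal_one, one_mul] at hz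
  rw [hz, enorm_mul]
  have hpi : ‖(1 / Real.pi : ℂ)‖ₑ ≤ 1 := by
    rw [← ofReal_norm, ENNReal.ofReal_le_one, norm_div, norm_one, Complex.norm_real,
      Real.norm_eq_abs, abs_of_pos Real.pi_pos, div_le_one Real.pi_pos]
    linarith [Real.pi_gt_three]
  have hpt : ∀ ζ : ℂ, ‖((χ ζ : ℂ) * g ζ + V ζ * dbar (fun x => (χ x : ℂ)) ζ) * (z - ζ)⁻¹‖ₑ ≤
      B.indicator (fun ζ => ‖g ζ‖ₑ) ζ * Ker z ζ + J ζ := by
    intro ζ
    have hK : ‖(z - ζ)⁻¹‖ₑ = Ker z ζ := by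
      unfold Ker
      rw [← ofReal_norm, norm_inv]
    rw [add_mul]
    refine (enorm_add_le _ _).trans (add_le_add ?_ ?_)
    · rw [enorm_mul, hK]
      refine mul_le_mul_left ?_ _
      by_cases hζ : ζ ∈ B
      · rw [Set.indicator_of_mem hζ, enorm_mul]
        have h2 : ‖(χ ζ : ℂ)‖ₑ ≤ 1 := by
          rw [← ofReal_norm, ENNReal.ofReal_le_one, Complex.norm_real, Real.norm_eq_abs,
            abs_of_nonneg (h01 ζ).1]
          exact (h01 ζ).2
        calc ‖(χ ζ : ℂ)‖ₑ * ‖g ζ‖ₑ ≤ 1 * ‖g ζ‖ₑ := mul_le_mul_left h2 _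
          _ = ‖g ζ‖ₑ := one_mul _
      · have h2 : χ ζ = 0 := h0 ζ fun h3 => hζ (closedBall_subset_closedBall (by linarith) h3)
        rw [h2]
        simp
    · by_cases hne : dbar (fun x => (χ x : ℂ)) ζ = 0
      · rw [hne]
        simp
      · obtain ⟨h2, h3⟩ := (hd ζ).2 hne
        have hζ : ζ ∈ B := by
          rw [hB, mem_closedBall_zero_iff]
          linarith
        rw [hJ, Set.indicator_of_mem hζ, mul_assoc, enorm_mul, mul_comm]
        refine mul_le_mul_left ?_ _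
        rw [← ofReal_norm]
        refine ENNReal.ofReal_le_ofReal ?_
        rw [norm_mul, norm_inv, mul_comm]
        have h4 : 1 / 4 ≤ ‖z - ζ‖ := by
          have := norm_sub_norm_le ζ z
          rw [norm_sub_rev] at this
          linarith
        have h5 : ‖z - ζ‖⁻¹ ≤ 4 := by
          rw [inv_le_comm₀ (by linarith) (by norm_num)]
          linarith
        exact mul_le_mul h5 (hd ζ).1 (norm_nonneg _) (by norm_num)
  calc ‖(1 / Real.pi : ℂ)‖ₑ * ‖∫ ζ, ((χ ζ : ℂ) * g ζ + V ζ * dbar (fun x => (χ x : ℂ)) ζ) *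
        (z - ζ)⁻¹‖ₑ
      ≤ 1 * ∫⁻ ζ, (B.indicator (fun ζ => ‖g ζ‖ₑ) ζ * Ker z ζ + J ζ) :=
        mul_le_mul' hpi ((enorm_integral_le_lintegral_enorm _).trans (lintegral_mono hpt))
    _ = Ip (B.indicator (fun ζ => ‖g ζ‖ₑ)) z + ∫⁻ ζ, J ζ := by
        rw [one_mul, lintegral_add_right' _ hJm]
        rfl
    _ = _ := add_comm _ _

theorem trunc_Gr (hg : L1l g) (h : LG (fun z => ‖g z‖ₑ) s) (R : ℝ) :
    ∃ M : ℝ≥0, Gr ((closedBall (0 : ℂ) R).indicator (fun ζ => ‖g ζ‖ₑ)) M s := by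
  obtain ⟨C, hC⟩ := h (R + 2)
  have hBm : MeasurableSet (closedBall (0 : ℂ) R) := measurableSet_closedBall
  have hfin : ∫⁻ ζ in closedBall (0 : ℂ) R, ‖g ζ‖ₑ ≠ ⊤ := (hg R).2.ne
  refine ⟨(∫⁻ ζ in closedBall (0 : ℂ) R, ‖g ζ‖ₑ).toNNReal + C, ?_, ?_, ?_⟩
  · exact (hg.ae.enorm).indicator hBm
  · rw [lintegral_indicator hBm, ENNReal.coe_add, ENNReal.coe_toNNReal hfin]
    exact le_self_add
  · intro p r hr hr1
    by_cases hp : p ∈ ball (0 : ℂ) (R + 2)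
    · calc ∫⁻ z in ball p r, (closedBall (0 : ℂ) R).indicator (fun ζ => ‖g ζ‖ₑ) z
          ≤ ∫⁻ z in ball p r, ‖g z‖ₑ :=
            lintegral_mono fun z => Set.indicator_le_self _ _ z
        _ ≤ C * ENNReal.ofReal (r ^ s) := hC p hp r hr hr1
        _ ≤ _ := by
            refine mul_le_mul_left ?_ _
            rw [ENNReal.coe_add]
            exact le_add_self
    · rw [mem_ball_zero_iff, not_lt] at hp
      have h2 : ∫⁻ z in ball p r, (closedBall (0 : ℂ) R).indicator (fun ζ => ‖g ζ‖ₑ) z = 0 := by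
        rw [setLIntegral_congr_fun (g := fun _ => 0) measurableSet_ball]
        · simp
        · intro z hz
          refine Set.indicator_of_notMem ?_ _
          rw [mem_closedBall_zero_iff, not_le]
          rw [mem_ball, dist_eq_norm] at hz
          have := norm_sub_norm_le p z
          rw [norm_sub_rev] at this
          linarith
      rw [h2]
      exact zero_le

theorem bdl_of_LG (hV : L1l V) (hg : L1l g) (h : WDb V g) (hs : 1 < s)
    (hG : LG (fun z => ‖g z‖ₑ) s) : Bdl V := by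
  refine ⟨hV.ae, fun R => ?_⟩
  rcases lt_or_ge R 0 with hR | hR
  · refine ⟨0, ae_of_all _ fun z hz => ?_⟩
    rw [closedBall_eq_empty.2 hR] at hz
    exact absurd hz (Set.notMem_empty _)
  · obtain ⟨C0, hC0⟩ := pot_bound hV hg h R hR
    obtain ⟨M, hM⟩ := trunc_Gr hg hG (R + 1)
    obtain ⟨C, hC⟩ := rz_bdd hs
    refine ⟨((C0 + C * M : ℝ≥0) : ℝ), ?_⟩
    filter_upwards [hC0] with z hz hzR
    have h1 : ‖V z‖ₑ ≤ ((C0 + C * M : ℝ≥0) : ℝ≥0∞) := by
      push_cast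
      exact (hz hzR).trans (add_le_add le_rfl (hC M ENNReal.coe_ne_top _ hM z))
    rw [enorm_le_coe] at h1
    exact_mod_cast h1

private theorem pot_sq (a b : ℝ≥0∞) : (a + b) ^ 2 ≤ 4 * a ^ 2 + 4 * b ^ 2 := by
  rcases le_total a b with h | h
  · calc (a + b) ^ 2 ≤ (b + b) ^ 2 := pow_le_pow_left' (add_le_add h le_rfl) 2
      _ = 4 * b ^ 2 := by ring
      _ ≤ _ := le_add_self
  · calc (a + b) ^ 2 ≤ (a + a) ^ 2 := pow_le_pow_left' (add_le_add le_rfl h) 2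
      _ = 4 * a ^ 2 := by ring
      _ ≤ _ := le_self_add

theorem sq_of_LG (hV : L1l V) (hg : L1l g) (h : WDb V g) (h0 : 0 < s) (h1 : s < 1)
    (hG : LG (fun z => ‖g z‖ₑ) s) : LG (fun z => ‖V z‖ₑ ^ 2) (2 * s) := by
  intro R
  have hR' : 0 ≤ |R| + 1 := by positivity
  obtain ⟨C0, hC0⟩ := pot_bound hV hg h (|R| + 1) hR'
  obtain ⟨M, hM⟩ := trunc_Gr hg hG (|R| + 1 + 1)
  obtain ⟨C, hC⟩ := rz_sq h0 h1
  refine ⟨4 * C0 ^ 2 * 4 + 4 * (C * M ^ 2), fun p hp r hr hr1 => ?_⟩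
  set f : ℂ → ℝ≥0∞ := Ip ((closedBall (0 : ℂ) (|R| + 1 + 1)).indicator (fun ζ => ‖g ζ‖ₑ)) with hf
  have hsub : ∀ z ∈ ball p r, z ∈ closedBall (0 : ℂ) (|R| + 1) := by
    intro z hz
    rw [mem_ball_zero_iff] at hp
    rw [mem_ball, dist_eq_norm] at hz
    rw [mem_closedBall_zero_iff]
    have h2 := norm_sub_norm_le z p
    have h3 := le_abs_self R
    linarith
  calc ∫⁻ z in ball p r, ‖V z‖ₑ ^ 2
      ≤ ∫⁻ z in ball p r, (4 * (C0 : ℝ≥0∞) ^ 2 + 4 * f z ^ 2) := by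
        refine lintegral_mono_ae ?_
        rw [ae_restrict_iff' measurableSet_ball]
        filter_upwards [hC0] with z hz hzp
        exact (pow_le_pow_left' (hz (hsub z hzp)) 2).trans (pot_sq _ _)
    _ = 4 * (C0 : ℝ≥0∞) ^ 2 * volume (ball p r) + 4 * ∫⁻ z in ball p r, f z ^ 2 := by
        rw [lintegral_add_left measurable_const, lintegral_const, Measure.restrict_apply_univ,
          lintegral_const_mul' _ _ (by simp)]
    _ ≤ 4 * (C0 : ℝ≥0∞) ^ 2 * (4 * ENNReal.ofReal (r ^ (2 * s))) +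
        4 * (C * M ^ 2 * ENNReal.ofReal (r ^ (2 * s))) := by
        refine add_le_add (mul_le_mul_right (vol_ball_le p hr hr1 (by linarith)) _)
          (mul_le_mul_right (hC M ENNReal.coe_ne_top _ hM p r hr hr1) _)
    _ = _ := by
        push_cast
        ring

end O3R
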