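import Pool.Agent.GO3.R.Alg2
import Pool.Agent.GO3.R.Pot

/-!
# Part R, module Gr1: `F` and `A` are locally bounded (helper30)

PROOFS.
* `LGW1`, ...: `‖W_k‖ₑ² ≤ ed` (`LG.le`).
* `bF`: `wdb_of` with `dF1`, `dF2`: `WDb F ((-j₂ + i j₁)/2)`.  `‖(-j₂ + i j₁)/2‖ₑ ≤ ‖W₁‖ₑ + ‖W₂‖ₑ` almost everywhere (`norm_le`,
  `|Im (conj w W)| ≤ ‖w‖ ‖W‖`).  `LG.sqrt` for `W₁`, `W₂` gives the exponent `1 + κ/2 > 1`; `LG.add`, `LG.le`; `bdl_of_LG`.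
* `bA1`, `bA2`: `gA1_bd`, `gA2_bd`.
* `bd_fH`: `‖h‖, ‖w‖ ≤ 1` a.e.: `‖fH‖ ≤ ed + 2`.  `bd_fW`: `‖pp w h W H‖ ≤ ‖W‖ + ‖H‖`, `‖H‖ (‖W‖ + ‖H‖) ≤ 2 (‖W‖² + ‖H‖²)`,
  `‖cur w W‖ ≤ ‖W‖`, `‖A_k‖ ≤ M_R` on `closedBall 0 R`, `‖W‖ ≤ 1 + ‖W‖²`.  `bd_gW` similarly with the local bound of `F`.
  (Work with real norms, then convert: `‖x‖ₑ = ENNReal.ofReal ‖x‖`, `ed = ENNReal.ofReal (...)`.)
-/

open MeasureTheory Filter Topology Complex Metric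
open scoped ContDiff ENNReal NNReal

noncomputable section

namespace O3R

variable {w h F W1 W2 H1 H2 : ℂ → ℂ} {κ : ℝ}

private theorem gr1_cur (w W : ℂ → ℂ) (z : ℂ) : ‖cur w W z‖ ≤ ‖w z‖ * ‖W z‖ := by
  unfold cur
  rw [Complex.norm_real, Real.norm_eq_abs]
  refine (Complex.abs_im_le_norm _).trans (le_of_eq ?_)
  rw [norm_mul, RCLike.norm_conj]

private theorem gr1_ed (W1 W2 H1 H2 : ℂ → ℂ) (z : ℂ) : ed W1 W2 H1 H2 z =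
    ENNReal.ofReal (‖W1 z‖ ^ 2 + ‖W2 z‖ ^ 2 + ‖H1 z‖ ^ 2 + ‖H2 z‖ ^ 2) := by
  unfold ed
  rw [ENNReal.ofReal_add (by positivity) (by positivity),
    ENNReal.ofReal_add (by positivity) (by positivity),
    ENNReal.ofReal_add (by positivity) (by positivity), ENNReal.ofReal_pow (norm_nonneg _),
    ENNReal.ofReal_pow (norm_nonneg _), ENNReal.ofReal_pow (norm_nonneg _),
    ENNReal.ofReal_pow (norm_nonneg _), ofReal_norm, ofReal_norm, ofReal_norm, ofReal_norm]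

private theorem gr1_conv {W1 W2 H1 H2 : ℂ → ℂ} {z x : ℂ} {C : ℝ≥0}
    (h : ‖x‖ ≤ C * (1 + (‖W1 z‖ ^ 2 + ‖W2 z‖ ^ 2 + ‖H1 z‖ ^ 2 + ‖H2 z‖ ^ 2))) :
    ‖x‖ₑ ≤ C * (1 + ed W1 W2 H1 H2 z) := by
  rw [gr1_ed, ← ofReal_norm]
  refine (ENNReal.ofReal_le_ofReal h).trans (le_of_eq ?_)
  rw [ENNReal.ofReal_mul C.coe_nonneg, ENNReal.ofReal_coe_nnreal,
    ENNReal.ofReal_add zero_le_one (by positivity), ENNReal.ofReal_one]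

private theorem gr1_le1 (x : ℝ) : x ≤ 1 + x ^ 2 := by nlinarith [sq_nonneg (x - 1)]

private theorem gr1_pp {w h W H : ℂ → ℂ} {z : ℂ} (hw : ‖w z‖ ≤ 1) (hh : ‖h z‖ ≤ 1) :
    ‖H z * pp w h W H z‖ ≤ 2 * (‖W z‖ ^ 2 + ‖H z‖ ^ 2) := by
  rw [norm_mul]
  have h1 : ‖pp w h W H z‖ ≤ ‖W z‖ + ‖H z‖ := by
    unfold pp
    refine (norm_sub_le _ _).trans (add_le_add ?_ ?_)
    · rw [norm_mul]
      exact mul_le_of_le_one_left (norm_nonneg _) hh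
    · rw [norm_mul]
      exact mul_le_of_le_one_left (norm_nonneg _) hw
  have h2 := mul_le_mul_of_nonneg_left h1 (norm_nonneg (H z))
  nlinarith [sq_nonneg (‖W z‖ - ‖H z‖), sq_nonneg (‖W z‖), sq_nonneg (‖H z‖)]

theorem Sol.LGW1 (s : Sol w h F W1 W2 H1 H2 κ) : LG (fun z => ‖W1 z‖ₑ ^ 2) κ := by
  refine s.growth.le (ae_of_all _ fun z => ?_)
  unfold ed
  rw [add_assoc, add_assoc]
  exact le_self_add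

theorem Sol.LGW2 (s : Sol w h F W1 W2 H1 H2 κ) : LG (fun z => ‖W2 z‖ₑ ^ 2) κ := by
  refine s.growth.le (ae_of_all _ fun z => ?_)
  unfold ed
  rw [add_assoc, add_assoc, add_left_comm]
  exact le_self_add

theorem Sol.bF (s : Sol w h F W1 W2 H1 H2 κ) : Bdl F := by
  have hj2 : L1l (fun z => -cur w W2 z) := by
    have := s.lj2.l1.cmul (-1)
    simpa only [neg_mul, one_mul] using this
  have hj1 : L1l (cur w W1) := s.lj1.l1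
  have hd := wdb_of s.lF.l1 hj2 hj1 s.dF1 s.dF2
  have hg : L1l (fun z => (-cur w W2 z + I * cur w W1 z) / 2) := by
    have := (hj2.add (hj1.cmul I)).cmul (1 / 2)
    refine this.congr (ae_of_all _ fun z => ?_)
    ring
  have hG : LG (fun z => ‖W1 z‖ₑ + ‖W2 z‖ₑ) (1 + κ / 2) :=
    (s.LGW1.sqrt s.lW1.ae).add (s.LGW2.sqrt s.lW2.ae) s.lW1.ae.enorm
  have hκ := s.hκ
  refine bdl_of_LG s.lF.l1 hg hd (by linarith : 1 < 1 + κ / 2) (hG.le ?_)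
  filter_upwards [s.norm_le] with z hz
  rw [← ofReal_norm, ← ofReal_norm, ← ofReal_norm, ← ENNReal.ofReal_add (norm_nonneg _)
    (norm_nonneg _)]
  refine ENNReal.ofReal_le_ofReal ?_
  have h1 : ‖cur w W1 z‖ ≤ ‖W1 z‖ :=
    (gr1_cur w W1 z).trans (mul_le_of_le_one_left (norm_nonneg _) hz.1)
  have h2 : ‖cur w W2 z‖ ≤ ‖W2 z‖ :=
    (gr1_cur w W2 z).trans (mul_le_of_le_one_left (norm_nonneg _) hz.1)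
  have h3 : ‖-cur w W2 z + I * cur w W1 z‖ ≤ ‖W2 z‖ + ‖W1 z‖ := by
    refine (norm_add_le _ _).trans (add_le_add ?_ ?_)
    · rw [norm_neg]
      exact h2
    · rw [norm_mul, Complex.norm_I, one_mul]
      exact h1
  rw [norm_div, show ‖(2 : ℂ)‖ = 2 by simp]
  have h4 := norm_nonneg (-cur w W2 z + I * cur w W1 z)
  linarith

theorem Sol.bA1 (s : Sol w h F W1 W2 H1 H2 κ) : Bdl (gA1 F) := gA1_bd s.bF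

theorem Sol.bA2 (s : Sol w h F W1 W2 H1 H2 κ) : Bdl (gA2 F) := gA2_bd s.bF

theorem Sol.bd_fH (s : Sol w h F W1 W2 H1 H2 κ) (R : ℝ) : ∃ C : ℝ≥0, ∀ᵐ z : ℂ, z ∈ closedBall (0 : ℂ) R →
    ‖fH w h W1 W2 H1 H2 z‖ₑ ≤ C * (1 + ed W1 W2 H1 H2 z) := by
  refine ⟨2, ?_⟩
  filter_upwards [s.norm_le] with z hz _
  refine gr1_conv ?_
  set e : ℝ := ‖W1 z‖ ^ 2 + ‖W2 z‖ ^ 2 + ‖H1 z‖ ^ 2 + ‖H2 z‖ ^ 2 with he
  have he0 : 0 ≤ e := by positivity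
  unfold fH
  have h1 : ‖-(h z * ((e : ℝ) : ℂ))‖ ≤ e := by
    rw [norm_neg, norm_mul, Complex.norm_real, Real.norm_eq_abs, abs_of_nonneg he0]
    exact mul_le_of_le_one_left he0 hz.2
  have h2 : ‖(1 - h z) * ((‖w z‖ ^ 2 : ℝ) : ℂ)‖ ≤ 2 := by
    rw [norm_mul, Complex.norm_real, Real.norm_eq_abs, abs_of_nonneg (by positivity)]
    have h3 : ‖1 - h z‖ ≤ 2 := by
      refine (norm_sub_le _ _).trans ?_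
      rw [norm_one]
      linarith [hz.2]
    have h4 : ‖w z‖ ^ 2 ≤ 1 := by nlinarith [hz.1, norm_nonneg (w z)]
    nlinarith [norm_nonneg (1 - h z), sq_nonneg ‖w z‖]
  refine (norm_sub_le _ _).trans ?_
  have h5 : ((2 : ℝ≥0) : ℝ) = 2 := rfl
  rw [h5]
  linarith

theorem Sol.bd_fW (s : Sol w h F W1 W2 H1 H2 κ) (R : ℝ) : ∃ C : ℝ≥0, ∀ᵐ z : ℂ, z ∈ closedBall (0 : ℂ) R →
    ‖fW w h F W1 W2 H1 H2 z‖ₑ ≤ C * (1 + ed W1 W2 H1 H2 z) := by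
  obtain ⟨M1, hM1⟩ := s.bA1.2 R
  obtain ⟨M2, hM2⟩ := s.bA2.2 R
  refine ⟨5 + M1.toNNReal + M2.toNNReal, ?_⟩
  filter_upwards [s.norm_le, hM1, hM2] with z hz hz1 hz2 hzR
  refine gr1_conv ?_
  have k1 : ‖gA1 F z‖ ≤ (M1.toNNReal : ℝ) := (hz1 hzR).trans (Real.le_coe_toNNReal M1)
  have k2 : ‖gA2 F z‖ ≤ (M2.toNNReal : ℝ) := (hz2 hzR).trans (Real.le_coe_toNNReal M2)
  push_cast
  set N1 : ℝ := (M1.toNNReal : ℝ) with hN1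
  set N2 : ℝ := (M2.toNNReal : ℝ) with hN2
  have hN1' : 0 ≤ N1 := (norm_nonneg _).trans k1
  have hN2' : 0 ≤ N2 := (norm_nonneg _).trans k2
  unfold fW
  have a1 := gr1_pp (W := W1) (H := H1) hz.1 hz.2
  have a2 := gr1_pp (W := W2) (H := H2) hz.1 hz.2
  have a3 : ‖h z * (1 - h z) * w z‖ ≤ 2 := by
    rw [norm_mul, norm_mul]
    have h3 : ‖1 - h z‖ ≤ 2 := by
      refine (norm_sub_le _ _).trans ?_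
      rw [norm_one]
      linarith [hz.2]
    have h4 : ‖h z‖ * ‖1 - h z‖ ≤ 2 := by
      nlinarith [norm_nonneg (h z), norm_nonneg (1 - h z), hz.2]
    nlinarith [norm_nonneg (w z), hz.1, mul_nonneg (norm_nonneg (h z)) (norm_nonneg (1 - h z))]
  have c : ∀ W : ℂ → ℂ, ‖W z * cur w W z‖ ≤ ‖W z‖ ^ 2 := by
    intro W
    rw [norm_mul]
    have h1 : ‖cur w W z‖ ≤ ‖W z‖ :=
      (gr1_cur w W z).trans (mul_le_of_le_one_left (norm_nonneg _) hz.1)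
    nlinarith [norm_nonneg (W z)]
  have a4 : ‖I * (W1 z * cur w W1 z + W2 z * cur w W2 z)‖ ≤ ‖W1 z‖ ^ 2 + ‖W2 z‖ ^ 2 := by
    rw [norm_mul, Complex.norm_I, one_mul]
    exact (norm_add_le _ _).trans (add_le_add (c W1) (c W2))
  have a5 : ‖I * (gA1 F z * W1 z + gA2 F z * W2 z)‖ ≤
      N1 * (1 + ‖W1 z‖ ^ 2) + N2 * (1 + ‖W2 z‖ ^ 2) := by
    rw [norm_mul, Complex.norm_I, one_mul]
    refine (norm_add_le _ _).trans (add_le_add ?_ ?_)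
    · rw [norm_mul]
      exact mul_le_mul k1 (gr1_le1 _) (norm_nonneg _) hN1'
    · rw [norm_mul]
      exact mul_le_mul k2 (gr1_le1 _) (norm_nonneg _) hN2'
  have b1 := norm_add_le (H1 z * pp w h W1 H1 z + H2 z * pp w h W2 H2 z + h z * (1 - h z) * w z +
    I * (W1 z * cur w W1 z + W2 z * cur w W2 z)) (I * (gA1 F z * W1 z + gA2 F z * W2 z))
  have b2 := norm_add_le (H1 z * pp w h W1 H1 z + H2 z * pp w h W2 H2 z + h z * (1 - h z) * w z)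
    (I * (W1 z * cur w W1 z + W2 z * cur w W2 z))
  have b3 := norm_add_le (H1 z * pp w h W1 H1 z + H2 z * pp w h W2 H2 z) (h z * (1 - h z) * w z)
  have b4 := norm_add_le (H1 z * pp w h W1 H1 z) (H2 z * pp w h W2 H2 z)
  have s1 := sq_nonneg ‖W1 z‖
  have s2 := sq_nonneg ‖W2 z‖
  have s3 := sq_nonneg ‖H1 z‖
  have s4 := sq_nonneg ‖H2 z‖
  have t1 : N1 * (1 + ‖W1 z‖ ^ 2) ≤
      N1 * (1 + (‖W1 z‖ ^ 2 + ‖W2 z‖ ^ 2 + ‖H1 z‖ ^ 2 + ‖H2 z‖ ^ 2)) :=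
    mul_le_mul_of_nonneg_left (by linarith) hN1'
  have t2 : N2 * (1 + ‖W2 z‖ ^ 2) ≤
      N2 * (1 + (‖W1 z‖ ^ 2 + ‖W2 z‖ ^ 2 + ‖H1 z‖ ^ 2 + ‖H2 z‖ ^ 2)) :=
    mul_le_mul_of_nonneg_left (by linarith) hN2'
  have e : (5 + N1 + N2) * (1 + (‖W1 z‖ ^ 2 + ‖W2 z‖ ^ 2 + ‖H1 z‖ ^ 2 + ‖H2 z‖ ^ 2)) =
      5 * (1 + (‖W1 z‖ ^ 2 + ‖W2 z‖ ^ 2 + ‖H1 z‖ ^ 2 + ‖H2 z‖ ^ 2)) +
      N1 * (1 + (‖W1 z‖ ^ 2 + ‖W2 z‖ ^ 2 + ‖H1 z‖ ^ 2 + ‖H2 z‖ ^ 2)) +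
      N2 * (1 + (‖W1 z‖ ^ 2 + ‖W2 z‖ ^ 2 + ‖H1 z‖ ^ 2 + ‖H2 z‖ ^ 2)) := by ring
  rw [e]
  linarith

theorem Sol.bd_gW (s : Sol w h F W1 W2 H1 H2 κ) (R : ℝ) : ∃ C : ℝ≥0, ∀ᵐ z : ℂ, z ∈ closedBall (0 : ℂ) R →
    ‖gW w F W1 W2 z‖ₑ ≤ C * (1 + ed W1 W2 H1 H2 z) := by
  obtain ⟨M0, hM0⟩ := s.bF.2 R
  obtain ⟨M1, hM1⟩ := s.bA1.2 R
  obtain ⟨M2, hM2⟩ := s.bA2.2 R
  refine ⟨M0.toNNReal + M1.toNNReal + M2.toNNReal, ?_⟩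
  filter_upwards [s.norm_le, hM0, hM1, hM2] with z hz hz0 hz1 hz2 hzR
  refine gr1_conv ?_
  have k0 : ‖F z‖ ≤ (M0.toNNReal : ℝ) := (hz0 hzR).trans (Real.le_coe_toNNReal M0)
  have k1 : ‖gA1 F z‖ ≤ (M1.toNNReal : ℝ) := (hz1 hzR).trans (Real.le_coe_toNNReal M1)
  have k2 : ‖gA2 F z‖ ≤ (M2.toNNReal : ℝ) := (hz2 hzR).trans (Real.le_coe_toNNReal M2)
  push_cast
  set N0 : ℝ := (M0.toNNReal : ℝ) with hN0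
  set N1 : ℝ := (M1.toNNReal : ℝ) with hN1
  set N2 : ℝ := (M2.toNNReal : ℝ) with hN2
  have hN0' : 0 ≤ N0 := (norm_nonneg _).trans k0
  have hN1' : 0 ≤ N1 := (norm_nonneg _).trans k1
  have hN2' : 0 ≤ N2 := (norm_nonneg _).trans k2
  unfold gW
  rw [norm_neg, norm_mul, Complex.norm_I, one_mul]
  have a0 : ‖F z * w z‖ ≤ N0 := by
    rw [norm_mul]
    exact (mul_le_of_le_one_right (norm_nonneg _) hz.1).trans k0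
  have a1 : ‖gA2 F z * W1 z‖ ≤ N2 * (1 + ‖W1 z‖ ^ 2) := by
    rw [norm_mul]
    exact mul_le_mul k2 (gr1_le1 _) (norm_nonneg _) hN2'
  have a2 : ‖gA1 F z * W2 z‖ ≤ N1 * (1 + ‖W2 z‖ ^ 2) := by
    rw [norm_mul]
    exact mul_le_mul k1 (gr1_le1 _) (norm_nonneg _) hN1'
  have b1 := norm_sub_le (F z * w z + gA2 F z * W1 z) (gA1 F z * W2 z)
  have b2 := norm_add_le (F z * w z) (gA2 F z * W1 z)
  have s1 := sq_nonneg ‖W1 z‖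
  have s2 := sq_nonneg ‖W2 z‖
  have s3 := sq_nonneg ‖H1 z‖
  have s4 := sq_nonneg ‖H2 z‖
  have t0 : N0 * 1 ≤ N0 * (1 + (‖W1 z‖ ^ 2 + ‖W2 z‖ ^ 2 + ‖H1 z‖ ^ 2 + ‖H2 z‖ ^ 2)) :=
    mul_le_mul_of_nonneg_left (by linarith) hN0'
  have t1 : N1 * (1 + ‖W2 z‖ ^ 2) ≤
      N1 * (1 + (‖W1 z‖ ^ 2 + ‖W2 z‖ ^ 2 + ‖H1 z‖ ^ 2 + ‖H2 z‖ ^ 2)) :=
    mul_le_mul_of_nonneg_left (by linarith) hN1'
  have t2 : N2 * (1 + ‖W1 z‖ ^ 2) ≤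
      N2 * (1 + (‖W1 z‖ ^ 2 + ‖W2 z‖ ^ 2 + ‖H1 z‖ ^ 2 + ‖H2 z‖ ^ 2)) :=
    mul_le_mul_of_nonneg_left (by linarith) hN2'
  have e : (N0 + N1 + N2) * (1 + (‖W1 z‖ ^ 2 + ‖W2 z‖ ^ 2 + ‖H1 z‖ ^ 2 + ‖H2 z‖ ^ 2)) =
      N0 * (1 + (‖W1 z‖ ^ 2 + ‖W2 z‖ ^ 2 + ‖H1 z‖ ^ 2 + ‖H2 z‖ ^ 2)) +
      N1 * (1 + (‖W1 z‖ ^ 2 + ‖W2 z‖ ^ 2 + ‖H1 z‖ ^ 2 + ‖H2 z‖ ^ 2)) +
      N2 * (1 + (‖W1 z‖ ^ 2 + ‖W2 z‖ ^ 2 + ‖H1 z‖ ^ 2 + ‖H2 z‖ ^ 2)) := by ring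
  rw [e]
  linarith

end O3R
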