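import Pool.Agent.GO3.R.Gr1

/-!
# Part R, module Gr2: `W` and `H` are locally bounded (helper30)

`vA X Y = (X - i Y)/2`, `vB X Y = conj ((X + i Y)/2)`; `V ∈ {vA H₁ H₂, vA W₁ W₂, vB W₁ W₂}`.

PROOFS.
* `wdb1`, `wdb2`, `wdb3`: `dbar_minus`, `dbar_plus` with `divH`, `curlH`, `divW`, `curlW`.
* `ed_eq`: for real `H₁, H₂`: `4 ‖(H₁ - i H₂)/2‖² = H₁² + H₂²`; parallelogram:
  `2 ‖(W₁ - i W₂)/2‖² + 2 ‖(W₁ + i W₂)/2‖² = ‖W₁‖² + ‖W₂‖²`.
* `LG_g1`, `LG_g2`, `LG_g3`: `LG.of_le` from `LG.mono` of `growth` with `bd_fH`, `bd_fW`, `bd_gW` (`‖(a - i b)/4‖ ≤ ‖a‖ + ‖b‖`; sum of the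
  constants), for every exponent `t ≤ κ`, `t ≤ 2`.
* `LG_ed`: `t = min κ (3/4)`, `1/2 < t < 1`; `sq_of_LG` for the three functions `V`, exponent `2 t ∈ (1, 3/2]`; `ed_eq`, `LG.cmul`,
  `LG.add`, `LG.le`.
* `bV1`, ...: first `LG.of_le`-type bounds of the right hand sides with the exponent `s' > 1` of `LG_ed` (same proof as `LG_g*`, so prove
  these for any exponent `t ≤ 2` with `LG (ed ..) t`), then `bdl_of_LG`.
* `bH1`, ...: `H₁ = vA H₁ H₂ + conj (vA H₁ H₂)`, `H₂ = i (vA H₁ H₂ - conj (vA H₁ H₂))` for real `H_k`;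
  `W₁ = vA W₁ W₂ + conj (vB W₁ W₂)`, `W₂ = i (vA W₁ W₂ - conj (vB W₁ W₂))`.
-/

open MeasureTheory Filter Topology Complex Metric
open scoped ContDiff ENNReal NNReal

noncomputable section

namespace O3R

variable {w h F W1 W2 H1 H2 : ℂ → ℂ} {κ t : ℝ}

/-- `(X - i Y)/2` -/
def vA (X Y : ℂ → ℂ) (z : ℂ) : ℂ := (X z - I * Y z) / 2

/-- `conj ((X + i Y)/2)` -/
def vB (X Y : ℂ → ℂ) (z : ℂ) : ℂ := (starRingEnd ℂ) ((X z + I * Y z) / 2)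

theorem Sol.wdb1 (s : Sol w h F W1 W2 H1 H2 κ) :
    WDb (vA H1 H2) (fun z => (fH w h W1 W2 H1 H2 z - I * 0) / 4) :=
  dbar_minus s.lH1.l1 s.lH2.l1 s.lfH (bdl_const 0).l1 s.divH s.curlH

theorem Sol.wdb2 (s : Sol w h F W1 W2 H1 H2 κ) :
    WDb (vA W1 W2) (fun z => (fW w h F W1 W2 H1 H2 z - I * gW w F W1 W2 z) / 4) :=
  dbar_minus s.lW1.l1 s.lW2.l1 s.lfW s.lgW s.divW s.curlW

theorem Sol.wdb3 (s : Sol w h F W1 W2 H1 H2 κ) :
    WDb (vB W1 W2) (fun z => (starRingEnd ℂ) ((fW w h F W1 W2 H1 H2 z + I * gW w F W1 W2 z) / 4)) :=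
  dbar_plus s.lW1.l1 s.lW2.l1 s.lfW s.lgW s.divW s.curlW

private theorem enorm_sq_eq (x : ℂ) : ‖x‖ₑ ^ 2 = ENNReal.ofReal (x.re ^ 2 + x.im ^ 2) := by
  rw [← ofReal_norm, ← ENNReal.ofReal_pow (norm_nonneg x), Complex.sq_norm,
    Complex.normSq_apply]
  congr 1
  ring

theorem Sol.ed_eq (s : Sol w h F W1 W2 H1 H2 κ) (z : ℂ) : ed W1 W2 H1 H2 z =
    4 * ‖vA H1 H2 z‖ₑ ^ 2 + 2 * ‖vA W1 W2 z‖ₑ ^ 2 + 2 * ‖vB W1 W2 z‖ₑ ^ 2 := by
  unfold ed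
  rw [enorm_sq_eq, enorm_sq_eq, enorm_sq_eq, enorm_sq_eq, enorm_sq_eq, enorm_sq_eq, enorm_sq_eq]
  have h4 : (4 : ℝ≥0∞) = ENNReal.ofReal 4 := by simp
  have h2 : (2 : ℝ≥0∞) = ENNReal.ofReal 2 := by simp
  rw [h4, h2, ← ENNReal.ofReal_mul (by norm_num), ← ENNReal.ofReal_mul (by norm_num),
    ← ENNReal.ofReal_mul (by norm_num), ← ENNReal.ofReal_add (by positivity) (by positivity),
    ← ENNReal.ofReal_add (by positivity) (by positivity),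
    ← ENNReal.ofReal_add (by positivity) (by positivity),
    ← ENNReal.ofReal_add (by positivity) (by positivity),
    ← ENNReal.ofReal_add (by positivity) (by positivity)]
  congr 1
  have r1 : (vA H1 H2 z).re = (H1 z).re / 2 := by
    unfold vA
    simp [s.rH2 z]
  have i1 : (vA H1 H2 z).im = -(H2 z).re / 2 := by
    unfold vA
    simp [s.rH1 z]
  have r2 : (vA W1 W2 z).re = ((W1 z).re + (W2 z).im) / 2 := by
    unfold vA
    simp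
  have i2 : (vA W1 W2 z).im = ((W1 z).im - (W2 z).re) / 2 := by
    unfold vA
    simp
  have r3 : (vB W1 W2 z).re = ((W1 z).re - (W2 z).im) / 2 := by
    unfold vB
    rw [Complex.conj_re]
    simp
    ring
  have i3 : (vB W1 W2 z).im = -((W1 z).im + (W2 z).re) / 2 := by
    unfold vB
    rw [Complex.conj_im]
    simp
    ring
  rw [r1, i1, r2, i2, r3, i3, s.rH1 z, s.rH2 z]
  ring

private theorem en_sub (a b : ℂ) : ‖(a - I * b) / 4‖ₑ ≤ ‖a‖ₑ + ‖b‖ₑ := by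
  rw [← ofReal_norm, ← ofReal_norm, ← ofReal_norm,
    ← ENNReal.ofReal_add (norm_nonneg _) (norm_nonneg _)]
  apply ENNReal.ofReal_le_ofReal
  rw [norm_div]
  have h1 : ‖a - I * b‖ ≤ ‖a‖ + ‖b‖ := by
    refine (norm_sub_le _ _).trans ?_
    rw [norm_mul, Complex.norm_I, one_mul]
  have h2 : ‖(4 : ℂ)‖ = 4 := by norm_num
  rw [h2]
  have := norm_nonneg a
  have := norm_nonneg b
  linarith

private theorem en_add (a b : ℂ) : ‖(starRingEnd ℂ) ((a + I * b) / 4)‖ₑ ≤ ‖a‖ₑ + ‖b‖ₑ := by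
  rw [← ofReal_norm, ← ofReal_norm, ← ofReal_norm,
    ← ENNReal.ofReal_add (norm_nonneg _) (norm_nonneg _)]
  apply ENNReal.ofReal_le_ofReal
  rw [RCLike.norm_conj, norm_div]
  have h1 : ‖a + I * b‖ ≤ ‖a‖ + ‖b‖ := by
    refine (norm_add_le _ _).trans ?_
    rw [norm_mul, Complex.norm_I, one_mul]
  have h2 : ‖(4 : ℂ)‖ = 4 := by norm_num
  rw [h2]
  have := norm_nonneg a
  have := norm_nonneg b
  linarith

private theorem l1_sub {f g : ℂ → ℂ} (hf : L1l f) (hg : L1l g) :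
    L1l (fun z => (f z - I * g z) / 4) :=
  ((hf.cmul (1 / 4)).add (hg.cmul (-(I / 4)))).congr (ae_of_all _ fun z => by
    change 1 / 4 * f z + -(I / 4) * g z = (f z - I * g z) / 4
    ring)

private theorem l1_add {f g : ℂ → ℂ} (hf : L1l f) (hg : L1l g) :
    L1l (fun z => (starRingEnd ℂ) ((f z + I * g z) / 4)) :=
  (((hf.cmul (1 / 4)).add (hg.cmul (I / 4))).congr (ae_of_all _ fun z => by
    change 1 / 4 * f z + (I / 4) * g z = (f z + I * g z) / 4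
    ring)).conj

private theorem l2_vA {X Y : ℂ → ℂ} (hX : L2l X) (hY : L2l Y) : L2l (vA X Y) :=
  ((hX.cmul (1 / 2)).add (hY.cmul (-(I / 2)))).congr (ae_of_all _ fun z => by
    change 1 / 2 * X z + -(I / 2) * Y z = (X z - I * Y z) / 2
    ring)

private theorem l2_vB {X Y : ℂ → ℂ} (hX : L2l X) (hY : L2l Y) : L2l (vB X Y) :=
  (((hX.cmul (1 / 2)).add (hY.cmul (I / 2))).congr (ae_of_all _ fun z => by
    change 1 / 2 * X z + (I / 2) * Y z = (X z + I * Y z) / 2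
    ring) : L2l (fun z => (X z + I * Y z) / 2)).conj

theorem Sol.LG_g1 (s : Sol w h F W1 W2 H1 H2 κ) (ht : t ≤ 2) (he : LG (ed W1 W2 H1 H2) t) :
    LG (fun z => ‖(fH w h W1 W2 H1 H2 z - I * 0) / 4‖ₑ) t := by
  refine LG.of_le he ht fun R => ?_
  obtain ⟨C, hC⟩ := s.bd_fH R
  refine ⟨C, ?_⟩
  filter_upwards [hC] with z hz hzR
  refine (en_sub _ _).trans ?_
  rw [enorm_zero, add_zero]
  exact hz hzR

theorem Sol.LG_g2 (s : Sol w h F W1 W2 H1 H2 κ) (ht : t ≤ 2) (he : LG (ed W1 W2 H1 H2) t) :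
    LG (fun z => ‖(fW w h F W1 W2 H1 H2 z - I * gW w F W1 W2 z) / 4‖ₑ) t := by
  refine LG.of_le he ht fun R => ?_
  obtain ⟨C, hC⟩ := s.bd_fW R
  obtain ⟨D, hD⟩ := s.bd_gW R
  refine ⟨C + D, ?_⟩
  filter_upwards [hC, hD] with z hz hz' hzR
  refine (en_sub _ _).trans ?_
  rw [ENNReal.coe_add, add_mul]
  exact add_le_add (hz hzR) (hz' hzR)

theorem Sol.LG_g3 (s : Sol w h F W1 W2 H1 H2 κ) (ht : t ≤ 2) (he : LG (ed W1 W2 H1 H2) t) :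
    LG (fun z => ‖(starRingEnd ℂ) ((fW w h F W1 W2 H1 H2 z + I * gW w F W1 W2 z) / 4)‖ₑ) t := by
  refine LG.of_le he ht fun R => ?_
  obtain ⟨C, hC⟩ := s.bd_fW R
  obtain ⟨D, hD⟩ := s.bd_gW R
  refine ⟨C + D, ?_⟩
  filter_upwards [hC, hD] with z hz hz' hzR
  refine (en_add _ _).trans ?_
  rw [ENNReal.coe_add, add_mul]
  exact add_le_add (hz hzR) (hz' hzR)

theorem Sol.LG_ed (s : Sol w h F W1 W2 H1 H2 κ) : ∃ t : ℝ, 1 < t ∧ t ≤ 2 ∧ LG (ed W1 W2 H1 H2) t := by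
  obtain ⟨t, ht⟩ : ∃ t : ℝ, t = min κ (3 / 4) := ⟨_, rfl⟩
  have h1 : 1 / 2 < t := by
    rw [ht]
    exact lt_min s.hκ (by norm_num)
  have h2 : t ≤ 3 / 4 := by
    rw [ht]
    exact min_le_right _ _
  have h3 : LG (ed W1 W2 H1 H2) t := s.growth.mono (by rw [ht]; exact min_le_left _ _)
  have hA := l2_vA s.lH1 s.lH2
  have hB := l2_vA s.lW1 s.lW2
  have hC := l2_vB s.lW1 s.lW2
  have k1 := sq_of_LG hA.l1 (l1_sub s.lfH (bdl_const 0).l1) s.wdb1 (by linarith) (by linarith)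
    (s.LG_g1 (by linarith) h3)
  have k2 := sq_of_LG hB.l1 (l1_sub s.lfW s.lgW) s.wdb2 (by linarith) (by linarith)
    (s.LG_g2 (by linarith) h3)
  have k3 := sq_of_LG hC.l1 (l1_add s.lfW s.lgW) s.wdb3 (by linarith) (by linarith)
    (s.LG_g3 (by linarith) h3)
  refine ⟨2 * t, by linarith, by linarith, ?_⟩
  have m1 : AEMeasurable (fun z => ((4 : ℝ≥0) : ℝ≥0∞) * ‖vA H1 H2 z‖ₑ ^ 2) volume :=
    (hA.ae.enorm.pow_const 2).const_mul _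
  have m2 : AEMeasurable (fun z => ((2 : ℝ≥0) : ℝ≥0∞) * ‖vA W1 W2 z‖ₑ ^ 2) volume :=
    (hB.ae.enorm.pow_const 2).const_mul _
  refine (((k1.cmul 4).add (k2.cmul 2) m1).add (k3.cmul 2) (m1.add m2)).le
    (ae_of_all _ fun z => ?_)
  rw [s.ed_eq z]
  rfl

theorem Sol.bV1 (s : Sol w h F W1 W2 H1 H2 κ) : Bdl (vA H1 H2) := by
  obtain ⟨t, h1, h2, h3⟩ := s.LG_ed
  exact bdl_of_LG (l2_vA s.lH1 s.lH2).l1 (l1_sub s.lfH (bdl_const 0).l1) s.wdb1 h1 (s.LG_g1 h2 h3)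

theorem Sol.bV2 (s : Sol w h F W1 W2 H1 H2 κ) : Bdl (vA W1 W2) := by
  obtain ⟨t, h1, h2, h3⟩ := s.LG_ed
  exact bdl_of_LG (l2_vA s.lW1 s.lW2).l1 (l1_sub s.lfW s.lgW) s.wdb2 h1 (s.LG_g2 h2 h3)

theorem Sol.bV3 (s : Sol w h F W1 W2 H1 H2 κ) : Bdl (vB W1 W2) := by
  obtain ⟨t, h1, h2, h3⟩ := s.LG_ed
  exact bdl_of_LG (l2_vB s.lW1 s.lW2).l1 (l1_add s.lfW s.lgW) s.wdb3 h1 (s.LG_g3 h2 h3)

theorem Sol.bH1 (s : Sol w h F W1 W2 H1 H2 κ) : Bdl H1 := by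
  refine (s.bV1.add s.bV1.conj).congr (ae_of_all _ fun z => ?_)
  change vA H1 H2 z + (starRingEnd ℂ) (vA H1 H2 z) = H1 z
  have e1 : (starRingEnd ℂ) (H1 z) = H1 z := Complex.conj_eq_iff_im.2 (s.rH1 z)
  have e2 : (starRingEnd ℂ) (H2 z) = H2 z := Complex.conj_eq_iff_im.2 (s.rH2 z)
  unfold vA
  rw [map_div₀, map_sub, map_mul, Complex.conj_I, e1, e2, Complex.conj_ofNat]
  ring

theorem Sol.bH2 (s : Sol w h F W1 W2 H1 H2 κ) : Bdl H2 := by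
  refine ((s.bV1.add (s.bV1.conj.cmul (-1))).cmul I).congr (ae_of_all _ fun z => ?_)
  change I * (vA H1 H2 z + -1 * (starRingEnd ℂ) (vA H1 H2 z)) = H2 z
  have e1 : (starRingEnd ℂ) (H1 z) = H1 z := Complex.conj_eq_iff_im.2 (s.rH1 z)
  have e2 : (starRingEnd ℂ) (H2 z) = H2 z := Complex.conj_eq_iff_im.2 (s.rH2 z)
  unfold vA
  rw [map_div₀, map_sub, map_mul, Complex.conj_I, e1, e2, Complex.conj_ofNat]
  linear_combination (-(H2 z)) * Complex.I_mul_I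

theorem Sol.bW1 (s : Sol w h F W1 W2 H1 H2 κ) : Bdl W1 := by
  refine (s.bV2.add s.bV3.conj).congr (ae_of_all _ fun z => ?_)
  change vA W1 W2 z + (starRingEnd ℂ) (vB W1 W2 z) = W1 z
  unfold vA vB
  rw [Complex.conj_conj]
  ring

theorem Sol.bW2 (s : Sol w h F W1 W2 H1 H2 κ) : Bdl W2 := by
  refine ((s.bV2.add (s.bV3.conj.cmul (-1))).cmul I).congr (ae_of_all _ fun z => ?_)
  change I * (vA W1 W2 z + -1 * (starRingEnd ℂ) (vB W1 W2 z)) = W2 z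
  unfold vA vB
  rw [Complex.conj_conj]
  linear_combination (-(W2 z)) * Complex.I_mul_I

end O3R
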