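import Pool.Agent.GO3.R.HSa

/-!
# Part R, module Lad: the product of two functions of class `H¹_loc` is in `L²_loc` (helper30)

PROOFS.
* `gns`: `MeasureTheory.eLpNorm_le_eLpNorm_fderiv_one` with `finrank ℝ ℂ = 2` and `p = 2` (`NNReal.HolderConjugate 2 2`).
* `gns_mul`: apply `gns` to `φ η`; `‖D (φ η)‖ ≤ ‖Dφ‖ ‖η‖ + ‖φ‖ ‖Dη‖` and Hölder (`eLpNorm_smul_le_mul_eLpNorm` or
  `ENNReal.lintegral_mul_le_Lp_mul_Lq` with `p = q = 2`), and `‖Dφ‖ ≤ ‖∂₁φ‖ + ‖∂₂φ‖` pointwise (operator norm on `ℂ`: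
  `e = e.re • 1 + e.im • I`).
* `cut_H1`: for `χ` a test function and `u` of class `HS 1`, `χ u` and its weak derivatives `∂_kχ u + χ u_k` are in `L²(ℂ)`:
  `wd1_mul`, `wd2_mul` with `χ` smooth (`wdiv_smooth`), and compact support.
* `hs_mul0`: given `R ≥ 0` let `χ` be as in `exists_cut R`, `a = χ u`, `b = χ v`, with derivatives `a_k`, `b_k` in `L²(ℂ)`.
  `U n = mol n a`, `V n = mol n b` are smooth with compact support (`mol_supp`), `∂_k (U n) = mol n a_k`; by `mol_young` and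
  `gns_mul` the norms `‖U n V n‖₂` are bounded by `C ((‖a_1‖ + ‖a_2‖) ‖b‖ + ‖a‖ (‖b_1‖ + ‖b_2‖))`.  `U n V n → a b` a.e.
  (`mol_ae`), so Fatou (`Lp.eLpNorm_lim_le_liminf_eLpNorm` or `lintegral_liminf_le`) gives `a b ∈ L²`; `a b = u v` on
  `closedBall 0 R`.
-/

open MeasureTheory Filter Topology Complex Metric
open scoped ContDiff ENNReal NNReal

noncomputable section

namespace O3R

variable {u v : ℂ → ℂ}

theorem gns : ∃ C : ℝ≥0, ∀ φ : ℂ → ℂ, ContDiff ℝ 1 φ → HasCompactSupport φ →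
    eLpNorm φ 2 ≤ C * eLpNorm (fderiv ℝ φ) 1 := by
  have hp : NNReal.HolderConjugate ((Module.finrank ℝ ℂ : ℕ) : ℝ≥0) 2 := by
    rw [Complex.finrank_real_complex]
    refine NNReal.holderConjugate_iff.2 ⟨by norm_num, ?_⟩
    push_cast
    exact NNReal.eq (by push_cast; norm_num)
  refine ⟨eLpNormLESNormFDerivOneConst (volume : Measure ℂ) 2, fun φ h1 h2 => ?_⟩
  have := eLpNorm_le_eLpNorm_fderiv_one (μ := (volume : Measure ℂ)) h1 h2 hp
  exact_mod_cast this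

private theorem lad_dd (φ : ℂ → ℂ) (z : ℂ) : ‖fderiv ℝ φ z‖ ≤ ‖dd 1 φ z‖ + ‖dd I φ z‖ := by
  refine ContinuousLinearMap.opNorm_le_bound _ (by positivity) fun e => ?_
  have he : fderiv ℝ φ z e = e.re • fderiv ℝ φ z 1 + e.im • fderiv ℝ φ z I := by
    rw [← map_smul, ← map_smul, ← map_add]
    congr 1
    apply Complex.ext <;> simp
  rw [he]
  unfold dd
  refine le_trans (norm_add_le _ _) ?_
  rw [norm_smul, norm_smul, add_mul]
  have h1 : ‖e.re‖ ≤ ‖e‖ := Complex.abs_re_le_norm e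
  have h2 : ‖e.im‖ ≤ ‖e‖ := Complex.abs_im_le_norm e
  have h3 := mul_le_mul_of_nonneg_right h1 (norm_nonneg (fderiv ℝ φ z 1))
  have h4 := mul_le_mul_of_nonneg_right h2 (norm_nonneg (fderiv ℝ φ z I))
  linarith

private theorem lad_hold {φ : ℂ → ℂ} {a b : ℂ → ℂ} (hφ : Continuous φ) (ha : Continuous a)
    (hb : Continuous b) :
    eLpNorm (fun z => ‖φ z‖ * (‖a z‖ + ‖b z‖)) 1 ≤
      eLpNorm φ 2 * (eLpNorm a 2 + eLpNorm b 2) := by
  have h1 := eLpNorm_smul_le_mul_eLpNorm (μ := (volume : Measure ℂ)) (p := 2) (q := 2) (r := 1)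
    (f := fun z => ‖a z‖ + ‖b z‖) (ha.norm.add hb.norm).aestronglyMeasurable
    (φ := fun z => ‖φ z‖) hφ.norm.aestronglyMeasurable
  refine le_trans h1 ?_
  rw [eLpNorm_norm]
  refine mul_le_mul_right ?_ _
  have h2 := eLpNorm_add_le (μ := (volume : Measure ℂ)) (p := 2) (f := fun z => ‖a z‖)
    (g := fun z => ‖b z‖) ha.norm.aestronglyMeasurable hb.norm.aestronglyMeasurable one_le_two
  rw [eLpNorm_norm, eLpNorm_norm] at h2
  exact h2

private theorem lad_ddc {φ : ℂ → ℂ} (h : ContDiff ℝ 1 φ) (e : ℂ) : Continuous (dd e φ) :=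
  (h.continuous_fderiv (by simp)).clm_apply continuous_const

theorem gns_mul : ∃ C : ℝ≥0, ∀ φ η : ℂ → ℂ, ContDiff ℝ 1 φ → HasCompactSupport φ →
    ContDiff ℝ 1 η → HasCompactSupport η →
    eLpNorm (fun z => φ z * η z) 2 ≤ C * ((eLpNorm (dd 1 φ) 2 + eLpNorm (dd I φ) 2) * eLpNorm η 2 +
      eLpNorm φ 2 * (eLpNorm (dd 1 η) 2 + eLpNorm (dd I η) 2)) := by
  obtain ⟨C, hC⟩ := gns
  refine ⟨C, fun φ η h1 h2 h3 h4 => ?_⟩
  refine le_trans (hC (fun z => φ z * η z) (h1.mul h3) h2.mul_right) ?_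
  refine mul_le_mul_right ?_ _
  have hb : ∀ z, ‖fderiv ℝ (fun z => φ z * η z) z‖ ≤
      ‖‖η z‖ * (‖dd 1 φ z‖ + ‖dd I φ z‖) + ‖φ z‖ * (‖dd 1 η z‖ + ‖dd I η z‖)‖ := by
    intro z
    have d1 : DifferentiableAt ℝ φ z := (h1.differentiable (by simp)) z
    have d2 : DifferentiableAt ℝ η z := (h3.differentiable (by simp)) z
    rw [fderiv_fun_mul d1 d2, Real.norm_eq_abs, abs_of_nonneg (by positivity)]
    refine le_trans (norm_add_le _ _) ?_
    rw [norm_smul, norm_smul]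
    have g1 := mul_le_mul_of_nonneg_left (lad_dd η z) (norm_nonneg (φ z))
    have g2 := mul_le_mul_of_nonneg_left (lad_dd φ z) (norm_nonneg (η z))
    linarith
  refine le_trans (eLpNorm_mono hb) ?_
  have c1 : Continuous fun z => ‖η z‖ * (‖dd 1 φ z‖ + ‖dd I φ z‖) :=
    h3.continuous.norm.mul ((lad_ddc h1 1).norm.add (lad_ddc h1 I).norm)
  have c2 : Continuous fun z => ‖φ z‖ * (‖dd 1 η z‖ + ‖dd I η z‖) :=
    h1.continuous.norm.mul ((lad_ddc h3 1).norm.add (lad_ddc h3 I).norm)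
  refine le_trans (eLpNorm_add_le (μ := (volume : Measure ℂ)) (p := 1)
    (f := fun z => ‖η z‖ * (‖dd 1 φ z‖ + ‖dd I φ z‖))
    (g := fun z => ‖φ z‖ * (‖dd 1 η z‖ + ‖dd I η z‖)) c1.aestronglyMeasurable
    c2.aestronglyMeasurable le_rfl) ?_
  refine add_le_add ?_ ?_
  · rw [mul_comm]
    exact lad_hold h3.continuous (lad_ddc h1 1) (lad_ddc h1 I)
  · exact lad_hold h1.continuous (lad_ddc h3 1) (lad_ddc h3 I)

private theorem lad_mem {a : ℂ → ℂ} (h : L2l a) (R : ℝ)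
    (hz : ∀ z, z ∉ closedBall (0 : ℂ) R → a z = 0) : MemLp a 2 := by
  have h1 := (memLp_indicator_iff_restrict (μ := (volume : Measure ℂ)) (p := 2) (f := a)
    (measurableSet_closedBall (x := (0 : ℂ)) (ε := R))).2 (h R)
  have h2 : (closedBall (0 : ℂ) R).indicator a = a := by
    funext z
    by_cases hz1 : z ∈ closedBall (0 : ℂ) R
    · rw [Set.indicator_of_mem hz1]
    · rw [Set.indicator_of_notMem hz1, hz z hz1]
  rw [h2] at h1
  exact h1

private theorem lad_fd {ψ : ℂ → ℝ} (hψ : Tst ψ) (z e : ℂ) :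
    dd e (fun z => (ψ z : ℂ)) z = ((fderiv ℝ ψ z e : ℝ) : ℂ) := by
  have h1 : DifferentiableAt ℝ ψ z := hψ.smooth.contDiffAt.differentiableAt (by simp)
  have h2 : HasFDerivAt (fun z => (ψ z : ℂ)) (Complex.ofRealCLM.comp (fderiv ℝ ψ z)) z :=
    Complex.ofRealCLM.hasFDerivAt.comp z h1.hasFDerivAt
  unfold dd
  rw [h2.fderiv]
  rfl

theorem cut_H1 {χ : ℂ → ℝ} (hχ : Tst χ) (hu : HS 1 u) : ∃ a1 a2 : ℂ → ℂ, MemLp (fun z => (χ z : ℂ) * u z) 2 ∧
    MemLp a1 2 ∧ MemLp a2 2 ∧ WD1 (fun z => (χ z : ℂ) * u z) a1 ∧ WD2 (fun z => (χ z : ℂ) * u z) a2 := by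
  obtain ⟨hL, ⟨u1, h1, k1⟩, ⟨u2, h2, k2⟩⟩ := hu
  have k1' : L2l u1 := k1
  have k2' : L2l u2 := k2
  obtain ⟨R, M, hR, hM, hz, _⟩ := hχ.bd
  have hc : ContDiff ℝ ∞ (fun z => (χ z : ℂ)) :=
    Complex.ofRealCLM.contDiff.comp hχ.smooth
  have hc1 : ContDiff ℝ 1 (fun z => (χ z : ℂ)) := hc.of_le (by exact_mod_cast le_top)
  have b0 : Bdl (fun z => (χ z : ℂ)) := bdl_cont hc.continuous
  have b1 : Bdl (dd 1 (fun z => (χ z : ℂ))) := bdl_cont (lad_ddc hc1 1)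
  have b2 : Bdl (dd I (fun z => (χ z : ℂ))) := bdl_cont (lad_ddc hc1 I)
  have hcst : ContDiff ℝ 1 (fun _ : ℂ => (0 : ℂ)) := contDiff_const
  have w1 : WD1 (fun z => (χ z : ℂ)) (dd 1 (fun z => (χ z : ℂ))) := by
    refine wdiv_congr (wdiv_smooth hc1 hcst) (ae_of_all _ fun z => rfl) (ae_of_all _ fun z => rfl)
      (ae_of_all _ fun z => ?_)
    have : dd I (fun _ : ℂ => (0 : ℂ)) z = 0 := by
      unfold dd
      simp
    show dd 1 (fun z => (χ z : ℂ)) z + dd I (fun _ : ℂ => (0 : ℂ)) z = _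
    rw [this, add_zero]
  have w2 : WD2 (fun z => (χ z : ℂ)) (dd I (fun z => (χ z : ℂ))) := by
    refine wdiv_congr (wdiv_smooth hcst hc1) (ae_of_all _ fun z => rfl) (ae_of_all _ fun z => rfl)
      (ae_of_all _ fun z => ?_)
    have : dd 1 (fun _ : ℂ => (0 : ℂ)) z = 0 := by
      unfold dd
      simp
    show dd 1 (fun _ : ℂ => (0 : ℂ)) z + dd I (fun z => (χ z : ℂ)) z = _
    rw [this, zero_add]
  refine ⟨fun z => dd 1 (fun z => (χ z : ℂ)) z * u z + (χ z : ℂ) * u1 z,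
    fun z => dd I (fun z => (χ z : ℂ)) z * u z + (χ z : ℂ) * u2 z, ?_, ?_, ?_,
    wd1_mul b0.l2 b1.l2 b2.l2 w1 w2 hL k1' h1, wd2_mul b0.l2 b1.l2 b2.l2 w1 w2 hL k2' h2⟩
  · refine lad_mem (b0.mul_l2 hL) R fun z hzR => ?_
    rw [(hz z hzR).1]
    simp
  · refine lad_mem ((b1.mul_l2 hL).add (b0.mul_l2 k1')) R fun z hzR => ?_
    rw [lad_fd hχ, (hz z hzR).1, (hz z hzR).2]
    simp
  · refine lad_mem ((b2.mul_l2 hL).add (b0.mul_l2 k2')) R fun z hzR => ?_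
    rw [lad_fd hχ, (hz z hzR).1, (hz z hzR).2]
    simp

theorem hs_mul0 (hu : HS 1 u) (hv : HS 1 v) : L2l (fun z => u z * v z) := by
  intro R
  obtain ⟨χ, hχ, _, hχ1, hχ0⟩ := exists_cut (max R 0) (le_max_right _ _)
  obtain ⟨a1, a2, ha, ha1, ha2, wa1, wa2⟩ := cut_H1 hχ hu
  obtain ⟨b1, b2, hb, hb1, hb2, wb1, wb2⟩ := cut_H1 hχ hv
  obtain ⟨C, hC⟩ := gns_mul
  have toL : ∀ {f : ℂ → ℂ}, MemLp f 2 → L1l f := fun {f} hf =>
    L2l.l1 (fun R => hf.restrict _)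
  obtain ⟨a, hadef⟩ : ∃ a : ℂ → ℂ, a = fun z => (χ z : ℂ) * u z := ⟨_, rfl⟩
  obtain ⟨b, hbdef⟩ : ∃ b : ℂ → ℂ, b = fun z => (χ z : ℂ) * v z := ⟨_, rfl⟩
  rw [← hadef] at ha wa1 wa2
  rw [← hbdef] at hb wb1 wb2
  have za : ∀ z, z ∉ closedBall (0 : ℂ) (max R 0 + 3 / 4) → a z = 0 := fun z hz => by
    rw [hadef]
    simp only [hχ0 z hz, Complex.ofReal_zero, zero_mul]
  have zb : ∀ z, z ∉ closedBall (0 : ℂ) (max R 0 + 3 / 4) → b z = 0 := fun z hz => by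
    rw [hbdef]
    simp only [hχ0 z hz, Complex.ofReal_zero, zero_mul]
  have sa : ∀ n, ContDiff ℝ 1 (mol n a) := fun n =>
    (mol_smooth n (toL ha)).of_le (by exact_mod_cast le_top)
  have sb : ∀ n, ContDiff ℝ 1 (mol n b) := fun n =>
    (mol_smooth n (toL hb)).of_le (by exact_mod_cast le_top)
  have ca : ∀ n, HasCompactSupport (mol n a) := fun n =>
    HasCompactSupport.intro (isCompact_closedBall (0 : ℂ) (max R 0 + 3 / 4 + 1))
      (fun z hz => mol_supp n za z hz)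
  have cb : ∀ n, HasCompactSupport (mol n b) := fun n =>
    HasCompactSupport.intro (isCompact_closedBall (0 : ℂ) (max R 0 + 3 / 4 + 1))
      (fun z hz => mol_supp n zb z hz)
  have da1 : ∀ n, dd 1 (mol n a) = mol n a1 := fun n => funext fun z =>
    mol_d1 n (toL ha) (toL ha1) wa1 z
  have da2 : ∀ n, dd I (mol n a) = mol n a2 := fun n => funext fun z =>
    mol_d2 n (toL ha) (toL ha2) wa2 z
  have db1 : ∀ n, dd 1 (mol n b) = mol n b1 := fun n => funext fun z =>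
    mol_d1 n (toL hb) (toL hb1) wb1 z
  have db2 : ∀ n, dd I (mol n b) = mol n b2 := fun n => funext fun z =>
    mol_d2 n (toL hb) (toL hb2) wb2 z
  obtain ⟨B, hB⟩ : ∃ B : ℝ≥0∞, B = C * ((eLpNorm a1 2 + eLpNorm a2 2) * eLpNorm b 2 +
      eLpNorm a 2 * (eLpNorm b1 2 + eLpNorm b2 2)) := ⟨_, rfl⟩
  have hBt : B < ⊤ := by
    rw [hB]
    refine ENNReal.mul_lt_top ENNReal.coe_lt_top (ENNReal.add_lt_top.2 ⟨?_, ?_⟩)
    · exact ENNReal.mul_lt_top (ENNReal.add_lt_top.2 ⟨ha1.2, ha2.2⟩) hb.2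
    · exact ENNReal.mul_lt_top ha.2 (ENNReal.add_lt_top.2 ⟨hb1.2, hb2.2⟩)
  have hbd : ∀ n, eLpNorm (fun z => mol n a z * mol n b z) 2 ≤ B := by
    intro n
    refine le_trans (hC (mol n a) (mol n b) (sa n) (ca n) (sb n) (cb n)) ?_
    rw [hB, da1, da2, db1, db2]
    refine mul_le_mul_right (add_le_add ?_ ?_) _
    · exact mul_le_mul' (add_le_add (mol_young n ha1).2 (mol_young n ha2).2) (mol_young n hb).2
    · exact mul_le_mul' (mol_young n ha).2 (add_le_add (mol_young n hb1).2 (mol_young n hb2).2)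
  have hlim : ∀ᵐ z, Tendsto (fun n => mol n a z * mol n b z) atTop (𝓝 (a z * b z)) := by
    filter_upwards [mol_ae (toL ha), mol_ae (toL hb)] with z k1 k2
    exact k1.mul k2
  have hfat : eLpNorm (fun z => a z * b z) 2 ≤ B := by
    have h1 := Lp.eLpNorm_lim_le_liminf_eLpNorm (μ := (volume : Measure ℂ)) (p := 2)
      (f := fun n z => mol n a z * mol n b z)
      (fun n => ((sa n).continuous.mul (sb n).continuous).aestronglyMeasurable)
      (fun z => a z * b z) hlim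
    refine le_trans h1 ?_
    refine le_trans (liminf_le_liminf (Eventually.of_forall hbd)) ?_
    exact (liminf_const B).le
  have hmem : MemLp (fun z => a z * b z) 2 := ⟨ha.1.mul hb.1, lt_of_le_of_lt hfat hBt⟩
  refine (memLp_congr_ae ?_).1 (hmem.restrict (closedBall (0 : ℂ) R))
  rw [Filter.EventuallyEq, ae_restrict_iff' measurableSet_closedBall]
  refine ae_of_all _ fun z hz => ?_
  have hz1 : z ∈ closedBall (0 : ℂ) (max R 0 + 1 / 4) := by
    refine closedBall_subset_closedBall ?_ hz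
    have := le_max_left R 0
    linarith
  rw [hadef, hbdef]
  simp only [hχ1 z hz1, Complex.ofReal_one, one_mul]

end O3R
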