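import Pool.Agent.GO3.R.Bas3

/-!
# Part R, module Mol1: mollification (helper30)

PROOFS.
* `mol_eq`: `convolution_eq_swap`.
* `mol_smooth`: `HasCompactSupport.contDiff_convolution_left` with `(bmp n).contDiff_normed`,
  `(bmp n).hasCompactSupport_normed`, `hu.loc`.
* `mol_div`: `HasCompactSupport.hasFDerivAt_convolution_left` (derivative of the convolution = convolution with the
  derivative `∂_e ρ_n` of `ρ_n`), so `∂₁ (mol X) z + ∂₂ (mol Y) z = ∫ (∂₁ρ_n (z - ζ) X ζ + ∂₂ρ_n (z - ζ) Y ζ) dζ`, and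
  `ψ ζ = ρ_n (z - ζ)` is a test function with `∂_eψ ζ = -∂_eρ_n (z - ζ)`; so this is `∫ ψ g = mol g z`.
* `mol_add`, `mol_cmul`: linearity of the integral (integrability: `ρ_n (z - ·)` is a test function, `Tst.int`).
* `mol_congr`: `integral_congr_ae`.
* `mol_ae`: `ContDiffBump.ae_convolution_tendsto_right_of_locallyIntegrable` with `K = 2`.
* `mol_bound`: `∫ ρ_n = 1`, `ρ_n ≥ 0`, `ρ_n (z - ζ) ≠ 0` only for `|z - ζ| < 1/(n+2) ≤ 1`, so only for `ζ ∈ closedBall 0 (R + 1)`.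
* `mol_supp`: the same remark.
-/

open MeasureTheory Filter Topology Complex Metric
open scoped ContDiff ENNReal NNReal Convolution

noncomputable section

namespace O3R

variable {u v X Y g : ℂ → ℂ}

/-- Bump functions shrinking to the origin. -/
def bmp (n : ℕ) : ContDiffBump (0 : ℂ) :=
  ⟨1 / (2 * ((n : ℝ) + 2)), 1 / ((n : ℝ) + 2), by positivity, by
    rw [div_lt_div_iff_of_pos_left one_pos (by positivity) (by positivity)]
    linarith [(Nat.cast_nonneg n : (0 : ℝ) ≤ n)]⟩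

/-- Mollification. -/
def mol (n : ℕ) (u : ℂ → ℂ) : ℂ → ℂ :=
  (bmp n).normed volume ⋆[ContinuousLinearMap.lsmul ℝ ℝ, volume] u

private theorem rho_cd (n : ℕ) : ContDiff ℝ ∞ ((bmp n).normed (volume : Measure ℂ)) :=
  (bmp n).contDiff_normed

private theorem rho_cs (n : ℕ) : HasCompactSupport ((bmp n).normed (volume : Measure ℂ)) :=
  (bmp n).hasCompactSupport_normed

private theorem rho_zero (n : ℕ) {w : ℂ} (hw : 1 ≤ ‖w‖) : (bmp n).normed volume w = 0 := by
  by_contra h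
  have h1 : w ∈ Function.support ((bmp n).normed (volume : Measure ℂ)) := h
  rw [(bmp n).support_normed_eq, mem_ball_zero_iff] at h1
  have h2 : (bmp n).rOut = 1 / ((n : ℝ) + 2) := rfl
  rw [h2] at h1
  have h3 : 1 / ((n : ℝ) + 2) ≤ 1 := by
    rw [div_le_one (by positivity)]
    linarith [(Nat.cast_nonneg n : (0 : ℝ) ≤ n)]
  linarith

private theorem tst_rho (n : ℕ) (z : ℂ) : Tst (fun ζ => (bmp n).normed volume (z - ζ)) := by
  refine ⟨(rho_cd n).comp (contDiff_const.sub contDiff_id), ?_⟩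
  have h := (rho_cs n).comp_homeomorph (Homeomorph.subLeft z)
  exact h

private theorem dr_rho (n : ℕ) (z e ζ : ℂ) :
    dr e (fun ζ => (bmp n).normed volume (z - ζ)) ζ =
      -dr e ((bmp n).normed (volume : Measure ℂ)) (z - ζ) := by
  have h1 : HasFDerivAt ((bmp n).normed (volume : Measure ℂ))
      (fderiv ℝ ((bmp n).normed (volume : Measure ℂ)) (z - ζ)) (z - ζ) :=
    (((rho_cd n).differentiable (by simp)) (z - ζ)).hasFDerivAt
  have h2 : HasFDerivAt (fun ζ : ℂ => z - ζ) (-(ContinuousLinearMap.id ℝ ℂ)) ζ :=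
    (hasFDerivAt_id ζ).const_sub z
  have h3 := h1.comp ζ h2
  unfold dr
  have h4 : fderiv ℝ (fun ζ => (bmp n).normed (volume : Measure ℂ) (z - ζ)) ζ =
      (fderiv ℝ ((bmp n).normed (volume : Measure ℂ)) (z - ζ)).comp
        (-(ContinuousLinearMap.id ℝ ℂ)) := h3.fderiv
  rw [h4]
  simp

theorem mol_eq (n : ℕ) (u : ℂ → ℂ) (z : ℂ) :
    mol n u z = ∫ ζ, ((bmp n).normed volume (z - ζ) : ℂ) * u ζ := by
  unfold mol
  rw [convolution_lsmul_swap]
  refine integral_congr_ae (ae_of_all _ fun ζ => ?_)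
  exact Complex.real_smul

theorem mol_smooth (n : ℕ) (hu : L1l u) : ContDiff ℝ ∞ (mol n u) := by
  unfold mol
  exact (rho_cs n).contDiff_convolution_left _ (rho_cd n) hu.loc

private theorem mol_dd (n : ℕ) (hu : L1l u) (e z : ℂ) :
    dd e (mol n u) z = ∫ ζ, dr e ((bmp n).normed (volume : Measure ℂ)) (z - ζ) * u ζ := by
  have h1 := (rho_cs n).hasFDerivAt_convolution_left
    (ContinuousLinearMap.lsmul ℝ ℝ : ℝ →L[ℝ] ℂ →L[ℝ] ℂ)
    ((rho_cd n).of_le (by exact_mod_cast le_top)) hu.loc z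
  unfold dd
  have h2 : fderiv ℝ (mol n u) z = _ := h1.fderiv
  rw [h2, convolution_eq_swap]
  have h3 : Integrable (fun ζ => ((ContinuousLinearMap.lsmul ℝ ℝ : ℝ →L[ℝ] ℂ →L[ℝ] ℂ).precompL ℂ)
      (fderiv ℝ ((bmp n).normed (volume : Measure ℂ)) (z - ζ)) (u ζ)) := by
    have h4 := ((rho_cs n).fderiv ℝ).convolutionExists_left
      ((ContinuousLinearMap.lsmul ℝ ℝ : ℝ →L[ℝ] ℂ →L[ℝ] ℂ).precompL ℂ)
      ((rho_cd n).continuous_fderiv (by simp)) hu.loc
    exact (h4 z).integrable_swap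
  rw [ContinuousLinearMap.integral_apply h3]
  refine integral_congr_ae (ae_of_all _ fun ζ => ?_)
  exact Complex.real_smul

theorem mol_div (n : ℕ) (hX : L1l X) (hY : L1l Y) (hg : L1l g) (h : WDiv X Y g) (z : ℂ) :
    dd 1 (mol n X) z + dd I (mol n Y) z = mol n g z := by
  have h1 := h _ (tst_rho n z)
  rw [mol_dd n hX, mol_dd n hY, mol_eq]
  have i1 := (tst_rho n z).int1 hX 1
  have i2 := (tst_rho n z).int1 hY I
  rw [integral_add i1 i2] at h1
  simp only [dr_rho] at h1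
  have e1 : ∫ ζ, -dr 1 ((bmp n).normed (volume : Measure ℂ)) (z - ζ) * X ζ =
      -∫ ζ, dr 1 ((bmp n).normed (volume : Measure ℂ)) (z - ζ) * X ζ := by
    rw [← integral_neg]
    exact integral_congr_ae (ae_of_all _ fun ζ => neg_mul _ _)
  have e2 : ∫ ζ, -dr I ((bmp n).normed (volume : Measure ℂ)) (z - ζ) * Y ζ =
      -∫ ζ, dr I ((bmp n).normed (volume : Measure ℂ)) (z - ζ) * Y ζ := by
    rw [← integral_neg]
    exact integral_congr_ae (ae_of_all _ fun ζ => neg_mul _ _)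
  rw [e1, e2] at h1
  linear_combination -h1

theorem mol_zero (n : ℕ) : mol n (fun _ => 0) = fun _ => 0 := by
  funext z
  rw [mol_eq]
  simp

theorem mol_d1 (n : ℕ) (hu : L1l u) (hv : L1l v) (h : WD1 u v) (z : ℂ) :
    dd 1 (mol n u) z = mol n v z := by
  have h1 := mol_div n hu (bdl_const 0).l1 hv h z
  rw [mol_zero] at h1
  have h2 : dd I (fun _ : ℂ => (0 : ℂ)) z = 0 := by
    unfold dd
    simp
  rw [h2, add_zero] at h1
  exact h1

theorem mol_d2 (n : ℕ) (hu : L1l u) (hv : L1l v) (h : WD2 u v) (z : ℂ) :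
    dd I (mol n u) z = mol n v z := by
  have h1 := mol_div n (bdl_const 0).l1 hu hv h z
  rw [mol_zero] at h1
  have h2 : dd 1 (fun _ : ℂ => (0 : ℂ)) z = 0 := by
    unfold dd
    simp
  rw [h2, zero_add] at h1
  exact h1

theorem mol_add (n : ℕ) (hu : L1l u) (hv : L1l v) (z : ℂ) :
    mol n (fun z => u z + v z) z = mol n u z + mol n v z := by
  rw [mol_eq, mol_eq, mol_eq, ← integral_add ((tst_rho n z).int hu) ((tst_rho n z).int hv)]
  exact integral_congr_ae (ae_of_all _ fun ζ => mul_add _ _ _)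

theorem mol_cmul (n : ℕ) (c : ℂ) (u : ℂ → ℂ) (z : ℂ) : mol n (fun z => c * u z) z = c * mol n u z := by
  rw [mol_eq, mol_eq, ← integral_const_mul]
  exact integral_congr_ae (ae_of_all _ fun ζ => mul_left_comm _ _ _)

private theorem dd_cmul (c e z : ℂ) {f : ℂ → ℂ} (hf : DifferentiableAt ℝ f z) :
    dd e (fun z => c * f z) z = c * dd e f z := by
  unfold dd
  rw [fderiv_const_mul hf]
  rfl

theorem mol_dbar (n : ℕ) (hu : L1l u) (hv : L1l v) (h : WDb u v) (z : ℂ) :
    dbar (mol n u) z = mol n v z := by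
  have h0 : WDiv (fun z => (1 / 2 : ℂ) * u z) (fun z => (I / 2) * u z) v := by
    have e1 : (fun z => (1 / 2 : ℂ) * u z) = fun z => u z / 2 := by
      funext z
      ring
    have e2 : (fun z => (I / 2) * u z) = fun z => I * u z / 2 := by
      funext z
      ring
    rw [e1, e2]
    exact h
  have h1 := mol_div n (hu.cmul (1 / 2)) (hu.cmul (I / 2)) hv h0 z
  have e1 : mol n (fun z => (1 / 2 : ℂ) * u z) = fun z => (1 / 2 : ℂ) * mol n u z :=
    funext fun z => mol_cmul n _ u z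
  have e2 : mol n (fun z => (I / 2) * u z) = fun z => (I / 2) * mol n u z :=
    funext fun z => mol_cmul n _ u z
  have hd : DifferentiableAt ℝ (mol n u) z := ((mol_smooth n hu).differentiable (by simp)) z
  rw [e1, e2, dd_cmul _ _ _ hd, dd_cmul _ _ _ hd] at h1
  rw [← h1]
  unfold dbar
  ring

private theorem tendsto_rOut : Tendsto (fun n => (bmp n).rOut) atTop (𝓝 0) := by
  have h1 : Tendsto (fun n : ℕ => 1 / ((n : ℝ) + 1)) atTop (𝓝 0) :=
    tendsto_one_div_add_atTop_nhds_zero_nat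
  have h2 := (tendsto_add_atTop_iff_nat (f := fun n : ℕ => 1 / ((n : ℝ) + 1)) 1).2 h1
  refine h2.congr fun n => ?_
  change 1 / (((n + 1 : ℕ) : ℝ) + 1) = 1 / ((n : ℝ) + 2)
  push_cast
  ring

theorem mol_ae (hu : L1l u) : ∀ᵐ z, Tendsto (fun n => mol n u z) atTop (𝓝 (u z)) := by
  refine ContDiffBump.ae_convolution_tendsto_right_of_locallyIntegrable (K := 2) tendsto_rOut ?_
    hu.loc
  refine Eventually.of_forall fun n => le_of_eq ?_
  change 1 / ((n : ℝ) + 2) = 2 * (1 / (2 * ((n : ℝ) + 2)))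
  field_simp

theorem mol_bound (n : ℕ) {R M : ℝ} (h : ∀ᵐ z : ℂ, z ∈ closedBall (0 : ℂ) (R + 1) → ‖u z‖ ≤ M) (hu : L1l u)
    (z : ℂ) (hz : z ∈ closedBall (0 : ℂ) R) : ‖mol n u z‖ ≤ M := by
  rw [mol_eq]
  have i0 : Integrable (fun ζ => (bmp n).normed (volume : Measure ℂ) (z - ζ)) :=
    ((bmp n).integrable_normed (μ := volume)).comp_sub_left z
  have h1 : ∀ᵐ ζ : ℂ, ‖((bmp n).normed volume (z - ζ) : ℂ) * u ζ‖ ≤
      (bmp n).normed (volume : Measure ℂ) (z - ζ) * M := by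
    filter_upwards [h] with ζ hζ
    rw [norm_mul, Complex.norm_real, Real.norm_of_nonneg ((bmp n).nonneg_normed _)]
    by_cases hb : ζ ∈ closedBall (0 : ℂ) (R + 1)
    · exact mul_le_mul_of_nonneg_left (hζ hb) ((bmp n).nonneg_normed _)
    · rw [rho_zero n, zero_mul, zero_mul]
      rw [mem_closedBall_zero_iff] at hb hz
      have := norm_sub_norm_le ζ z
      rw [norm_sub_rev] at this
      linarith
  refine (norm_integral_le_of_norm_le (i0.mul_const M) h1).trans (le_of_eq ?_)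
  rw [integral_mul_const, integral_sub_left_eq_self, (bmp n).integral_normed, one_mul]

theorem mol_supp (n : ℕ) {R : ℝ} (h : ∀ z : ℂ, z ∉ closedBall (0 : ℂ) R → u z = 0) (z : ℂ)
    (hz : z ∉ closedBall (0 : ℂ) (R + 1)) : mol n u z = 0 := by
  rw [mol_eq]
  refine integral_eq_zero_of_ae (ae_of_all _ fun ζ => ?_)
  change ((bmp n).normed volume (z - ζ) : ℂ) * u ζ = 0
  by_cases hb : ζ ∈ closedBall (0 : ℂ) R
  · rw [rho_zero n]
    · simp
    · rw [mem_closedBall_zero_iff] at hb hz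
      have := norm_sub_norm_le z ζ
      linarith
  · rw [h ζ hb, mul_zero]

/-- Mollification in a ball depends only on the function in the ball enlarged by one. -/
theorem mol_local (n : ℕ) {R : ℝ} (h : ∀ z : ℂ, z ∈ closedBall (0 : ℂ) (R + 1) → u z = v z) (z : ℂ)
    (hz : z ∈ closedBall (0 : ℂ) R) : mol n u z = mol n v z := by
  rw [mol_eq, mol_eq]
  refine integral_congr_ae (ae_of_all _ fun ζ => ?_)
  change ((bmp n).normed volume (z - ζ) : ℂ) * u ζ = ((bmp n).normed volume (z - ζ) : ℂ) * v ζ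
  by_cases hb : ζ ∈ closedBall (0 : ℂ) (R + 1)
  · rw [h ζ hb]
  · rw [rho_zero n]
    · simp
    · rw [mem_closedBall_zero_iff] at hb hz
      have := norm_sub_norm_le ζ z
      rw [norm_sub_rev] at this
      linarith

end O3R
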