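import Pool.Agent.GO3.R.Mol1

/-!
# Part R, module Mol2: convergence of mollifications in `L²` (helper30)

PROOFS.
* `mol_young`: with `ρ = (bmp n).normed`, `∫ ρ = 1`: Cauchy-Schwarz
  `‖mol n u z‖² ≤ ∫ ρ (z - ζ) ‖u ζ‖² dζ` and Tonelli (`lintegral_lintegral_swap`, translation invariance).  In extended
  nonnegative reals: `ENNReal.lintegral_mul_le_Lp_mul_Lq` with `p = q = 2`, or `ENNReal.inner_le_...`; any proof is fine.
* `mol_L2`: for `ε > 0` choose `g` continuous with compact support, `‖u - g‖₂ ≤ ε`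
  (`MemLp.exists_hasCompactSupport_eLpNorm_sub_le`); `mol n u - u = mol n (u - g) + (mol n g - g) + (g - u)`; the first and the
  third have norm at most `ε`.  `g` is uniformly continuous (`Continuous.uniformContinuous_of_tendsto_cocompact` or
  `HasCompactSupport.uniformContinuous_of_continuous`), `‖mol n g z - g z‖ ≤ sup_{|t| ≤ 1/(n+2)} ‖g (z - t) - g z‖` tends to zero
  uniformly, and `mol n g - g` vanishes outside a fixed ball.  (`mol n g - g` in the ball: `eLpNorm_le_of_ae_bound`.)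
* `mol_L2l`: `mol n u = mol n v` on `closedBall 0 R` for `v = indicator (closedBall 0 (R + 1)) u` (`mol_local`), and `v ∈ L²`;
  then `mol_L2` for `v`, restricted (`eLpNorm_mono_measure`).
* `tend_of_L2`: `|∫ ψ (V n - V) Y| ≤ M ‖V n - V‖_{L²(B_R)} ‖Y‖_{L²(B_R)}` for a test function (more generally a bounded function
  that vanishes outside `closedBall 0 R`) `ψ`.
-/

open MeasureTheory Filter Topology Complex Metric
open scoped ContDiff ENNReal NNReal Convolution

noncomputable section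

namespace O3R

variable {u v Y : ℂ → ℂ}

private theorem two_formula (μ : Measure ℂ) (f : ℂ → ℂ) :
    eLpNorm f 2 μ = (∫⁻ z, ‖f z‖ₑ ^ (2 : ℝ) ∂μ) ^ (1 / (2 : ℝ)) := by
  rw [eLpNorm_eq_lintegral_rpow_enorm_toReal two_ne_zero ENNReal.ofNat_ne_top]
  simp only [ENNReal.toReal_ofNat]

private theorem cs_le (μ : Measure ℂ) {f g : ℂ → ℝ≥0∞} (hf : AEMeasurable f μ)
    (hg : AEMeasurable g μ) :
    ∫⁻ z, f z * g z ∂μ ≤ (∫⁻ z, f z ^ (2 : ℝ) ∂μ) ^ (1 / (2 : ℝ)) *
      (∫⁻ z, g z ^ (2 : ℝ) ∂μ) ^ (1 / (2 : ℝ)) :=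
  ENNReal.lintegral_mul_le_Lp_mul_Lq μ Real.HolderConjugate.two_two hf hg

private theorem jensen (μ : Measure ℂ) {w f : ℂ → ℝ≥0∞} (hw : AEMeasurable w μ)
    (hf : AEMeasurable f μ) (h1 : ∫⁻ z, w z ∂μ = 1) :
    (∫⁻ z, w z * f z ∂μ) ^ (2 : ℝ) ≤ ∫⁻ z, w z * f z ^ (2 : ℝ) ∂μ := by
  have e0 : ∀ x : ℝ≥0∞, (x ^ (1 / (2 : ℝ))) ^ (2 : ℝ) = x := by
    intro x
    rw [← ENNReal.rpow_mul]
    norm_num
  have e1 : ∀ z, w z * f z = w z ^ (1 / (2 : ℝ)) * (w z ^ (1 / (2 : ℝ)) * f z) := by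
    intro z
    rw [← mul_assoc, ← ENNReal.rpow_add_of_nonneg _ _ (by norm_num) (by norm_num)]
    norm_num
  have hc := cs_le μ (f := fun z => w z ^ (1 / (2 : ℝ))) (g := fun z => w z ^ (1 / (2 : ℝ)) * f z)
    (hw.pow_const _) ((hw.pow_const _).mul hf)
  have e2 : ∫⁻ z, (w z ^ (1 / (2 : ℝ))) ^ (2 : ℝ) ∂μ = 1 := by
    rw [← h1]
    exact lintegral_congr fun z => e0 _
  have e3 : ∫⁻ z, (w z ^ (1 / (2 : ℝ)) * f z) ^ (2 : ℝ) ∂μ = ∫⁻ z, w z * f z ^ (2 : ℝ) ∂μ := by
    refine lintegral_congr fun z => ?_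
    rw [ENNReal.mul_rpow_of_nonneg _ _ (by norm_num), e0]
  rw [e2, e3, ENNReal.one_rpow, one_mul] at hc
  have e4 : ∫⁻ z, w z * f z ∂μ = ∫⁻ z, w z ^ (1 / (2 : ℝ)) * (w z ^ (1 / (2 : ℝ)) * f z) ∂μ :=
    lintegral_congr e1
  rw [e4]
  calc _ ≤ ((∫⁻ z, w z * f z ^ (2 : ℝ) ∂μ) ^ (1 / (2 : ℝ))) ^ (2 : ℝ) :=
        ENNReal.rpow_le_rpow hc (by norm_num)
    _ = _ := e0 _

private theorem l1_of (hu : MemLp u 2) : L1l u :=
  L2l.l1 fun _ => hu.restrict _

private theorem rho_lint (n : ℕ) :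
    ∫⁻ w, ENNReal.ofReal ((bmp n).normed (volume : Measure ℂ) w) = 1 := by
  rw [← ofReal_integral_eq_lintegral_ofReal ((bmp n).integrable_normed)
    (ae_of_all _ fun w => (bmp n).nonneg_normed w), (bmp n).integral_normed, ENNReal.ofReal_one]

theorem mol_young (n : ℕ) (hu : MemLp u 2) : MemLp (mol n u) 2 ∧ eLpNorm (mol n u) 2 ≤ eLpNorm u 2 := by
  have hm : Measurable (fun w : ℂ => ENNReal.ofReal ((bmp n).normed (volume : Measure ℂ) w)) :=
    ((bmp n).continuous_normed.measurable).ennreal_ofReal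
  have hue : AEMeasurable (fun z => ‖u z‖ₑ) volume := hu.aestronglyMeasurable.enorm
  have hle : eLpNorm (mol n u) 2 ≤ eLpNorm u 2 := by
    rw [two_formula, two_formula]
    refine ENNReal.rpow_le_rpow ?_ (by norm_num)
    have hpt : ∀ z, ‖mol n u z‖ₑ ^ (2 : ℝ) ≤
        ∫⁻ ζ, ENNReal.ofReal ((bmp n).normed (volume : Measure ℂ) (z - ζ)) * ‖u ζ‖ₑ ^ (2 : ℝ) := by
      intro z
      have h1 : ‖mol n u z‖ₑ ≤
          ∫⁻ ζ, ENNReal.ofReal ((bmp n).normed (volume : Measure ℂ) (z - ζ)) * ‖u ζ‖ₑ := by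
        rw [mol_eq]
        refine (enorm_integral_le_lintegral_enorm _).trans (le_of_eq ?_)
        refine lintegral_congr fun ζ => ?_
        rw [enorm_mul]
        congr 1
        rw [← ofReal_norm, Complex.norm_real,
          Real.norm_of_nonneg ((bmp n).nonneg_normed _)]
      refine (ENNReal.rpow_le_rpow h1 (by norm_num)).trans ?_
      refine jensen volume ?_ hue ?_
      · exact (hm.comp (measurable_const.sub measurable_id)).aemeasurable
      · rw [lintegral_sub_left_eq_self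
          (fun w => ENNReal.ofReal ((bmp n).normed (volume : Measure ℂ) w))]
        exact rho_lint n
    refine (lintegral_mono hpt).trans (le_of_eq ?_)
    rw [lintegral_lintegral_swap]
    · refine lintegral_congr fun ζ => ?_
      have hms : Measurable (fun z : ℂ =>
          ENNReal.ofReal ((bmp n).normed (volume : Measure ℂ) (z - ζ))) :=
        hm.comp (measurable_id.sub measurable_const)
      rw [lintegral_mul_const _ hms, lintegral_sub_right_eq_self
          (fun w => ENNReal.ofReal ((bmp n).normed (volume : Measure ℂ) w)), rho_lint, one_mul]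
    · refine AEMeasurable.mul ?_ ?_
      · exact (hm.comp (measurable_fst.sub measurable_snd)).aemeasurable
      · exact (hue.pow_const (2 : ℝ)).comp_snd
  exact ⟨⟨(mol_smooth n (l1_of hu)).continuous.aestronglyMeasurable,
    hle.trans_lt hu.eLpNorm_lt_top⟩, hle⟩

private theorem rOut_lt {η : ℝ} (hη : 0 < η) : ∀ᶠ n in atTop, (bmp n).rOut < η := by
  have h1 : Tendsto (fun n : ℕ => 1 / ((n : ℝ) + 1)) atTop (𝓝 0) :=
    tendsto_one_div_add_atTop_nhds_zero_nat
  filter_upwards [h1.eventually (gt_mem_nhds hη)] with n hn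
  have h2 : (bmp n).rOut = 1 / ((n : ℝ) + 2) := rfl
  rw [h2]
  refine lt_of_le_of_lt ?_ hn
  exact one_div_le_one_div_of_le (by positivity) (by linarith)

private theorem mol_unif {g : ℂ → ℂ} (hg : Continuous g) (hc : HasCompactSupport g) {δ : ℝ}
    (hδ : 0 < δ) : ∀ᶠ n in atTop, ∀ z, ‖mol n g z - g z‖ ≤ δ := by
  obtain ⟨η, hη, h⟩ := Metric.uniformContinuous_iff.1
    (hg.uniformContinuous_of_tendsto_cocompact (hc.is_zero_at_infty)) δ hδ
  filter_upwards [rOut_lt hη] with n hn z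
  rw [← dist_eq_norm]
  refine (bmp n).dist_normed_convolution_le hg.aestronglyMeasurable fun x hx => ?_
  exact (h (lt_trans (mem_ball.1 hx) hn)).le

private theorem mol_cont {g : ℂ → ℂ} (hg : Continuous g) (hc : HasCompactSupport g) :
    Tendsto (fun n => eLpNorm (fun z => mol n g z - g z) 2) atTop (𝓝 0) := by
  obtain ⟨R, hR⟩ := hc.isCompact.isBounded.subset_closedBall (0 : ℂ)
  have hz : ∀ z, z ∉ closedBall (0 : ℂ) R → g z = 0 := fun z hz =>
    image_eq_zero_of_notMem_tsupport fun h => hz (hR h)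
  obtain ⟨K, hK⟩ : ∃ K, K = (volume (closedBall (0 : ℂ) (R + 1))) ^ ((2 : ℝ≥0∞).toReal⁻¹) :=
    ⟨_, rfl⟩
  have hKt : K ≠ ⊤ := by
    rw [hK]
    refine ENNReal.rpow_ne_top_of_nonneg (by positivity) ?_
    exact measure_closedBall_lt_top.ne
  have hbd : ∀ δ : ℝ, 0 < δ → ∀ᶠ n in atTop,
      eLpNorm (fun z => mol n g z - g z) 2 ≤ K * ENNReal.ofReal δ := by
    intro δ hδ
    filter_upwards [mol_unif hg hc hδ] with n hn
    have e1 : (fun z => mol n g z - g z) =
        (closedBall (0 : ℂ) (R + 1)).indicator (fun z => mol n g z - g z) := by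
      funext z
      by_cases h : z ∈ closedBall (0 : ℂ) (R + 1)
      · rw [Set.indicator_of_mem h]
      · rw [Set.indicator_of_notMem h, mol_supp n hz z h, hz z
          (fun h' => h (closedBall_subset_closedBall (by linarith) h')), sub_zero]
    rw [e1, eLpNorm_indicator_eq_eLpNorm_restrict measurableSet_closedBall]
    refine (eLpNorm_le_of_ae_bound (C := δ) (ae_of_all _ hn)).trans (le_of_eq ?_)
    rw [hK, Measure.restrict_apply_univ]
  rw [ENNReal.tendsto_nhds_zero]
  intro ε hε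
  rcases eq_or_ne ε ⊤ with rfl | hεt
  · exact Eventually.of_forall fun n => le_top
  have hK1 : K + 1 ≠ 0 := by simp
  have hK1t : K + 1 ≠ ⊤ := ENNReal.add_ne_top.2 ⟨hKt, ENNReal.one_ne_top⟩
  have hq : ε / (K + 1) ≠ ⊤ := ENNReal.div_ne_top hεt hK1
  have hq0 : ε / (K + 1) ≠ 0 := (ENNReal.div_pos hε.ne' hK1t).ne'
  filter_upwards [hbd (ε / (K + 1)).toReal (ENNReal.toReal_pos hq0 hq)] with n hn
  refine hn.trans ?_
  rw [ENNReal.ofReal_toReal hq]
  calc K * (ε / (K + 1)) ≤ (K + 1) * (ε / (K + 1)) := by gcongr; exact le_self_add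
    _ = ε := ENNReal.mul_div_cancel hK1 hK1t

private theorem mol_split (n : ℕ) {g : ℂ → ℂ} (hu : MemLp u 2) (hgm : MemLp g 2) {ε : ℝ≥0∞}
    (h1 : eLpNorm (u - g) 2 volume ≤ ε) (h2 : eLpNorm (fun z => mol n g z - g z) 2 ≤ ε) :
    eLpNorm (fun z => mol n u z - u z) 2 ≤ ε + (ε + ε) := by
  have hug : MemLp (fun z => u z + (-1) * g z) 2 := hu.add (hgm.const_mul (-1))
  have e0 : (fun z => u z + (-1) * g z) = u - g := by
    funext z
    simp only [Pi.sub_apply]
    ring
  obtain ⟨A, hA⟩ : ∃ A, A = mol n (fun z => u z + (-1) * g z) := ⟨_, rfl⟩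
  obtain ⟨B, hB⟩ : ∃ B, B = fun z => mol n g z - g z := ⟨_, rfl⟩
  obtain ⟨C, hC⟩ : ∃ C, C = g - u := ⟨_, rfl⟩
  have hAle : eLpNorm A 2 ≤ ε := by
    rw [hA]
    refine ((mol_young n hug).2).trans ?_
    rw [e0]
    exact h1
  have hBle : eLpNorm B 2 ≤ ε := by
    rw [hB]
    exact h2
  have hCle : eLpNorm C 2 ≤ ε := by
    rw [hC, eLpNorm_sub_comm]
    exact h1
  have m1 : AEStronglyMeasurable A volume := by
    rw [hA]
    exact (mol_young n hug).1.aestronglyMeasurable
  have m2 : AEStronglyMeasurable B volume := by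
    rw [hB]
    exact (mol_young n hgm).1.aestronglyMeasurable.sub hgm.aestronglyMeasurable
  have m3 : AEStronglyMeasurable C volume := by
    rw [hC]
    exact hgm.aestronglyMeasurable.sub hu.aestronglyMeasurable
  have e1 : (fun z => mol n u z - u z) = A + (B + C) := by
    funext z
    rw [hA, hB, hC]
    simp only [Pi.add_apply, Pi.sub_apply]
    rw [mol_add n (l1_of hu) ((l1_of hgm).cmul (-1)), mol_cmul]
    ring
  rw [e1]
  refine (eLpNorm_add_le m1 (m2.add m3) one_le_two).trans (add_le_add hAle ?_)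
  exact (eLpNorm_add_le m2 m3 one_le_two).trans (add_le_add hBle hCle)

theorem mol_L2 (hu : MemLp u 2) : Tendsto (fun n => eLpNorm (fun z => mol n u z - u z) 2) atTop (𝓝 0) := by
  rw [ENNReal.tendsto_nhds_zero]
  intro ε hε
  have h3 : ε / 3 ≠ 0 := (ENNReal.div_pos hε.ne' (by norm_num)).ne'
  obtain ⟨g, hc, hle, hg, hgm⟩ := hu.exists_hasCompactSupport_eLpNorm_sub_le
    ENNReal.ofNat_ne_top h3
  filter_upwards [(ENNReal.tendsto_nhds_zero.1 (mol_cont hg hc)) (ε / 3) (pos_iff_ne_zero.2 h3)]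
    with n hn
  refine (mol_split n hu hgm hle hn).trans (le_of_eq ?_)
  rw [← add_assoc, ENNReal.add_thirds]

theorem mol_L2l (hu : L2l u) (R : ℝ) : Tendsto (fun n => eLpNorm (fun z => mol n u z - u z) 2
    (volume.restrict (closedBall 0 R))) atTop (𝓝 0) := by
  obtain ⟨v, hv⟩ : ∃ v, v = (closedBall (0 : ℂ) (R + 1)).indicator u := ⟨_, rfl⟩
  have hvm : MemLp v 2 := by
    rw [hv, memLp_indicator_iff_restrict measurableSet_closedBall]
    exact hu (R + 1)
  have huv : ∀ z ∈ closedBall (0 : ℂ) (R + 1), u z = v z := by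
    intro z hz
    rw [hv, Set.indicator_of_mem hz]
  refine tendsto_of_tendsto_of_tendsto_of_le_of_le tendsto_const_nhds (mol_L2 hvm)
    (fun n => zero_le) fun n => ?_
  have e1 : eLpNorm (fun z => mol n u z - u z) 2 (volume.restrict (closedBall 0 R)) =
      eLpNorm (fun z => mol n v z - v z) 2 (volume.restrict (closedBall 0 R)) := by
    refine eLpNorm_congr_ae ?_
    filter_upwards [ae_restrict_mem measurableSet_closedBall] with z hz
    rw [mol_local n huv z hz, huv z (closedBall_subset_closedBall (by linarith) hz)]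
  beta_reduce
  rw [e1]
  exact eLpNorm_mono_measure _ Measure.restrict_le_self

private theorem int_c {φ f : ℂ → ℂ} (hφ : Continuous φ) (hc : HasCompactSupport φ) (hf : L1l f) :
    Integrable (fun z => φ z * f z) := by
  obtain ⟨M, hM⟩ := hφ.bounded_above_of_compact_support hc
  obtain ⟨R, hR⟩ := hc.isCompact.isBounded.subset_closedBall (0 : ℂ)
  have hm : AEStronglyMeasurable (fun z => φ z * f z) volume :=
    hφ.aestronglyMeasurable.mul hf.ae
  have hI : IntegrableOn (fun z => φ z * f z) (closedBall 0 R) := by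
    refine Integrable.mono' ((hf R).norm.const_mul M) hm.restrict (Eventually.of_forall fun z => ?_)
    rw [norm_mul]
    exact mul_le_mul_of_nonneg_right (hM z) (norm_nonneg _)
  refine hI.integrable_of_forall_notMem_eq_zero fun z hz => ?_
  rw [image_eq_zero_of_notMem_tsupport (fun h => hz (hR h)), zero_mul]

/-- Passage to the limit in an integral. -/
theorem tend_of_L2 {V : ℕ → ℂ → ℂ} (hV : ∀ n, L2l (V n)) (hv : L2l v) (hY : L2l Y)
    (h : ∀ R : ℝ, Tendsto (fun n => eLpNorm (fun z => V n z - v z) 2 (volume.restrict (closedBall 0 R)))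
      atTop (𝓝 0)) {φ : ℂ → ℂ} (hφ : Continuous φ) (hc : HasCompactSupport φ) :
    Tendsto (fun n => ∫ z, φ z * (V n z * Y z)) atTop (𝓝 (∫ z, φ z * (v z * Y z))) := by
  obtain ⟨M, hM⟩ := hφ.bounded_above_of_compact_support hc
  obtain ⟨R, hR⟩ := hc.isCompact.isBounded.subset_closedBall (0 : ℂ)
  have hz : ∀ z, z ∉ closedBall (0 : ℂ) R → φ z = 0 := fun z hz =>
    image_eq_zero_of_notMem_tsupport fun h => hz (hR h)
  have hYt : eLpNorm Y 2 (volume.restrict (closedBall 0 R)) ≠ ⊤ := (hY R).eLpNorm_ne_top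
  have hlim : Tendsto (fun n => ENNReal.ofReal M *
      (eLpNorm (fun z => V n z - v z) 2 (volume.restrict (closedBall 0 R)) *
        eLpNorm Y 2 (volume.restrict (closedBall 0 R)))) atTop (𝓝 0) := by
    have h1 := ENNReal.Tendsto.const_mul (a := ENNReal.ofReal M)
      (ENNReal.Tendsto.mul_const (h R) (Or.inr hYt)) (Or.inr ENNReal.ofReal_ne_top)
    simpa using h1
  rw [tendsto_iff_edist_tendsto_0]
  refine tendsto_of_tendsto_of_tendsto_of_le_of_le tendsto_const_nhds hlim (fun n => zero_le)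
    fun n => ?_
  beta_reduce
  rw [edist_eq_enorm_sub, ← integral_sub (int_c hφ hc ((hV n).mul hY)) (int_c hφ hc (hv.mul hY))]
  refine (enorm_integral_le_lintegral_enorm _).trans ?_
  have hpt : ∀ z, ‖φ z * (V n z * Y z) - φ z * (v z * Y z)‖ₑ ≤
      (closedBall (0 : ℂ) R).indicator
        (fun z => ENNReal.ofReal M * (‖V n z - v z‖ₑ * ‖Y z‖ₑ)) z := by
    intro z
    have e1 : φ z * (V n z * Y z) - φ z * (v z * Y z) = φ z * ((V n z - v z) * Y z) := by
      ring
    by_cases hb : z ∈ closedBall (0 : ℂ) R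
    · rw [Set.indicator_of_mem hb, e1, enorm_mul, enorm_mul]
      gcongr
      rw [← ofReal_norm]
      exact ENNReal.ofReal_le_ofReal (hM z)
    · rw [Set.indicator_of_notMem hb, e1, hz z hb, zero_mul, enorm_zero]
  refine (lintegral_mono hpt).trans ?_
  rw [lintegral_indicator measurableSet_closedBall]
  have m1 : AEMeasurable (fun z => ‖V n z - v z‖ₑ) (volume.restrict (closedBall (0 : ℂ) R)) :=
    ((hV n R).aestronglyMeasurable.sub (hv R).aestronglyMeasurable).enorm
  have m2 : AEMeasurable (fun z => ‖Y z‖ₑ) (volume.restrict (closedBall (0 : ℂ) R)) :=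
    (hY R).aestronglyMeasurable.enorm
  have m12 : AEMeasurable (fun z => ‖V n z - v z‖ₑ * ‖Y z‖ₑ)
      (volume.restrict (closedBall (0 : ℂ) R)) := m1.mul m2
  rw [lintegral_const_mul'' _ m12]
  refine mul_le_mul_right ?_ _
  refine (cs_le _ m1 m2).trans (le_of_eq ?_)
  rw [two_formula, two_formula]

end O3R
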