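import Pool.Agent.GO3.R.Mol2

/-!
# Part R, module Prod: product rules (helper30)

PROOFS.
* `wdiv_c`: real and imaginary part of `φ` are test functions; linearity (integrability `Tst.int`, `Tst.int1`).
* `wdiv_mul_bd`: let `ψ` be a test function and `U n = mol n u`, smooth.  `wdiv_c` with `φ = ψ U n`:
  `∫ ((∂₁ψ U n + ψ ∂₁(U n)) X + (∂₂ψ U n + ψ ∂₂(U n)) Y) = -∫ ψ U n g`, and `∂_k (U n) = mol n u_k` (`mol_d1`, `mol_d2`).  Limit `n → ∞`:
  terms with `∂_kψ U n`, `ψ U n g`: dominated convergence, `U n → u` almost everywhere (`mol_ae`) and `‖U n‖ ≤ M` on the support of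
  `ψ` (`mol_bound`), `X`, `Y`, `g` locally integrable; terms `ψ (mol n u_k) X`: `tend_of_L2` with `mol_L2l`.
  (`fderiv` of `z ↦ (ψ z : ℂ) * U n z`: `fderiv_mul`, `dd e φ z = dr e ψ z * U n z + ψ z * dd e (U n) z`.)
* `wdiv_mul_L2`: the same, with `tend_of_L2` for all terms.
-/

open MeasureTheory Filter Topology Complex Metric
open scoped ContDiff ENNReal NNReal Convolution

noncomputable section

namespace O3R

variable {u u1 u2 X Y g : ℂ → ℂ}

private theorem tst_re {φ : ℂ → ℂ} (hφ : ContDiff ℝ ∞ φ) (hc : HasCompactSupport φ) :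
    Tst (fun z => (φ z).re) :=
  ⟨Complex.reCLM.contDiff.comp hφ, hc.comp_left (g := Complex.re) rfl⟩

private theorem tst_im {φ : ℂ → ℂ} (hφ : ContDiff ℝ ∞ φ) (hc : HasCompactSupport φ) :
    Tst (fun z => (φ z).im) :=
  ⟨Complex.imCLM.contDiff.comp hφ, hc.comp_left (g := Complex.im) rfl⟩

private theorem dr_re {φ : ℂ → ℂ} (hφ : ContDiff ℝ ∞ φ) (e z : ℂ) :
    dr e (fun z => (φ z).re) z = (((dd e φ z).re : ℝ) : ℂ) := by
  have h1 : HasFDerivAt (fun z => (φ z).re) (Complex.reCLM.comp (fderiv ℝ φ z)) z :=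
    Complex.reCLM.hasFDerivAt.comp z ((hφ.differentiable (by simp)) z).hasFDerivAt
  unfold dr dd
  rw [h1.fderiv]
  rfl

private theorem dr_im {φ : ℂ → ℂ} (hφ : ContDiff ℝ ∞ φ) (e z : ℂ) :
    dr e (fun z => (φ z).im) z = (((dd e φ z).im : ℝ) : ℂ) := by
  have h1 : HasFDerivAt (fun z => (φ z).im) (Complex.imCLM.comp (fderiv ℝ φ z)) z :=
    Complex.imCLM.hasFDerivAt.comp z ((hφ.differentiable (by simp)) z).hasFDerivAt
  unfold dr dd
  rw [h1.fderiv]
  rfl

theorem wdiv_c (hX : L1l X) (hY : L1l Y) (hg : L1l g) (h : WDiv X Y g) {φ : ℂ → ℂ}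
    (hφ : ContDiff ℝ ∞ φ) (hc : HasCompactSupport φ) :
    ∫ z, (dd 1 φ z * X z + dd I φ z * Y z) = -∫ z, φ z * g z := by
  have ta := tst_re hφ hc
  have tb := tst_im hφ hc
  have ha := h _ ta
  have hb := h _ tb
  have e1 : ∀ z, dd 1 φ z * X z + dd I φ z * Y z =
      (dr 1 (fun z => (φ z).re) z * X z + dr I (fun z => (φ z).re) z * Y z) +
      I * (dr 1 (fun z => (φ z).im) z * X z + dr I (fun z => (φ z).im) z * Y z) := by
    intro z
    rw [dr_re hφ, dr_re hφ, dr_im hφ, dr_im hφ]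
    have k1 := Complex.re_add_im (dd 1 φ z)
    have k2 := Complex.re_add_im (dd I φ z)
    linear_combination (-X z) * k1 + (-Y z) * k2
  have e2 : ∀ z, φ z * g z = (((φ z).re : ℝ) : ℂ) * g z + I * ((((φ z).im : ℝ) : ℂ) * g z) := by
    intro z
    have k1 := Complex.re_add_im (φ z)
    linear_combination (-g z) * k1
  have ia : Integrable (fun z => dr 1 (fun z => (φ z).re) z * X z +
      dr I (fun z => (φ z).re) z * Y z) := (ta.int1 hX 1).add (ta.int1 hY I)
  have ib : Integrable (fun z => dr 1 (fun z => (φ z).im) z * X z +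
      dr I (fun z => (φ z).im) z * Y z) := (tb.int1 hX 1).add (tb.int1 hY I)
  rw [integral_congr_ae (ae_of_all _ e1), integral_congr_ae (ae_of_all _ e2),
    integral_add ia (ib.const_mul I), integral_add (ta.int hg) ((tb.int hg).const_mul I),
    integral_const_mul, integral_const_mul, ha, hb]
  ring

private theorem dd_mul {ψ : ℂ → ℝ} (hψ : Tst ψ) {U : ℂ → ℂ} (hU : ContDiff ℝ ∞ U) (e z : ℂ) :
    dd e (fun z => (ψ z : ℂ) * U z) z = dr e ψ z * U z + (ψ z : ℂ) * dd e U z := by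
  have h1 : HasFDerivAt (fun z => (ψ z : ℂ)) (Complex.ofRealCLM.comp (fderiv ℝ ψ z)) z :=
    Complex.ofRealCLM.hasFDerivAt.comp z ((hψ.smooth.differentiable (by simp)) z).hasFDerivAt
  have h2 : HasFDerivAt U (fderiv ℝ U z) z := ((hU.differentiable (by simp)) z).hasFDerivAt
  have h3 := h1.mul h2
  have h4 : fderiv ℝ (fun z => (ψ z : ℂ) * U z) z = _ := h3.fderiv
  unfold dd dr
  rw [h4]
  simp only [add_apply, smul_apply, smul_eq_mul, ContinuousLinearMap.comp_apply,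
    Complex.ofRealCLM_apply]
  ring

private theorem wdiv_core (hu : L2l u) (hu1 : L2l u1) (hu2 : L2l u2) (h1 : WD1 u u1)
    (h2 : WD2 u u2) (hX : L2l X) (hY : L2l Y) (hg : L1l g) (h : WDiv X Y g)
    (hug : L1l (fun z => u z * g z)) {ψ : ℂ → ℝ} (hψ : Tst ψ)
    (hlim : Tendsto (fun n => ∫ z, (ψ z : ℂ) * (mol n u z * g z)) atTop
      (𝓝 (∫ z, (ψ z : ℂ) * (u z * g z)))) :
    ∫ z, (dr 1 ψ z * (u z * X z) + dr I ψ z * (u z * Y z)) =
      -∫ z, (ψ z : ℂ) * (u1 z * X z + u2 z * Y z + u z * g z) := by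
  have hψc : Continuous (fun z => (ψ z : ℂ)) :=
    Complex.continuous_ofReal.comp hψ.smooth.continuous
  have hψs : HasCompactSupport (fun z => (ψ z : ℂ)) :=
    hψ.supp.comp_left (g := Complex.ofReal) rfl
  have hdc : ∀ e : ℂ, Continuous (fun z => dr e ψ z) := fun e =>
    Complex.continuous_ofReal.comp ((hψ.smooth.continuous_fderiv (by simp)).clm_apply
      continuous_const)
  have hds : ∀ e : ℂ, HasCompactSupport (fun z => dr e ψ z) := fun e =>
    (hψ.supp.fderiv ℝ).comp_left (g := fun L : ℂ →L[ℝ] ℝ => ((L e : ℝ) : ℂ)) (by simp)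
  have bm : ∀ {v : ℂ → ℂ}, L2l v → ∀ n, Bdl (mol n v) := fun hv n =>
    bdl_cont (mol_smooth n hv.l1).continuous
  have key : ∀ n, (∫ z, dr 1 ψ z * (mol n u z * X z)) + (∫ z, dr I ψ z * (mol n u z * Y z)) +
      (∫ z, (ψ z : ℂ) * (mol n u1 z * X z)) + (∫ z, (ψ z : ℂ) * (mol n u2 z * Y z)) =
      -∫ z, (ψ z : ℂ) * (mol n u z * g z) := by
    intro n
    have hs := mol_smooth n hu.l1
    have k := wdiv_c hX.l1 hY.l1 hg h (φ := fun z => (ψ z : ℂ) * mol n u z)
      ((Complex.ofRealCLM.contDiff.comp hψ.smooth).mul hs) (hψs.mul_right)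
    have e1 : ∀ z, dd 1 (fun z => (ψ z : ℂ) * mol n u z) z * X z +
        dd I (fun z => (ψ z : ℂ) * mol n u z) z * Y z =
        (dr 1 ψ z * (mol n u z * X z) + dr I ψ z * (mol n u z * Y z)) +
        ((ψ z : ℂ) * (mol n u1 z * X z) + (ψ z : ℂ) * (mol n u2 z * Y z)) := by
      intro z
      rw [dd_mul hψ hs, dd_mul hψ hs, mol_d1 n hu.l1 hu1.l1 h1, mol_d2 n hu.l1 hu2.l1 h2]
      ring
    have e2 : ∀ z, (ψ z : ℂ) * mol n u z * g z = (ψ z : ℂ) * (mol n u z * g z) :=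
      fun z => mul_assoc _ _ _
    have i1 := hψ.int1 ((bm hu n).mul_l1 hX.l1) 1
    have i2 := hψ.int1 ((bm hu n).mul_l1 hY.l1) I
    have i3 := hψ.int ((bm hu1 n).mul_l1 hX.l1)
    have i4 := hψ.int ((bm hu2 n).mul_l1 hY.l1)
    have i12 : Integrable (fun z => dr 1 ψ z * (mol n u z * X z) +
        dr I ψ z * (mol n u z * Y z)) := i1.add i2
    have i34 : Integrable (fun z => (ψ z : ℂ) * (mol n u1 z * X z) +
        (ψ z : ℂ) * (mol n u2 z * Y z)) := i3.add i4
    rw [integral_congr_ae (ae_of_all _ e1), integral_congr_ae (ae_of_all _ e2),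
      integral_add i12 i34, integral_add i1 i2, integral_add i3 i4] at k
    rw [← k]
    ring
  have t1 := tend_of_L2 (V := fun n => mol n u) (fun n => (bm hu n).l2) hu hX
    (fun R => mol_L2l hu R) (hdc 1) (hds 1)
  have t2 := tend_of_L2 (V := fun n => mol n u) (fun n => (bm hu n).l2) hu hY
    (fun R => mol_L2l hu R) (hdc I) (hds I)
  have t3 := tend_of_L2 (V := fun n => mol n u1) (fun n => (bm hu1 n).l2) hu1 hX
    (fun R => mol_L2l hu1 R) hψc hψs
  have t4 := tend_of_L2 (V := fun n => mol n u2) (fun n => (bm hu2 n).l2) hu2 hY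
    (fun R => mol_L2l hu2 R) hψc hψs
  have hL := ((t1.add t2).add t3).add t4
  have hR := hlim.neg
  have hfin := tendsto_nhds_unique (hL.congr key) hR
  have j1 := hψ.int1 (hu.mul hX) 1
  have j2 := hψ.int1 (hu.mul hY) I
  have j3 := hψ.int (hu1.mul hX)
  have j4 := hψ.int (hu2.mul hY)
  have j5 := hψ.int hug
  have e3 : ∀ z, (ψ z : ℂ) * (u1 z * X z + u2 z * Y z + u z * g z) =
      ((ψ z : ℂ) * (u1 z * X z) + (ψ z : ℂ) * (u2 z * Y z)) + (ψ z : ℂ) * (u z * g z) := by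
    intro z
    ring
  have j34 : Integrable (fun z => (ψ z : ℂ) * (u1 z * X z) + (ψ z : ℂ) * (u2 z * Y z)) :=
    j3.add j4
  rw [integral_congr_ae (ae_of_all _ e3), integral_add j34 j5, integral_add j3 j4,
    integral_add j1 j2]
  linear_combination hfin

theorem wdiv_mul_bd (hu : Bdl u) (hu1 : L2l u1) (hu2 : L2l u2) (h1 : WD1 u u1) (h2 : WD2 u u2)
    (hX : L2l X) (hY : L2l Y) (hg : L1l g) (h : WDiv X Y g) :
    WDiv (fun z => u z * X z) (fun z => u z * Y z) (fun z => u1 z * X z + u2 z * Y z + u z * g z) := by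
  intro ψ hψ
  refine wdiv_core hu.l2 hu1 hu2 h1 h2 hX hY hg h (hu.mul_l1 hg) hψ ?_
  obtain ⟨R, Mψ, hR0, hM0, hz, hb⟩ := hψ.bd
  obtain ⟨M, hM⟩ := hu.2 (R + 1)
  refine tendsto_integral_of_dominated_convergence (fun z => M * ‖(ψ z : ℂ) * g z‖) ?_
    ((hψ.int hg).norm.const_mul M) ?_ ?_
  · intro n
    exact (hψ.int ((bdl_cont (mol_smooth n hu.l1).continuous).mul_l1 hg)).aestronglyMeasurable
  · intro n
    refine Eventually.of_forall fun z => ?_
    by_cases hbz : z ∈ closedBall (0 : ℂ) R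
    · have k := mol_bound n hM hu.l1 z hbz
      have e1 : (ψ z : ℂ) * (mol n u z * g z) = mol n u z * ((ψ z : ℂ) * g z) := by
        ring
      rw [e1, norm_mul]
      exact mul_le_mul_of_nonneg_right k (norm_nonneg _)
    · rw [(hz z hbz).1]
      simp
  · filter_upwards [mol_ae hu.l1] with z hzz
    exact (hzz.mul_const (g z)).const_mul (ψ z : ℂ)

theorem wdiv_mul_L2 (hu : L2l u) (hu1 : L2l u1) (hu2 : L2l u2) (h1 : WD1 u u1) (h2 : WD2 u u2)
    (hX : L2l X) (hY : L2l Y) (hg : L2l g) (h : WDiv X Y g) :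
    WDiv (fun z => u z * X z) (fun z => u z * Y z) (fun z => u1 z * X z + u2 z * Y z + u z * g z) := by
  intro ψ hψ
  refine wdiv_core hu hu1 hu2 h1 h2 hX hY hg.l1 h (hu.mul hg) hψ ?_
  refine tend_of_L2 (V := fun n => mol n u)
    (fun n => (bdl_cont (mol_smooth n hu.l1).continuous).l2) hu hg (fun R => mol_L2l hu R) ?_ ?_
  · exact Complex.continuous_ofReal.comp hψ.smooth.continuous
  · exact hψ.supp.comp_left (g := Complex.ofReal) rfl

end O3R
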