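import Pool.Agent.GO3.R.Defs
import Pool.Agent.O3R.RieszGen

/-!
# Part R, module Rz1: a Riesz potential of a measure with growth `> 1` is bounded (helper30)

Proved by helper85.
-/

open MeasureTheory Filter Topology Complex Metric
open scoped ContDiff ENNReal NNReal

noncomputable section

namespace O3R

theorem Gr.all {g : ℂ → ℝ≥0∞} {M : ℝ≥0∞} {s : ℝ} (h : Gr g M s) (hs : 0 ≤ s) (p : ℂ) (r : ℝ) (hr : 0 < r) :
    ∫⁻ z in ball p r, g z ≤ M * ENNReal.ofReal (r ^ s) := by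
  rcases le_or_gt r 1 with h1 | h1
  · exact h.grow p r hr h1
  · calc ∫⁻ z in ball p r, g z ≤ ∫⁻ z, g z := setLIntegral_le_lintegral _ _
      _ ≤ M := h.tot
      _ = M * 1 := (mul_one M).symm
      _ ≤ M * ENNReal.ofReal (r ^ s) := by
        gcongr
        rw [← ENNReal.ofReal_one]
        exact ENNReal.ofReal_le_ofReal (Real.one_le_rpow h1.le hs)

theorem Ker_eq (z ζ : ℂ) : Ker z ζ = ENNReal.ofReal (dist ζ z ^ (-(1 : ℝ))) := by
  unfold Ker
  rw [Real.rpow_neg_one, dist_comm, dist_eq_norm]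

theorem Ker_meas (z : ℂ) : Measurable (Ker z) := by
  unfold Ker
  fun_prop

/-- the Riesz potential as an integral for the measure with density `g` -/
theorem Ip_eq {g : ℂ → ℝ≥0∞} (hg : AEMeasurable g volume) (z : ℂ) :
    Ip g z = ∫⁻ ζ, Ker z ζ ∂(volume.withDensity g) := by
  rw [lintegral_withDensity_eq_lintegral_mul₀ hg (Ker_meas z).aemeasurable]
  rfl

theorem rz_bdd {s : ℝ} (hs : 1 < s) : ∃ C : ℝ≥0, ∀ M : ℝ≥0∞, M ≠ ⊤ → ∀ g : ℂ → ℝ≥0∞, Gr g M s →
    ∀ z, Ip g z ≤ C * M := by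
  have hgeo : geo (s - 1) < ⊤ := geo_lt_top (by linarith)
  set c : ℝ≥0∞ := ENNReal.ofReal (2 ^ (1 : ℝ)) * geo (s - 1) + 1 with hc
  have hct : c ≠ ⊤ := by
    rw [hc]
    exact ENNReal.add_ne_top.mpr ⟨ENNReal.mul_ne_top ENNReal.ofReal_ne_top hgeo.ne,
      ENNReal.one_ne_top⟩
  refine ⟨c.toNNReal, fun M hM g hg z => ?_⟩
  rw [ENNReal.coe_toNNReal hct, Ip_eq hg.meas]
  set ν : Measure ℂ := volume.withDensity g with hν
  have hball : ∀ r, 0 < r → r ≤ 1 → ν (ball z r) ≤ M * ENNReal.ofReal (r ^ s) := by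
    intro r hr h1
    rw [hν, withDensity_apply _ measurableSet_ball]
    exact hg.grow z r hr h1
  have htot : ν Set.univ ≤ M := by
    rw [hν, withDensity_apply _ MeasurableSet.univ, Measure.restrict_univ]
    exact hg.tot
  rw [← lintegral_add_compl _ (measurableSet_ball (x := z) (ε := 1))]
  have h1 : ∫⁻ ζ in ball z 1, Ker z ζ ∂ν ≤ M * (ENNReal.ofReal (2 ^ (1 : ℝ)) * geo (s - 1)) := by
    have := near_le (ν := ν) (z := z) (R := 1) (a := 1) (s := s) one_pos zero_le_one hs hM hball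
    simp only [Real.one_rpow, ENNReal.ofReal_one, mul_one] at this
    refine (lintegral_congr fun ζ => ?_).le.trans this
    exact Ker_eq z ζ
  have h2 : ∫⁻ ζ in (ball z 1)ᶜ, Ker z ζ ∂ν ≤ M := by
    calc ∫⁻ ζ in (ball z 1)ᶜ, Ker z ζ ∂ν ≤ ∫⁻ ζ in (ball z 1)ᶜ, 1 ∂ν := by
          refine setLIntegral_mono' measurableSet_ball.compl fun ζ hζ => ?_
          unfold Ker
          rw [← ENNReal.ofReal_one]
          refine ENNReal.ofReal_le_ofReal ?_
          rw [Set.mem_compl_iff, mem_ball, not_lt, dist_comm, dist_eq_norm] at hζ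
          exact inv_le_one_of_one_le₀ hζ
      _ ≤ ν Set.univ := by
          rw [setLIntegral_one]
          exact measure_mono (Set.subset_univ _)
      _ ≤ M := htot
  calc _ ≤ M * (ENNReal.ofReal (2 ^ (1 : ℝ)) * geo (s - 1)) + M := add_le_add h1 h2
    _ = c * M := by rw [hc]; ring

end O3R
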